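import Pool.Agent.H72.BE.Def

/-!
# The finite part of the height of a matrix (MP_187c26_nt, Theorem VR+, S1 and S2)

`L` is an `𝓞 A`-submodule of `(𝓞 A)^κ` of finite index, `Y` a `κ × Ω` matrix over `A`, and `g Y` has integral entries for all `g ∈ L`.
Claim: `∏_v max_J |minor_J (Y)|_v ≤ index of L`.

PROOF. `κ = Fin n` (any enumeration; both sides are invariant). For `i < n` let `𝔞_i ⊂ 𝓞 A` be the ideal of all `g_i`, `g ∈ L` with
`g_j = 0` for `j > i`. Then `index L = ∏ i, absNorm 𝔞_i` (induction on `n`: the exact sequence `0 → L ∩ 𝓞^(n-1) → L → 𝔞_(n-1) → 0` in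
`0 → 𝓞^(n-1) → 𝓞^n → 𝓞 → 0`; only `∏ absNorm 𝔞_i ≤ index L`, `≠ 0`, is needed). Take `a_i ∈ 𝔞_i` and `g^(i) ∈ L` with last nonzero coordinate
`a_i` at `i`: the matrix `P` with rows `g^(i)` is triangular with determinant `∏ a_i`, and `P Y` has integral entries, so
`(∏ a_i) · minor_J (Y) = minor_J (P Y)` is integral. So for every finite place `v` and all `a_i ∈ 𝔞_i`:
`(∏ i, |a_i|_v) · |minor_J (Y)|_v ≤ 1`; hence `(∏ i, sup_(a ∈ 𝔞_i) |a|_v) · max_J |minor_J|_v ≤ 1`. The ideals are finitely generated; for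
generators `x` of `𝔞_i`: `sup |a|_v = max |x_j|_v` and `absNorm 𝔞_i * ∏_v max_j |x_j|_v = 1`
(`NumberField.absNorm_mul_finprod_finitePlace_eq_one`). Multiply: `∏_v max_J |minor_J|_v ≤ ∏_v ∏ i (max_j |x_j|_v)⁻¹ = ∏ absNorm 𝔞_i ≤ index`.
(If no minor is nonzero the left side is `∏ᶠ` of zeros: then it is `0` or, by the junk value of `∏ᶠ`, `1`: both are `≤ index`.)
-/

set_option autoImplicit false

open NumberField

namespace Pool.Agent.H72.BE

variable {A : Type} [Field A] [NumberField A] {κ Ω : Type} [Fintype κ] [Fintype Ω]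
  [DecidableEq κ]

/-- The product formula in the form used below. -/
theorem prod_formula (y : A) (hy : y ≠ 0) :
    (∏ t : A →+* ℂ, ‖t y‖) * ∏ᶠ v : FinitePlace A, v y = 1 := by
  have h1 : (∏ t : A →+* ℂ, ‖t y‖) = ∏ w : InfinitePlace A, w y ^ w.mult := by
    classical
    rw [← Finset.prod_fiberwise Finset.univ InfinitePlace.mk (fun φ : A →+* ℂ => ‖φ y‖)]
    refine Finset.prod_congr rfl fun w _ => ?_
    have h2 : ∀ φ ∈ Finset.univ.filter (fun φ : A →+* ℂ => InfinitePlace.mk φ = w), ‖φ y‖ = w y := by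
      intro φ hφ
      rw [← (Finset.mem_filter.mp hφ).2, InfinitePlace.apply]
    rw [Finset.prod_congr rfl h2, Finset.prod_const, InfinitePlace.card_filter_mk_eq]
  rw [h1]
  exact prod_abs_eq_one hy

private theorem sup_support {ι : Type*} [Finite ι] (x : ι → A) (i0 : ι) (h0 : x i0 ≠ 0) :
    (Function.mulSupport fun v : FinitePlace A => ⨆ i, v (x i)).Finite := by
  have h1 : (⋃ i : {i // x i ≠ 0}, Function.mulSupport fun v : FinitePlace A => v (x i.1)).Finite :=
    Set.finite_iUnion fun i => FinitePlace.hasFiniteMulSupport i.2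
  refine h1.subset fun v hv => ?_
  by_contra hn
  apply hv
  rw [Set.mem_iUnion, not_exists] at hn
  have h2 : ∀ i, x i ≠ 0 → v (x i) = 1 := fun i hi => by
    by_contra h3
    exact hn ⟨i, hi⟩ h3
  have : Nonempty ι := ⟨i0⟩
  refine le_antisymm (ciSup_le fun i => ?_) ?_
  · by_cases hi : x i = 0
    · rw [hi, map_zero]
      exact zero_le_one
    · exact (h2 i hi).le
  · calc (1 : ℝ) = v (x i0) := (h2 i0 h0).symm
      _ ≤ ⨆ i, v (x i) := le_ciSup (f := fun i => v (x i)) (Set.finite_range fun i => v (x i)).bddAbove i0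

private theorem finprod_le_one' {ι : Type*} (f : ι → ℝ) (h0 : ∀ i, 0 ≤ f i) (h1 : ∀ i, f i ≤ 1) :
    ∏ᶠ i, f i ≤ 1 := by
  by_cases h : (Function.mulSupport f).Finite
  · rw [finprod_eq_prod f h]
    exact Finset.prod_le_one (fun i _ => h0 i) fun i _ => h1 i
  · rw [finprod_of_infinite_mulSupport h]

/-- The determinants of the matrices with rows in `L`. -/
private def DL {κ : Type} [Fintype κ] [DecidableEq κ] {R : Type*} [CommRing R]
    (L : Submodule R (κ → R)) : Ideal R :=
  Ideal.span {x | ∃ P : Matrix κ κ R, (∀ k, P k ∈ L) ∧ x = P.det}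

/-- The inclusion of the vectors with first coordinate zero. -/
private def incl (R : Type*) [CommRing R] (n : ℕ) : (Fin n → R) →ₗ[R] (Fin (n + 1) → R) where
  toFun h := Fin.cons 0 h
  map_add' h h' := by
    funext i
    refine Fin.cases ?_ (fun i => ?_) i
    · simp
    · simp
  map_smul' c h := by
    funext i
    refine Fin.cases ?_ (fun i => ?_) i
    · simp
    · simp

private theorem incl_zero (R : Type*) [CommRing R] (n : ℕ) (h : Fin n → R) : incl R n h 0 = 0 := rfl

private theorem incl_succ (R : Type*) [CommRing R] (n : ℕ) (h : Fin n → R) (i : Fin n) :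
    incl R n h i.succ = h i := rfl

private theorem index_split {R : Type*} [CommRing R] (n : ℕ) (L : Submodule R (Fin (n + 1) → R)) :
    (L.comap (incl R n)).toAddSubgroup.index *
      (L.map (LinearMap.proj (0 : Fin (n + 1)))).toAddSubgroup.index = L.toAddSubgroup.index := by
  set H : AddSubgroup (Fin (n + 1) → R) := L.toAddSubgroup with hH
  set f : (Fin (n + 1) → R) →+ R :=
    ((LinearMap.proj (0 : Fin (n + 1)) : (Fin (n + 1) → R) →ₗ[R] R)).toAddMonoidHom with hf
  set g : (Fin n → R) →+ (Fin (n + 1) → R) := (incl R n).toAddMonoidHom with hg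
  have e1 : (L.comap (incl R n)).toAddSubgroup = H.comap g := rfl
  have e2 : (L.map (LinearMap.proj (0 : Fin (n + 1)))).toAddSubgroup = H.map f := by
    ext x
    constructor
    · rintro ⟨y, hy, rfl⟩
      exact ⟨y, hy, rfl⟩
    · rintro ⟨y, hy, rfl⟩
      exact ⟨y, hy, rfl⟩
  have e3 : g.range = f.ker := by
    ext x
    constructor
    · rintro ⟨y, rfl⟩
      exact incl_zero R n y
    · intro hx
      have hx0 : x 0 = 0 := hx
      refine ⟨fun i => x i.succ, ?_⟩
      change incl R n (fun i => x i.succ) = x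
      funext i
      refine Fin.cases ?_ (fun i => ?_) i
      · rw [incl_zero, hx0]
      · rw [incl_succ]
  have hfs : Function.Surjective f := fun r => ⟨fun _ => r, rfl⟩
  rw [e1, e2, AddSubgroup.index_comap, e3, ← AddSubgroup.relIndex_sup_left (K := H) (H := f.ker),
    ← AddSubgroup.index_comap_of_surjective (H.map f) hfs, AddSubgroup.comap_map_eq]
  exact AddSubgroup.relIndex_mul_index le_sup_left

private theorem ideal_fin {R : Type*} [CommRing R] [IsDedekindDomain R] [Module.Free ℤ R]
    [Module.Finite ℤ R] [Infinite R] (n : ℕ) :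
    ∀ L : Submodule R (Fin n → R), L.toAddSubgroup.index ≠ 0 →
      ∃ B : Ideal R, B ≠ ⊥ ∧ Ideal.absNorm B ≤ L.toAddSubgroup.index ∧ B ≤ DL L := by
  induction n with
  | zero =>
    intro L hL
    refine ⟨⊤, ?_, ?_, ?_⟩
    · exact top_ne_bot
    · rw [Ideal.absNorm_top]
      exact Nat.one_le_iff_ne_zero.2 hL
    · intro b _
      have h1 : (1 : R) ∈ DL L := by
        refine Ideal.subset_span ⟨1, fun k => k.elim0, ?_⟩
        rw [Matrix.det_one]
      rw [(Ideal.eq_top_iff_one _).2 h1]
      exact Submodule.mem_top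
  | succ n ih =>
    intro L hL
    have hsp := index_split n L
    have h1 : (L.comap (incl R n)).toAddSubgroup.index ≠ 0 := by
      intro h
      rw [h, zero_mul] at hsp
      exact hL hsp.symm
    have h2 : (L.map (LinearMap.proj (0 : Fin (n + 1)))).toAddSubgroup.index ≠ 0 := by
      intro h
      rw [h, mul_zero] at hsp
      exact hL hsp.symm
    obtain ⟨B, hB0, hB1, hB2⟩ := ih _ h1
    set a : Ideal R := L.map (LinearMap.proj (0 : Fin (n + 1))) with ha
    have ha0 : a ≠ ⊥ := by
      intro h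
      apply h2
      have h3 := Ideal.absNorm_eq_index a
      rw [← h3, h, Ideal.absNorm_bot]
    refine ⟨a * B, mul_ne_zero ha0 hB0, ?_, ?_⟩
    · rw [map_mul, ← hsp, mul_comm, Ideal.absNorm_eq_index a]
      exact Nat.mul_le_mul_right _ hB1
    · rw [Ideal.mul_le]
      rintro _ ⟨g, hg, rfl⟩ b hb
      have hb' := hB2 hb
      clear hb
      unfold DL at hb'
      induction hb' using Submodule.span_induction with
      | mem x hx =>
        obtain ⟨P, hP, rfl⟩ := hx
        refine Ideal.subset_span ⟨Matrix.of (Fin.cons g fun i => incl R n (P i)), ?_, ?_⟩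
        · intro k
          refine Fin.cases ?_ (fun i => ?_) k
          · exact hg
          · exact hP i
        · rw [Matrix.det_succ_column_zero, Fin.sum_univ_succ]
          have h4 : ∀ i : Fin n, (-1 : R) ^ ((i.succ : Fin (n + 1)) : ℕ) *
              (Matrix.of (Fin.cons g fun i => incl R n (P i)) : Matrix (Fin (n + 1)) (Fin (n + 1)) R) i.succ 0 *
              ((Matrix.of (Fin.cons g fun i => incl R n (P i)) :
                Matrix (Fin (n + 1)) (Fin (n + 1)) R).submatrix i.succ.succAbove Fin.succ).det = 0 := by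
            intro i
            have h5 : (Matrix.of (Fin.cons g fun i => incl R n (P i)) :
              Matrix (Fin (n + 1)) (Fin (n + 1)) R) i.succ 0 = 0 := rfl
            rw [h5, mul_zero, zero_mul]
          rw [Finset.sum_eq_zero fun i _ => h4 i, add_zero]
          have h6 : (Matrix.of (Fin.cons g fun i => incl R n (P i)) :
              Matrix (Fin (n + 1)) (Fin (n + 1)) R).submatrix (Fin.succAbove 0) Fin.succ = P := by
            ext i j
            rfl
          rw [h6]
          simp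
      | zero => rw [mul_zero]; exact zero_mem _
      | add x y _ _ hx hy => rw [mul_add]; exact add_mem hx hy
      | smul c x _ hx =>
        rw [mul_smul_comm]
        exact Ideal.mul_mem_left _ c hx

private theorem ideal_gen {R : Type*} [CommRing R] [IsDedekindDomain R] [Module.Free ℤ R]
    [Module.Finite ℤ R] [Infinite R] {κ : Type} [Fintype κ] [DecidableEq κ]
    (L : Submodule R (κ → R)) (hL : L.toAddSubgroup.index ≠ 0) :
    ∃ B : Ideal R, B ≠ ⊥ ∧ Ideal.absNorm B ≤ L.toAddSubgroup.index ∧ B ≤ DL L := by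
  let e : κ ≃ Fin (Fintype.card κ) := Fintype.equivFin κ
  let f : (Fin (Fintype.card κ) → R) →ₗ[R] (κ → R) := LinearMap.funLeft R R e
  have hf : Function.Surjective f := fun y => ⟨fun i => y (e.symm i), by
    funext k
    change y (e.symm (e k)) = y k
    rw [e.symm_apply_apply]⟩
  have hidx : (L.comap f).toAddSubgroup.index = L.toAddSubgroup.index :=
    AddSubgroup.index_comap_of_surjective (f := f.toAddMonoidHom) L.toAddSubgroup hf
  obtain ⟨B, h1, h2, h3⟩ := ideal_fin _ (L.comap f) (by rw [hidx]; exact hL)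
  refine ⟨B, h1, by rw [← hidx]; exact h2, h3.trans ?_⟩
  unfold DL
  rw [Ideal.span_le]
  rintro _ ⟨P, hP, rfl⟩
  refine Ideal.subset_span ⟨P.submatrix e e, fun k => hP (e k), ?_⟩
  rw [Matrix.det_submatrix_equiv_self]

private theorem v_le_one (v : FinitePlace A) (x : A) (hx : IsIntegral ℤ x) : v x ≤ 1 := by
  have h := FinitePlace.norm_le_one A v.maximalIdeal (⟨x, hx⟩ : 𝓞 A)
  rw [FinitePlace.norm_embedding_eq] at h
  exact h

/-- The local maxima of minors are `1` at almost all places (if one minor is not zero). -/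
theorem fm_support (Y : Matrix κ Ω A) (J : κ → Ω) (hJ : (Y.submatrix id J).det ≠ 0) :
    (Function.mulSupport fun v : FinitePlace A =>
      ⨆ J : κ → Ω, v ((Y.submatrix id J).det)).Finite := by
  exact sup_support (fun J : κ → Ω => (Y.submatrix id J).det) J hJ

theorem fin_minor (L : Submodule (𝓞 A) (κ → 𝓞 A)) (hL : L.toAddSubgroup.index ≠ 0)
    (Y : Matrix κ Ω A)
    (hY : ∀ g ∈ L, ∀ o, IsIntegral ℤ (Matrix.vecMul (fun k => ((g k : 𝓞 A) : A)) Y o)) :
    fm Y ≤ L.toAddSubgroup.index := by
  obtain ⟨B, hB0, hB1, hB2⟩ := ideal_gen L hL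
  have hidx1 : (1 : ℝ) ≤ L.toAddSubgroup.index := by
    exact_mod_cast Nat.one_le_iff_ne_zero.2 hL
  by_cases hz : ∀ J : κ → Ω, (Y.submatrix id J).det = 0
  · refine le_trans ?_ hidx1
    unfold fm
    refine finprod_le_one' _ (fun v => ?_) fun v => ?_
    · exact Real.iSup_nonneg fun J => apply_nonneg v _
    · refine Real.iSup_le (fun J => ?_) zero_le_one
      rw [hz J, map_zero]
      exact zero_le_one
  rw [not_forall] at hz
  obtain ⟨J0, hJ0⟩ := hz
  have hint : ∀ b ∈ B, ∀ J : κ → Ω, IsIntegral ℤ ((b : A) * (Y.submatrix id J).det) := by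
    intro b hb J
    have hb' := hB2 hb
    clear hb
    unfold DL at hb'
    induction hb' using Submodule.span_induction with
    | mem x hx =>
      obtain ⟨P, hP, rfl⟩ := hx
      have h1 : ((P.det : 𝓞 A) : A) = (P.map (algebraMap (𝓞 A) A)).det := by
        rw [← RingHom.mapMatrix_apply, ← RingHom.map_det]
      rw [h1, ← Matrix.det_mul]
      refine IsIntegral.det fun i j => ?_
      have h2 := hY (P i) (hP i) (J j)
      rw [Matrix.mul_apply]
      exact h2
    | zero =>
      rw [show ((0 : 𝓞 A) : A) = 0 from map_zero (algebraMap (𝓞 A) A), zero_mul]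
      exact isIntegral_zero
    | add x y _ _ hx hy =>
      rw [show ((x + y : 𝓞 A) : A) = (x : A) + (y : A) from map_add (algebraMap (𝓞 A) A) x y, add_mul]
      exact hx.add hy
    | smul c x _ hx =>
      rw [smul_eq_mul, show ((c * x : 𝓞 A) : A) = (c : A) * (x : A) from map_mul (algebraMap (𝓞 A) A) c x,
        mul_assoc]
      exact c.2.mul hx
  obtain ⟨k, x, hx⟩ := Submodule.fg_iff_exists_fin_generating_family.1 (IsNoetherian.noetherian B)
  have hx0 : x ≠ 0 := by
    rintro rfl
    apply hB0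
    rw [← hx, Submodule.span_eq_bot]
    rintro _ ⟨i, rfl⟩
    rfl
  have hsp : Ideal.span (Set.range x) = B := hx
  have hprod := absNorm_mul_finprod_finitePlace_eq_one hx0
  rw [hsp] at hprod
  obtain ⟨i0, hi0⟩ := Function.ne_iff.1 hx0
  have hi0' : (x i0 : A) ≠ 0 := fun h => hi0 (RingOfIntegers.coe_eq_zero_iff.1 h)
  have hne1 : Nonempty (Fin k) := ⟨i0⟩
  have hne2 : Nonempty (κ → Ω) := ⟨J0⟩
  have hs1 := sup_support (fun i => (x i : A)) i0 hi0'
  have hs2 := fm_support Y J0 hJ0
  have hle : ∀ v : FinitePlace A, (⨆ i, v (x i : A)) * (⨆ J : κ → Ω, v ((Y.submatrix id J).det)) ≤ 1 := by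
    intro v
    obtain ⟨i, hi⟩ := exists_eq_ciSup_of_finite (f := fun i => v (x i : A))
    obtain ⟨J, hJ⟩ := exists_eq_ciSup_of_finite (f := fun J : κ → Ω => v ((Y.submatrix id J).det))
    rw [← hi, ← hJ, ← map_mul]
    refine v_le_one v _ (hint _ ?_ J)
    rw [← hsp]
    exact Ideal.subset_span ⟨i, rfl⟩
  have hm : (∏ᶠ v : FinitePlace A, ⨆ i, v (x i : A)) * fm Y ≤ 1 := by
    unfold fm
    rw [← finprod_mul_distrib hs1 hs2]
    refine finprod_le_one' _ (fun v => mul_nonneg ?_ ?_) hle
    · exact Real.iSup_nonneg fun i => apply_nonneg v _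
    · exact Real.iSup_nonneg fun J => apply_nonneg v _
  calc fm Y = (Ideal.absNorm B : ℝ) * ((∏ᶠ v : FinitePlace A, ⨆ i, v (x i : A)) * fm Y) := by
        rw [← mul_assoc, hprod, one_mul]
    _ ≤ (Ideal.absNorm B : ℝ) * 1 := mul_le_mul_of_nonneg_left hm (Nat.cast_nonneg _)
    _ ≤ L.toAddSubgroup.index := by
        rw [mul_one]
        exact_mod_cast hB1

end Pool.Agent.H72.BE
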