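import Pool.Agent.H72.BE.Def
import Pool.Agent.H69.BE.ClA

/-!
# The Frobenius and product formula lemma with content (MP_187c26_nt, Theorem VR+)

Proved by helper69 in `Pool/Agent/H69/BE/ClA.lean`.
-/

set_option autoImplicit false

open NumberField

namespace Pool.Agent.H72.BE

/-- `σ` is a Frobenius lift at `q`: `σ a ≡ a ^ q` modulo `q`. -/
def Frob (A : Type) [Field A] [NumberField A] (q : ℕ) (σ : A →+* A) : Prop :=
  ∀ a : 𝓞 A, ∃ c : 𝓞 A, σ (a : A) = (a : A) ^ q + q * (c : A)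

theorem clA {A F Ω : Type} [Field A] [NumberField A] [Field F] [NumberField F] [Algebra A F]
    [Field Ω] [CharZero Ω] [Algebra F Ω] (α : Ω) (hα : IsIntegral ℚ α) (d q f : ℕ)
    (hq : q.Prime) (τ : A →+* A)
    (hτ : ∀ a : 𝓞 A, ∃ c : 𝓞 A, τ (a : A) = (a : A) ^ (q ^ f) + q * (c : A)) {κ : Type}
    [Fintype κ] (V : Fin (d + 1) × κ → A) (X X' : κ → 𝓞 F) (s : ℤ)
    (hX : ∀ k, ∃ c : 𝓞 F, X' k = s * X k ^ (q ^ f) + q * c)
    (h0 : ∑ i : Fin (d + 1), algebraMap F Ω (∑ k, algebraMap A F (V (i, k)) * (X k : F)) *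
      α ^ (i : ℕ) = 0)
    (hne : ∑ i : Fin (d + 1), algebraMap F Ω (∑ k, algebraMap A F (τ (V (i, k))) * (X' k : F)) *
      α ^ (q ^ f * (i : ℕ)) ≠ 0) :
    (q : ℝ) ^ Module.finrank ℚ F ≤
      Real.exp (Module.finrank ℚ F * (q : ℝ) ^ f * d * absLogHeight₁ α) *
        (∏ φ : F →+* ℂ, ∑ i : Fin (d + 1),
          ‖φ (∑ k, algebraMap A F (τ (V (i, k))) * (X' k : F))‖) *
        (∏ᶠ v : FinitePlace A, ⨆ p, v (V p)) ^ Module.finrank A F :=
  Pool.Agent.H69.BE.clA α hα d q f hq τ hτ V X X' s hX h0 hne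

end Pool.Agent.H72.BE
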