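import Pool.Agent.H72.BE.DesC
import Pool.Agent.H11.BE.Def

/-!
# Descent, statement level (MP_187c26_nt, Theorem VR+)

`c = log 2 / (2 q (d + 1) + 1)` (any positive number with `2 q d c + d log 2 < log q`; `log q > (d + 1) log 2`; `q ≥ 3`). `Sys b n m ξ x` gives `Dat b m n ξ x`; `fld ξ x = FF ξ x` by definition.
`Ω` is algebraic over `ℚ`: embed it by `φ : Ω →ₐ[ℚ] AlgebraicClosure ℚ` (`IsAlgClosed.lift`). Degrees: `minpoly (fld (φ ξ) (φ ∘ x)) (φ α)` has the same degree as `minpoly (fld ξ x) α` (`fld (φ ξ) (φ ∘ x) = (fld ξ x).map φ`: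
`IntermediateField.adjoin_map`; transport of minimal polynomials along the isomorphism `fld ξ x ≃ (fld ξ x).map φ`). Heights: `h(φ α) = h(α)` (equal minimal polynomials over `ℚ`). `Dat.desc` for `φ ξ`, `φ ∘ x`, `φ α` and the exact degree
`d' = dgr ξ x α ≤ d`: `η' ^ n = 1`, so `η' = (φ ξ) ^ k` (`IsPrimitiveRoot.eq_pow_of_pow_eq_one`): `z = ξ ^ k`, `z ^ n = 1`; `n' = n / q < n`, `ξ' = ξ ^ q` (`Dat.pow_q`).
-/

set_option autoImplicit false

open NumberField IntermediateField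

namespace Pool.Agent.H72.BE

open Pool.Agent.H11.BE (Sys fld dgr DescStmt)

private theorem nd_equiv {K K' T : Type} [Field K] [Field K'] [Field T] [Algebra K T]
    [Algebra K' T] (f : K ≃+* K') (h : ∀ y, algebraMap K' T (f y) = algebraMap K T y) (a : T) :
    (minpoly K' a).natDegree = (minpoly K a).natDegree := by
  have hc : (algebraMap K' T).comp (f : K →+* K') = algebraMap K T := RingHom.ext h
  by_cases ha : IsIntegral K a
  · have h1 : (minpoly K a).map (f : K →+* K') = minpoly K' a := by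
      refine minpoly.eq_of_irreducible_of_monic ?_ ?_ ((minpoly.monic ha).map _)
      · rw [← Polynomial.mapEquiv_apply, MulEquiv.irreducible_iff]
        exact minpoly.irreducible ha
      · rw [Polynomial.aeval_def, Polynomial.eval₂_map, hc, ← Polynomial.aeval_def]
        exact minpoly.aeval K a
    rw [← h1, Polynomial.natDegree_map_eq_of_injective f.injective]
  · have ha' : ¬ IsIntegral K' a := by
      rintro ⟨P, hP, hP0⟩
      refine ha ⟨P.map (f.symm : K' →+* K), hP.map _, ?_⟩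
      rw [Polynomial.eval₂_map]
      have h2 : (algebraMap K T).comp (f.symm : K' →+* K) = algebraMap K' T := by
        refine RingHom.ext fun y => ?_
        have h3 := h (f.symm y)
        rw [f.apply_symm_apply] at h3
        exact h3.symm
      rw [h2]
      exact hP0
    rw [minpoly.eq_zero ha, minpoly.eq_zero ha', Polynomial.natDegree_zero,
      Polynomial.natDegree_zero]

theorem degree_map {Ω Ω' : Type} [Field Ω] [CharZero Ω] [Field Ω'] [CharZero Ω']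
    (φ : Ω →ₐ[ℚ] Ω') {r : ℕ} (ξ : Ω) (x : Fin r → Ω) (α : Ω) :
    dgr (φ ξ) (fun i => φ (x i)) (φ α) = dgr ξ x α := by
  have h1 : (fld ξ x).map φ = fld (φ ξ) (fun i => φ (x i)) := by
    unfold fld
    rw [IntermediateField.adjoin_map, Set.image_union, Set.image_singleton, ← Set.range_comp]
    rfl
  unfold dgr
  rw [← h1]
  let e : fld ξ x ≃ₐ[ℚ] (fld ξ x).map φ := IntermediateField.equivMap (fld ξ x) φ
  let : Algebra (fld ξ x) Ω' := (φ.toRingHom.comp (algebraMap (fld ξ x) Ω)).toAlgebra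
  let τ : Ω →ₐ[fld ξ x] Ω' := { φ.toRingHom with commutes' := fun r => rfl }
  have h2 : minpoly (fld ξ x) (τ α) = minpoly (fld ξ x) α := minpoly.algHom_eq τ τ.injective α
  have h4 : τ α = φ α := rfl
  rw [nd_equiv (T := Ω') e.toRingEquiv (fun y => rfl) (φ α), ← h4, h2]

private theorem height_map {Ω Ω' : Type} [Field Ω] [CharZero Ω] [Field Ω'] [CharZero Ω']
    (σ : Ω →+* Ω') (a : Ω) (ha : IsIntegral ℚ a) : absLogHeight₁ (σ a) = absLogHeight₁ a ∧
    0 ≤ absLogHeight₁ a := by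
  have : FiniteDimensional ℚ ℚ⟮a⟯ := adjoin.finiteDimensional ha
  have : NumberField ℚ⟮a⟯ := {}
  have h1 := Pool.Agent.H4.RR.absLogHeight_eq ℚ⟮a⟯ Ω (ℚ⟮a⟯.val : ℚ⟮a⟯ →+* Ω)
    (AdjoinSimple.gen ℚ a)
  have h2 := Pool.Agent.H4.RR.absLogHeight_eq ℚ⟮a⟯ Ω' (σ.comp (ℚ⟮a⟯.val : ℚ⟮a⟯ →+* Ω))
    (AdjoinSimple.gen ℚ a)
  have h3 : (ℚ⟮a⟯.val : ℚ⟮a⟯ →+* Ω) (AdjoinSimple.gen ℚ a) = a := rfl
  have h4 : (σ.comp (ℚ⟮a⟯.val : ℚ⟮a⟯ →+* Ω)) (AdjoinSimple.gen ℚ a) = σ a := rfl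
  rw [h3] at h1
  rw [h4] at h2
  refine ⟨by rw [h1, h2], ?_⟩
  rw [h1]
  exact div_nonneg (Height.zero_le_logHeight₁ _) (Nat.cast_nonneg _)

theorem desc_stmt (r d q : ℕ) (hq : q.Prime) (hbig : 2 ^ (d + 1) < q) : DescStmt r d q := by
  have hl2 : 0 < Real.log 2 := Real.log_pos (by norm_num)
  have hq0 : 0 < q := hq.pos
  have hqr : (0 : ℝ) < q := by exact_mod_cast hq0
  have hd0 : (0 : ℝ) ≤ d := Nat.cast_nonneg d
  have hden : (0 : ℝ) < 2 * q * (d + 1) + 1 := by positivity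
  refine ⟨Real.log 2 / (2 * q * (d + 1) + 1), by positivity, ?_⟩
  intro Ω _ _ _ b n m ξ x α hS hqn hα hdg hh
  -- the embedding
  let φ : Ω →ₐ[ℚ] AlgebraicClosure ℚ := IsAlgClosed.lift
  have hαi : IsIntegral ℚ α := Algebra.IsIntegral.isIntegral α
  obtain ⟨hh1, hh0⟩ := height_map φ.toRingHom α hαi
  have hφα : φ.toRingHom α = φ α := rfl
  rw [hφα] at hh1
  have hD : Dat b m n (φ ξ) (fun i => φ (x i)) := by
    refine ⟨hS.two, hS.sqf, hS.cm, hS.cn, hS.hn, hS.hm, hS.prim.map_of_injective φ.injective, ?_⟩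
    intro i
    rw [← map_pow, hS.hx i, map_natCast]
  have hq3 : 3 ≤ q := by
    have h1 : 2 ^ 1 ≤ 2 ^ (d + 1) := Nat.pow_le_pow_right (by norm_num) (by omega)
    omega
  obtain ⟨d', hd'⟩ : ∃ d' : ℕ, (minpoly (FF (φ ξ) (fun i => φ (x i))) (φ α)).natDegree = d' :=
    ⟨_, rfl⟩
  have hd'd : d' ≤ d := by
    have h1 := degree_map φ ξ x α
    have h2 : dgr (φ ξ) (fun i => φ (x i)) (φ α) = d' := hd'
    rw [← h2, h1]
    exact hdg
  have hd'r : (d' : ℝ) ≤ d := by exact_mod_cast hd'd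
  have hd'0 : (0 : ℝ) ≤ d' := Nat.cast_nonneg d'
  have hlogq : ((d : ℝ) + 1) * Real.log 2 < Real.log q := by
    have h1 : (2 : ℝ) ^ (d + 1) < q := by exact_mod_cast hbig
    have h2 := Real.log_lt_log (by positivity) h1
    rw [Real.log_pow] at h2
    push_cast at h2
    exact h2
  have hbd : 2 * (q : ℝ) * d' * absLogHeight₁ (φ α) + d' * Real.log 2 < Real.log q := by
    rw [hh1]
    have h1 : absLogHeight₁ α * (2 * q * (d + 1) + 1) < Real.log 2 := (lt_div_iff₀ hden).1 hh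
    have h2 : 2 * (q : ℝ) * d' * absLogHeight₁ α ≤ 2 * (q : ℝ) * d * absLogHeight₁ α := by
      refine mul_le_mul_of_nonneg_right ?_ hh0
      exact mul_le_mul_of_nonneg_left hd'r (by positivity)
    have h3 : 2 * (q : ℝ) * d * absLogHeight₁ α ≤ absLogHeight₁ α * (2 * q * (d + 1) + 1) := by
      have h4 : 0 ≤ absLogHeight₁ α * (2 * q + 1) := by positivity
      nlinarith
    have h4 : (d' : ℝ) * Real.log 2 ≤ d * Real.log 2 := mul_le_mul_of_nonneg_right hd'r hl2.le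
    nlinarith
  have hAlg : @Algebra.IsAlgebraic ℚ (AlgebraicClosure ℚ) _ _ DivisionRing.toRatAlgebra := by
    have h1 := AlgebraicClosure.isAlgebraic ℚ
    rwa [Subsingleton.elim (DivisionRing.toRatAlgebra : Algebra ℚ (AlgebraicClosure ℚ))
      (AlgebraicClosure.instAlgebra ℚ)]
  obtain ⟨η, hη, hdeg⟩ := hD.desc q hq hq3 hqn (φ α) d' hd' hbd
  have : NeZero n := ⟨by have := hS.hn; omega⟩
  obtain ⟨k, hk, hke⟩ := hD.prim.eq_pow_of_pow_eq_one hη
  have hD2 := hD.pow_q q hqn hq0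
  refine ⟨n / q, ξ ^ q, ξ ^ k, n, hS.hn, ?_, Nat.div_lt_self hS.hn hq.one_lt, ?_, ?_⟩
  · rw [← pow_mul, mul_comm, pow_mul, hS.prim.pow_eq_one, one_pow]
  · refine ⟨Nat.div_pos (Nat.le_of_dvd hS.hn hqn) hq0, hS.hm, hS.two, hS.sqf,
      fun i => Nat.Coprime.coprime_dvd_left (Nat.div_dvd_of_dvd hqn) (hS.cn i), hS.cm, ?_, hS.hx⟩
    refine hS.prim.pow hS.hn ?_
    rw [Nat.mul_div_cancel' hqn]
  · have h1 := degree_map φ (ξ ^ q) x (ξ ^ k * α)
    rw [← h1, map_mul, map_pow, map_pow, hke]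
    exact hdeg.trans hd'd

end Pool.Agent.H72.BE
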