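import Pool.Agent.H72.BE.DatB
import Pool.Agent.H72.BD.Idx
import Pool.Agent.H69.BD.Vidx

/-!
# The index (MP_187c26_nt, Theorem VR+)

`idx_sup`: `S = SS ξ x`, `O_i = OO (x i)`, `idxZ (x i)` = index of `ℤ[x_i]` in `O_i` (finite: `H11.FR.ordIdx_ne_zero`, `H69.BD.idxZ_eq_ordIdx`). `S` is generated as a module over `ℤ[x_i]` by the
`ξ ^ k ∏_(j ≠ i) x_j ^ (l_j)`, `k < φ(n)` (the minimal polynomial of `ξ` over `ℤ` is monic of degree `φ(n)`), `l_j < m_j`: these are `g = φ(n) ∏_(j ≠ i) m_j = [F : ℚ] / m_i` generators `ω_t`. The map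
`O_i ^ g → (S ⊔ O_i) ⧸ S`, `(w_t) ↦ ∑ w_t ω_t` is surjective (`S ⊔ O_i = ∑ O_i ω_t`) and kills `ℤ[x_i] ^ g`: `relIndex S (S ⊔ O_i) ≤ idxZ (x i) ^ g`, not zero. (Model: `relIndex_sup_le_pow` in
`Pool/Agent/H11/FR/Red.lean`.) `[F : ℚ] = [AA : ℚ] ∏ m_i`, `[AA : ℚ] = φ(n)`.

`idx`: `H11.FR.multi` (as in `int_mul`): `log (relIndex S (S ⊔ sup O_i)) ≤ ∑ i, log (relIndex S (S ⊔ O_i)) ≤ ∑ i, ([F : ℚ] / m_i) log idxZ (x i)`; all the integers of `F` are in `S ⊔ sup O_i` (`ints_sup`), and `S`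
is contained in the image of `h.zx` (elements with coordinates in `𝓞 (AA ξ)`; `zx` is a ring containing `ξ`, `x_i`: `mul_mem`, `mon_mul_mem`, `smul_mem`), so `h.zx.relIndex (ints F) ≤` the index of `S` in
`S ⊔ sup O_i` (relIndex is antitone in the subgroup, monotone in the group; `AddSubgroup.relIndex_map_map_of_injective` for the embedding `F → Ω`).
-/

set_option autoImplicit false

open NumberField IntermediateField

namespace Pool.Agent.H72.BE

open Pool.Agent.H69.BD (idxZ)

variable {Ω : Type} [Field Ω] [CharZero Ω] [Algebra.IsAlgebraic ℚ Ω] {r : ℕ}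
  {b m : Fin r → ℕ} {n : ℕ} {ξ : Ω} {x : Fin r → Ω}

private def Spn (B A : Subring Ω) (g : ℕ) : Prop :=
  ∃ ω : Fin g → Ω, (∀ t, ω t ∈ A) ∧
    ∀ a ∈ A, ∃ c : Fin g → Ω, (∀ t, c t ∈ B) ∧ a = ∑ t, c t * ω t

omit [CharZero Ω] [Algebra.IsAlgebraic ℚ Ω] in
private theorem spn_refl (B : Subring Ω) : Spn B B 1 :=
  ⟨fun _ => 1, fun _ => B.one_mem, fun a ha => ⟨fun _ => a, fun _ => ha, by simp⟩⟩

omit [CharZero Ω] [Algebra.IsAlgebraic ℚ Ω] in
private theorem spn_step (B A : Subring Ω) (g : ℕ) (h : Spn B A g) (y : Ω) (P : Polynomial ℤ)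
    (hP : P.Monic) (hP1 : P ≠ 1) (hy : Polynomial.aeval y P = 0) :
    Spn B (A ⊔ Subring.closure {y}) (g * P.natDegree) := by
  classical
  obtain ⟨ω, hω, hsp⟩ := h
  have hAA : A ≤ A ⊔ Subring.closure {y} := le_sup_left
  have hyA : y ∈ A ⊔ Subring.closure {y} :=
    (le_sup_right : Subring.closure {y} ≤ A ⊔ Subring.closure {y}) (Subring.subset_closure rfl)
  let e : Fin g × Fin P.natDegree ≃ Fin (g * P.natDegree) := finProdFinEquiv
  let w : Fin (g * P.natDegree) → Ω := fun t => ω (e.symm t).1 * y ^ ((e.symm t).2 : ℕ)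
  let φ : AddSubgroup Ω :=
    { carrier := {z | ∃ c : Fin (g * P.natDegree) → Ω, (∀ t, c t ∈ B) ∧ z = ∑ t, c t * w t}
      zero_mem' := ⟨fun _ => 0, fun _ => B.zero_mem, by simp⟩
      add_mem' := by
        rintro u v ⟨c, hc, rfl⟩ ⟨c', hc', rfl⟩
        refine ⟨fun t => c t + c' t, fun t => B.add_mem (hc t) (hc' t), ?_⟩
        rw [← Finset.sum_add_distrib]
        exact Finset.sum_congr rfl fun t _ => (add_mul _ _ _).symm
      neg_mem' := by
        rintro u ⟨c, hc, rfl⟩
        refine ⟨fun t => - c t, fun t => B.neg_mem (hc t), ?_⟩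
        rw [← Finset.sum_neg_distrib]
        exact Finset.sum_congr rfl fun t _ => (neg_mul _ _).symm }
  refine ⟨w, fun t => mul_mem (hAA (hω _)) (pow_mem hyA _), ?_⟩
  intro a ha
  have h1 := Pool.Agent.H11.FR.mem_adjoin_closure A y a ha
  have h2 : a ∈ φ := by
    refine (AddSubgroup.closure_le (K := φ)).2 ?_ h1
    rintro _ ⟨a', ha', n, rfl⟩
    obtain ⟨c, hc, rfl⟩ := hsp a' ha'
    have h3 : y ^ n = ∑ k : Fin P.natDegree,
        (((Polynomial.X ^ n %ₘ P : Polynomial ℤ).coeff k : ℤ) : Ω) * y ^ (k : ℕ) := by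
      have h4 : Polynomial.aeval y (Polynomial.X ^ n %ₘ P : Polynomial ℤ) = y ^ n := by
        have h5 := congrArg (Polynomial.aeval y) (Polynomial.modByMonic_add_div
          (Polynomial.X ^ n : Polynomial ℤ) P)
        rw [map_add, map_mul, hy, zero_mul, add_zero, map_pow, Polynomial.aeval_X] at h5
        exact h5
      rw [← h4, Polynomial.aeval_eq_sum_range' (Polynomial.natDegree_modByMonic_lt _ hP hP1),
        ← Fin.sum_univ_eq_sum_range (fun k => (Polynomial.X ^ n %ₘ P : Polynomial ℤ).coeff k • y ^ k)]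
      refine Finset.sum_congr rfl fun k _ => ?_
      rw [zsmul_eq_mul]
    refine ⟨fun t => c (e.symm t).1 *
      (((Polynomial.X ^ n %ₘ P : Polynomial ℤ).coeff ((e.symm t).2 : ℕ) : ℤ) : Ω),
      fun t => B.mul_mem (hc _) (intCast_mem B _), ?_⟩
    rw [h3, Finset.sum_mul_sum, ← Finset.sum_product', Finset.univ_product_univ,
      ← Equiv.sum_comp e.symm]
    refine Finset.sum_congr rfl fun t _ => ?_
    change _ = _ * (ω (e.symm t).1 * y ^ ((e.symm t).2 : ℕ))
    ring
  exact h2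

omit [CharZero Ω] [Algebra.IsAlgebraic ℚ Ω] in
private theorem spn_idx (B A O : Subring Ω) (g : ℕ) (h : Spn B A g) (hBA : B ≤ A) (hBO : B ≤ O)
    (hidx : B.toAddSubgroup.relIndex O.toAddSubgroup ≠ 0) :
    A.toAddSubgroup.relIndex (A ⊔ O).toAddSubgroup ≠ 0 ∧
    A.toAddSubgroup.relIndex (A ⊔ O).toAddSubgroup ≤
      B.toAddSubgroup.relIndex O.toAddSubgroup ^ g := by
  classical
  obtain ⟨ω, hω, hsp⟩ := h
  let φ : (Fin g → O.toAddSubgroup) →+ Ω :=
    { toFun := fun w => ∑ t : Fin g, (w t : Ω) * ω t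
      map_zero' := by simp
      map_add' := fun v w => by
        rw [← Finset.sum_add_distrib]
        refine Finset.sum_congr rfl fun t _ => ?_
        simp only [Pi.add_apply, AddSubgroup.coe_add]
        ring }
  let P : AddSubgroup (Fin g → O.toAddSubgroup) :=
    AddSubgroup.pi Set.univ (fun _ => B.toAddSubgroup.addSubgroupOf O.toAddSubgroup)
  have hPidx : P.index = B.toAddSubgroup.relIndex O.toAddSubgroup ^ g := by
    rw [AddSubgroup.index_pi, Finset.prod_const, Finset.card_univ, Fintype.card_fin]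
    rfl
  have hmain := Pool.Agent.H4.OH.relIndex_le_of_surj φ P A.toAddSubgroup (A ⊔ O).toAddSubgroup (by
    intro w hw
    change (∑ t : Fin g, (w t : Ω) * ω t) ∈ A
    refine A.sum_mem fun t _ => A.mul_mem (hBA ?_) (hω t)
    exact hw t (Set.mem_univ _)) (by
    intro z hz
    have h1 := Pool.Agent.H11.FR.mem_sup_closure A O z hz
    have h2 : z ∈ φ.range := by
      refine (AddSubgroup.closure_le (K := φ.range)).2 ?_ h1
      rintro _ ⟨a, ha, w, hw, rfl⟩
      obtain ⟨c, hc, rfl⟩ := hsp a ha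
      refine ⟨fun t => ⟨c t * w, O.mul_mem (hBO (hc t)) hw⟩, ?_⟩
      change ∑ t : Fin g, (c t * w) * ω t = (∑ t, c t * ω t) * w
      rw [Finset.sum_mul]
      exact Finset.sum_congr rfl fun t _ => by ring
    obtain ⟨y, hy⟩ := h2
    exact ⟨y, 0, A.toAddSubgroup.zero_mem, by rw [add_zero, hy]⟩)
    (by rw [hPidx]; exact pow_ne_zero _ hidx)
  rw [hPidx] at hmain
  exact hmain

omit [CharZero Ω] [Algebra.IsAlgebraic ℚ Ω] in
private theorem Dat.spn (h : Dat b m n ξ x) (B : Subring Ω) (T : Finset (Fin r)) :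
    Spn B (B ⊔ Subring.closure (x '' T)) (∏ j ∈ T, m j) := by
  classical
  induction T using Finset.induction_on with
  | empty =>
    have h1 : B ⊔ Subring.closure (x '' ((∅ : Finset (Fin r)) : Set (Fin r))) = B := by
      rw [Finset.coe_empty, Set.image_empty, Subring.closure_empty, sup_bot_eq]
    rw [h1, Finset.prod_empty]
    exact spn_refl B
  | insert j T hj ih =>
    have h1 : B ⊔ Subring.closure (x '' ((insert j T : Finset (Fin r)) : Set (Fin r))) =
        (B ⊔ Subring.closure (x '' (T : Set (Fin r)))) ⊔ Subring.closure {x j} := by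
      rw [Finset.coe_insert, Set.image_insert_eq, Set.insert_eq, Subring.closure_union, sup_assoc,
        sup_comm (Subring.closure {x j})]
    have hmj := h.hm j
    have h2 := spn_step B _ _ ih (x j) (Polynomial.X ^ m j - Polynomial.C (b j : ℤ))
      (Polynomial.monic_X_pow_sub_C _ (by omega)) (by
        intro h3
        have h4 := congrArg Polynomial.natDegree h3
        rw [Polynomial.natDegree_X_pow_sub_C, Polynomial.natDegree_one] at h4
        omega) (by
        rw [map_sub, map_pow, Polynomial.aeval_X, Polynomial.aeval_C, h.pow]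
        simp)
    rw [Polynomial.natDegree_X_pow_sub_C] at h2
    rw [h1, Finset.prod_insert hj, mul_comm]
    exact h2

omit [CharZero Ω] [Algebra.IsAlgebraic ℚ Ω] in
private theorem Dat.spn_ξ (h : Dat b m n ξ x) (i : Fin r) :
    Spn (Algebra.adjoin ℤ ({x i} : Set Ω)).toSubring (SS ξ x)
      ((∏ j ∈ Finset.univ.erase i, m j) * Nat.totient n) := by
  classical
  have h1 : SS ξ x = ((Algebra.adjoin ℤ ({x i} : Set Ω)).toSubring ⊔
      Subring.closure (x '' ((Finset.univ.erase i : Finset (Fin r)) : Set (Fin r)))) ⊔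
        Subring.closure {ξ} := by
    apply le_antisymm
    · unfold SS
      rw [Subring.closure_le]
      rintro y (hy | ⟨j, rfl⟩)
      · exact (le_sup_right : Subring.closure {ξ} ≤ _) (Subring.subset_closure hy)
      · refine (le_sup_left : _ ≤ _ ⊔ Subring.closure {ξ}) ?_
        by_cases hj : j = i
        · subst hj
          refine (le_sup_left : (Algebra.adjoin ℤ ({x j} : Set Ω)).toSubring ≤ _) ?_
          exact Algebra.self_mem_adjoin_singleton ℤ (x j)
        · refine (le_sup_right : Subring.closure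
            (x '' ((Finset.univ.erase i : Finset (Fin r)) : Set (Fin r))) ≤ _) ?_
          refine Subring.subset_closure ⟨j, ?_, rfl⟩
          simp [hj]
    · refine sup_le (sup_le ?_ ?_) ?_
      · intro y hy
        have hy' : y ∈ Algebra.adjoin ℤ ({x i} : Set Ω) := hy
        have h2 : Algebra.adjoin ℤ ({x i} : Set Ω) ≤ subalgebraOfSubring (SS ξ x) := by
          rw [Algebra.adjoin_le_iff, Set.singleton_subset_iff]
          exact Subring.subset_closure (Or.inr ⟨i, rfl⟩)
        exact h2 hy'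
      · rw [Subring.closure_le]
        rintro _ ⟨j, _, rfl⟩
        exact Subring.subset_closure (Or.inr ⟨j, rfl⟩)
      · rw [Subring.closure_le]
        rintro y hy
        exact Subring.subset_closure (Or.inl hy)
  have hn := h.hn
  have h2 := spn_step _ _ _ (h.spn (Algebra.adjoin ℤ ({x i} : Set Ω)).toSubring
    (Finset.univ.erase i)) ξ (Polynomial.cyclotomic n ℤ) (Polynomial.cyclotomic.monic n ℤ) (by
      intro h3
      have h4 := congrArg Polynomial.natDegree h3
      rw [Polynomial.natDegree_cyclotomic, Polynomial.natDegree_one] at h4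
      have h5 := Nat.totient_pos.2 hn
      omega) (by
      rw [Polynomial.aeval_def, Polynomial.eval₂_eq_eval_map, Polynomial.map_cyclotomic]
      exact h.prim.isRoot_cyclotomic hn)
  rw [Polynomial.natDegree_cyclotomic] at h2
  rw [h1]
  exact h2

omit [Algebra.IsAlgebraic ℚ Ω] in
private theorem Dat.finrank_A (h : Dat b m n ξ x) :
    Module.finrank ℚ (AA ξ) = Nat.totient n := by
  have h1 : IsIntegral ℚ ξ := h.integral_ξ.tower_top
  unfold AA
  rw [IntermediateField.adjoin.finrank h1,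
    ← Polynomial.cyclotomic_eq_minpoly_rat h.prim h.hn, Polynomial.natDegree_cyclotomic]

private theorem Dat.finrank_F (h : Dat b m n ξ x) :
    Module.finrank ℚ (FF ξ x) = Nat.totient n * ∏ i, m i := by
  have := h.nf_A
  have := h.nf_F
  have h1 := (h.rad).deg
  rw [← h.finrank_A, ← h1]
  exact (Module.finrank_mul_finrank ℚ (AA ξ) (FF ξ x)).symm

private theorem Dat.idxZ_ne (h : Dat b m n ξ x) (i : Fin r) : idxZ (x i) ≠ 0 := by
  rw [Pool.Agent.H69.BD.idxZ_eq_ordIdx]
  have hb := h.two i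
  refine Pool.Agent.H11.FR.ordIdx_ne_zero (K := ℚ) (μ := m i) (b := ((b i : ℕ) : 𝓞 ℚ)) (h.hm i) ?_ ?_
  · exact Nat.cast_ne_zero.2 (by omega)
  · rw [h.pow, map_natCast]

private theorem Dat.kill (h : Dat b m n ξ x) (i : Fin r) (w : Ω) (hw : w ∈ OO (x i)) :
    ((m i * b i : ℕ) : Ω) * w ∈ SS ξ x := by
  have h1 := Pool.Agent.H11.FR.ordOf_kill (K := ℚ) (μ := m i) (b := ((b i : ℕ) : 𝓞 ℚ))
    (h.hm i) (θ := x i) (by rw [h.pow, map_natCast]) w hw
  have h2 : Pool.Agent.H11.FR.ordOf ℚ (x i) ≤ SS ξ x := by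
    refine Pool.Agent.H11.FR.ordOf_le (x i) _ (fun z => ?_) (Subring.subset_closure (Or.inr ⟨i, rfl⟩))
    obtain ⟨k, rfl⟩ := Rat.ringOfIntegersEquiv.symm.surjective z
    rw [eq_intCast, map_intCast]
    exact intCast_mem _ k
  have h3 := h2 h1
  rw [map_mul, map_natCast, map_natCast] at h3
  rw [Nat.cast_mul]
  exact h3

theorem Dat.idx_sup (h : Dat b m n ξ x) (i : Fin r) :
    (SS ξ x).toAddSubgroup.relIndex (SS ξ x ⊔ OO (x i)).toAddSubgroup ≠ 0 ∧
    Real.log ((SS ξ x).toAddSubgroup.relIndex (SS ξ x ⊔ OO (x i)).toAddSubgroup : ℕ) ≤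
      Module.finrank ℚ (FF ξ x) * (Real.log (idxZ (x i)) / m i) := by
  classical
  have hb : (Algebra.adjoin ℤ ({x i} : Set Ω)).toSubring ≤ SS ξ x := by
    intro y hy
    have hy' : y ∈ Algebra.adjoin ℤ ({x i} : Set Ω) := hy
    have h2 : Algebra.adjoin ℤ ({x i} : Set Ω) ≤ subalgebraOfSubring (SS ξ x) := by
      rw [Algebra.adjoin_le_iff, Set.singleton_subset_iff]
      exact Subring.subset_closure (Or.inr ⟨i, rfl⟩)
    exact h2 hy'
  have ho : (Algebra.adjoin ℤ ({x i} : Set Ω)).toSubring ≤ OO (x i) := by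
    intro y hy
    have hy' : y ∈ Algebra.adjoin ℤ ({x i} : Set Ω) := hy
    have h2 : Algebra.adjoin ℤ ({x i} : Set Ω) ≤ subalgebraOfSubring (OO (x i)) := by
      rw [Algebra.adjoin_le_iff, Set.singleton_subset_iff]
      exact ⟨IntermediateField.mem_adjoin_simple_self ℚ (x i), h.integral_x i⟩
    exact h2 hy'
  obtain ⟨h1, h2⟩ := spn_idx _ _ _ _ (h.spn_ξ i) hb ho (h.idxZ_ne i)
  refine ⟨h1, ?_⟩
  have hm : (m i : ℝ) ≠ 0 := by
    have := h.hm i
    exact_mod_cast (by omega : m i ≠ 0)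
  have h3 : Real.log ((SS ξ x).toAddSubgroup.relIndex (SS ξ x ⊔ OO (x i)).toAddSubgroup : ℕ) ≤
      Real.log ((idxZ (x i) ^ ((∏ j ∈ Finset.univ.erase i, m j) * Nat.totient n) : ℕ) : ℝ) := by
    apply Real.log_le_log
    · exact_mod_cast Nat.pos_of_ne_zero h1
    · exact_mod_cast h2
  refine h3.trans (le_of_eq ?_)
  rw [Nat.cast_pow, Real.log_pow, h.finrank_F, ← Finset.mul_prod_erase Finset.univ m (Finset.mem_univ i)]
  push_cast
  field_simp

theorem Dat.idx (h : Dat b m n ξ x) [NumberField (AA ξ)] [NumberField (FF ξ x)]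
    [∀ i, NeZero (m i)] (hr : Rad b m (AA ξ) (FF ξ x) (xF ξ x)) :
    (hr.zx.relIndex (Pool.Agent.H72.BD.ints (FF ξ x)) : ℝ) ≤
      Real.exp (Module.finrank ℚ (FF ξ x) * ∑ i, Real.log (idxZ (x i)) / m i) := by
  classical
  let d : Fin r → SS ξ x := fun i => ((m i * b i : ℕ) : SS ξ x)
  have hcop : ∀ i j, i ≠ j → IsCoprime (d i) (d j) := by
    intro i j hij
    have h3 := (Nat.isCoprime_iff_coprime.2 (h.cb i j hij)).map (Int.castRingHom (SS ξ x))
    simpa only [eq_intCast, Int.cast_natCast] using h3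
  obtain ⟨h1, -, h3⟩ := Pool.Agent.H11.FR.multi (SS ξ x) (fun i => OO (x i)) d hcop
    (fun i w hw => by
      have h4 := h.kill i w hw
      have h5 : ((d i : SS ξ x) : Ω) = ((m i * b i : ℕ) : Ω) := by
        change (((m i * b i : ℕ) : SS ξ x) : Ω) = _
        rw [SubringClass.coe_natCast]
      rw [h5]
      exact h4) (fun i => (h.idx_sup i).1) Finset.univ
  set R : Subring Ω := SS ξ x ⊔ Finset.univ.sup (fun i => OO (x i)) with hR
  set f : FF ξ x →+ Ω := ((FF ξ x).val : FF ξ x →+ Ω) with hf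
  have hinj : Function.Injective f := (FF ξ x).val.injective
  have hfv : ∀ y : FF ξ x, f y = (y : Ω) := fun y => rfl
  have hS : (SS ξ x).toAddSubgroup ≤ (hr.zx).map f := by
    have key : ∀ z ∈ SS ξ x, ∃ y ∈ hr.zx, (y : Ω) = z := by
      intro z hz
      unfold SS at hz
      induction hz using Subring.closure_induction with
      | mem z hz =>
        rcases hz with hz | ⟨j, rfl⟩
        · rw [Set.mem_singleton_iff] at hz
          subst hz
          refine ⟨algebraMap (AA z) (FF z x) (ξA z) * 1, hr.smul_mem _ ?_ _ hr.one_mem, ?_⟩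
          · have h6 : IsIntegral ℤ z := h.integral_ξ
            exact (isIntegral_algHom_iff ((AA z).val.restrictScalars ℤ) (AA z).val.injective).1 h6
          · rw [mul_one]
            rfl
        · refine ⟨mon (xF ξ x) (Pi.single j 1) * 1, hr.mon_mul_mem _ _ hr.one_mem, ?_⟩
          have h7 : mon (xF ξ x) (Pi.single j 1) = xF ξ x j := by
            unfold mon
            rw [Finset.prod_eq_single j]
            · rw [Pi.single_eq_same, pow_one]
            · intro k _ hk
              rw [Pi.single_eq_of_ne hk, pow_zero]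
            · intro hk
              exact absurd (Finset.mem_univ j) hk
          rw [mul_one, h7]
          rfl
      | zero => exact ⟨0, zero_mem _, rfl⟩
      | one => exact ⟨1, hr.one_mem, rfl⟩
      | add u v _ _ hu hv =>
        obtain ⟨y, hy, rfl⟩ := hu
        obtain ⟨y', hy', rfl⟩ := hv
        exact ⟨y + y', add_mem hy hy', rfl⟩
      | neg u _ hu =>
        obtain ⟨y, hy, rfl⟩ := hu
        exact ⟨-y, neg_mem hy, rfl⟩
      | mul u v _ _ hu hv =>
        obtain ⟨y, hy, rfl⟩ := hu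
        obtain ⟨y', hy', rfl⟩ := hv
        exact ⟨y * y', hr.mul_mem _ _ hy hy', rfl⟩
    intro z hz
    obtain ⟨y, hy, h5⟩ := key z hz
    exact ⟨y, hy, h5⟩
  have hI : (Pool.Agent.H72.BD.ints (FF ξ x)).map f ≤ R.toAddSubgroup := by
    rintro _ ⟨y, hy, rfl⟩
    have hy' : IsIntegral ℤ y := hy
    exact h.ints_sup (y : Ω) y.2 (hy'.map ((FF ξ x).val.restrictScalars ℤ))
  have h4 : hr.zx.relIndex (Pool.Agent.H72.BD.ints (FF ξ x)) ≤
      (SS ξ x).toAddSubgroup.relIndex R.toAddSubgroup := by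
    rw [← AddSubgroup.relIndex_map_map_of_injective _ _ hinj]
    have h5 : (SS ξ x).toAddSubgroup.relIndex ((Pool.Agent.H72.BD.ints (FF ξ x)).map f) ≠ 0 :=
      fun h6 => h1 (AddSubgroup.relIndex_eq_zero_of_le_right hI h6)
    exact (AddSubgroup.relIndex_le_of_le_left hS h5).trans
      (AddSubgroup.relIndex_le_of_le_right hI h1)
  have h5 : ((SS ξ x).toAddSubgroup.relIndex R.toAddSubgroup : ℝ) ≤
      Real.exp (Module.finrank ℚ (FF ξ x) * ∑ i, Real.log (idxZ (x i)) / m i) := by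
    rw [← Real.log_le_iff_le_exp (by exact_mod_cast Nat.pos_of_ne_zero h1), Finset.mul_sum]
    exact h3.trans (Finset.sum_le_sum fun i _ => (h.idx_sup i).2)
  exact (by exact_mod_cast h4 : (hr.zx.relIndex (Pool.Agent.H72.BD.ints (FF ξ x)) : ℝ) ≤
    ((SS ξ x).toAddSubgroup.relIndex R.toAddSubgroup : ℝ)).trans h5

end Pool.Agent.H72.BE
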