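import Pool.Agent.H72.BE.Co

/-!
# The fields `ℚ(ξ, x_1, …, x_r)` (MP_187c26_nt, Theorem VR+): definitions
-/

set_option autoImplicit false

open NumberField IntermediateField

namespace Pool.Agent.H72.BE

/-- The data of the theorem: `ξ` is a primitive `n`-th root of unity, `x_i ^ m_i = b_i`, `n`, `m_1 b_1`, …, `m_r b_r` are
pairwise coprime, the `b_i ≥ 2` are squarefree. -/
structure Dat {Ω : Type} [Field Ω] {r : ℕ} (b m : Fin r → ℕ) (n : ℕ) (ξ : Ω) (x : Fin r → Ω) :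
    Prop where
  two : ∀ i, 2 ≤ b i
  sqf : ∀ i, Squarefree (b i)
  cb : ∀ i j, i ≠ j → Nat.Coprime (m i * b i) (m j * b j)
  cn : ∀ i, Nat.Coprime n (m i * b i)
  hn : 1 ≤ n
  hm : ∀ i, 1 ≤ m i
  prim : IsPrimitiveRoot ξ n
  pow : ∀ i, x i ^ m i = b i

variable {Ω : Type} [Field Ω] [CharZero Ω] {r : ℕ}

/-- `ℚ(ξ)`. -/
def AA (ξ : Ω) : IntermediateField ℚ Ω := IntermediateField.adjoin ℚ {ξ}

/-- `ℚ(ξ, x_1, …, x_r)`. -/
def FF (ξ : Ω) (x : Fin r → Ω) : IntermediateField ℚ Ω :=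
  IntermediateField.adjoin ℚ ({ξ} ∪ Set.range x)

theorem mem_FF_ξ (ξ : Ω) (x : Fin r → Ω) : ξ ∈ FF ξ x :=
  IntermediateField.subset_adjoin ℚ _ (Or.inl rfl)

theorem mem_FF (ξ : Ω) (x : Fin r → Ω) (i : Fin r) : x i ∈ FF ξ x :=
  IntermediateField.subset_adjoin ℚ _ (Or.inr ⟨i, rfl⟩)

theorem AA_le (ξ : Ω) (x : Fin r → Ω) : AA ξ ≤ FF ξ x := by
  unfold AA
  rw [IntermediateField.adjoin_le_iff, Set.singleton_subset_iff]
  exact mem_FF_ξ ξ x

/-- `ξ` as an element of `ℚ(ξ)`. -/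
def ξA (ξ : Ω) : AA ξ := ⟨ξ, IntermediateField.subset_adjoin ℚ _ rfl⟩

/-- The `x_i` as elements of `ℚ(ξ, x_1, …, x_r)`. -/
def xF (ξ : Ω) (x : Fin r → Ω) (i : Fin r) : FF ξ x := ⟨x i, mem_FF ξ x i⟩

noncomputable instance algAF (ξ : Ω) (x : Fin r → Ω) : Algebra (AA ξ) (FF ξ x) :=
  (IntermediateField.inclusion (AA_le ξ x)).toRingHom.toAlgebra

instance towerAF (ξ : Ω) (x : Fin r → Ω) : IsScalarTower (AA ξ) (FF ξ x) Ω :=
  IsScalarTower.of_algebraMap_eq' rfl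

instance towerQAF (ξ : Ω) (x : Fin r → Ω) : IsScalarTower ℚ (AA ξ) (FF ξ x) :=
  IsScalarTower.of_algebraMap_eq' (RingHom.ext_rat _ _)

theorem FF_mono (ξ η : Ω) (x : Fin r → Ω) (h : η ∈ FF ξ x) : FF η x ≤ FF ξ x := by
  unfold FF at h ⊢
  rw [IntermediateField.adjoin_le_iff]
  rintro y (hy | ⟨i, rfl⟩)
  · rw [Set.mem_singleton_iff] at hy
    rw [hy]
    exact h
  · exact IntermediateField.subset_adjoin ℚ _ (Or.inr ⟨i, rfl⟩)

variable {b m : Fin r → ℕ} {n : ℕ} {ξ : Ω} {x : Fin r → Ω}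

theorem Dat.integral_ξ (h : Dat b m n ξ x) : IsIntegral ℤ ξ := by
  refine IsIntegral.of_pow (Nat.pos_of_ne_zero (by have := h.hn; omega) : 0 < n) ?_
  rw [h.prim.pow_eq_one]
  exact isIntegral_one

theorem Dat.integral_x (h : Dat b m n ξ x) (i : Fin r) : IsIntegral ℤ (x i) := by
  refine IsIntegral.of_pow (Nat.pos_of_ne_zero (by have := h.hm i; omega) : 0 < m i) ?_
  rw [h.pow]
  have h1 : ((b i : ℕ) : Ω) = algebraMap ℤ Ω (b i : ℤ) := by simp
  rw [h1]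
  exact isIntegral_algebraMap

theorem Dat.fin_A (h : Dat b m n ξ x) : FiniteDimensional ℚ (AA ξ) :=
  IntermediateField.adjoin.finiteDimensional (h.integral_ξ.tower_top)

theorem Dat.fin_F (h : Dat b m n ξ x) : FiniteDimensional ℚ (FF ξ x) := by
  unfold FF
  have hfin : Finite (({ξ} ∪ Set.range x : Set Ω)) :=
    ((Set.finite_singleton ξ).union (Set.finite_range x)).to_subtype
  refine IntermediateField.finiteDimensional_adjoin (S := {ξ} ∪ Set.range x) ?_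
  rintro y (hy | ⟨i, rfl⟩)
  · rw [Set.mem_singleton_iff] at hy
    rw [hy]
    exact h.integral_ξ.tower_top
  · exact (h.integral_x i).tower_top

theorem Dat.nf_A (h : Dat b m n ξ x) : NumberField (AA ξ) :=
  have := h.fin_A
  {}

theorem Dat.nf_F (h : Dat b m n ξ x) : NumberField (FF ξ x) :=
  have := h.fin_F
  {}

/-- `n` replaced by a divisor. -/
theorem Dat.pow_q (h : Dat b m n ξ x) (q : ℕ) (hq : q ∣ n) (hq0 : 1 ≤ q) :
    Dat b m (n / q) (ξ ^ q) x where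
  two := h.two
  sqf := h.sqf
  cb := h.cb
  cn := fun i => Nat.Coprime.coprime_dvd_left (Nat.div_dvd_of_dvd hq) (h.cn i)
  hn := Nat.div_pos (Nat.le_of_dvd h.hn hq) hq0
  hm := h.hm
  prim := by
    refine h.prim.pow h.hn ?_
    rw [Nat.mul_div_cancel' hq]
  pow := h.pow

/-- Without the variable `k`. -/
theorem Dat.drop {b m : Fin (r + 1) → ℕ} {x : Fin (r + 1) → Ω} (h : Dat b m n ξ x)
    (k : Fin (r + 1)) :
    Dat (fun i => b (k.succAbove i)) (fun i => m (k.succAbove i)) n ξ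
      (fun i => x (k.succAbove i)) where
  two := fun i => h.two _
  sqf := fun i => h.sqf _
  cb := fun i j hij => h.cb _ _ fun h1 => hij (Fin.succAbove_right_injective h1)
  cn := fun i => h.cn _
  hn := h.hn
  hm := fun i => h.hm _
  prim := h.prim
  pow := fun i => h.pow _

end Pool.Agent.H72.BE
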