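import Pool.Agent.H72.BE.Cla
import Pool.Agent.H72.BE.Dat

/-!
# The Frobenius of `ℚ(ξ)` (MP_187c26_nt, Theorem VR+)

`A` is a cyclotomic extension of `ℚ` (`hgen`, `hξ`). `q ∤ n`: there is an automorphism `σ` with `σ ξ = ξ ^ q` (`ξ ^ q` is a primitive `n`-th root with the same minimal polynomial:
`IsPrimitiveRoot.minpoly_eq_pow_coprime`, `IsCyclotomicExtension.autEquivPow` / `fromZetaAut`). `𝓞 A = ℤ[ξ]` (Mathlib: ring of integers of cyclotomic fields). The set of `a ∈ 𝓞 A` with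
`σ a - a ^ q ∈ q 𝓞 A` is a subring (`(a + a') ^ q ≡ a ^ q + a' ^ q`) which contains `ξ`: it is everything.
-/

set_option autoImplicit false

open NumberField IntermediateField

namespace Pool.Agent.H72.BE

theorem frob_cyc {A : Type} [Field A] [NumberField A] (n : ℕ) (hn : 1 ≤ n) (ξ : A)
    (hξ : IsPrimitiveRoot ξ n) (hgen : IntermediateField.adjoin ℚ {ξ} = ⊤) (q : ℕ)
    (hq : q.Prime) (hqn : ¬ q ∣ n) : ∃ σ : A →+* A, Frob A q σ ∧ σ ξ = ξ ^ q := by
  have hn0 : NeZero n := ⟨by omega⟩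
  have hcyc : IsCyclotomicExtension {n} ℚ A := by
    have h := hξ.intermediateField_adjoin_isCyclotomicExtension ℚ
    rw [hgen] at h
    exact IsCyclotomicExtension.equiv (h := h) {n} ℚ _ IntermediateField.topEquiv
  have hirr := Polynomial.cyclotomic.irreducible_rat (n := n) hn
  have hcop : Nat.Coprime q n := (Nat.Prime.coprime_iff_not_dvd hq).2 hqn
  have hprim : IsPrimitiveRoot (ξ ^ q) n := hξ.pow_of_coprime q hcop
  obtain ⟨τ, hτ⟩ : ∃ τ : A →ₐ[ℚ] A, τ ξ = ξ ^ q := by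
    refine ⟨(hξ.embeddingsEquivPrimitiveRoots A hirr).symm
      ⟨ξ ^ q, (mem_primitiveRoots (Nat.pos_of_ne_zero hn0.out)).2 hprim⟩, ?_⟩
    rw [← hξ.embeddingsEquivPrimitiveRoots_apply_coe A hirr, Equiv.apply_symm_apply]
  refine ⟨(τ : A →+* A), ?_, hτ⟩
  intro a
  change ∃ c : 𝓞 A, τ (a : A) = (a : A) ^ q + q * (c : A)
  have ha : a ∈ Algebra.adjoin ℤ ({hξ.toInteger} : Set (𝓞 A)) := by
    rw [IsCyclotomicExtension.Rat.adjoin_singleton_eq_top hξ]
    exact Algebra.mem_top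
  induction ha using Algebra.adjoin_induction with
  | mem x hx =>
    rw [Set.mem_singleton_iff] at hx
    rw [hx]
    have h0 : ((hξ.toInteger : 𝓞 A) : A) = ξ := rfl
    have h1 : ((0 : 𝓞 A) : A) = 0 := rfl
    refine ⟨0, ?_⟩
    rw [h0, hτ, h1, mul_zero, add_zero]
  | algebraMap r =>
    have h1 : (q : ℤ) ∣ r - r ^ q := by
      have hqf : Fact q.Prime := ⟨hq⟩
      have h2 : ((r ^ q : ℤ) : ZMod q) = ((r : ℤ) : ZMod q) := by
        push_cast
        rw [ZMod.pow_card]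
      exact (ZMod.intCast_eq_intCast_iff_dvd_sub _ _ _).1 h2
    obtain ⟨c, hc⟩ := h1
    refine ⟨(c : 𝓞 A), ?_⟩
    have h3 : ((algebraMap ℤ (𝓞 A) r : 𝓞 A) : A) = (r : A) := by simp
    have h4 : (((c : ℤ) : 𝓞 A) : A) = (c : A) := by simp
    have h5 : (r : A) - (r : A) ^ q = q * (c : A) := by exact_mod_cast congrArg (Int.cast : ℤ → A) hc
    rw [h3, h4, map_intCast, ← h5]
    ring
  | add x y _ _ hx hy =>
    obtain ⟨c, hc⟩ := hx
    obtain ⟨d, hd⟩ := hy
    obtain ⟨e, he⟩ := exists_add_pow_prime_eq hq x y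
    refine ⟨c + d - x * y * e, ?_⟩
    have h1 : ((x + y : 𝓞 A) : A) = (x : A) + y := by simp
    have h2 : (((x : A) + y) ^ q) = (x : A) ^ q + (y : A) ^ q + q * x * y * e := by
      have h3 := congrArg (fun t : 𝓞 A => (t : A)) he
      simpa using h3
    have h4 : ((c + d - x * y * e : 𝓞 A) : A) = (c : A) + d - x * y * e := by simp
    rw [h1, map_add, hc, hd, h2, h4]
    ring
  | mul x y _ _ hx hy =>
    obtain ⟨c, hc⟩ := hx
    obtain ⟨d, hd⟩ := hy
    refine ⟨x ^ q * d + c * y ^ q + q * c * d, ?_⟩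
    have h1 : ((x * y : 𝓞 A) : A) = (x : A) * y := by simp
    have h4 : ((x ^ q * d + c * y ^ q + q * c * d : 𝓞 A) : A) =
        (x : A) ^ q * d + c * (y : A) ^ q + q * c * d := by simp
    rw [h1, map_mul, hc, hd, h4, mul_pow]
    ring

private theorem adjoin_ξA_aux {Ω : Type} [Field Ω] [CharZero Ω] (ξ : Ω) (i : Algebra ℚ (AA ξ)) :
    @IntermediateField.adjoin ℚ _ (AA ξ) _ i {ξA ξ} = ⊤ := by
  have h : i = (AA ξ).algebra' := Subsingleton.elim _ _
  subst h
  apply IntermediateField.lift_injective (AA ξ)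
  rw [IntermediateField.lift_adjoin_simple, IntermediateField.lift_top]
  rfl

theorem adjoin_ξA {Ω : Type} [Field Ω] [CharZero Ω] (ξ : Ω) :
    IntermediateField.adjoin ℚ {ξA ξ} = ⊤ := by
  exact adjoin_ξA_aux ξ _

end Pool.Agent.H72.BE
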