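import Pool.Agent.H69.BE.ClA
import Pool.Agent.H4.RR.AbsHeight

/-!
# Descent: the height inequality (MP_187c26_nt, Theorem VR+)

`f = minpoly F α = ∏_(j=1..d) (Z - a_j)`, `a_j ∈ Ω`; `β` is a root of `f ^ s` (coefficients mapped by `s`). CLAIM: if `f (ζ ^ k β) ≠ 0` for all `k`, then `log q ≤ d log 2 + 2 q d h(α)`.

(0) `h(β) = h(α) = h(a_j)`: the minimal polynomials over `ℚ` agree (`f ∣ (minpoly ℚ α).map`, apply `s`, which fixes `ℚ`): `absLogHeight_eq_of_minpoly_eq` (`H4/RR/AbsHeight.lean`).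
(1) `N` = a number field in `Ω` containing `F`, `β` and the `a_j` (`IntermediateField.adjoin F (…)`, finite dimensional). `Y = ∏_j (β ^ q - a_j ^ q) = ∏_(k<q) f (ζ ^ k β)` (`q` is odd; `x ^ q - y ^ q = ∏_ζ (x - ζ y)`:
`IsPrimitiveRoot.pow_sub_pow_eq_prod_sub_mul` or similar). `Y ≠ 0`.
(2) Embeddings `σ : N → ℂ`: `|σ Y| ≤ 2 ^ d max (1, |σ β|) ^ (q d) ∏_j max (1, |σ a_j|) ^ q`.
(3) Finite places `w` of `N`: `|Y|_w ≤ |q|_w max (1, |β|_w) ^ (q d) ∏_j max (1, |a_j|_w) ^ q`.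
 If `|q|_w = 1` this is trivial (ultrametric). Let `|q|_w < 1`. `scaleV` (`H69/BE/ClA.lean`, for `F` and the coefficients `c_k` of `f`): `λ ∈ F`, `λ ≠ 0`, `u_k = λ c_k ∈ 𝓞 F`, and the `u_k` generate an ideal prime to
 `q`: so `max_k |u_k|_w = 1`. Put `B = max (1, |β|_w) ^ d`, `f_λ = ∑ u_k Z ^ k`. Modulo elements of absolute value `≤ |q|_w B ^ q`:
 `f_λ (β) ^ q = (∑ u_k β ^ k) ^ q ≡ ∑ u_k ^ q β ^ (k q) ≡ ∑ s(u_k) ^ q β ^ (k q) ≡ (∑ s(u_k) β ^ k) ^ q = (s(λ) f ^ s (β)) ^ q = 0` (multinomial coefficients are divisible by `q`; `hs` for the second step). So `|f_λ (β)|_w ^ q ≤ |q|_w B ^ q`.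
 `f_λ (ζ ^ k β) - f_λ (β)`: `|…|_w ≤ |1 - ζ|_w B` or `0`, `|1 - ζ|_w ^ q ≤ |1 - ζ|_w ^ (q - 1) = |q|_w` (`∏_(0<k<q) (1 - ζ ^ k) = q`, the factors are associated; or: `(1 - ζ) ^ q ≡ 1 - ζ ^ q = 0` modulo `q`, so
 `|1 - ζ|_w ^ q ≤ |q|_w`: this is enough). So `|f_λ (ζ ^ k β)|_w ^ q ≤ |q|_w B ^ q` for all `k`, and the product over `k < q`: `|λ ^ q Y|_w ≤ |q|_w B ^ q`. Finally `|λ|_w⁻¹ = max_k |c_k|_w ≤ ∏_j max (1, |a_j|_w)`
 (the `c_k` are elementary symmetric functions of the `a_j`).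
(4) Product formula for `Y` (`prod_formula` in `H72/BE/Fin.lean`): `1 ≤ 2 ^ (d n) q ^ (- n) (H_N (β) ^ d ∏_j H_N (a_j)) ^ q`, `n = [N : ℚ]`, `H_N = mulHeight₁`, `∏_w |q|_w = q ^ (- n)`, `log H_N (y) = n h(y)`
 (`absLogHeight_eq`). So `log q ≤ d log 2 + q d h(β) + q ∑_j h(a_j) = d log 2 + 2 q d h(α)`: contradiction to `hh`.
-/

set_option autoImplicit false

open NumberField IntermediateField Polynomial

namespace Pool.Agent.H72.BE

private theorem db_norm_single {N : Type} [Field N] [NumberField N] (U : 𝓞 N) (hU : U ≠ 0) :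
    (Ideal.absNorm (Ideal.span {U}) : ℝ) = ∏ σ : N →+* ℂ, ‖σ (U : N)‖ := by
  have h := Pool.Agent.H4.RR.height_mul_absNorm N U 0 hU
  have e : Ideal.span {U, (0 : 𝓞 N)} = Ideal.span {U} := by
    rw [Set.pair_comm, Ideal.span_insert_zero]
  have e0 : ((0 : 𝓞 N) : N) = 0 := map_zero (algebraMap (𝓞 N) N)
  rw [e, e0, zero_div, Height.mulHeight₁_zero, one_mul] at h
  rw [h]
  refine Finset.prod_congr rfl fun σ _ => ?_
  rw [map_zero, norm_zero]
  exact max_eq_left (norm_nonneg _)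

private theorem db_coeff_prod {R ι : Type} [CommRing R] (s : Finset ι) (p : ι → R[X])
    (I : ι → Ideal R) (h : ∀ j ∈ s, ∀ n, (p j).coeff n ∈ I j) :
    ∀ n, (∏ j ∈ s, p j).coeff n ∈ ∏ j ∈ s, I j := by
  classical
  induction s using Finset.induction_on with
  | empty => intro n; simp
  | insert a s ha ih =>
    intro n
    rw [Finset.prod_insert ha, Finset.prod_insert ha, coeff_mul]
    exact Ideal.sum_mem _ fun x _ => Ideal.mul_mem_mul (h a (Finset.mem_insert_self _ _) _)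
      (ih (fun j hj => h j (Finset.mem_insert_of_mem hj)) _)

private theorem db_prod_root {N : Type} [Field N] (q : ℕ) (hq : 0 < q) (ζ : N)
    (hζ : IsPrimitiveRoot ζ q) (x y : N) :
    ∏ k ∈ Finset.range q, (x - ζ ^ k * y) = x ^ q - y ^ q := by
  classical
  rw [hζ.pow_sub_pow_eq_prod_sub_mul x y hq]
  have himg : (Finset.range q).image (fun k => ζ ^ k) = nthRootsFinset q (1 : N) := by
    refine Finset.eq_of_subset_of_card_le ?_ ?_
    · intro z hz
      rw [Finset.mem_image] at hz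
      obtain ⟨k, _, rfl⟩ := hz
      rw [mem_nthRootsFinset hq, ← pow_mul, mul_comm, pow_mul, hζ.pow_eq_one, one_pow]
    · rw [hζ.card_nthRootsFinset, Finset.card_image_of_injOn, Finset.card_range]
      intro i hi j hj hij
      simp only [Finset.coe_range, Set.mem_Iio] at hi hj
      exact hζ.pow_inj hi hj hij
  rw [← himg, Finset.prod_image]
  intro i hi j hj hij
  simp only [Finset.coe_range, Set.mem_Iio] at hi hj
  exact hζ.pow_inj hi hj hij

/-- one factor: `P_k ^ q` is divisible by `q` -/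
private theorem db_mem {R : Type} [CommRing R] [IsDomain R] (q : ℕ) (hq : q.Prime) (d : ℕ)
    (u u' : Fin (d + 1) → R) (hs : ∀ i, ∃ w : R, u' i ^ q - u i ^ q = q * w)
    (U V z : R) (hz : z ^ q = 1) (I : Ideal R) (hU : U ∈ I) (hV : V ∈ I)
    (h0 : ∑ i, u' i * (V ^ (i : ℕ) * U ^ (d - (i : ℕ))) = 0) (k : ℕ) :
    (∑ i, u i * (z ^ (k * (i : ℕ)) * (V ^ (i : ℕ) * U ^ (d - (i : ℕ))))) ^ q ∈
      Ideal.span {(q : R)} * (I ^ d) ^ q := by
  have hI : ∀ i : Fin (d + 1), V ^ (i : ℕ) * U ^ (d - (i : ℕ)) ∈ I ^ d := by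
    intro i
    have h1 : I ^ d = I ^ (i : ℕ) * I ^ (d - (i : ℕ)) := by
      rw [← pow_add]
      congr 1
      have := i.2
      omega
    rw [h1]
    exact Ideal.mul_mem_mul (Ideal.pow_mem_pow hV _) (Ideal.pow_mem_pow hU _)
  choose w hw using hs
  have h1 := Pool.Agent.H69.BD.frob_one q hq (I ^ d) Finset.univ
    (fun i : Fin (d + 1) => u i * (z ^ (k * (i : ℕ)) * (V ^ (i : ℕ) * U ^ (d - (i : ℕ)))))
    (fun i _ => Ideal.mul_mem_left _ _ (Ideal.mul_mem_left _ _ (hI i)))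
  have h2 := Pool.Agent.H69.BD.frob_one q hq (I ^ d) Finset.univ
    (fun i : Fin (d + 1) => u' i * (V ^ (i : ℕ) * U ^ (d - (i : ℕ))))
    (fun i _ => Ideal.mul_mem_left _ _ (hI i))
  rw [h0, zero_pow hq.ne_zero, zero_sub] at h2
  have h3 : ∑ i, (u' i * (V ^ (i : ℕ) * U ^ (d - (i : ℕ)))) ^ q -
      ∑ i, (u i * (z ^ (k * (i : ℕ)) * (V ^ (i : ℕ) * U ^ (d - (i : ℕ))))) ^ q ∈
      Ideal.span {(q : R)} * (I ^ d) ^ q := by
    rw [← Finset.sum_sub_distrib]
    refine Ideal.sum_mem _ fun i _ => ?_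
    have e1 : (z ^ (k * (i : ℕ))) ^ q = 1 := by
      rw [← pow_mul, mul_comm, pow_mul, hz, one_pow]
    have e2 : (u' i * (V ^ (i : ℕ) * U ^ (d - (i : ℕ)))) ^ q -
        (u i * (z ^ (k * (i : ℕ)) * (V ^ (i : ℕ) * U ^ (d - (i : ℕ))))) ^ q =
        (q : R) * w i * (V ^ (i : ℕ) * U ^ (d - (i : ℕ))) ^ q := by
      rw [mul_pow (u' i), mul_pow (u i), mul_pow (z ^ (k * (i : ℕ))), e1, one_mul, ← sub_mul, hw i]
    rw [e2]
    exact Ideal.mul_mem_mul (Ideal.mul_mem_right _ _ (Ideal.mem_span_singleton_self _))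
      (Ideal.pow_mem_pow (hI i) _)
  have h4 := Ideal.sub_mem _ (Ideal.sub_mem _ h1 h2) h3
  refine (congrArg (· ∈ Ideal.span {(q : R)} * (I ^ d) ^ q) ?_).mp h4
  ring

private theorem db_core {N : Type} [Field N] [NumberField N] (q : ℕ) (hq : q.Prime) (d : ℕ)
    (l : 𝓞 N) (hl : l ≠ 0) (c : Fin (d + 1) → N)
    (u u' : Fin (d + 1) → 𝓞 N) (hu : ∀ i, (u i : N) = (l : N) * c i)
    (hcop : IsCoprime (Ideal.span {(q : 𝓞 N)}) (Ideal.span (Set.range u)))
    (hs : ∀ i, ∃ w : 𝓞 N, u' i ^ q - u i ^ q = q * w)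
    (β : N) (hβ : ∑ i, (u' i : N) * β ^ (i : ℕ) = 0)
    (a : Fin d → N) (hpol : ∏ j, (X - C (a j)) = ∑ i : Fin (d + 1), C (c i) * X ^ (i : ℕ))
    (ζ : N) (hζ : IsPrimitiveRoot ζ q) (hY : ∀ k : ℕ, ∑ i, c i * (ζ ^ k * β) ^ (i : ℕ) ≠ 0) :
    (q : ℝ) ^ Module.finrank ℚ N ≤ 2 ^ (d * Module.finrank ℚ N) *
      Height.mulHeight₁ β ^ (q * d) * (∏ j, Height.mulHeight₁ (a j)) ^ q := by
  classical
  obtain ⟨V, U, hU, rfl⟩ := IsFractionRing.div_surjective (A := 𝓞 N) β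
  have hU0 : U ≠ 0 := nonZeroDivisors.ne_zero hU
  have hUN : (U : N) ≠ 0 := by exact_mod_cast hU0
  have hTW : ∀ j, ∃ W T : 𝓞 N, T ≠ 0 ∧ a j = (W : N) / (T : N) := by
    intro j
    obtain ⟨W, T, hT, h⟩ := IsFractionRing.div_surjective (A := 𝓞 N) (a j)
    exact ⟨W, T, nonZeroDivisors.ne_zero hT, h.symm⟩
  choose W T hT0 haj using hTW
  have hTN : ∀ j, (T j : N) ≠ 0 := fun j => by exact_mod_cast hT0 j
  have hlN : (l : N) ≠ 0 := by exact_mod_cast hl
  set I : Ideal (𝓞 N) := Ideal.span {U, V} with hI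
  have hUI : U ∈ I := Ideal.subset_span (by simp)
  have hVI : V ∈ I := Ideal.subset_span (by simp)
  have hI0 : I ≠ ⊥ := by
    intro h
    rw [h] at hUI
    exact hU0 (by simpa using hUI)
  set J : Fin d → Ideal (𝓞 N) := fun j => Ideal.span {T j, W j} with hJ
  have hJ0 : ∀ j, J j ≠ ⊥ := by
    intro j h
    have h1 : T j ∈ J j := Ideal.subset_span (by simp)
    rw [h] at h1
    exact hT0 j (by simpa using h1)
  set 𝔠 : Ideal (𝓞 N) := Ideal.span (Set.range u) with h𝔠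
  -- the root of unity
  set z : 𝓞 N := ⟨ζ, hζ.isIntegral hq.pos⟩ with hz
  have hzN : (z : N) = ζ := rfl
  have hzq : z ^ q = 1 := by
    apply RingOfIntegers.ext
    change algebraMap (𝓞 N) N (z ^ q) = algebraMap (𝓞 N) N 1
    rw [map_pow, map_one]
    exact hζ.pow_eq_one
  set P : ℕ → 𝓞 N := fun k =>
    ∑ i, u i * (z ^ (k * (i : ℕ)) * (V ^ (i : ℕ) * U ^ (d - (i : ℕ)))) with hP
  have hpowU : ∀ i : Fin (d + 1), (V : N) ^ (i : ℕ) * (U : N) ^ (d - (i : ℕ)) =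
      (U : N) ^ d * ((V : N) / (U : N)) ^ (i : ℕ) := by
    intro i
    have h1 : (U : N) ^ d = (U : N) ^ (i : ℕ) * (U : N) ^ (d - (i : ℕ)) := by
      rw [← pow_add]
      congr 1
      have := i.2
      omega
    rw [h1, div_pow]
    have h2 : (U : N) ^ (i : ℕ) ≠ 0 := pow_ne_zero _ hUN
    field_simp
  have hPe : ∀ k, (P k : N) = (l : N) * (U : N) ^ d *
      ∑ i, c i * (ζ ^ k * ((V : N) / (U : N))) ^ (i : ℕ) := by
    intro k
    change algebraMap (𝓞 N) N (∑ i, u i * (z ^ (k * (i : ℕ)) * (V ^ (i : ℕ) * U ^ (d - (i : ℕ))))) = _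
    rw [Finset.mul_sum, map_sum]
    refine Finset.sum_congr rfl fun i _ => ?_
    rw [map_mul, map_mul, map_mul, map_pow, map_pow, map_pow, hpowU i]
    have h1 : algebraMap (𝓞 N) N (u i) = (l : N) * c i := hu i
    have h2 : algebraMap (𝓞 N) N z = ζ := rfl
    rw [h1, h2, mul_pow, ← pow_mul]
    ring
  have hPne : ∀ k, P k ≠ 0 := by
    intro k h
    have h1 := hPe k
    have h2 : ((0 : 𝓞 N) : N) = 0 := map_zero (algebraMap (𝓞 N) N)
    rw [h, h2] at h1
    exact (mul_ne_zero (mul_ne_zero hlN (pow_ne_zero _ hUN)) (hY k)) h1.symm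
  have h0 : ∑ i, u' i * (V ^ (i : ℕ) * U ^ (d - (i : ℕ))) = 0 := by
    apply RingOfIntegers.ext
    change algebraMap (𝓞 N) N (∑ i, u' i * (V ^ (i : ℕ) * U ^ (d - (i : ℕ)))) =
      algebraMap (𝓞 N) N 0
    rw [map_sum, map_zero]
    have h1 : ∀ i : Fin (d + 1), algebraMap (𝓞 N) N (u' i * (V ^ (i : ℕ) * U ^ (d - (i : ℕ)))) =
        (U : N) ^ d * ((u' i : N) * ((V : N) / (U : N)) ^ (i : ℕ)) := by
      intro i
      rw [map_mul, map_mul, map_pow, map_pow, hpowU i]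
      ring
    rw [Finset.sum_congr rfl fun i _ => h1 i, ← Finset.mul_sum]
    rw [show ∑ i, (u' i : N) * ((V : N) / (U : N)) ^ (i : ℕ) = 0 from hβ, mul_zero]
  have hPq : ∀ k, P k ^ q ∈ Ideal.span {(q : 𝓞 N)} * (I ^ d) ^ q := fun k =>
    db_mem q hq d u u' hs U V z hzq I hUI hVI h0 k
  have hPc : ∀ k, P k ∈ 𝔠 * I ^ d := by
    intro k
    refine Ideal.sum_mem _ fun i _ => Ideal.mul_mem_mul (Ideal.subset_span ⟨i, rfl⟩)
      (Ideal.mul_mem_left _ _ ?_)
    have h1 : I ^ d = I ^ (i : ℕ) * I ^ (d - (i : ℕ)) := by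
      rw [← pow_add]
      congr 1
      have := i.2
      omega
    rw [h1]
    exact Ideal.mul_mem_mul (Ideal.pow_mem_pow hVI _) (Ideal.pow_mem_pow hUI _)
  have hPm : ∀ k, P k ^ q ∈ Ideal.span {(q : 𝓞 N)} * 𝔠 ^ q * (I ^ d) ^ q := by
    intro k
    have h1 : P k ^ q ∈ 𝔠 ^ q * (I ^ d) ^ q := by
      rw [← mul_pow]
      exact Ideal.pow_mem_pow (hPc k) q
    have hcop2 : IsCoprime (Ideal.span {(q : 𝓞 N)}) (𝔠 ^ q) := hcop.pow_right
    obtain ⟨x, hx, y, hy, hxy⟩ := Ideal.isCoprime_iff_exists.1 hcop2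
    have e1 : P k ^ q = x * P k ^ q + y * P k ^ q := by rw [← add_mul, hxy, one_mul]
    rw [e1]
    refine Ideal.add_mem _ ?_ ?_
    · rw [mul_assoc]
      exact Ideal.mul_mem_mul hx h1
    · rw [mul_comm (Ideal.span {(q : 𝓞 N)}) (𝔠 ^ q), mul_assoc]
      exact Ideal.mul_mem_mul hy (hPq k)
  set n := Module.finrank ℚ N with hn
  have hNq : Ideal.absNorm (Ideal.span {(q : 𝓞 N)}) = q ^ n := by
    rw [Ideal.absNorm_span_natCast, RingOfIntegers.rank]
  set NI : ℝ := (Ideal.absNorm I : ℝ) with hNI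
  set Nc : ℝ := (Ideal.absNorm 𝔠 : ℝ) with hNc
  have hlow : ∀ k, (q : ℝ) ^ n * Nc ^ q * (NI ^ d) ^ q ≤ (∏ σ : N →+* ℂ, ‖σ (P k : N)‖) ^ q := by
    intro k
    have h1 := Pool.Agent.H4.RR.absNorm_le_prod N _ (P k ^ q) (hPm k) (pow_ne_zero _ (hPne k))
    rw [map_mul, map_mul, map_pow, map_pow, map_pow, hNq] at h1
    push_cast at h1
    refine h1.trans (le_of_eq ?_)
    rw [← Finset.prod_pow]
    refine Finset.prod_congr rfl fun σ _ => ?_
    rw [map_pow, norm_pow]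
  have hNc0 : 0 ≤ Nc := Nat.cast_nonneg _
  have hNI0 : 0 ≤ NI := Nat.cast_nonneg _
  have hlow2 : (q : ℝ) ^ n * Nc ^ q * (NI ^ d) ^ q ≤
      ∏ k ∈ Finset.range q, ∏ σ : N →+* ℂ, ‖σ (P k : N)‖ := by
    refine le_of_pow_le_pow_left₀ hq.ne_zero (Finset.prod_nonneg fun k _ =>
      Finset.prod_nonneg fun σ _ => norm_nonneg _) ?_
    rw [← Finset.prod_pow]
    calc ((q : ℝ) ^ n * Nc ^ q * (NI ^ d) ^ q) ^ q =
        ∏ k ∈ Finset.range q, ((q : ℝ) ^ n * Nc ^ q * (NI ^ d) ^ q) := by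
          rw [Finset.prod_const, Finset.card_range]
      _ ≤ _ := Finset.prod_le_prod (fun k _ => by positivity) fun k _ => hlow k
  have hcx : ∀ x : N, ∑ i, c i * x ^ (i : ℕ) = ∏ j, (x - a j) := by
    intro x
    have h1 := congrArg (Polynomial.eval x) hpol
    rw [eval_prod, eval_finsetSum] at h1
    simp only [eval_sub, eval_X, eval_C, eval_mul, eval_pow] at h1
    exact h1.symm
  have hroot : ∀ (σ : N →+* ℂ) (x y : N),
      ∏ k ∈ Finset.range q, ‖σ (ζ ^ k * y - x)‖ = ‖σ x ^ q - σ y ^ q‖ := by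
    intro σ x y
    rw [← map_pow, ← map_pow, ← map_sub, ← db_prod_root q hq.pos ζ hζ x y, map_prod, norm_prod]
    refine Finset.prod_congr rfl fun k _ => ?_
    rw [← norm_neg, ← map_neg, neg_sub]
  set β : N := (V : N) / (U : N) with hβd
  have hmax1 : ∀ x : ℂ, 1 ≤ max 1 ‖x‖ := fun x => le_max_left _ _
  have hmax0 : ∀ x : ℂ, 0 ≤ max 1 ‖x‖ := fun x => zero_le_one.trans (hmax1 x)
  have hdiff : ∀ x y : ℂ, ‖x ^ q - y ^ q‖ ≤ 2 * (max 1 ‖x‖) ^ q * (max 1 ‖y‖) ^ q := by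
    intro x y
    have h1 : ‖x‖ ^ q ≤ (max 1 ‖x‖) ^ q := pow_le_pow_left₀ (norm_nonneg _) (le_max_right _ _) _
    have h2 : ‖y‖ ^ q ≤ (max 1 ‖y‖) ^ q := pow_le_pow_left₀ (norm_nonneg _) (le_max_right _ _) _
    have h3 : 1 ≤ (max 1 ‖x‖) ^ q := one_le_pow₀ (hmax1 x)
    have h4 : 1 ≤ (max 1 ‖y‖) ^ q := one_le_pow₀ (hmax1 y)
    have h5 : ‖x ^ q - y ^ q‖ ≤ ‖x‖ ^ q + ‖y‖ ^ q := by
      refine (norm_sub_le _ _).trans ?_
      rw [norm_pow, norm_pow]
    nlinarith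
  have hUm : ∀ σ : N →+* ℂ, ‖σ (U : N)‖ * max 1 ‖σ β‖ = max ‖σ (U : N)‖ ‖σ (V : N)‖ := by
    intro σ
    have h1 : 0 < ‖σ (U : N)‖ := by
      rw [norm_pos_iff, Ne, map_eq_zero]
      exact hUN
    rw [mul_max_of_nonneg _ _ h1.le, mul_one, hβd, map_div₀, norm_div, mul_div_cancel₀ _ h1.ne']
  have hTm : ∀ (σ : N →+* ℂ) (j : Fin d),
      ‖σ (T j : N)‖ * max 1 ‖σ (a j)‖ = max ‖σ (T j : N)‖ ‖σ (W j : N)‖ := by
    intro σ j
    have h1 : 0 < ‖σ (T j : N)‖ := by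
      rw [norm_pos_iff, Ne, map_eq_zero]
      exact hTN j
    rw [mul_max_of_nonneg _ _ h1.le, mul_one, haj, map_div₀, norm_div, mul_div_cancel₀ _ h1.ne']
  have hup : ∀ σ : N →+* ℂ, ∏ k ∈ Finset.range q, ‖σ (P k : N)‖ ≤
      2 ^ d * (‖σ (l : N)‖ * ∏ j, max 1 ‖σ (a j)‖) ^ q *
        (max ‖σ (U : N)‖ ‖σ (V : N)‖) ^ (d * q) := by
    intro σ
    have h1 : ∀ k ∈ Finset.range q, ‖σ (P k : N)‖ =
        ‖σ (l : N)‖ * ‖σ (U : N)‖ ^ d * ∏ j, ‖σ (ζ ^ k * β - a j)‖ := by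
      intro k _
      rw [hPe, hcx, map_mul, map_mul, map_pow, map_prod, norm_mul, norm_mul, norm_pow, norm_prod]
    rw [Finset.prod_congr rfl h1, Finset.prod_mul_distrib, Finset.prod_const, Finset.card_range,
      Finset.prod_comm]
    have h2 : ∏ j, ∏ k ∈ Finset.range q, ‖σ (ζ ^ k * β - a j)‖ ≤
        ∏ j, (2 * (max 1 ‖σ (a j)‖) ^ q * (max 1 ‖σ β‖) ^ q) := by
      refine Finset.prod_le_prod (fun j _ => Finset.prod_nonneg fun k _ => norm_nonneg _) fun j _ => ?_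
      rw [hroot σ (a j) β]
      exact hdiff _ _
    have h3 : ∏ j, (2 * (max 1 ‖σ (a j)‖) ^ q * (max 1 ‖σ β‖) ^ q) =
        2 ^ d * (∏ j, max 1 ‖σ (a j)‖) ^ q * (max 1 ‖σ β‖) ^ (d * q) := by
      rw [Finset.prod_mul_distrib, Finset.prod_mul_distrib, Finset.prod_const, Finset.prod_const,
        Finset.card_univ, Fintype.card_fin, Finset.prod_pow, ← pow_mul, mul_comm q d]
    rw [h3] at h2
    calc (‖σ (l : N)‖ * ‖σ (U : N)‖ ^ d) ^ q * ∏ j, ∏ k ∈ Finset.range q, ‖σ (ζ ^ k * β - a j)‖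
        ≤ (‖σ (l : N)‖ * ‖σ (U : N)‖ ^ d) ^ q *
          (2 ^ d * (∏ j, max 1 ‖σ (a j)‖) ^ q * (max 1 ‖σ β‖) ^ (d * q)) :=
          mul_le_mul_of_nonneg_left h2 (by positivity)
      _ = 2 ^ d * (‖σ (l : N)‖ * ∏ j, max 1 ‖σ (a j)‖) ^ q *
          (‖σ (U : N)‖ * max 1 ‖σ β‖) ^ (d * q) := by
          rw [mul_pow, mul_pow, mul_pow, ← pow_mul]
          ring
      _ = _ := by rw [hUm]
  -- the multiplier and the content
  set Ut : 𝓞 N := ∏ j, T j with hUt
  have hUt0 : Ut ≠ 0 := Finset.prod_ne_zero_iff.2 fun j _ => hT0 j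
  have hUtN : (Ut : N) = ∏ j, (T j : N) := by
    change algebraMap (𝓞 N) N (∏ j, T j) = _
    rw [map_prod]
  have hc0 : 𝔠 ≠ ⊥ := by
    intro h
    apply hY 0
    refine Finset.sum_eq_zero fun i _ => ?_
    have h1 : u i ∈ 𝔠 := Ideal.subset_span ⟨i, rfl⟩
    rw [h, Ideal.mem_bot] at h1
    have h2 := hu i
    have h3 : ((0 : 𝓞 N) : N) = 0 := map_zero (algebraMap (𝓞 N) N)
    rw [h1, h3] at h2
    rcases mul_eq_zero.1 h2.symm with h4 | h4
    · exact absurd h4 hlN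
    · rw [h4, zero_mul]
  set p : Fin d → (𝓞 N)[X] := fun j => C (T j) * X - C (W j) with hp
  have hpc : ∀ j ∈ Finset.univ, ∀ m, (p j).coeff m ∈ J j := by
    intro j _ m
    rw [hp]
    simp only [coeff_sub, coeff_C_mul]
    refine Ideal.sub_mem _ (Ideal.mul_mem_right _ _ (Ideal.subset_span (by simp))) ?_
    rw [coeff_C]
    split_ifs
    · exact Ideal.subset_span (by simp)
    · exact Ideal.zero_mem _
  have hpm : (∏ j, p j).map (algebraMap (𝓞 N) N) =
      C (Ut : N) * ∑ i : Fin (d + 1), C (c i) * X ^ (i : ℕ) := by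
    rw [← hpol, Polynomial.map_prod, hUtN, map_prod, ← Finset.prod_mul_distrib]
    refine Finset.prod_congr rfl fun j _ => ?_
    rw [hp]
    simp only [Polynomial.map_sub, Polynomial.map_mul, map_C, map_X]
    rw [mul_sub, ← C_mul, haj j, mul_div_cancel₀ _ (hTN j)]
  have hcoef : ∀ i : Fin (d + 1), Ut * u i = l * (∏ j, p j).coeff i := by
    intro i
    apply RingOfIntegers.ext
    change algebraMap (𝓞 N) N (Ut * u i) = algebraMap (𝓞 N) N (l * (∏ j, p j).coeff i)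
    rw [map_mul, map_mul, ← coeff_map, hpm, coeff_C_mul, finsetSum_coeff]
    have h1 : ∑ i' : Fin (d + 1), (C (c i') * X ^ (i' : ℕ)).coeff (i : ℕ) = c i := by
      rw [Finset.sum_eq_single i]
      · simp
      · intro b _ hb
        rw [coeff_C_mul, coeff_X_pow, if_neg (fun h => hb (Fin.ext h.symm)), mul_zero]
      · intro h
        exact absurd (Finset.mem_univ _) h
    rw [h1]
    have h2 : algebraMap (𝓞 N) N (u i) = (l : N) * c i := hu i
    rw [h2]
    ring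
  have hle : Ideal.span {Ut} * 𝔠 ≤ Ideal.span {l} * ∏ j, J j := by
    rw [h𝔠, Ideal.span_mul_span', Ideal.span_le]
    rintro _ ⟨x, hx, y, ⟨i, rfl⟩, rfl⟩
    rw [Set.mem_singleton_iff] at hx
    rw [hx]
    change Ut * u i ∈ _
    rw [hcoef i]
    exact Ideal.mul_mem_mul (Ideal.mem_span_singleton_self _) (db_coeff_prod _ p J hpc _)
  have hspan0 : Ideal.span {Ut} * 𝔠 ≠ ⊥ := by
    rw [Ne, Ideal.mul_eq_bot, not_or]
    refine ⟨?_, hc0⟩
    rw [Ideal.span_singleton_eq_bot]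
    exact hUt0
  have hN1 := Pool.Agent.H4.RR.absNorm_le_of_le N _ _ hle hspan0
  rw [map_mul, map_mul, map_prod] at hN1
  push_cast at hN1
  rw [db_norm_single l hl, db_norm_single Ut hUt0] at hN1
  set NJ : ℝ := ∏ j, (Ideal.absNorm (J j) : ℝ) with hNJ
  have hNJ0 : 0 < NJ := Finset.prod_pos fun j _ => by
    exact_mod_cast Nat.pos_of_ne_zero (fun h => hJ0 j (Ideal.absNorm_eq_zero_iff.1 h))
  have hHJ : ∀ j, Height.mulHeight₁ (a j) * (Ideal.absNorm (J j) : ℝ) =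
      ∏ σ : N →+* ℂ, (‖σ (T j : N)‖ * max 1 ‖σ (a j)‖) := by
    intro j
    have h1 := Pool.Agent.H4.RR.height_mul_absNorm N (T j) (W j) (hT0 j)
    rw [← haj j] at h1
    rw [h1]
    exact Finset.prod_congr rfl fun σ _ => (hTm σ j).symm
  have hA : (∏ σ : N →+* ℂ, ‖σ (l : N)‖) * ∏ σ : N →+* ℂ, ∏ j, max 1 ‖σ (a j)‖ ≤
      Nc * ∏ j, Height.mulHeight₁ (a j) := by
    refine le_of_mul_le_mul_right ?_ hNJ0
    have h1 : 0 ≤ ∏ σ : N →+* ℂ, ∏ j, max 1 ‖σ (a j)‖ :=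
      Finset.prod_nonneg fun σ _ => Finset.prod_nonneg fun j _ => hmax0 _
    have h2 : ∏ σ : N →+* ℂ, ‖σ (Ut : N)‖ = ∏ σ : N →+* ℂ, ∏ j, ‖σ (T j : N)‖ := by
      refine Finset.prod_congr rfl fun σ _ => ?_
      rw [hUtN, map_prod, norm_prod]
    calc (∏ σ : N →+* ℂ, ‖σ (l : N)‖) * (∏ σ : N →+* ℂ, ∏ j, max 1 ‖σ (a j)‖) * NJ
        = ((∏ σ : N →+* ℂ, ‖σ (l : N)‖) * NJ) * ∏ σ : N →+* ℂ, ∏ j, max 1 ‖σ (a j)‖ := by ring
      _ ≤ ((∏ σ : N →+* ℂ, ‖σ (Ut : N)‖) * Nc) * ∏ σ : N →+* ℂ, ∏ j, max 1 ‖σ (a j)‖ :=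
          mul_le_mul_of_nonneg_right hN1 h1
      _ = Nc * ∏ σ : N →+* ℂ, ∏ j, (‖σ (T j : N)‖ * max 1 ‖σ (a j)‖) := by
          rw [h2]
          simp only [Finset.prod_mul_distrib]
          ring
      _ = Nc * ∏ j, (Height.mulHeight₁ (a j) * (Ideal.absNorm (J j) : ℝ)) := by
          rw [Finset.prod_comm]
          simp only [hHJ]
      _ = Nc * (∏ j, Height.mulHeight₁ (a j)) * NJ := by
          rw [Finset.prod_mul_distrib, mul_assoc]
  have hcard : (Finset.univ : Finset (N →+* ℂ)).card = n := by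
    rw [Finset.card_univ]
    exact NumberField.Embeddings.card N ℂ
  have hHβ : ∏ σ : N →+* ℂ, max ‖σ (U : N)‖ ‖σ (V : N)‖ = Height.mulHeight₁ β * NI :=
    (Pool.Agent.H4.RR.height_mul_absNorm N U V hU0).symm
  have hfin : (q : ℝ) ^ n * Nc ^ q * (NI ^ d) ^ q ≤
      (2 ^ d) ^ n * (Nc * ∏ j, Height.mulHeight₁ (a j)) ^ q * (Height.mulHeight₁ β * NI) ^ (d * q) := by
    refine hlow2.trans ?_
    rw [Finset.prod_comm]
    calc ∏ σ : N →+* ℂ, ∏ k ∈ Finset.range q, ‖σ (P k : N)‖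
        ≤ ∏ σ : N →+* ℂ, (2 ^ d * (‖σ (l : N)‖ * ∏ j, max 1 ‖σ (a j)‖) ^ q *
          (max ‖σ (U : N)‖ ‖σ (V : N)‖) ^ (d * q)) :=
          Finset.prod_le_prod (fun σ _ => Finset.prod_nonneg fun k _ => norm_nonneg _)
            fun σ _ => hup σ
      _ = (2 ^ d) ^ n * ((∏ σ : N →+* ℂ, ‖σ (l : N)‖) * ∏ σ : N →+* ℂ, ∏ j, max 1 ‖σ (a j)‖) ^ q *
          (Height.mulHeight₁ β * NI) ^ (d * q) := by
          rw [Finset.prod_mul_distrib, Finset.prod_mul_distrib, Finset.prod_const, hcard,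
            Finset.prod_pow, Finset.prod_pow, hHβ, Finset.prod_mul_distrib]
      _ ≤ _ := by
          have hH0 : 0 ≤ Height.mulHeight₁ β := (Height.mulHeight₁_pos _).le
          have h1 : 0 ≤ (∏ σ : N →+* ℂ, ‖σ (l : N)‖) * ∏ σ : N →+* ℂ, ∏ j, max 1 ‖σ (a j)‖ :=
            mul_nonneg (Finset.prod_nonneg fun σ _ => norm_nonneg _)
              (Finset.prod_nonneg fun σ _ => Finset.prod_nonneg fun j _ => hmax0 _)
          gcongr
  have hNcpos : 0 < Nc := by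
    rw [hNc]
    exact_mod_cast Nat.pos_of_ne_zero (fun h => hc0 (Ideal.absNorm_eq_zero_iff.1 h))
  have hNIpos : 0 < NI := by
    rw [hNI]
    exact_mod_cast Nat.pos_of_ne_zero (fun h => hI0 (Ideal.absNorm_eq_zero_iff.1 h))
  have hpos : 0 < Nc ^ q * (NI ^ d) ^ q := by positivity
  refine le_of_mul_le_mul_right ?_ hpos
  calc (q : ℝ) ^ n * (Nc ^ q * (NI ^ d) ^ q) = (q : ℝ) ^ n * Nc ^ q * (NI ^ d) ^ q := by ring
    _ ≤ _ := hfin
    _ = 2 ^ (d * n) * Height.mulHeight₁ β ^ (q * d) * (∏ j, Height.mulHeight₁ (a j)) ^ q *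
        (Nc ^ q * (NI ^ d) ^ q) := by
        rw [mul_pow, mul_pow, ← pow_mul, ← pow_mul, mul_comm d q]
        ring

private theorem db_conj {F Ω : Type} [Field F] [NumberField F] [Field Ω] [CharZero Ω]
    [Algebra F Ω] (τ : F →+* F) (α γ : Ω) (hα : IsIntegral ℚ α)
    (h : aeval γ ((minpoly F α).map τ) = 0) : absLogHeight₁ γ = absLogHeight₁ α := by
  have h1 : minpoly F α ∣ (minpoly ℚ α).map (algebraMap ℚ F) := by
    apply minpoly.dvd
    rw [aeval_map_algebraMap, minpoly.aeval]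
  have h2 : aeval γ (minpoly ℚ α) = 0 := by
    obtain ⟨r, hr⟩ := h1
    have h4 : ((minpoly ℚ α).map (algebraMap ℚ F)).map τ = (minpoly ℚ α).map (algebraMap ℚ F) := by
      rw [Polynomial.map_map]
      congr 1
      exact Subsingleton.elim _ _
    have h3 : aeval γ ((minpoly ℚ α).map (algebraMap ℚ F)) = 0 := by
      rw [← h4, hr, Polynomial.map_mul, map_mul, h, zero_mul]
    rwa [aeval_map_algebraMap] at h3
  have h3 : minpoly ℚ γ = minpoly ℚ α :=
    (minpoly.eq_of_irreducible_of_monic (minpoly.irreducible hα) h2 (minpoly.monic hα)).symm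
  have h4 : IsIntegral ℚ γ := ⟨minpoly ℚ α, minpoly.monic hα, by rwa [aeval_def] at h2⟩
  exact Pool.Agent.H4.RR.absLogHeight_eq_of_minpoly_eq Ω γ α h4 h3

private theorem db_roots {F Ω : Type} [Field F] [Field Ω] [IsAlgClosed Ω] [Algebra F Ω] (f : F[X])
    (hf : f.Monic) (d : ℕ) (hd : f.natDegree = d) :
    ∃ a : Fin d → Ω, ∏ j, (X - C (a j)) = f.map (algebraMap F Ω) := by
  have hs : (f.map (algebraMap F Ω)).Splits := IsAlgClosed.splits _
  have h1 := hs.eq_prod_roots_of_monic (hf.map _)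
  have h2 := hs.natDegree_eq_card_roots
  rw [hf.natDegree_map, hd] at h2
  obtain ⟨L, hL⟩ : ∃ L : List Ω, (L : Multiset Ω) = (f.map (algebraMap F Ω)).roots :=
    Quot.exists_rep _
  rw [← hL] at h1 h2
  rw [Multiset.coe_card] at h2
  subst h2
  refine ⟨fun j => L.get j, ?_⟩
  rw [h1, Multiset.map_coe, Multiset.prod_coe, ← List.prod_ofFn]
  congr 1
  have h3 : (fun j : Fin L.length => X - C (L.get j)) = (fun x => X - C x) ∘ L.get := rfl
  rw [h3, ← List.map_ofFn, List.ofFn_get]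

theorem desc_height {F Ω : Type} [Field F] [NumberField F] [Field Ω] [CharZero Ω]
    [IsAlgClosed Ω] [Algebra F Ω] (q : ℕ) (hq : q.Prime) (hq2 : 3 ≤ q) (ζ : F)
    (hζ : IsPrimitiveRoot ζ q) (s : F ≃+* F)
    (hs : ∀ y : 𝓞 F, ∃ c : 𝓞 F, s (y : F) ^ q - (y : F) ^ q = q * (c : F)) (α β : Ω)
    (hα : IsIntegral ℚ α) (d : ℕ) (hd : (minpoly F α).natDegree = d)
    (hβ : aeval β ((minpoly F α).map (s : F →+* F)) = 0)
    (hh : 2 * q * d * absLogHeight₁ α + d * Real.log 2 < Real.log q) :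
    ∃ k : ℕ, aeval (algebraMap F Ω (ζ ^ k) * β) (minpoly F α) = 0 := by
  classical
  by_contra hcon
  push Not at hcon
  set f : F[X] := minpoly F α with hf
  have hintF : IsIntegral F α := hα.tower_top
  have hmon : f.Monic := minpoly.monic hintF
  obtain ⟨a, ha⟩ := db_roots (Ω := Ω) f hmon d hd
  have haroot : ∀ j, aeval (a j) f = 0 := by
    intro j
    rw [aeval_def, ← eval_map, ← ha, eval_prod]
    exact Finset.prod_eq_zero (Finset.mem_univ j) (by simp)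
  have hha : ∀ j, absLogHeight₁ (a j) = absLogHeight₁ α := by
    intro j
    refine db_conj (RingHom.id F) α (a j) hα ?_
    rw [Polynomial.map_id]
    exact haroot j
  have hhβ : absLogHeight₁ β = absLogHeight₁ α := db_conj (s : F →+* F) α β hα hβ
  -- the field
  set S : Set Ω := insert β (Set.range a) with hS
  have hfin : S.Finite := (Set.finite_range a).insert β
  have : Finite S := hfin
  set N := IntermediateField.adjoin F S with hN
  have hfd : FiniteDimensional F N := IntermediateField.finiteDimensional_adjoin fun x hx => by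
    rcases hx with rfl | ⟨j, rfl⟩
    · exact ⟨f.map (s : F →+* F), hmon.map _, by rwa [aeval_def] at hβ⟩
    · exact ⟨f, hmon, by have := haroot j; rwa [aeval_def] at this⟩
  have hfdQ : FiniteDimensional ℚ N := FiniteDimensional.trans ℚ F N
  have hnf : NumberField N := {}
  let β' : N := ⟨β, IntermediateField.subset_adjoin F S (Set.mem_insert _ _)⟩
  let a' : Fin d → N := fun j => ⟨a j, IntermediateField.subset_adjoin F S
    (Set.mem_insert_of_mem _ ⟨j, rfl⟩)⟩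
  have hinj : Function.Injective (algebraMap N Ω) := (algebraMap N Ω).injective
  have hFN : ∀ y : F, algebraMap N Ω (algebraMap F N y) = algebraMap F Ω y := fun y => rfl
  have hβ' : algebraMap N Ω β' = β := rfl
  have ha' : ∀ j, algebraMap N Ω (a' j) = a j := fun j => rfl
  -- the coefficients
  have hlast : f.coeff d = 1 := by
    rw [← hd]
    exact hmon
  obtain ⟨lam, V, hlam, hV, hcop⟩ := Pool.Agent.H69.BE.scaleV
    (fun i : Fin (d + 1) => f.coeff i) ⟨Fin.last d, by rw [Fin.val_last, hlast]; exact one_ne_zero⟩ q hq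
  have hVl : (V (Fin.last d) : F) = lam := by
    rw [hV, Fin.val_last, hlast, mul_one]
  set ι : 𝓞 F →+* 𝓞 N := algebraMap (𝓞 F) (𝓞 N) with hι
  have hιN : ∀ x : 𝓞 F, ((ι x : 𝓞 N) : N) = algebraMap F N (x : F) := fun x => rfl
  let sO : 𝓞 F ≃+* 𝓞 F := RingOfIntegers.mapRingEquiv s
  have hsO : ∀ x : 𝓞 F, ((sO x : 𝓞 F) : F) = s (x : F) := fun x => rfl
  have hlN : ((ι (V (Fin.last d)) : 𝓞 N) : N) = algebraMap F N lam := by rw [hιN, hVl]
  have hl0 : ι (V (Fin.last d)) ≠ 0 := by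
    intro h
    have h1 := hlN
    have h2 : ((0 : 𝓞 N) : N) = 0 := map_zero (algebraMap (𝓞 N) N)
    rw [h, h2] at h1
    exact hlam ((map_eq_zero (algebraMap F N)).1 h1.symm)
  have hsum : ∀ (g : F[X]) (x : Ω), g.natDegree < d + 1 →
      aeval x g = ∑ i : Fin (d + 1), algebraMap F Ω (g.coeff i) * x ^ (i : ℕ) := by
    intro g x hg
    rw [aeval_eq_sum_range' hg, Finset.sum_range]
    refine Finset.sum_congr rfl fun i _ => ?_
    rw [Algebra.smul_def]
  have hmain := db_core (N := N) q hq d (ι (V (Fin.last d))) hl0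
    (fun i => algebraMap F N (f.coeff i)) (fun i => ι (V i)) (fun i => ι (sO (V i)))
    (fun i => by rw [hlN, hιN, hV, map_mul])
    (by
      have h1 := hcop.map (Ideal.mapHom ι)
      simp only [Ideal.mapHom_apply] at h1
      rw [Ideal.map_span, Ideal.map_span, Set.image_singleton, map_natCast, ← Set.range_comp] at h1
      exact h1)
    (fun i => by
      obtain ⟨c, hc⟩ := hs (V i)
      refine ⟨ι c, ?_⟩
      have h1 : sO (V i) ^ q - V i ^ q = (q : 𝓞 F) * c := by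
        apply RingOfIntegers.ext
        change algebraMap (𝓞 F) F (sO (V i) ^ q - V i ^ q) = algebraMap (𝓞 F) F ((q : 𝓞 F) * c)
        rw [map_sub, map_pow, map_pow, map_mul, map_natCast]
        exact hc
      have h2 := congrArg ι h1
      rw [map_sub, map_pow, map_pow, map_mul, map_natCast] at h2
      exact h2)
    β'
    (by
      apply hinj
      rw [map_sum, map_zero]
      have h1 : ∀ i : Fin (d + 1), algebraMap N Ω (((ι (sO (V i)) : 𝓞 N) : N) * β' ^ (i : ℕ)) =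
          algebraMap F Ω (s lam) *
            (algebraMap F Ω ((f.map (s : F →+* F)).coeff i) * β ^ (i : ℕ)) := by
        intro i
        rw [map_mul, map_pow, hβ', hιN, hFN, hsO, hV, map_mul, map_mul, coeff_map, mul_assoc]
        rfl
      rw [Finset.sum_congr rfl fun i _ => h1 i, ← Finset.mul_sum, ← hsum _ β
        (by rw [hmon.natDegree_map, hd]; omega), hβ, mul_zero])
    a'
    (by
      apply Polynomial.map_injective (algebraMap N Ω) hinj
      rw [Polynomial.map_prod, Polynomial.map_sum]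
      have h1 : ∀ j, (X - C (a' j)).map (algebraMap N Ω) = X - C (a j) := by
        intro j
        rw [Polynomial.map_sub, map_X, map_C, ha']
      have h2 : ∀ i : Fin (d + 1), (C (algebraMap F N (f.coeff i)) * X ^ (i : ℕ)).map
          (algebraMap N Ω) = C ((f.map (algebraMap F Ω)).coeff i) * X ^ (i : ℕ) := by
        intro i
        rw [Polynomial.map_mul, map_C, Polynomial.map_pow, map_X, hFN, coeff_map]
      rw [Finset.prod_congr rfl fun j _ => h1 j, Finset.sum_congr rfl fun i _ => h2 i, ha]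
      conv_lhs => rw [as_sum_range_C_mul_X_pow' (f.map (algebraMap F Ω))
        (show (f.map (algebraMap F Ω)).natDegree < d + 1 by rw [hmon.natDegree_map, hd]; omega)]
      rw [Finset.sum_range])
    (algebraMap F N ζ) (hζ.map_of_injective (algebraMap F N).injective)
    (fun k h0 => by
      apply hcon k
      have h1 := congrArg (algebraMap N Ω) h0
      rw [map_sum, map_zero] at h1
      rw [hsum f _ (by rw [hd]; omega), ← h1]
      refine Finset.sum_congr rfl fun i _ => ?_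
      rw [map_mul (algebraMap N Ω), map_pow (algebraMap N Ω), map_mul (algebraMap N Ω),
        map_pow (algebraMap N Ω), hβ', hFN, hFN, map_pow (algebraMap F Ω)])
  -- logarithms
  set n := Module.finrank ℚ N with hn
  have hn0 : 0 < n := Module.finrank_pos
  have hnR : (0 : ℝ) < n := by exact_mod_cast hn0
  have hqR : (0 : ℝ) < q := by exact_mod_cast hq.pos
  have hHβ : Real.log (Height.mulHeight₁ β') = n * absLogHeight₁ α := by
    have h1 := Pool.Agent.H4.RR.absLogHeight_eq N Ω (algebraMap N Ω) β'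
    rw [hβ', hhβ, Height.logHeight₁_eq_log_mulHeight₁, ← hn] at h1
    rw [h1]
    field_simp
  have hHa : ∀ j, Real.log (Height.mulHeight₁ (a' j)) = n * absLogHeight₁ α := by
    intro j
    have h1 := Pool.Agent.H4.RR.absLogHeight_eq N Ω (algebraMap N Ω) (a' j)
    rw [ha', hha, Height.logHeight₁_eq_log_mulHeight₁, ← hn] at h1
    rw [h1]
    field_simp
  have hposβ : 0 < Height.mulHeight₁ β' := Height.mulHeight₁_pos _
  have hposa : ∀ j, 0 < Height.mulHeight₁ (a' j) := fun j => Height.mulHeight₁_pos _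
  have hposp : 0 < ∏ j, Height.mulHeight₁ (a' j) := Finset.prod_pos fun j _ => hposa j
  have hlog := Real.log_le_log (by positivity) hmain
  rw [Real.log_pow, Real.log_mul (by positivity) (by positivity), Real.log_mul (by positivity)
    (by positivity), Real.log_pow, Real.log_pow, Real.log_pow,
    Real.log_prod (fun j _ => (hposa j).ne'), hHβ, Finset.sum_congr rfl fun j _ => hHa j,
    Finset.sum_const, Finset.card_univ, Fintype.card_fin, nsmul_eq_mul] at hlog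
  push_cast at hlog
  have h3 : (n : ℝ) * Real.log q ≤ n * (2 * q * d * absLogHeight₁ α + d * Real.log 2) := by
    calc (n : ℝ) * Real.log q ≤ _ := hlog
      _ = _ := by ring
  exact absurd (le_of_mul_le_mul_left h3 hnR) (not_le.2 hh)

end Pool.Agent.H72.BE
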