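import Pool.Agent.H72.BE.Def

/-!
# Coordinates (MP_187c26_nt, Theorem VR+)

Model (r = 1): `Pool/Agent/H72/BD/Co.lean`. `h.co : F ≃ₗ[A] (Gm m → A)`, `h.co.symm f = ∑ l, f l • mon x (vl l)`.

KEY FORMULA: `mon x a = β(a) • mon x (vl (md m a))`, `β(a) = bet b m a = ∏ i, b_i ^ (a_i / m_i)` (`a_i = m_i (a_i / m_i) + a_i % m_i`,
`x_i ^ m_i = b_i`, `(a_i : ZMod (m i)).val = a_i % m_i`). So `co (mon x a) = β(a) δ_(md m a)`.
`co_mon_mul`: expand `y = ∑ l', co y l' • mon x (vl l')`: `mon x a * mon x (vl l') = mon x (a + vl l') = β(a + vl l') mon x (vl (md a + l'))`;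
the coordinate at `l` comes from `l' = l - md m a` only.
`uu_mon_mul`: `β(a + vl l') rw (vl (md a + l')) = rw (a + vl l') = rw a rw (vl l')` (`rho_pow`).
`mon_mul_mem`, `one_mem`, `smul_mem`: from `co_mon_mul`; the elements of `zx` are the combinations of the `mon x (vl l)` with integral
coefficients.
-/

set_option autoImplicit false

open MvPolynomial NumberField

namespace Pool.Agent.H72.BE

variable {r : ℕ} {b m : Fin r → ℕ}

section rho

theorem mon_add {F : Type} [CommMonoid F] (x : Fin r → F) (a c : Fin r → ℕ) :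
    mon x (a + c) = mon x a * mon x c := by
  simp [mon, pow_add, Finset.prod_mul_distrib]

theorem mon_zero {F : Type} [CommMonoid F] (x : Fin r → F) : mon x 0 = 1 := by
  simp [mon]

/-- The integer factor of the reduction of `mon x a` modulo `x_i ^ m_i = b_i`. -/
def bet (b m a : Fin r → ℕ) : ℕ := ∏ i, b i ^ (a i / m i)

theorem rho_pos (hb : ∀ i, 2 ≤ b i) (i : Fin r) : 0 < rho b m i := by
  have h1 := hb i
  exact Real.rpow_pos_of_pos (by exact_mod_cast (by omega : 0 < b i)) _

theorem one_le_rho (hb : ∀ i, 2 ≤ b i) (i : Fin r) : 1 ≤ rho b m i := by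
  have h1 := hb i
  exact Real.one_le_rpow (by exact_mod_cast (by omega : 1 ≤ b i)) (by positivity)

theorem rho_pow (i : Fin r) (hm : m i ≠ 0) : rho b m i ^ m i = b i := by
  exact Real.rpow_inv_natCast_pow (Nat.cast_nonneg _) hm

theorem one_le_rw (hb : ∀ i, 2 ≤ b i) (a : Fin r → ℕ) : 1 ≤ rw b m a := by
  unfold rw mon
  exact Finset.prod_induction _ (fun z : ℝ => 1 ≤ z)
    (fun _ _ h1 h2 => one_le_mul_of_one_le_of_one_le h1 h2) le_rfl
    (fun i _ => one_le_pow₀ (one_le_rho hb i))

theorem rw_add (a c : Fin r → ℕ) : rw b m (a + c) = rw b m a * rw b m c := mon_add _ _ _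

private theorem mon_reduce_aux {K : Type} [CommSemiring K] (y : Fin r → K)
    (hy : ∀ i, y i ^ m i = (b i : K)) (a : Fin r → ℕ) :
    mon y a = (bet b m a : K) * mon y (vl (md m a)) := by
  unfold mon bet
  rw [Nat.cast_prod, ← Finset.prod_mul_distrib]
  refine Finset.prod_congr rfl fun i _ => ?_
  have h1 : vl (md m a) i = a i % m i := ZMod.val_natCast _ _
  rw [h1, Nat.cast_pow, ← hy i, ← pow_mul, ← pow_add, Nat.div_add_mod]

theorem md_add (a c : Fin r → ℕ) : md m (a + c) = md m a + md m c := by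
  funext i
  simp [md]

theorem md_vl [∀ i, NeZero (m i)] (l : Gm m) : md m (vl l) = l := by
  funext i
  exact ZMod.natCast_zmod_val _

theorem bet_ne_zero (hb : ∀ i, 2 ≤ b i) (a : Fin r → ℕ) : bet b m a ≠ 0 := by
  refine Finset.prod_ne_zero_iff.2 fun i _ => pow_ne_zero _ ?_
  have := hb i
  omega

theorem rw_reduce [∀ i, NeZero (m i)] (a : Fin r → ℕ) :
    rw b m a = bet b m a * rw b m (vl (md m a)) := by
  exact mon_reduce_aux _ (fun i => rho_pow i (NeZero.ne _)) a

theorem rw_le (hb : ∀ i, 2 ≤ b i) (a : Fin r → ℕ) (ha : ∀ i, a i ≤ m i) :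
    rw b m a ≤ Bb b := by
  unfold rw mon Bb
  rw [Nat.cast_prod]
  refine Finset.prod_le_prod (fun i _ => (pow_pos (rho_pos hb i) _).le) fun i _ => ?_
  rcases Nat.eq_zero_or_pos (m i) with h0 | h0
  · have h1 : a i = 0 := by
      have := ha i
      omega
    rw [h1, pow_zero]
    have := hb i
    exact_mod_cast (by omega : 1 ≤ b i)
  · rw [← rho_pow (b := b) (m := m) i h0.ne']
    exact pow_le_pow_right₀ (one_le_rho hb i) (ha i)

end rho

variable [∀ i, NeZero (m i)] {A F : Type} [Field A] [NumberField A] [Field F] [NumberField F]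
  [Algebra A F] {x : Fin r → F}

theorem Rad.one_le (h : Rad b m A F x) (i : Fin r) : 1 ≤ m i := Nat.pos_of_ne_zero (NeZero.ne _)

theorem Rad.mon_reduce (h : Rad b m A F x) (a : Fin r → ℕ) :
    mon x a = (bet b m a : F) * mon x (vl (md m a)) := by
  exact mon_reduce_aux _ h.pow a

theorem Rad.co_mon_mul (h : Rad b m A F x) (y : F) (a : Fin r → ℕ) (l : Gm m) :
    h.co (mon x a * y) l = (bet b m (a + vl (l - md m a)) : A) * h.co y (l - md m a) := by
  have key : mon x a * y = h.co.symm
      (fun l => (bet b m (a + vl (l - md m a)) : A) * h.co y (l - md m a)) := by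
    conv_lhs => rw [← h.co.symm_apply_apply y, h.co_symm, Finset.mul_sum]
    rw [h.co_symm, ← Equiv.sum_comp (Equiv.addRight (md m a)) (fun l : Gm m =>
      ((bet b m (a + vl (l - md m a)) : A) * h.co y (l - md m a)) • mon x (vl l))]
    refine Finset.sum_congr rfl fun l' _ => ?_
    show mon x a * (h.co y l' • mon x (vl l')) =
      ((bet b m (a + vl (l' + md m a - md m a)) : A) * h.co y (l' + md m a - md m a)) •
        mon x (vl (l' + md m a))
    rw [add_sub_cancel_right, mul_smul_comm, ← mon_add, h.mon_reduce (a + vl l'), md_add, md_vl,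
      add_comm (md m a) l', Algebra.smul_def, Algebra.smul_def, map_mul, map_natCast]
    ring
  rw [key, h.co.apply_symm_apply]

theorem Rad.co_mon_mul_ne_zero (h : Rad b m A F x) (y : F) (a : Fin r → ℕ) (l : Gm m) :
    h.co (mon x a * y) l ≠ 0 ↔ h.co y (l - md m a) ≠ 0 := by
  rw [h.co_mon_mul, mul_ne_zero_iff_left]
  exact Nat.cast_ne_zero.2 (bet_ne_zero h.two _)

theorem Rad.uu_mon_mul (h : Rad b m A F x) (t : A →+* ℂ) (y : F) (a : Fin r → ℕ) (l : Gm m) :
    h.uu t (mon x a * y) l = (rw b m a : ℂ) * h.uu t y (l - md m a) := by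
  unfold Rad.uu
  have h1 := rw_reduce (b := b) (m := m) (a + vl (l - md m a))
  rw [rw_add, md_add, md_vl, add_sub_cancel] at h1
  rw [h.co_mon_mul, map_mul, map_natCast]
  have h2 : ((rw b m a : ℝ) : ℂ) * (rw b m (vl (l - md m a)) : ℂ) =
      (bet b m (a + vl (l - md m a)) : ℂ) * (rw b m (vl l) : ℂ) := by
    exact_mod_cast h1
  linear_combination (-(t (h.co y (l - md m a)))) * h2

theorem Rad.co_smul_mon (h : Rad b m A F x) (c : A) (a : Fin r → ℕ) (l : Gm m) :
    h.co (algebraMap A F c * mon x a) l = if l = md m a then c * (bet b m a : A) else 0 := by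
  have key : algebraMap A F c * mon x a =
      h.co.symm (fun l => if l = md m a then c * (bet b m a : A) else 0) := by
    rw [h.co_symm, Finset.sum_eq_single (md m a)]
    · rw [if_pos rfl, h.mon_reduce a, Algebra.smul_def, map_mul, map_natCast]
      ring
    · intro l' _ hl'
      rw [if_neg hl', zero_smul]
    · intro h1
      exact absurd (Finset.mem_univ _) h1
  rw [key, h.co.apply_symm_apply]

theorem Rad.one_mem (h : Rad b m A F x) : (1 : F) ∈ h.zx := by
  intro l
  have h1 := h.co_smul_mon 1 0 l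
  rw [map_one, one_mul, mon_zero] at h1
  rw [h1]
  split_ifs
  · rw [one_mul]
    exact isIntegral_natCast _
  · exact isIntegral_zero

theorem Rad.mon_mul_mem (h : Rad b m A F x) (a : Fin r → ℕ) (y : F) (hy : y ∈ h.zx) :
    mon x a * y ∈ h.zx := by
  intro l
  rw [h.co_mon_mul]
  exact (isIntegral_natCast _).mul (hy _)

theorem Rad.smul_mem (h : Rad b m A F x) (c : A) (hc : IsIntegral ℤ c) (y : F)
    (hy : y ∈ h.zx) : algebraMap A F c * y ∈ h.zx := by
  intro l
  rw [← Algebra.smul_def, map_smul, Pi.smul_apply, smul_eq_mul]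
  exact hc.mul (hy l)

theorem Rad.mul_mem (h : Rad b m A F x) (y z : F) (hy : y ∈ h.zx) (hz : z ∈ h.zx) :
    y * z ∈ h.zx := by
  have h1 : y = ∑ l, h.co y l • mon x (vl l) := by
    conv_lhs => rw [← h.co.symm_apply_apply y, h.co_symm]
  rw [h1, Finset.sum_mul]
  refine sum_mem fun l _ => ?_
  rw [Algebra.smul_def, mul_assoc]
  exact h.smul_mem _ (hy l) _ (h.mon_mul_mem _ _ hz)

theorem Rad.isIntegral (h : Rad b m A F x) (y : F) (hy : y ∈ h.zx) : IsIntegral ℤ y := by
  have h1 : y = ∑ l, h.co y l • mon x (vl l) := by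
    conv_lhs => rw [← h.co.symm_apply_apply y, h.co_symm]
  rw [h1]
  refine IsIntegral.sum _ fun l _ => ?_
  rw [Algebra.smul_def]
  refine IsIntegral.mul ((hy l).map (algebraMap A F).toIntAlgHom) ?_
  unfold mon
  refine IsIntegral.prod _ fun i _ => ?_
  refine IsIntegral.pow ?_ _
  refine IsIntegral.of_pow (Nat.pos_of_ne_zero (NeZero.ne (m i))) ?_
  rw [h.pow]
  exact isIntegral_natCast _

/-- Some positive integer multiple of `y` has integral coordinates. -/
theorem Rad.exists_int (h : Rad b m A F x) {ι : Type} [Fintype ι] (y : ι → F) :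
    ∃ D : ℕ, 0 < D ∧ ∀ i, (D : F) * y i ∈ h.zx := by
  classical
  obtain ⟨z, hz0, hz⟩ := exists_integral_multiples ℤ ℚ (L := A)
    (Finset.univ.image (fun p : ι × Gm m => h.co (y p.1) p.2))
  refine ⟨z.natAbs, Int.natAbs_pos.2 hz0, fun i l => ?_⟩
  have h1 := hz _ (Finset.mem_image_of_mem (fun p : ι × Gm m => h.co (y p.1) p.2)
    (Finset.mem_univ (i, l)))
  have h2 : h.co ((z.natAbs : F) * y i) l = (z.natAbs : A) * h.co (y i) l := by
    rw [← map_natCast (algebraMap A F), ← Algebra.smul_def, map_smul, Pi.smul_apply, smul_eq_mul]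
  rw [h2]
  rw [Algebra.smul_def, algebraMap_int_eq, eq_intCast] at h1
  rcases Int.natAbs_eq z with h3 | h3
  · rw [h3] at h1
    simpa using h1
  · rw [h3] at h1
    have h4 := h1.neg
    simpa using h4

end Pool.Agent.H72.BE
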