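import Pool.Agent.H72.BE.DesG
import Pool.Agent.H72.BE.DesB

/-!
# Descent (MP_187c26_nt, Theorem VR+)

PROOF of `desc`. `F = FF ξ x`, `F₀ = FF (ξ ^ q) x ≤ F` (`FF_mono`). If `ξ ∈ F₀`, `F₀ = F` and `η = 1` works. Otherwise `exists_s`: `s`, `ζ = ξ ^ (n / q)` (primitive `q`-th root of unity: `IsPrimitiveRoot.pow`).
`s` fixes the `x_i` and `ξ ^ q` (they are in `F₀`): `frob_cong`. Let `σ : Ω →+* Ω` extend `s` (`IsAlgClosed.lift` for the `F`-algebra structure `F → Ω`, `y ↦ s y`; `Ω` is algebraic over `F`), `β = σ α`. `f = minpoly F α`: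
`f ^ s (β) = σ (f (α)) = 0`. `desc_height`: `k` with `f (ζ ^ k β) = 0`. So there is an `F`-algebra homomorphism `τ : Ω → Ω` with `τ (ζ ^ k β) = α` (`minpoly F (ζ ^ k β) = f`, irreducible; `IsAlgClosed.lift` from `F(ζ ^ k β)`, or
`IntermediateField.exists_algHom_of_splits…`/`Polynomial` root lifting). `σ' = τ ∘ σ` extends `s` (`τ` fixes `F`) and `σ' α = τ β = ζ ^ (-k) α`. `(ii)` for `k`: `η ∈ F`, `η ^ n = 1`, `s η = ζ ^ k η`. So `σ' (η α) = ζ ^ k η ζ ^ (-k) α = η α`.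
Let `α' = η α`, `f' = minpoly F α'`, `natDegree = d` (`η ∈ F`, `η ≠ 0`: `F(α') = F(α)`). `f' ^ s (α') = f' ^ s (σ' α') = σ' (f' (α')) = 0`, so `f' ∣ f' ^ s`, both monic of degree `d`: `f' ^ s = f'`: the coefficients are fixed by
`s`, so they are in `F₀`. So `α'` is a root of a monic polynomial of degree `d` over `F₀`.
-/

set_option autoImplicit false

open NumberField IntermediateField

namespace Pool.Agent.H72.BE

private theorem ext_hom {F Ω M : Type} [Field F] [Field Ω] [Field M] [Algebra F Ω]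
    [Algebra.IsAlgebraic F Ω] [IsAlgClosed M] (f : F →+* M) :
    ∃ σ : Ω →+* M, ∀ y, σ (algebraMap F Ω y) = f y := by
  let _ : Algebra F M := f.toAlgebra
  exact ⟨(IsAlgClosed.lift : Ω →ₐ[F] M), fun y => (IsAlgClosed.lift : Ω →ₐ[F] M).commutes y⟩

private theorem ext_aeval {F Ω : Type} [Field F] [Field Ω] [Algebra F Ω] (s : F ≃+* F)
    (σ : Ω →+* Ω) (hσ : ∀ y, σ (algebraMap F Ω y) = algebraMap F Ω (s y))
    (f : Polynomial F) (α : Ω) (hf : Polynomial.aeval α f = 0) :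
    Polynomial.aeval (σ α) (f.map (s : F →+* F)) = 0 := by
  rw [Polynomial.aeval_def, Polynomial.eval₂_map]
  have h1 : (algebraMap F Ω).comp (s : F →+* F) = σ.comp (algebraMap F Ω) := by
    ext y
    exact (hσ y).symm
  rw [h1, ← Polynomial.hom_eval₂, ← Polynomial.aeval_def, hf, map_zero]

variable {Ω : Type} [Field Ω] [CharZero Ω] [Algebra.IsAlgebraic ℚ Ω] [IsAlgClosed Ω] {r : ℕ}
  {b m : Fin r → ℕ} {n : ℕ} {ξ : Ω} {x : Fin r → Ω}

theorem Dat.desc (h : Dat b m n ξ x) (q : ℕ) (hq : q.Prime) (hq2 : 3 ≤ q) (hqn : q ∣ n)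
    (α : Ω) (d : ℕ) (hd : (minpoly (FF ξ x) α).natDegree = d)
    (hh : 2 * q * d * absLogHeight₁ α + d * Real.log 2 < Real.log q) :
    ∃ η : Ω, η ^ n = 1 ∧ (minpoly (FF (ξ ^ q) x) (η * α)).natDegree ≤ d := by
  by_cases hξ : ξ ∈ FF (ξ ^ q) x
  · have h1 : FF (ξ ^ q) x = FF ξ x := le_antisymm
      (FF_mono ξ (ξ ^ q) x (pow_mem (mem_FF_ξ ξ x) q)) (FF_mono (ξ ^ q) ξ x hξ)
    refine ⟨1, one_pow _, ?_⟩
    rw [h1, one_mul]
    exact hd.le
  have := h.nf_F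
  obtain ⟨s, hs1, hs2⟩ := h.exists_s q hq hqn hξ
  have hprim : IsPrimitiveRoot (ξF ξ x) n :=
    IsPrimitiveRoot.of_map_of_injective (f := algebraMap (FF ξ x) Ω) h.prim
      (algebraMap (FF ξ x) Ω).injective
  have hζ : IsPrimitiveRoot (ξF ξ x ^ (n / q)) q := by
    refine hprim.pow h.hn ?_
    rw [Nat.div_mul_cancel hqn]
  have hsx : ∀ i, s (xF ξ x i) = xF ξ x i := fun i => (hs1 _).2 (mem_FF (ξ ^ q) x i)
  have hsξ : s (ξF ξ x ^ q) = ξF ξ x ^ q := (hs1 _).2 (mem_FF_ξ (ξ ^ q) x)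
  have hfr := h.frob_cong q hq hqn s hsx hsξ
  have hαQ : IsIntegral ℚ α := Algebra.IsIntegral.isIntegral α
  have hαF : IsIntegral (FF ξ x) α := hαQ.tower_top
  have halg : Algebra.IsAlgebraic (FF ξ x) Ω :=
    Algebra.IsAlgebraic.tower_top (K := ℚ) (FF ξ x)
  obtain ⟨σ, hσ⟩ := ext_hom (F := FF ξ x) (Ω := Ω) (M := Ω)
    ((algebraMap (FF ξ x) Ω).comp (s : FF ξ x →+* FF ξ x))
  have hσ' : ∀ y, σ (algebraMap (FF ξ x) Ω y) = algebraMap (FF ξ x) Ω (s y) := hσ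
  have hβ := ext_aeval s σ hσ' (minpoly (FF ξ x) α) α (minpoly.aeval _ _)
  obtain ⟨k, hk⟩ := desc_height q hq hq2 _ hζ s hfr α (σ α) hαQ d hd hβ hh
  obtain ⟨η, hηn, hη⟩ := hs2 k
  have hmin : minpoly (FF ξ x) (algebraMap (FF ξ x) Ω ((ξF ξ x ^ (n / q)) ^ k) * σ α) =
      minpoly (FF ξ x) α :=
    (minpoly.eq_of_irreducible_of_monic (minpoly.irreducible hαF) hk (minpoly.monic hαF)).symm
  have hnorm : Normal (FF ξ x) Ω := by
    have : IsAlgClosure (FF ξ x) Ω := ⟨inferInstance, inferInstance⟩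
    exact IsAlgClosure.normal (FF ξ x) Ω
  obtain ⟨τ, hτ⟩ := isConjRoot_iff_exists_algEquiv.1 hmin
  obtain ⟨ρ, hρ⟩ : ∃ ρ : Ω ≃ₐ[FF ξ x] Ω,
      ρ (algebraMap (FF ξ x) Ω ((ξF ξ x ^ (n / q)) ^ k) * σ α) = α :=
    ⟨τ.symm, by rw [← hτ, AlgEquiv.symm_apply_apply]⟩
  have hn0 : n ≠ 0 := by have := h.hn; omega
  have hη0 : η ≠ 0 := by
    rintro rfl
    rw [zero_pow hn0] at hηn
    exact zero_ne_one hηn
  set ηΩ : Ω := algebraMap (FF ξ x) Ω η with hηΩ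
  have hη0' : ηΩ ≠ 0 := (map_ne_zero _).2 hη0
  -- the homomorphism `ρ ∘ σ`
  set ω : Ω →+* Ω := (ρ : Ω →+* Ω).comp σ with hω
  have hωF : ∀ y, ω (algebraMap (FF ξ x) Ω y) = algebraMap (FF ξ x) Ω (s y) := by
    intro y
    show ρ (σ (algebraMap (FF ξ x) Ω y)) = _
    rw [hσ', AlgEquiv.commutes]
  have hωα : ω (ηΩ * α) = ηΩ * α := by
    show ρ (σ (ηΩ * α)) = _
    rw [map_mul, hηΩ, hσ', hη]
    have h1 : ρ (algebraMap (FF ξ x) Ω ((ξF ξ x ^ (n / q)) ^ k * η) * σ α) =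
        ρ (algebraMap (FF ξ x) Ω ((ξF ξ x ^ (n / q)) ^ k) * σ α) * algebraMap (FF ξ x) Ω η := by
      rw [← AlgEquiv.commutes ρ η, ← map_mul, map_mul (algebraMap (FF ξ x) Ω)]
      congr 1
      ring
    rw [h1, hρ, mul_comm]
  have hα'F : IsIntegral (FF ξ x) (ηΩ * α) :=
    (Algebra.IsIntegral.isIntegral (R := FF ξ x) (ηΩ * α))
  set f := minpoly (FF ξ x) (ηΩ * α) with hf
  have hfmon : f.Monic := minpoly.monic hα'F
  have hfd : f.natDegree ≤ d := by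
    have h1 : Polynomial.aeval (ηΩ * α) ((minpoly (FF ξ x) α).scaleRoots η) = 0 :=
      Polynomial.scaleRoots_aeval_eq_zero (minpoly.aeval _ _)
    have h2 := minpoly.dvd _ _ h1
    have h3 : (minpoly (FF ξ x) α).scaleRoots η ≠ 0 :=
      ((Polynomial.monic_scaleRoots_iff η).2 (minpoly.monic hαF)).ne_zero
    have h4 := Polynomial.natDegree_le_of_dvd h2 h3
    rw [Polynomial.natDegree_scaleRoots, hd] at h4
    exact h4
  have hfs : f.map (s : FF ξ x →+* FF ξ x) = f := by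
    have h1 := ext_aeval s ω hωF f (ηΩ * α) (minpoly.aeval _ _)
    rw [hωα] at h1
    have h2 := minpoly.dvd _ _ h1
    have h3 : (f.map (s : FF ξ x →+* FF ξ x)).natDegree = f.natDegree :=
      hfmon.natDegree_map _
    exact Polynomial.eq_of_monic_of_dvd_of_natDegree_le hfmon (hfmon.map _) h2 h3.le
  have hcoef : ∀ i, ((f.coeff i : FF ξ x) : Ω) ∈ FF (ξ ^ q) x := by
    intro i
    rw [← hs1]
    have h1 := congrArg (fun p => Polynomial.coeff p i) hfs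
    rw [Polynomial.coeff_map] at h1
    exact h1
  have hlift : f.map (algebraMap (FF ξ x) Ω) ∈
      Polynomial.lifts (algebraMap (FF (ξ ^ q) x) Ω) := by
    rw [Polynomial.lifts_iff_coeff_lifts]
    intro i
    rw [Polynomial.coeff_map]
    exact ⟨⟨_, hcoef i⟩, rfl⟩
  obtain ⟨g, hg1, hg2, hg3⟩ := Polynomial.lifts_and_natDegree_eq_and_monic hlift (hfmon.map _)
  refine ⟨ηΩ, ?_, ?_⟩
  · rw [hηΩ, ← map_pow, hηn, map_one]
  · have h1 : Polynomial.aeval (ηΩ * α) g = 0 := by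
      rw [Polynomial.aeval_def, ← Polynomial.eval_map, hg1, Polynomial.eval_map,
        ← Polynomial.aeval_def]
      exact minpoly.aeval _ _
    have h2 := Polynomial.natDegree_le_of_dvd (minpoly.dvd _ _ h1) hg3.ne_zero
    rw [hg2, hfmon.natDegree_map] at h2
    exact h2.trans hfd

end Pool.Agent.H72.BE
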