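import Pool.Agent.H72.BE.DatA

/-!
# Descent: the congruence (MP_187c26_nt, Theorem VR+)

`F = FF ξ x`, `q ∣ n`, `s` an automorphism of `F` which fixes the `x_i` and `ξ ^ q`. `N = ∏ m_i b_i` is prime to `q` (`q ∣ n`, `Dat.cn`).
The set of the integral `y ∈ F` with `s(y) ^ q - y ^ q ∈ q 𝓞 F` is a subring: `(y + z) ^ q ≡ y ^ q + z ^ q`, `s(y + z) ^ q ≡ s(y) ^ q + s(z) ^ q` modulo `q 𝓞 F`, and
`s(yz) ^ q - (yz) ^ q = (s(y) ^ q - y ^ q) s(z) ^ q + y ^ q (s(z) ^ q - z ^ q)`. It contains the `x_i` (fixed) and `ξ` (`s(ξ) ^ q = s(ξ ^ q) = ξ ^ q`), so all of `SS ξ x`. For `y ∈ 𝓞 F`: `N y ∈ SS ξ x` (`int_mul`), so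
`N ^ q (s(y) ^ q - y ^ q) ∈ q 𝓞 F`; Bezout for `N ^ q` and `q`.
-/

set_option autoImplicit false

open NumberField IntermediateField

namespace Pool.Agent.H72.BE

variable {Ω : Type} [Field Ω] [CharZero Ω] {r : ℕ} {b m : Fin r → ℕ} {n : ℕ} {ξ : Ω}
  {x : Fin r → Ω}

/-- `ξ` as an element of `ℚ(ξ, x_1, …, x_r)`. -/
def ξF (ξ : Ω) (x : Fin r → Ω) : FF ξ x := ⟨ξ, mem_FF_ξ ξ x⟩

private theorem fc_pred {F : Type} [Field F] [NumberField F] (s : 𝓞 F ≃+* 𝓞 F) (q : ℕ)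
    (hq : q.Prime) : (∀ y z : 𝓞 F, (∃ c, s y ^ q - y ^ q = q * c) →
      (∃ c, s z ^ q - z ^ q = q * c) → ∃ c, s (y + z) ^ q - (y + z) ^ q = q * c) ∧
    (∀ y z : 𝓞 F, (∃ c, s y ^ q - y ^ q = q * c) →
      (∃ c, s z ^ q - z ^ q = q * c) → ∃ c, s (y * z) ^ q - (y * z) ^ q = q * c) ∧
    ∀ y : 𝓞 F, (∃ c, s y ^ q - y ^ q = q * c) → ∃ c, s (-y) ^ q - (-y) ^ q = q * c := by
  refine ⟨?_, ?_, ?_⟩
  · rintro y z ⟨c, hc⟩ ⟨d, hd⟩
    obtain ⟨t, ht⟩ := exists_add_pow_prime_eq hq (s y) (s z)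
    obtain ⟨u, hu⟩ := exists_add_pow_prime_eq hq y z
    refine ⟨c + d + s y * s z * t - y * z * u, ?_⟩
    rw [map_add, ht, hu]
    linear_combination hc + hd
  · rintro y z ⟨c, hc⟩ ⟨d, hd⟩
    refine ⟨c * s z ^ q + y ^ q * d, ?_⟩
    rw [map_mul, mul_pow, mul_pow]
    linear_combination (s z ^ q) * hc + y ^ q * hd
  · rintro y ⟨c, hc⟩
    refine ⟨(-1) ^ q * c, ?_⟩
    rw [map_neg, neg_pow, neg_pow y]
    linear_combination (-1) ^ q * hc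

theorem Dat.frob_cong [Algebra.IsAlgebraic ℚ Ω] (h : Dat b m n ξ x) [NumberField (FF ξ x)]
    (q : ℕ) (hq : q.Prime) (hqn : q ∣ n) (s : FF ξ x ≃+* FF ξ x)
    (hsx : ∀ i, s (xF ξ x i) = xF ξ x i) (hsξ : s (ξF ξ x ^ q) = ξF ξ x ^ q) :
    ∀ y : 𝓞 (FF ξ x), ∃ c : 𝓞 (FF ξ x),
      s (y : FF ξ x) ^ q - (y : FF ξ x) ^ q = q * (c : FF ξ x) := by
  obtain ⟨s', hs'⟩ : ∃ s' : 𝓞 (FF ξ x) ≃+* 𝓞 (FF ξ x), ∀ y,
      algebraMap (𝓞 (FF ξ x)) (FF ξ x) (s' y) = s (algebraMap (𝓞 (FF ξ x)) (FF ξ x) y) :=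
    ⟨RingOfIntegers.mapRingEquiv s, fun y => rfl⟩
  obtain ⟨padd, pmul, pneg⟩ := fc_pred s' q hq
  have key : ∀ z ∈ SS ξ x, ∃ y : 𝓞 (FF ξ x), ((y : FF ξ x) : Ω) = z ∧
      ∃ c, s' y ^ q - y ^ q = q * c := by
    intro z hz
    unfold SS at hz
    refine Subring.closure_induction (p := fun z _ => ∃ y : 𝓞 (FF ξ x), ((y : FF ξ x) : Ω) = z ∧
      ∃ c, s' y ^ q - y ^ q = q * c) ?_ ?_ ?_ ?_ ?_ ?_ hz
    · rintro z (hz | ⟨i, rfl⟩)
      · rw [Set.mem_singleton_iff] at hz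
        have hint : IsIntegral ℤ (ξF ξ x) := by
          have h1 := h.integral_ξ
          exact (isIntegral_algebraMap_iff (algebraMap (FF ξ x) Ω).injective).1 h1
        obtain ⟨t, ht⟩ : ∃ t : 𝓞 (FF ξ x), algebraMap (𝓞 (FF ξ x)) (FF ξ x) t = ξF ξ x :=
          ⟨⟨ξF ξ x, hint⟩, rfl⟩
        refine ⟨t, by rw [hz]; exact congrArg Subtype.val ht, 0, ?_⟩
        apply RingOfIntegers.coe_injective
        rw [mul_zero, map_sub, map_pow, map_pow, hs', map_zero, ht, ← map_pow, hsξ, sub_self]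
      · have hint : IsIntegral ℤ (xF ξ x i) := by
          have h1 := h.integral_x i
          exact (isIntegral_algebraMap_iff (algebraMap (FF ξ x) Ω).injective).1 h1
        obtain ⟨t, ht⟩ : ∃ t : 𝓞 (FF ξ x), algebraMap (𝓞 (FF ξ x)) (FF ξ x) t = xF ξ x i :=
          ⟨⟨xF ξ x i, hint⟩, rfl⟩
        refine ⟨t, congrArg Subtype.val ht, 0, ?_⟩
        apply RingOfIntegers.coe_injective
        rw [mul_zero, map_sub, map_pow, map_pow, hs', map_zero, ht, hsx, sub_self]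
    · refine ⟨0, by simp, 0, ?_⟩
      rw [map_zero, sub_self, mul_zero]
    · refine ⟨1, by simp, 0, ?_⟩
      rw [map_one, sub_self, mul_zero]
    · rintro z w _ _ ⟨y, hy, hy'⟩ ⟨t, ht, ht'⟩
      refine ⟨y + t, ?_, padd y t hy' ht'⟩
      rw [← hy, ← ht]
      rfl
    · rintro z _ ⟨y, hy, hy'⟩
      refine ⟨-y, ?_, pneg y hy'⟩
      rw [← hy]
      rfl
    · rintro z w _ _ ⟨y, hy, hy'⟩ ⟨t, ht, ht'⟩
      refine ⟨y * t, ?_, pmul y t hy' ht'⟩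
      rw [← hy, ← ht]
      rfl
  intro y
  have hyi : IsIntegral ℤ ((y : FF ξ x) : Ω) := y.isIntegral_coe.map (algebraMap (FF ξ x) Ω).toIntAlgHom
  obtain ⟨t, ht, c, hc⟩ := key _ (h.int_mul _ (y : FF ξ x).2 hyi)
  set N : ℕ := ∏ i, m i * b i with hN
  have htN : t = (N : 𝓞 (FF ξ x)) * y := by
    apply RingOfIntegers.coe_injective
    apply Subtype.ext
    rw [map_mul, map_natCast]
    exact ht
  have hcop : Nat.Coprime (N ^ q) q := by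
    apply Nat.Coprime.pow_left
    rw [hN]
    exact (Nat.Coprime.prod_right fun i _ => Nat.Coprime.coprime_dvd_left hqn (h.cn i)).symm
  have hbez : ∃ u v : ℤ, u * (N ^ q : ℕ) + v * q = 1 := by
    have h1 : IsCoprime ((N ^ q : ℕ) : ℤ) (q : ℤ) := Nat.isCoprime_iff_coprime.2 hcop
    exact h1
  obtain ⟨u, v, huv⟩ := hbez
  have huv' : (u : 𝓞 (FF ξ x)) * (N : 𝓞 (FF ξ x)) ^ q + v * q = 1 := by
    have h1 := congrArg (fun z : ℤ => (z : 𝓞 (FF ξ x))) huv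
    push_cast at h1
    exact h1
  rw [htN, map_mul, map_natCast, mul_pow, mul_pow] at hc
  refine ⟨u * c + v * (s' y ^ q - y ^ q), ?_⟩
  have h2 : s' y ^ q - y ^ q = q * (u * c + v * (s' y ^ q - y ^ q)) := by
    linear_combination (-(s' y ^ q - y ^ q)) * huv' + u * hc
  have h3 := congrArg (algebraMap (𝓞 (FF ξ x)) (FF ξ x)) h2
  rw [map_sub, map_pow, map_pow, hs', map_mul, map_natCast] at h3
  exact h3

end Pool.Agent.H72.BE
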