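import Pool.Agent.H72.BE.DesA

/-!
# Descent: the Galois group of `F / F₀` (MP_187c26_nt, Theorem VR+)

`F = FF ξ x`, `F₀ = FF (ξ ^ q) x ≤ F`, `q ∣ n`, `ζ = ξ ^ (n / q)` a primitive `q`-th root of unity in `F`. Suppose `ξ ∉ F₀`.
CASE A: `q ^ 2 ∣ n`. `ζ = (ξ ^ q) ^ (n / q ^ 2) ∈ F₀`, `F = F₀(ξ)`, `ξ ^ q ∈ F₀` is not a `q`-th power in `F₀` (`y ^ q = ξ ^ q` gives `ξ = ζ ^ k y ∈ F₀`), so `X ^ q - ξ ^ q` is irreducible over `F₀` (`X_pow_sub_C_irreducible_of_prime`),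
`[F : F₀] = q`, and there is `s : F ≃ₐ[F₀] F` with `s ξ = ζ ξ`. Its fixed field `E` does not contain `ξ`, so `[E : F₀]` is a divisor of the prime `q`, `≠ q`: `E = F₀`. (ii): `η = ξ ^ k`.
CASE B: `q ^ 2 ∤ n`: `1 = a q + c (n / q)` (Bezout), `ξ = (ξ ^ q) ^ a ζ ^ c`, so `F = F₀(ζ)` is Galois over `F₀` (cyclotomic extension `{q}`), with group embedded in `(ZMod q)ˣ` (`IsCyclotomicExtension.autToPow_injective`), cyclic.
`s` = a generator; `s ζ = ζ ^ g`; if `g ≡ 1` then `s = 1`, the group is trivial, `F = F₀`, contradiction. Fixed field of `s` = fixed field of the group `= F₀`. (ii): `s (ζ ^ j) = ζ ^ (j (g - 1)) ζ ^ j`, choose `j` with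
`j (g - 1) ≡ k` modulo `q`.
In the statement everything is in `F` with ring automorphisms: `s` fixes the elements of `F₀` and only these.
-/

set_option autoImplicit false

open NumberField IntermediateField

namespace Pool.Agent.H72.BE

variable {Ω : Type} [Field Ω] [CharZero Ω] {r : ℕ} {b m : Fin r → ℕ} {n : ℕ} {ξ : Ω}
  {x : Fin r → Ω}

private theorem gal_one {K L : Type} [Field K] [Field L] [Algebra K L] {ξ : L}
    (htop : Algebra.adjoin K {ξ} = ⊤) (s : L ≃ₐ[K] L) (hs : s ξ = ξ) : s = 1 := by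
  have h1 : (s : L →ₐ[K] L) = AlgHom.id K L :=
    AlgHom.ext_of_adjoin_eq_top htop fun y hy => by
      rw [Set.mem_singleton_iff] at hy
      rw [hy]
      exact hs
  ext y
  exact DFunLike.congr_fun h1 y

private theorem gal_cyc {K L : Type} [Field K] [Field L] [Algebra K L] [FiniteDimensional K L]
    {n q : ℕ} (hn : 1 ≤ n)
    {ξ : L} (hξ : IsPrimitiveRoot ξ n) (hq : q.Prime) (hqn : q ∣ n) {a : K}
    (ha : algebraMap K L a = ξ ^ q) (htop : Algebra.adjoin K {ξ} = ⊤) :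
    IsCyclic (L ≃ₐ[K] L) := by
  have : NeZero q := ⟨hq.ne_zero⟩
  have hξ0 : ξ ≠ 0 := hξ.ne_zero (by omega)
  have hζ : IsPrimitiveRoot (ξ ^ (n / q)) q := by
    refine hξ.pow hn ?_
    rw [Nat.div_mul_cancel hqn]
  by_cases hA : q ∣ n / q
  · -- case A
    have hfix : ∀ (s : L ≃ₐ[K] L) (z : L), z ^ q = 1 → s z = z := by
      intro s z hz
      obtain ⟨i, -, rfl⟩ := hζ.eq_pow_of_pow_eq_one hz
      have h1 : ξ ^ (n / q) = algebraMap K L (a ^ (n / q / q)) := by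
        rw [map_pow, ha, ← pow_mul, Nat.mul_div_cancel' hA]
      rw [h1, ← map_pow, AlgEquiv.commutes]
    have hr : ∀ s : L ≃ₐ[K] L, (s ξ / ξ) ^ q = 1 := by
      intro s
      have h1 : s (ξ ^ q) = ξ ^ q := by rw [← ha, AlgEquiv.commutes]
      rw [div_pow, ← map_pow, h1, div_self (pow_ne_zero _ hξ0)]
    let f : (L ≃ₐ[K] L) →* L :=
      { toFun := fun s => s ξ / ξ
        map_one' := by
          show ξ / ξ = 1
          exact div_self hξ0
        map_mul' := fun s t => by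
          show s (t ξ) / ξ = s ξ / ξ * (t ξ / ξ)
          have h1 := hfix s _ (hr t)
          rw [map_div₀] at h1
          have hs0 : s ξ ≠ 0 := (map_ne_zero s).2 hξ0
          rw [div_eq_iff hs0] at h1
          rw [h1]
          field_simp }
    refine isCyclic_of_injective_ringHom f fun s t hst => ?_
    have h1 : s ξ / ξ = t ξ / ξ := hst
    have h2 : s ξ = t ξ := by
      field_simp at h1
      exact h1
    have h3 : t⁻¹ * s = 1 := gal_one htop _ (by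
      show t.symm (s ξ) = ξ
      rw [h2, AlgEquiv.symm_apply_apply])
    exact (inv_mul_eq_one.1 h3).symm
  · -- case B
    have : Fact q.Prime := ⟨hq⟩
    have hcop : Nat.Coprime q (n / q) := (Nat.Prime.coprime_iff_not_dvd hq).2 hA
    let f : (L ≃ₐ[K] L) →* ZMod q := (Units.coeHom (ZMod q)).comp (hζ.autToPow K)
    refine isCyclic_of_injective_ringHom f ?_
    refine Function.Injective.comp (g := fun u : (ZMod q)ˣ => (u : ZMod q)) Units.val_injective ?_
    rw [injective_iff_map_eq_one]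
    intro s hs
    have h1 : s (ξ ^ (n / q)) = ξ ^ (n / q) := by
      rw [← hζ.autToPow_spec K s, hs]
      rw [Units.val_one, ZMod.val_one, pow_one]
    refine gal_one htop s ?_
    have h2 : s (ξ ^ q) = ξ ^ q := by rw [← ha, AlgEquiv.commutes]
    -- (s ξ / ξ) ^ q = 1, (s ξ / ξ) ^ (n/q) = 1
    have h3 : (s ξ / ξ) ^ q = 1 := by
      rw [div_pow, ← map_pow, h2, div_self (pow_ne_zero _ hξ0)]
    have h4 : (s ξ / ξ) ^ (n / q) = 1 := by
      rw [div_pow, ← map_pow, h1, div_self (pow_ne_zero _ hξ0)]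
    have h5 : s ξ / ξ = 1 := by
      have h6 := Nat.dvd_gcd (orderOf_dvd_of_pow_eq_one h3) (orderOf_dvd_of_pow_eq_one h4)
      rw [hcop.gcd_eq_one, Nat.dvd_one, orderOf_eq_one_iff] at h6
      exact h6
    exact (div_eq_one_iff_eq hξ0).1 h5

private theorem gal_abs {K L : Type} [Field K] [Field L] [Algebra K L] [CharZero K] {n q : ℕ}
    (hn : 1 ≤ n) {ξ : L} (hξ : IsPrimitiveRoot ξ n) (hq : q.Prime) (hqn : q ∣ n) {a : K}
    (ha : algebraMap K L a = ξ ^ q) (htop : Algebra.adjoin K {ξ} = ⊤)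
    (hne : ξ ∉ Set.range (algebraMap K L)) :
    ∃ s : L ≃ₐ[K] L, (∀ y, s y = y ↔ y ∈ Set.range (algebraMap K L)) ∧
      ∀ k : ℕ, ∃ η : L, η ^ n = 1 ∧ s η = (ξ ^ (n / q)) ^ k * η := by
  have : NeZero n := ⟨by omega⟩
  have : NeZero q := ⟨hq.ne_zero⟩
  have : Fact q.Prime := ⟨hq⟩
  have hξ0 : ξ ≠ 0 := hξ.ne_zero (by omega)
  have hc : IsCyclotomicExtension {n} K L := by
    rw [IsCyclotomicExtension.iff_adjoin_eq_top]
    refine ⟨fun r hr _ => ?_, ?_⟩
    · rw [Set.mem_singleton_iff] at hr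
      rw [hr]
      exact ⟨ξ, hξ⟩
    · rw [eq_top_iff, ← htop]
      refine Algebra.adjoin_mono ?_
      rw [Set.singleton_subset_iff]
      exact ⟨n, rfl, by omega, hξ.pow_eq_one⟩
  have : FiniteDimensional K L := IsCyclotomicExtension.finiteDimensional {n} K L
  have : IsGalois K L := IsCyclotomicExtension.isGalois {n} K L
  obtain ⟨s, hs⟩ := (gal_cyc hn hξ hq hqn ha htop).exists_generator
  have hfix : ∀ y, s y = y ↔ y ∈ Set.range (algebraMap K L) := by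
    intro y
    refine ⟨fun hy => ?_, fun ⟨z, hz⟩ => by rw [← hz, AlgEquiv.commutes]⟩
    rw [IsGalois.mem_range_algebraMap_iff_fixed]
    intro f
    have h1 : s ∈ MulAction.stabilizer (L ≃ₐ[K] L) y := hy
    have h2 : f ∈ MulAction.stabilizer (L ≃ₐ[K] L) y :=
      (Subgroup.zpowers_le.2 h1) (hs f)
    exact h2
  refine ⟨s, hfix, fun k => ?_⟩
  have hζ : IsPrimitiveRoot (ξ ^ (n / q)) q := by
    refine hξ.pow hn ?_
    rw [Nat.div_mul_cancel hqn]
  have h1 : s (ξ ^ q) = ξ ^ q := by rw [← ha, AlgEquiv.commutes]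
  have h2 : (s ξ / ξ) ^ q = 1 := by
    rw [div_pow, ← map_pow, h1, div_self (pow_ne_zero _ hξ0)]
  obtain ⟨c, -, hc2⟩ := hζ.eq_pow_of_pow_eq_one h2
  have h3 : s ξ = (ξ ^ (n / q)) ^ c * ξ := by
    rw [hc2, div_mul_cancel₀ _ hξ0]
  have hc0 : (c : ZMod q) ≠ 0 := by
    intro h0
    rw [ZMod.natCast_eq_zero_iff] at h0
    obtain ⟨t, rfl⟩ := h0
    rw [pow_mul, hζ.pow_eq_one, one_pow, one_mul] at h3
    exact hne ((hfix ξ).1 h3)
  refine ⟨ξ ^ ((c : ZMod q)⁻¹ * k).val, ?_, ?_⟩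
  · rw [← pow_mul, mul_comm, pow_mul, hξ.pow_eq_one, one_pow]
  · rw [map_pow, h3, mul_pow, ← pow_mul]
    congr 1
    have h4 : c * ((c : ZMod q)⁻¹ * k).val ≡ k [MOD q] := by
      rw [← ZMod.natCast_eq_natCast_iff, Nat.cast_mul, ZMod.natCast_zmod_val, ← mul_assoc,
        mul_inv_cancel₀ hc0, one_mul]
    exact pow_eq_pow_of_modEq h4 hζ.pow_eq_one

theorem Dat.exists_s (h : Dat b m n ξ x) (q : ℕ) (hq : q.Prime) (hqn : q ∣ n)
    (hξ : ξ ∉ FF (ξ ^ q) x) :
    ∃ s : FF ξ x ≃+* FF ξ x, (∀ y : FF ξ x, s y = y ↔ (y : Ω) ∈ FF (ξ ^ q) x) ∧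
      ∀ k : ℕ, ∃ η : FF ξ x, η ^ n = 1 ∧ s η = (ξF ξ x ^ (n / q)) ^ k * η := by
  have hle : FF (ξ ^ q) x ≤ FF ξ x := FF_mono ξ (ξ ^ q) x (pow_mem (mem_FF_ξ ξ x) q)
  let alg : Algebra (FF (ξ ^ q) x) (FF ξ x) :=
    (IntermediateField.inclusion hle).toRingHom.toAlgebra
  have tow : IsScalarTower (FF (ξ ^ q) x) (FF ξ x) Ω := IsScalarTower.of_algebraMap_eq' rfl
  have htop : Algebra.adjoin (FF (ξ ^ q) x) {ξF ξ x} = ⊤ := by
    have halg : IsIntegral (FF (ξ ^ q) x) ξ := h.integral_ξ.tower_top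
    have h1 : ∀ y ∈ FF ξ x, y ∈ IntermediateField.adjoin (FF (ξ ^ q) x) {ξ} := by
      intro y hy
      have h2 : IntermediateField.adjoin ℚ ({ξ} ∪ Set.range x) ≤
          (IntermediateField.adjoin (FF (ξ ^ q) x) {ξ}).restrictScalars ℚ := by
        rw [IntermediateField.adjoin_le_iff]
        rintro z (hz | ⟨i, rfl⟩)
        · rw [Set.mem_singleton_iff] at hz
          rw [hz]
          exact IntermediateField.mem_adjoin_simple_self _ ξ
        · exact (IntermediateField.adjoin (FF (ξ ^ q) x) {ξ}).algebraMap_mem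
            ⟨x i, mem_FF (ξ ^ q) x i⟩
      exact h2 hy
    rw [Algebra.eq_top_iff]
    intro y
    have h3 := h1 y y.2
    rw [← IntermediateField.mem_toSubalgebra,
      IntermediateField.adjoin_simple_toSubalgebra_of_isAlgebraic halg.isAlgebraic] at h3
    have h4 : (Algebra.adjoin (FF (ξ ^ q) x) {ξF ξ x}).map
        (IsScalarTower.toAlgHom (FF (ξ ^ q) x) (FF ξ x) Ω) =
        Algebra.adjoin (FF (ξ ^ q) x) {ξ} := by
      rw [AlgHom.map_adjoin, Set.image_singleton]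
      rfl
    rw [← h4] at h3
    obtain ⟨z, hz, hzy⟩ := h3
    have h5 : z = y := Subtype.ext hzy
    rw [← h5]
    exact hz
  have hξF : IsPrimitiveRoot (ξF ξ x) n :=
    IsPrimitiveRoot.of_map_of_injective (f := (FF ξ x).val) h.prim (FF ξ x).val.injective
  obtain ⟨s, hs, hk⟩ := gal_abs h.hn hξF hq hqn
    (a := (⟨ξ ^ q, mem_FF_ξ _ x⟩ : FF (ξ ^ q) x)) (Subtype.ext rfl) htop
    (fun ⟨z, hz⟩ => hξ (by
      have h1 : (z : Ω) = ξ := congrArg Subtype.val hz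
      have h2 := z.2
      rwa [h1] at h2))
  exact ⟨s.toRingEquiv, fun y => (hs y).trans ⟨fun ⟨z, hz⟩ => by
    rw [← hz]
    exact z.2, fun hy => ⟨⟨y, hy⟩, rfl⟩⟩, hk⟩

end Pool.Agent.H72.BE
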