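import Pool.Agent.H72.BE.SizeA
import Pool.Agent.H72.BE.Cla

/-!
# Twisted sizes, and a bound for sums (MP_187c26_nt, Theorem VR+, S3)

`prod_wt_map`: `wt (τ v)` at `φ = emb (t, ψ)` is `wz b m a v (t ∘ τ) z` with `z_i = (ρ_i ψ (Pi.single i 1)) ^ Q` (`wt_eq`, `emb_algebraMap`, `emb_x`,
`eval₂_map`), and `z` does not depend on `t`. `t ↦ t ∘ τ` is a bijection of the finite set `A →+* ℂ` (`τ` is surjective: an injective
`ℚ`-linear map of a finite dimensional space; so it is injective). `Rad.prod_emb`.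
`sum_le` (model: `Pool/Agent/H72/BD/Sum.lean`): `‖φ (mon x (r_j))‖ = rw (r_j) ≤ Bb ≤ Bb rw (a_j)` (`norm_mon`, `rw_le`, `one_le_rw`), `|s_j| ≤ S`, Cauchy–Schwarz for
`(d + 1)(R + 1)` terms, `R ≤ R0 r d`, `√((d + 1)(R + 1)) ≤ (d + 1)(R0 r d + 1)`.
-/

set_option autoImplicit false

open MvPolynomial NumberField

namespace Pool.Agent.H72.BE

variable {r : ℕ} {b m : Fin r → ℕ} [∀ i, NeZero (m i)] {A F : Type} [Field A] [NumberField A]
  [Field F] [NumberField F] [Algebra A F] {x : Fin r → F} {d R : ℕ}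

/-- The family `τ v`. -/
noncomputable def tw (τ : A →+* A) (v : Fin (d + 1) → Fin (R + 1) → MvPolynomial (Fin r) A) :
    Fin (d + 1) → Fin (R + 1) → MvPolynomial (Fin r) A := fun i j => map τ (v i j)

private theorem wtm_surj (τ : A →+* A) : Function.Surjective τ := by
  have h1 : Function.Injective (τ.toRatAlgHom.toLinearMap : A →ₗ[ℚ] A) := τ.injective
  have h2 : Function.Surjective (τ.toRatAlgHom.toLinearMap : A →ₗ[ℚ] A) :=
    LinearMap.injective_iff_surjective.1 h1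
  exact h2

private theorem wtm_bij (τ : A →+* A) :
    Function.Bijective fun t : A →+* ℂ => t.comp τ := by
  rw [Finite.injective_iff_bijective.symm]
  intro t t' h
  ext y
  obtain ⟨z, rfl⟩ := wtm_surj τ y
  exact congrArg (fun f : A →+* ℂ => f z) h

private theorem wtm_wz (τ : A →+* A) (a : Fin (R + 1) → Fin r → ℕ)
    (v : Fin (d + 1) → Fin (R + 1) → MvPolynomial (Fin r) A) (t : A →+* ℂ) (z : Fin r → ℂ) :
    wz b m a (tw τ v) t z = wz b m a v (t.comp τ) z := by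
  unfold wz tw
  refine Finset.sum_congr rfl fun i _ => Finset.sum_congr rfl fun j _ => ?_
  rw [eval₂_map]

theorem prod_wt_map (h : Rad b m A F x) (τ : A →+* A) (a : Fin (R + 1) → Fin r → ℕ)
    (v : Fin (d + 1) → Fin (R + 1) → MvPolynomial (Fin r) A) (Q : ℕ) :
    ∏ φ : F →+* ℂ, wt b m x a (tw τ v) Q φ = ∏ φ : F →+* ℂ, wt b m x a v Q φ := by
  have hc : ∀ (t : A →+* ℂ) (ψ : AddChar (Gm m) ℂ),
      (h.emb (t, ψ)).comp (algebraMap A F) = t := by
    intro t ψ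
    ext y
    exact h.emb_algebraMap t ψ y
  have h1 : ∀ v' : Fin (d + 1) → Fin (R + 1) → MvPolynomial (Fin r) A,
      ∏ φ : F →+* ℂ, wt b m x a v' Q φ = ∏ t : A →+* ℂ, ∏ ψ : AddChar (Gm m) ℂ,
        wz b m a v' t (fun i => ((rho b m i : ℂ) * ψ (Pi.single i 1)) ^ Q) := by
    intro v'
    rw [h.prod_emb]
    refine Finset.prod_congr rfl fun t _ => Finset.prod_congr rfl fun ψ _ => ?_
    rw [wt_eq, hc]
    congr 1
    funext i
    rw [h.emb_x]
  rw [h1, h1]
  simp only [wtm_wz]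
  exact (Equiv.ofBijective _ (wtm_bij τ)).prod_comp (fun t : A →+* ℂ =>
    ∏ ψ : AddChar (Gm m) ℂ, wz b m a v t (fun i => ((rho b m i : ℂ) * ψ (Pi.single i 1)) ^ Q))

/-- Cauchy–Schwarz. -/
private theorem wtm_cs {ι : Type} (s : Finset ι) (f : ι → ℝ) :
    ∑ i ∈ s, f i ≤ √(s.card : ℝ) * √(∑ i ∈ s, f i ^ 2) := by
  rw [← Real.sqrt_mul (Nat.cast_nonneg _)]
  exact Real.le_sqrt_of_sq_le sq_sum_le_card_mul_sum_sq

theorem sum_le (h : Rad b m A F x) (a : Fin (R + 1) → Fin r → ℕ)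
    (v : Fin (d + 1) → Fin (R + 1) → MvPolynomial (Fin r) A) (q : ℕ) (hR : R ≤ R0 r d)
    (s : Fin (R + 1) → ℤ) (S : ℕ) (hS : ∀ j, |s j| ≤ S) (r' : Fin (R + 1) → Fin r → ℕ)
    (hr' : ∀ j i, r' j i ≤ m i) (φ : F →+* ℂ) :
    ∑ i, ‖φ (∑ j, (s j : F) * (mon x (r' j) * aeval (fun k => x k ^ q) (v i j)))‖ ≤
      S * Bb b * (d + 1) * (R0 r d + 1) * √(wt b m x a v q φ) := by
  have hrw1 : ∀ j, 1 ≤ rw b m (a j) := fun j => one_le_rw h.two _
  have hterm : ∀ i j, ‖φ ((s j : F) * (mon x (r' j) * aeval (fun k => x k ^ q) (v i j)))‖ ≤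
      S * Bb b * (rw b m (a j) * ‖φ (aeval (fun k => x k ^ q) (v i j))‖) := by
    intro i j
    rw [map_mul, map_mul, norm_mul, norm_mul, h.norm_mon, map_intCast]
    have h1 : ‖((s j : ℤ) : ℂ)‖ ≤ S := by
      rw [Complex.norm_intCast]
      exact_mod_cast hS j
    have h2 : rw b m (r' j) ≤ Bb b * rw b m (a j) :=
      (rw_le h.two _ (hr' j)).trans (le_mul_of_one_le_right (Nat.cast_nonneg _) (hrw1 j))
    have h3 := norm_nonneg (φ (aeval (fun k => x k ^ q) (v i j)))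
    have h4 : 0 ≤ rw b m (r' j) := zero_le_one.trans (one_le_rw h.two _)
    calc ‖((s j : ℤ) : ℂ)‖ * (rw b m (r' j) * ‖φ (aeval (fun k => x k ^ q) (v i j))‖)
        ≤ S * ((Bb b * rw b m (a j)) * ‖φ (aeval (fun k => x k ^ q) (v i j))‖) := by
          apply mul_le_mul h1 (mul_le_mul_of_nonneg_right h2 h3) (by positivity) (Nat.cast_nonneg _)
      _ = S * Bb b * (rw b m (a j) * ‖φ (aeval (fun k => x k ^ q) (v i j))‖) := by ring
  obtain ⟨f, hf⟩ : ∃ f : Fin (d + 1) × Fin (R + 1) → ℝ,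
      f = fun w => rw b m (a w.2) * ‖φ (aeval (fun k => x k ^ q) (v w.1 w.2))‖ := ⟨_, rfl⟩
  have h1 : ∑ i, ‖φ (∑ j, (s j : F) * (mon x (r' j) * aeval (fun k => x k ^ q) (v i j)))‖ ≤
      S * Bb b * ∑ w, f w := by
    rw [Fintype.sum_prod_type, Finset.mul_sum]
    refine Finset.sum_le_sum fun i _ => ?_
    rw [map_sum, Finset.mul_sum]
    refine (norm_sum_le _ _).trans (Finset.sum_le_sum fun j _ => ?_)
    rw [hf]
    exact hterm i j
  have h2 : ∑ w, f w ^ 2 = wt b m x a v q φ := by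
    rw [wt, Fintype.sum_prod_type]
    refine Finset.sum_congr rfl fun i _ => Finset.sum_congr rfl fun j _ => ?_
    rw [hf]
    simp only []
    rw [mul_pow]
  have h3 := wtm_cs Finset.univ f
  rw [h2] at h3
  have h4 : √((Finset.univ : Finset (Fin (d + 1) × Fin (R + 1))).card : ℝ) ≤
      (d + 1) * (R0 r d + 1) := by
    rw [Finset.card_univ, Fintype.card_prod, Fintype.card_fin, Fintype.card_fin]
    have hR' : (R : ℝ) ≤ R0 r d := by exact_mod_cast hR
    have h5 : (1 : ℝ) ≤ ((d : ℝ) + 1) * (R + 1) := by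
      have h6 : (0 : ℝ) ≤ d := Nat.cast_nonneg _
      have h7 : (0 : ℝ) ≤ R := Nat.cast_nonneg _
      nlinarith [mul_nonneg h6 h7]
    push_cast
    calc √(((d : ℝ) + 1) * (R + 1)) ≤ ((d : ℝ) + 1) * (R + 1) := by
          rw [Real.sqrt_le_left (by positivity)]
          nlinarith
      _ ≤ (d + 1) * (R0 r d + 1) := by
          apply mul_le_mul_of_nonneg_left (by linarith) (by positivity)
  calc _ ≤ S * Bb b * ∑ w, f w := h1
    _ ≤ S * Bb b * (((d + 1) * (R0 r d + 1)) * √(wt b m x a v q φ)) := by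
        apply mul_le_mul_of_nonneg_left _ (by positivity)
        exact h3.trans (mul_le_mul_of_nonneg_right h4 (Real.sqrt_nonneg _))
    _ = _ := by ring

end Pool.Agent.H72.BE
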