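import Pool.Agent.H72.BE.KronA

/-!
# Kronecker type lemma in several dimensions (MP_187c26_nt, Theorem VR+, S5)

WALK. `Y_i(t) = a_i + t d_i`, `fl_i(t) = q (Y_i(t) % m_i) / m_i ∈ [0, q - 1]` (integers, floor). `D = |d_i0| / m_i0 = max |d_i| / m_i`, `1 / T < D < 1 / q`.
Let `t1` = least `t` with `t |d_i0| q ≥ (P + 2)(r + 1) m_i0`; `t1 ≤ (P + 2)(r + 1) T + 1` (`|d_i0| T > m_i0`) and `t1 D < (P + 2)(r + 1) / q + D < ((P + 2)(r + 1) + 1) / q < 1`.
So each `w_i(t) = ⌊Y_i(t) / m_i⌋` is monotone on `0 ≤ t ≤ t1` and changes at most once, by `± 1` (`t1 |d_i| < m_i`). The `t1` steps `t → t + 1` contain at most `r` steps at which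
some `w_i` changes; the other (at least `t1 - r`) steps form at most `r + 1` runs, so there is a segment `t_a ≤ t ≤ t_b` without change of any `w_i` with
`(t_b - t_a)(r + 1) ≥ t1 - r`. (Formally: let `E` be the finite set of the at most `r` bad `t`; pigeonhole on `t ↦ #{e ∈ E | e < t} ∈ {0, …, r}`: the fibres are
the segments.) Then `(t_b - t_a) D ≥ (P + 2) / q - D ≥ (P + 1) / q`. On the segment `Y_i0(t) % m_i0 = Y_i0(t) - const` is monotone with steps `|d_i0| < m_i0 / q`, and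
changes in total by at least `(P + 1) m_i0 / q`: so `fl_i0` is monotone with steps `≤ 1` and changes by at least `P + 1`: it takes `P + 1` different values, at
`t_0, …, t_P`. For `t, t'` in the segment `|fl_i(t) - fl_i(t')| ≤ q |Y_i(t) - Y_i(t')| / m_i + 1 ≤ q t1 D + 1 ≤ (P + 2)(r + 1) + 2`.

`kronr`: `P = (2 H + 1) ^ 2`, `U = (P + 2)(r + 1) + 2`, `q0` a prime larger than `Q1`, `(∏ b) ^ U`, `(P + 2)(r + 1) + 1`. `N = 1 + M (q0 + 1) ^ r ((P + 2)(r + 1) T + 1)`.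
`r = 0`: `h = 1`. `dirichlet_r` with `X = q0 + 1`: `h`, `k_i`, `d_i = h M a_i - k_i m_i`, `|d_i| (q0 + 1) < m_i`. If the conclusion fails for this `h`, some `|d_i| T > m_i`; take `i0` with
`|d_i0| / m_i0` maximal: also `|d_i0| T > m_i0`. `walk_r`: `t_0, …, t_P`. `(1 + M h t) a_i ≡ a_i + t d_i` modulo `m_i`, so the exponent `q0 ((1 + M (h t)) a_i % m_i) / m_i` is `fl_i(t)`
and the hypothesis applies to `h t_j` (`1 + M h t_j ≤ N`): all `z_j = ∏ b_i ^ fl_i(t_j)` are `BQ H q0`, pairwise incongruent by `prod_pow_ne`: `P + 1 ≤ (2 H + 1) ^ 2 = P`, contradiction.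
-/

set_option autoImplicit false

namespace Pool.Agent.H72.BE

private theorem kb_div1 {m u v c : ℤ} (hm : 0 < m) (h : |u - v| ≤ c * m) :
    |u / m - v / m| ≤ c := by
  rw [abs_le] at h ⊢
  constructor
  · have h1 : v / m - c ≤ u / m := by
      rw [Int.le_ediv_iff_mul_le hm]
      have h2 := Int.ediv_mul_le v hm.ne'
      linarith [h.1]
    linarith
  · have h1 : u / m - c ≤ v / m := by
      rw [Int.le_ediv_iff_mul_le hm]
      have h2 := Int.ediv_mul_le u hm.ne'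
      linarith [h.2]
    linarith

private theorem kb_div2 {m u v c : ℤ} (hm : 0 < m) (h : c * m ≤ u - v) : c ≤ u / m - v / m := by
  have h1 : v / m + c ≤ u / m := by
    rw [Int.le_ediv_iff_mul_le hm]
    have h2 := Int.ediv_mul_le v hm.ne'
    linarith
  linarith

private theorem kb_div3 {m u v c : ℤ} (hm : 0 < m) (h : c * m ≤ |u - v|) :
    c ≤ |u / m - v / m| := by
  rcases le_total 0 (u - v) with h0 | h0
  · rw [abs_of_nonneg h0] at h
    exact (kb_div2 hm h).trans (le_abs_self _)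
  · rw [abs_of_nonpos h0] at h
    have h1 : c * m ≤ v - u := by linarith
    have h2 := kb_div2 hm h1
    rw [abs_sub_comm]
    exact h2.trans (le_abs_self _)

private theorem kb_same {m u v : ℤ} (h : u / m = v / m) : u % m - v % m = u - v := by
  have h1 := Int.mul_ediv_add_emod u m
  have h2 := Int.mul_ediv_add_emod v m
  rw [h] at h1
  linarith

private theorem kb_two {m u1 u2 u3 u4 : ℤ} (hm : 0 < m) (h12 : u1 ≤ u2) (h23 : u2 ≤ u3)
    (h34 : u3 ≤ u4) (h1 : u1 / m ≠ u2 / m) (h2 : u3 / m ≠ u4 / m) : m < u4 - u1 := by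
  have e1 : u1 / m < u2 / m := lt_of_le_of_ne (Int.ediv_le_ediv hm h12) h1
  have e2 : u2 / m ≤ u3 / m := Int.ediv_le_ediv hm h23
  have e3 : u3 / m < u4 / m := lt_of_le_of_ne (Int.ediv_le_ediv hm h34) h2
  have e4 : u1 / m + 2 ≤ u4 / m := by omega
  have e5 := Int.ediv_mul_le u4 hm.ne'
  have e6 : u1 < (u1 / m + 1) * m := Int.lt_ediv_add_one_mul_self u1 hm
  have e7 : (u1 / m + 2) * m ≤ u4 / m * m := mul_le_mul_of_nonneg_right e4 hm.le
  nlinarith

private theorem kb_two' {m : ℤ} (hm : 0 < m) {y d : ℤ} {t1 t2 t3 t4 : ℕ} (h12 : t1 ≤ t2)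
    (h23 : t2 ≤ t3) (h34 : t3 ≤ t4) (h1 : (y + t1 * d) / m ≠ (y + t2 * d) / m)
    (h2 : (y + t3 * d) / m ≠ (y + t4 * d) / m) : m < t4 * |d| := by
  have c1 : (t1 : ℤ) ≤ t2 := by exact_mod_cast h12
  have c2 : (t2 : ℤ) ≤ t3 := by exact_mod_cast h23
  have c3 : (t3 : ℤ) ≤ t4 := by exact_mod_cast h34
  have c0 : (0 : ℤ) ≤ t1 := Int.natCast_nonneg _
  rcases le_total 0 d with h0 | h0
  · rw [abs_of_nonneg h0]
    have h3 := kb_two hm (u1 := y + t1 * d) (u2 := y + t2 * d) (u3 := y + t3 * d)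
      (u4 := y + t4 * d) (by nlinarith) (by nlinarith) (by nlinarith) h1 h2
    nlinarith
  · rw [abs_of_nonpos h0]
    have h3 := kb_two hm (u1 := y + t4 * d) (u2 := y + t3 * d) (u3 := y + t2 * d)
      (u4 := y + t1 * d) (by nlinarith) (by nlinarith) (by nlinarith) h2.symm h1.symm
    nlinarith

private theorem kb_mid {m : ℤ} (hm : 0 < m) {y d : ℤ} {t1 t2 t : ℕ} (h12 : t1 ≤ t)
    (h23 : t ≤ t2) (h1 : (y + t1 * d) / m = (y + t2 * d) / m) :
    (y + t * d) / m = (y + t1 * d) / m := by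
  have c1 : (t1 : ℤ) ≤ t := by exact_mod_cast h12
  have c2 : (t : ℤ) ≤ t2 := by exact_mod_cast h23
  rcases le_total 0 d with h0 | h0
  · have e1 : (y + t1 * d) / m ≤ (y + t * d) / m := Int.ediv_le_ediv hm (by nlinarith)
    have e2 : (y + t * d) / m ≤ (y + t2 * d) / m := Int.ediv_le_ediv hm (by nlinarith)
    omega
  · have e1 : (y + t * d) / m ≤ (y + t1 * d) / m := Int.ediv_le_ediv hm (by nlinarith)
    have e2 : (y + t2 * d) / m ≤ (y + t * d) / m := Int.ediv_le_ediv hm (by nlinarith)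
    omega

/-- discrete intermediate value theorem -/
private theorem kb_ivt (f : ℕ → ℤ) (L P : ℕ) (h1 : ∀ s < L, |f (s + 1) - f s| ≤ 1)
    (h2 : (P : ℤ) ≤ |f L - f 0|) (v : ℕ) (hv : v ≤ P) : ∃ s ≤ L, |f s - f 0| = v := by
  classical
  have hex : ∃ s, s ≤ L ∧ (v : ℤ) ≤ |f s - f 0| := ⟨L, le_rfl, by omega⟩
  obtain ⟨hs1, hs2⟩ := Nat.find_spec hex
  obtain ⟨s, hs⟩ : ∃ s, s = Nat.find hex := ⟨_, rfl⟩
  rw [← hs] at hs1 hs2
  refine ⟨s, hs1, le_antisymm ?_ hs2⟩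
  rcases Nat.eq_zero_or_pos s with h0 | h0
  · rw [h0, sub_self, abs_zero]
    exact Int.natCast_nonneg _
  · obtain ⟨u, rfl⟩ : ∃ u, s = u + 1 := ⟨s - 1, by omega⟩
    have h3 : ¬ (u ≤ L ∧ (v : ℤ) ≤ |f u - f 0|) := Nat.find_min hex (by omega)
    have h4 : |f u - f 0| < v := by
      by_contra hcon
      push Not at hcon
      exact h3 ⟨by omega, hcon⟩
    have h5 := h1 u (by omega)
    have h6 : |f (u + 1) - f 0| ≤ |f (u + 1) - f u| + |f u - f 0| := abs_sub_le _ _ _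
    omega

theorem walk_r {r : ℕ} (m : Fin r → ℕ) (hm : ∀ i, 1 ≤ m i) (q P T : ℕ)
    (a d : Fin r → ℤ) (hd : ∀ i, |d i| * q < m i) (i0 : Fin r) (h0 : (m i0 : ℤ) < |d i0| * T)
    (hmax : ∀ i, |d i| * m i0 ≤ |d i0| * m i) (hq : (P + 2) * (r + 1) + 1 < q) :
    ∃ t : Fin (P + 1) → ℕ, (∀ j, t j ≤ (P + 2) * (r + 1) * T + 1) ∧
      (∀ j j', j ≠ j' → (q : ℤ) * ((a i0 + t j * d i0) % m i0) / m i0 ≠
        (q : ℤ) * ((a i0 + t j' * d i0) % m i0) / m i0) ∧
      ∀ j j' i, |(q : ℤ) * ((a i + t j * d i) % m i) / m i -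
        (q : ℤ) * ((a i + t j' * d i) % m i) / m i| ≤ ((P + 2) * (r + 1) + 2 : ℕ) := by
  classical
  obtain ⟨K, hK⟩ : ∃ K, K = (P + 2) * (r + 1) := ⟨_, rfl⟩
  rw [← hK] at hq ⊢
  obtain ⟨D, hD⟩ : ∃ D : ℕ, D = (d i0).natAbs := ⟨_, rfl⟩
  have hDabs : |d i0| = (D : ℤ) := by rw [hD]; exact Int.abs_eq_natAbs _
  rw [hDabs] at h0
  have h0' : m i0 < D * T := by exact_mod_cast h0
  have hD0 : 0 < D := by
    rcases Nat.eq_zero_or_pos D with h | h
    · rw [h, zero_mul] at h0'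
      omega
    · exact h
  have hT0 : 0 < T := by
    rcases Nat.eq_zero_or_pos T with h | h
    · rw [h, mul_zero] at h0'
      omega
    · exact h
  have hq0 : 0 < q := by omega
  have hDq : D * q < m i0 := by
    have h1 := hd i0
    rw [hDabs] at h1
    exact_mod_cast h1
  have hDq0 : 0 < D * q := Nat.mul_pos hD0 hq0
  obtain ⟨t1, ht1⟩ : ∃ t1, t1 = K * m i0 / (D * q) + 1 := ⟨_, rfl⟩
  have e1 : K * m i0 < t1 * (D * q) := by
    rw [ht1]
    have h1 := Nat.lt_div_mul_add (a := K * m i0) hDq0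
    linarith
  have e2 : t1 * (D * q) < (K + 1) * m i0 := by
    rw [ht1]
    have h1 := Nat.div_mul_le_self (K * m i0) (D * q)
    linarith
  have e3 : t1 ≤ K * T + 1 := by
    rw [ht1]
    have h1 : K * m i0 / (D * q) ≤ K * T := by
      apply Nat.div_le_of_le_mul
      have h2 : K * m i0 ≤ K * (D * T) := Nat.mul_le_mul_left K h0'.le
      have h3 : K * (D * T) ≤ D * q * (K * T) := by
        have h4 : D * q * (K * T) = K * (D * T) * q := by ring
        rw [h4]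
        exact Nat.le_mul_of_pos_right _ hq0
      exact h2.trans h3
    omega
  have hmi : ∀ i, (0 : ℤ) < m i := fun i => by exact_mod_cast hm i
  -- total length of the walk
  have e4 : ∀ i, (q : ℤ) * (t1 * |d i|) < (K + 1) * m i := by
    intro i
    have h1 := hmax i
    rw [hDabs] at h1
    have h2 : ((t1 * (D * q) : ℕ) : ℤ) < (((K + 1) * m i0 : ℕ) : ℤ) := by exact_mod_cast e2
    push_cast at h2
    have h3 : (0 : ℤ) < m i0 := hmi i0
    have h4 : (0 : ℤ) < m i := hmi i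
    have h5 : (t1 : ℤ) * q * (|d i| * m i0) ≤ t1 * q * (D * m i) :=
      mul_le_mul_of_nonneg_left h1 (by positivity)
    have h6 : (t1 : ℤ) * (D * q) * m i < (K + 1) * m i0 * m i := mul_lt_mul_of_pos_right h2 h4
    have h7 : (q : ℤ) * (t1 * |d i|) * m i0 < (K + 1) * m i * m i0 := by
      calc (q : ℤ) * (t1 * |d i|) * m i0 = t1 * q * (|d i| * m i0) := by ring
        _ ≤ t1 * q * (D * m i) := h5
        _ = t1 * (D * q) * m i := by ring
        _ < (K + 1) * m i0 * m i := h6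
        _ = (K + 1) * m i * m i0 := by ring
    exact lt_of_mul_lt_mul_right h7 h3.le
  have e5 : ∀ i, (t1 : ℤ) * |d i| < m i := by
    intro i
    have h1 := e4 i
    have h2 : ((K : ℤ) + 1) * m i ≤ q * m i := by
      have h3 : ((K : ℤ) + 1) ≤ q := by exact_mod_cast hq.le
      exact mul_le_mul_of_nonneg_right h3 (hmi i).le
    have h3 : (q : ℤ) * (t1 * |d i|) < q * m i := h1.trans_le h2
    exact lt_of_mul_lt_mul_left h3 (by positivity)
  -- the blocks
  obtain ⟨n, hn⟩ : ∃ n, n = (t1 + 1) / (r + 1) := ⟨_, rfl⟩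
  have b1 : n * (r + 1) ≤ t1 + 1 := by rw [hn]; exact Nat.div_mul_le_self _ _
  have b2 : t1 + 1 < (n + 1) * (r + 1) := by
    rw [hn]
    have h1 := Nat.lt_div_mul_add (a := t1 + 1) (Nat.succ_pos r)
    have h2 : (t1 + 1) / (r + 1) * (r + 1) + (r + 1) = ((t1 + 1) / (r + 1) + 1) * (r + 1) := by ring
    rw [← h2]
    exact h1
  have b3 : K < t1 := by
    by_contra hcon
    push Not at hcon
    have h1 : t1 * (D * q) ≤ K * m i0 := Nat.mul_le_mul hcon hDq.le
    omega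
  have b4 : r + 1 ≤ K := by
    rw [hK]
    exact Nat.le_mul_of_pos_left _ (by omega)
  have b5 : 1 ≤ n := by
    rcases Nat.eq_zero_or_pos n with h | h
    · rw [h] at b2
      omega
    · exact h
  obtain ⟨L, rfl⟩ : ∃ L, n = L + 1 := ⟨n - 1, by omega⟩
  -- length of a block
  have b6 : P * m i0 ≤ L * (D * q) := by
    by_contra hcon
    push Not at hcon
    have h1 : t1 ≤ L * (r + 1) + 2 * r := by
      have h2 : (L + 1 + 1) * (r + 1) = L * (r + 1) + 2 * r + 2 := by ring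
      omega
    have h2 : K * m i0 < (L * (r + 1) + 2 * r) * (D * q) :=
      e1.trans_le (Nat.mul_le_mul_right _ h1)
    have h3 : L * (D * q) * (r + 1) ≤ P * m i0 * (r + 1) := Nat.mul_le_mul_right _ hcon.le
    have h4 : 2 * r * (D * q) ≤ 2 * (r + 1) * m i0 := Nat.mul_le_mul (by omega) hDq.le
    have h5 : (L * (r + 1) + 2 * r) * (D * q) = L * (D * q) * (r + 1) + 2 * r * (D * q) := by ring
    have h6 : K * m i0 = P * m i0 * (r + 1) + 2 * (r + 1) * m i0 := by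
      rw [hK]
      ring
    omega
  -- a block without a change of the quotients
  have b7 : ∃ j : Fin (r + 1), ∀ i, (a i + ((j * (L + 1) : ℕ) : ℤ) * d i) / m i =
      (a i + ((j * (L + 1) + L : ℕ) : ℤ) * d i) / m i := by
    by_contra hcon
    push Not at hcon
    choose g hg using hcon
    obtain ⟨j, j', hne, hjj⟩ := Fintype.exists_ne_map_eq_of_card_lt g (by simp)
    have key : ∀ j j' : Fin (r + 1), j < j' → g j ≠ g j' := by
      intro j j' hlt hjj
      have h1 := hg j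
      have h2 := hg j'
      rw [← hjj] at h2
      have hlt' : (j : ℕ) + 1 ≤ j' := hlt
      have h3 : (j : ℕ) * (L + 1) + L ≤ j' * (L + 1) := by
        have h4 : ((j : ℕ) + 1) * (L + 1) ≤ j' * (L + 1) := Nat.mul_le_mul_right _ hlt'
        have h5 : ((j : ℕ) + 1) * (L + 1) = j * (L + 1) + L + 1 := by ring
        omega
      have h4 := kb_two' (hmi (g j)) (Nat.le_add_right _ _) h3 (Nat.le_add_right _ _) h1 h2
      have h5 : (j' : ℕ) * (L + 1) + L ≤ t1 := by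
        have h6 : (j' : ℕ) + 1 ≤ r + 1 := j'.2
        have h7 : ((j' : ℕ) + 1) * (L + 1) ≤ (r + 1) * (L + 1) := Nat.mul_le_mul_right _ h6
        have h8 : ((j' : ℕ) + 1) * (L + 1) = j' * (L + 1) + L + 1 := by ring
        have h9 : (r + 1) * (L + 1) = (L + 1) * (r + 1) := by ring
        omega
      have h6 : (((j' * (L + 1) + L : ℕ) : ℤ)) * |d (g j)| ≤ t1 * |d (g j)| :=
        mul_le_mul_of_nonneg_right (by exact_mod_cast h5) (abs_nonneg _)
      have h7 := e5 (g j)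
      linarith
    rcases lt_or_gt_of_ne hne with h | h
    · exact key _ _ h hjj
    · exact key _ _ h hjj.symm
  obtain ⟨j, hj⟩ := b7
  obtain ⟨ta, hta⟩ : ∃ ta, ta = (j : ℕ) * (L + 1) := ⟨_, rfl⟩
  rw [← hta] at hj
  have htb : ta + L ≤ t1 := by
    have h6 : (j : ℕ) + 1 ≤ r + 1 := j.2
    have h7 : ((j : ℕ) + 1) * (L + 1) ≤ (r + 1) * (L + 1) := Nat.mul_le_mul_right _ h6
    have h8 : ((j : ℕ) + 1) * (L + 1) = j * (L + 1) + L + 1 := by ring
    have h9 : (r + 1) * (L + 1) = (L + 1) * (r + 1) := by ring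
    omega
  have hconst : ∀ s ≤ L, ∀ i, (a i + ((ta + s : ℕ) : ℤ) * d i) / m i =
      (a i + (ta : ℤ) * d i) / m i := fun s hs i =>
    kb_mid (hmi i) (Nat.le_add_right _ _) (Nat.add_le_add_left hs _) (hj i)
  have hdiff : ∀ s ≤ L, ∀ s' ≤ L, ∀ i,
      (q : ℤ) * ((a i + ((ta + s : ℕ) : ℤ) * d i) % m i) -
        q * ((a i + ((ta + s' : ℕ) : ℤ) * d i) % m i) = q * (((s : ℤ) - s') * d i) := by
    intro s hs s' hs' i
    have h1 := kb_same ((hconst s hs i).trans (hconst s' hs' i).symm)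
    rw [← mul_sub, h1]
    push_cast
    ring
  obtain ⟨f, hf⟩ : ∃ f : ℕ → ℤ, f = fun s =>
      (q : ℤ) * ((a i0 + ((ta + s : ℕ) : ℤ) * d i0) % m i0) / m i0 := ⟨_, rfl⟩
  have hf1 : ∀ s < L, |f (s + 1) - f s| ≤ 1 := by
    intro s hs
    rw [hf]
    refine kb_div1 (hmi i0) ?_
    rw [hdiff (s + 1) (by omega) s (by omega) i0, abs_mul, abs_mul, hDabs]
    have h1 : (((s + 1 : ℕ) : ℤ)) - s = 1 := by push_cast; ring
    rw [h1, abs_one, one_mul, one_mul, abs_of_nonneg (by positivity : (0 : ℤ) ≤ q)]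
    have h2 : ((D * q : ℕ) : ℤ) < m i0 := by exact_mod_cast hDq
    push_cast at h2
    linarith
  have hf2 : (P : ℤ) ≤ |f L - f 0| := by
    rw [hf]
    refine kb_div3 (hmi i0) ?_
    rw [hdiff L le_rfl 0 (Nat.zero_le _) i0, abs_mul, abs_mul, hDabs]
    have h1 : |((L : ℤ)) - ((0 : ℕ) : ℤ)| = L := by
      rw [Nat.cast_zero, sub_zero]
      exact abs_of_nonneg (by positivity)
    rw [h1, abs_of_nonneg (by positivity : (0 : ℤ) ≤ q)]
    have h2 : ((P * m i0 : ℕ) : ℤ) ≤ ((L * (D * q) : ℕ) : ℤ) := by exact_mod_cast b6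
    push_cast at h2
    linarith
  have hsel : ∀ v : Fin (P + 1), ∃ s, s ≤ L ∧ |f s - f 0| = ((v : ℕ) : ℤ) := fun v =>
    kb_ivt f L P hf1 hf2 v (Nat.lt_succ_iff.1 v.2)
  choose s hs1 hs2 using hsel
  refine ⟨fun v => ta + s v, fun v => ?_, fun v v' hvv heq => ?_, fun v v' i => ?_⟩
  · have h1 := hs1 v
    show ta + s v ≤ K * T + 1
    omega
  · have h1 : f (s v) = f (s v') := by
      rw [hf]
      exact heq
    have h2 := hs2 v
    rw [h1, hs2 v'] at h2
    apply hvv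
    apply Fin.ext
    exact_mod_cast h2.symm
  · refine kb_div1 (hmi i) ?_
    rw [hdiff (s v) (hs1 v) (s v') (hs1 v') i, abs_mul, abs_mul,
      abs_of_nonneg (by positivity : (0 : ℤ) ≤ q)]
    have h1 : |((s v : ℤ)) - (s v' : ℤ)| ≤ t1 := by
      have h2 := hs1 v
      have h3 := hs1 v'
      rw [abs_le]
      constructor <;> omega
    have h2 : |((s v : ℤ)) - (s v' : ℤ)| * |d i| ≤ t1 * |d i| :=
      mul_le_mul_of_nonneg_right h1 (abs_nonneg _)
    have h3 : (q : ℤ) * (|((s v : ℤ)) - (s v' : ℤ)| * |d i|) ≤ q * (t1 * |d i|) :=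
      mul_le_mul_of_nonneg_left h2 (by positivity)
    have h4 := e4 i
    have h5 : ((K : ℤ) + 1) * m i ≤ ((K + 2 : ℕ) : ℤ) * m i := by
      push_cast
      exact mul_le_mul_of_nonneg_right (by linarith) (hmi i).le
    linarith

theorem kronr {r : ℕ} (b : Fin r → ℕ) (hb : ∀ i, 2 ≤ b i)
    (hc : ∀ i j, i ≠ j → Nat.Coprime (b i) (b j)) (H Q1 : ℕ) :
    ∃ q0 : ℕ, q0.Prime ∧ Q1 ≤ q0 ∧ ∀ M T : ℕ, 1 ≤ M → ∃ N : ℕ, 1 ≤ N ∧
      ∀ m a : Fin r → ℕ, (∀ i, 1 ≤ m i) →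
        (∀ t : ℕ, 1 + M * t ≤ N →
          BQ H q0 (∏ i, (b i : ℤ) ^ (q0 * ((1 + M * t) * a i % m i) / m i))) →
        ∃ h : ℕ, 1 ≤ h ∧ h ≤ (q0 + 1) ^ r ∧
          ∀ i, ∃ k : ℤ, |(h : ℤ) * M * a i - k * m i| * T ≤ m i := by
  obtain ⟨P, hP⟩ : ∃ P, P = (2 * H + 1) ^ 2 := ⟨_, rfl⟩
  obtain ⟨U, hU⟩ : ∃ U, U = (P + 2) * (r + 1) + 2 := ⟨_, rfl⟩
  obtain ⟨q0, hq0, hp⟩ := Nat.exists_infinite_primes (Q1 + (∏ i, b i) ^ U + U + 1)
  refine ⟨q0, hp, by omega, fun M T hM => ?_⟩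
  refine ⟨1 + M * ((q0 + 1) ^ r * ((P + 2) * (r + 1) * T + 1)), by omega, fun m a hm hbq => ?_⟩
  obtain ⟨h, hh1, hh2, hh3⟩ := dirichlet_r m a hm M (q0 + 1) (by omega)
  refine ⟨h, hh1, hh2, ?_⟩
  choose k hk using hh3
  by_contra hcon
  push Not at hcon
  obtain ⟨i1, hi1⟩ := hcon
  have hmi : ∀ i, (0 : ℤ) < m i := fun i => by exact_mod_cast hm i
  obtain ⟨d, hd⟩ : ∃ d : Fin r → ℤ, d = fun i => (h : ℤ) * M * a i - k i * m i := ⟨_, rfl⟩
  have hd1 : ∀ i, |d i| * ((q0 + 1 : ℕ) : ℤ) < m i := by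
    intro i
    rw [hd]
    exact hk i
  have hd2 : ∀ i, |d i| * q0 < m i := by
    intro i
    have h1 := hd1 i
    push_cast at h1
    have h2 := abs_nonneg (d i)
    linarith
  have hi1' : (m i1 : ℤ) < |d i1| * T := by
    rw [hd]
    exact hi1 (k i1)
  -- the largest quotient
  obtain ⟨i0, -, hi0⟩ := Finset.exists_max_image Finset.univ
    (fun i => ((|d i| : ℤ) : ℚ) / (m i : ℚ)) ⟨i1, Finset.mem_univ _⟩
  have hmax : ∀ i, |d i| * m i0 ≤ |d i0| * m i := by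
    intro i
    have h1 := hi0 i (Finset.mem_univ _)
    have h2 : (0 : ℚ) < m i := by exact_mod_cast hm i
    have h3 : (0 : ℚ) < m i0 := by exact_mod_cast hm i0
    rw [div_le_div_iff₀ h2 h3] at h1
    exact_mod_cast h1
  have h0 : (m i0 : ℤ) < |d i0| * T := by
    have h1 := hmax i1
    have h2 : (m i1 : ℤ) * m i0 < |d i1| * T * m i0 := mul_lt_mul_of_pos_right hi1' (hmi i0)
    have h3 : |d i1| * m i0 * T ≤ |d i0| * m i1 * T :=
      mul_le_mul_of_nonneg_right h1 (by positivity)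
    have h4 : (m i0 : ℤ) * m i1 < |d i0| * T * m i1 := by
      calc (m i0 : ℤ) * m i1 = m i1 * m i0 := by ring
        _ < |d i1| * T * m i0 := h2
        _ = |d i1| * m i0 * T := by ring
        _ ≤ |d i0| * m i1 * T := h3
        _ = |d i0| * T * m i1 := by ring
    exact lt_of_mul_lt_mul_right h4 (hmi i1).le
  obtain ⟨t, ht1, ht2, ht3⟩ := walk_r m hm q0 P T (fun i => (a i : ℤ)) d hd2 i0 h0 hmax (by omega)
  obtain ⟨e, he⟩ : ∃ e : Fin (P + 1) → Fin r → ℕ,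
      e = fun j i => q0 * ((1 + M * (h * t j)) * a i % m i) / m i := ⟨_, rfl⟩
  have he' : ∀ j i, ((e j i : ℕ) : ℤ) = (q0 : ℤ) * (((a i : ℤ) + t j * d i) % m i) / m i := by
    intro j i
    have h6 : ((1 + M * (h * t j)) * a i : ℤ) = ((a i : ℤ) + t j * d i) + m i * (t j * k i) := by
      rw [hd]
      ring
    rw [he]
    push_cast
    rw [h6, Int.add_mul_emod_self_left]
  have hz : ∀ j, BQ H q0 (∏ i, (b i : ℤ) ^ e j i) := by
    intro j
    rw [he]
    refine hbq (h * t j) ?_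
    have h7 : h * t j ≤ (q0 + 1) ^ r * ((P + 2) * (r + 1) * T + 1) := Nat.mul_le_mul hh2 (ht1 j)
    have h8 := Nat.mul_le_mul_left M h7
    omega
  have hne : ∀ j j', j ≠ j' →
      ¬ (q0 : ℤ) ∣ (∏ i, (b i : ℤ) ^ e j i) - ∏ i, (b i : ℤ) ^ e j' i := by
    intro j j' hjj
    refine prod_pow_ne b hb hc q0 U hp (by omega) (e j) (e j') (fun i => ?_) fun heq => ?_
    · have h1 := ht3 j j' i
      rw [← he', ← he', ← hU, abs_le] at h1
      omega
    · refine ht2 j j' hjj ?_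
      rw [← he', ← he', heq]
  have hfin := bq_card H q0 hp _ hz hne
  rw [← hP] at hfin
  omega

end Pool.Agent.H72.BE
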