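import Pool.Agent.H72.BE.Chain
import Pool.Agent.H72.BE.KronB

/-!
# The windows are near rational positions (MP_187c26_nt, Theorem VR+, S5)

Model (r = 1): `Pool/Agent/H72/BD/Avoid.lean`.

PROOF of `avoid`. `chain` for `n'` and for `n' q0` (`Sm Q1 q0`: `q0` is prime and `≥ Q1`): the first gives `v` and (`chain_size`, `Q = q0 ≤ N`) the size; the second gives that the
windows `(n' q0) a_j % m = q0 (n' a_j % m) % m` are disjoint with `gap ≥ q0 n' ℓ` (`inw_mono`). `two` for `α ^ (n0 n')`, `q = q0`, `a_j := n' a_j % m`, the Frobenius `S.frob q0`: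
`s` with `|s_j| ≤ 4 K1 ^ R0`, `q0 ∤ s_0`, `q0 ∣ s_j - s_0 bet (q0 (n' a_j % m))`, `bet = ∏ b_i ^ (q0 (n' a_ji % m_i) / m_i)`.
PROOF of `near_pos`: `hkr` for each `j` (`a = a j`), the hypothesis is `avoid` for `n' = 1 + M t ≤ N1`, `Sm Q1 (1 + M t)` by `Pool.Agent.H72.BD.sm_of_mod`.
-/

set_option autoImplicit false

open MvPolynomial NumberField

namespace Pool.Agent.H72.BE

open Pool.Agent.H72.BD (Sm sm_of_mod)

variable {r : ℕ} {b m : Fin r → ℕ} [∀ i, NeZero (m i)] {A F : Type} [Field A] [NumberField A]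
  [Field F] [NumberField F] [Algebra A F] {x : Fin r → F} {h : Rad b m A F x} {Ω : Type}
  [Field Ω] [CharZero Ω] [Algebra F Ω] {α : Ω} {d R n0 N : ℕ} {ℓ gap k L : Fin r → ℕ} {Q1 : ℕ}
  {a : Fin (R + 1) → Fin r → ℕ} {T : ℝ}

theorem avoid (S : Setup h α d R n0 N ℓ gap k L Q1 a T) (q0 : ℕ) (hq0 : q0.Prime)
    (hQ : Q1 ≤ q0) (n' : ℕ) (hsm : Sm Q1 n') (h1 : 1 ≤ n') (hN : n' * q0 ≤ N)
    (j : Fin (R + 1)) :
    BQ (4 * K1 b d ^ R0 r d) q0 (∏ i, (b i : ℤ) ^ (q0 * (n' * a j i % m i) / m i)) := by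
  have hn'N : n' ≤ N := le_trans (Nat.le_mul_of_pos_right n' hq0.pos) hN
  have hq0N : q0 ≤ N := le_trans (Nat.le_mul_of_pos_left q0 h1) hN
  have hsmq : Sm Q1 q0 := by
    intro p hp hpd
    rw [(Nat.prime_dvd_prime_iff_eq hp hq0).1 hpd]
    exact hQ
  obtain ⟨v, hv⟩ := chain S n' hsm h1 hn'N
  obtain ⟨v2, hv2⟩ := chain S (n' * q0) (hsm.mul hsmq) (Nat.mul_pos h1 hq0.pos) hN
  have hsize := chain_size S n' h1 hn'N v hv q0 hq0.pos hq0N
  obtain ⟨σ, hσ⟩ := S.frob q0 hq0 hQ hq0N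
  have e1 : ∀ (j : Fin (R + 1)) (i : Fin r), q0 * (n' * a j i % m i) % m i = n' * q0 * a j i % m i := by
    intro j i
    rw [Nat.mul_mod_mod]
    congr 1
    ring
  have e2 : ∀ i, q0 * (n' * ℓ i) ≤ gap i := by
    intro i
    have h2 := S.hgap i
    have h3 : q0 * (n' * ℓ i) ≤ N * ℓ i := by
      calc q0 * (n' * ℓ i) = n' * q0 * ℓ i := by ring
        _ ≤ N * ℓ i := Nat.mul_le_mul_right _ hN
    omega
  have hdeg : ∀ n, 1 ≤ n → n ≤ N → (minpoly F (α ^ (n0 * n))).natDegree = d := by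
    intro n hn hn2
    exact S.deg _ (Nat.mul_pos S.hn0 hn) (Nat.mul_le_mul_left n0 hn2)
  have e3 : (α ^ (n0 * n')) ^ q0 = α ^ (n0 * (n' * q0)) := by
    rw [← pow_mul]
    congr 1
    ring
  have hht : (q0 : ℝ) * d * absLogHeight₁ (α ^ (n0 * n')) ≤ Real.log 2 := by
    rw [Pool.Agent.H4.RR.absLogHeight_pow Ω α S.int]
    have h2 : ((n' * q0 : ℕ) : ℝ) ≤ N := by exact_mod_cast hN
    have h4 : (q0 : ℝ) * d * (((n0 * n' : ℕ) : ℝ) * absLogHeight₁ α) =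
        ((n' * q0 : ℕ) : ℝ) * n0 * d * absLogHeight₁ α := by
      push_cast
      ring
    rw [h4]
    rcases le_or_gt 0 (absLogHeight₁ α) with h0 | h0
    · refine le_trans ?_ S.hh
      refine mul_le_mul_of_nonneg_right ?_ h0
      refine mul_le_mul_of_nonneg_right ?_ (Nat.cast_nonneg d)
      rw [mul_comm]
      exact mul_le_mul_of_nonneg_left h2 (Nat.cast_nonneg n0)
    · have h3 : (((n' * q0 : ℕ) : ℝ) * n0 * d) * absLogHeight₁ α ≤ 0 :=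
        mul_nonpos_of_nonneg_of_nonpos (by positivity) h0.le
      exact h3.trans (Real.log_nonneg (by norm_num))
  obtain ⟨s, hs1, hs2, hs3⟩ := two h (α ^ (n0 * n')) (S.int.pow _) hv (hdeg n' h1 hn'N) q0 hq0
    σ hσ (by rw [e3]; exact hdeg _ (Nat.mul_pos h1 hq0.pos) hN) S.hR hsize hht (S.hQ1.trans hQ)
    (fun i => (e2 i).trans (S.hgm i))
    (by
      intro j j' hne l hl hl'
      simp only [e1] at hl hl'
      exact hv2.sep j j' hne l (inw_mono e2 hl) (inw_mono e2 hl'))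
  have h3 : (4 * (K1 b d : ℤ) ^ R0 r d) = ((4 * K1 b d ^ R0 r d : ℕ) : ℤ) := by push_cast; rfl
  refine ⟨s j, s 0, by rw [← h3]; exact hs3 j, by rw [← h3]; exact hs3 0, hs2, ?_⟩
  have h2 := hs1 j
  unfold bet at h2
  push_cast at h2
  exact h2

theorem near_pos (S : Setup h α d R n0 N ℓ gap k L Q1 a T) (q0 M N1 T' : ℕ)
    (hq0 : q0.Prime) (hQ : Q1 ≤ q0) (hM : ∀ p : ℕ, p.Prime → p < Q1 → p ∣ M)
    (hN : N1 * q0 ≤ N)
    (hkr : ∀ m a : Fin r → ℕ, (∀ i, 1 ≤ m i) →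
      (∀ t : ℕ, 1 + M * t ≤ N1 → BQ (4 * K1 b d ^ R0 r d) q0
        (∏ i, (b i : ℤ) ^ (q0 * ((1 + M * t) * a i % m i) / m i))) →
      ∃ h : ℕ, 1 ≤ h ∧ h ≤ (q0 + 1) ^ r ∧
        ∀ i, ∃ k : ℤ, |(h : ℤ) * M * a i - k * m i| * T' ≤ m i)
    (j : Fin (R + 1)) :
    ∃ h : ℕ, 1 ≤ h ∧ h ≤ (q0 + 1) ^ r ∧
      ∀ i, ∃ k : ℤ, |(h : ℤ) * M * a j i - k * m i| * T' ≤ m i := by
  exact hkr m (a j) (fun i => Nat.pos_of_ne_zero (NeZero.ne _)) fun t ht =>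
    avoid S q0 hq0 hQ (1 + M * t) (sm_of_mod Q1 M t hM) (by omega)
      (le_trans (Nat.mul_le_mul_right q0 ht) hN) j

end Pool.Agent.H72.BE
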