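import Pool.Agent.H72.BE.Def

/-!
# Cauchy–Binet for complex Gram determinants (MP_187c26_nt, Theorem VR+, toolkit)

`gdt_cb`: `|κ|! det (M Mᴴ) = ∑ J : κ → Ω, |det (M_J)| ^ 2` (sum over all functions). PROOF (model: `det_sum_rankOne` in
`Pool/Agent/H99/MV/CB.lean`, real case): expand `det (M Mᴴ) = ∑ J, ∏ k, conj (M k (J k)) · det (M_J)` by multilinearity in the
columns (`(M Mᴴ) i k = ∑ o, M i o conj (M k o)`, `Matrix.det_mul_aux`-like or `MultilinearMap.map_sum`), then average over the permutations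
of `κ`: replacing `J` by `J ∘ σ` multiplies `det (M_J)` by `sign σ`, so `|κ|! det = ∑ J, det (M_J) ∑ σ, sign σ ∏ k, conj (M k (J (σ k)))
= ∑ J, det (M_J) conj (det (M_J))`.
`gdt_weight`: weights: if `M' k o = M k o * w o` with `w o ≥ 0` etc.: compare the sums in `gdt_cb` termwise.
-/

set_option autoImplicit false

namespace Pool.Agent.H72.BE

variable {κ Ω : Type} [Fintype κ] [DecidableEq κ] [Fintype Ω]

private theorem cb_c (M : Matrix κ Ω ℂ) :
    ((Fintype.card κ).factorial : ℂ) * (M * M.conjTranspose).det =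
      ∑ J : κ → Ω, (M.submatrix id J).det * (starRingEnd ℂ) (M.submatrix id J).det := by
  classical
  have h1 : (M * M.conjTranspose).det = ∑ J : κ → Ω, (∏ i, M i (J i)) *
      (Matrix.of fun i k => (starRingEnd ℂ) (M k (J i))).det := by
    have h2 : (M * M.conjTranspose) =
        (fun i => ∑ o, M i o • (fun k => (starRingEnd ℂ) (M k o)) : κ → κ → ℂ) := by
      ext i k
      rw [Matrix.mul_apply, Finset.sum_apply]
      rfl
    rw [h2]
    show (Matrix.detRowAlternating (n := κ) (R := ℂ)).toMultilinearMap _ = _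
    rw [MultilinearMap.map_sum]
    refine Finset.sum_congr rfl fun J _ => ?_
    rw [MultilinearMap.map_smul_univ, smul_eq_mul]
    rfl
  have h3 : ∀ σ : Equiv.Perm κ, (M * M.conjTranspose).det = ∑ J : κ → Ω,
      (∏ i, M i (J (σ i))) * (Matrix.of fun i k => (starRingEnd ℂ) (M k (J (σ i)))).det := by
    intro σ
    rw [h1]
    exact ((Equiv.sum_comp (Equiv.arrowCongr σ (Equiv.refl Ω)).symm fun J : κ → Ω =>
      (∏ i, M i (J i)) * (Matrix.of fun i k => (starRingEnd ℂ) (M k (J i))).det)).symm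
  have h4 : ((Fintype.card κ).factorial : ℂ) * (M * M.conjTranspose).det =
      ∑ σ : Equiv.Perm κ, (M * M.conjTranspose).det := by
    rw [Finset.sum_const, Finset.card_univ, Fintype.card_perm, nsmul_eq_mul]
  rw [h4, Finset.sum_congr rfl fun σ _ => h3 σ, Finset.sum_comm]
  refine Finset.sum_congr rfl fun J _ => ?_
  have h5 : ∀ σ : Equiv.Perm κ, (Matrix.of fun i k => (starRingEnd ℂ) (M k (J (σ i)))).det =
      ((Equiv.Perm.sign σ : ℤ) : ℂ) *
        (Matrix.of fun i k => (starRingEnd ℂ) (M k (J i)) : Matrix κ κ ℂ).det := by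
    intro σ
    rw [← Matrix.det_permute]
    rfl
  have h6 : (Matrix.of fun i k => (starRingEnd ℂ) (M k (J i)) : Matrix κ κ ℂ).det =
      (starRingEnd ℂ) (M.submatrix id J).det := by
    rw [RingHom.map_det, ← Matrix.det_transpose]
    rfl
  have h7 : (M.submatrix id J).det = ∑ σ : Equiv.Perm κ, ((Equiv.Perm.sign σ : ℤ) : ℂ) *
      ∏ i, M i (J (σ i)) := by
    rw [← Matrix.det_transpose, Matrix.det_apply']
    rfl
  generalize (starRingEnd ℂ) (M.submatrix id J).det = E at h6 ⊢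
  rw [h7, Finset.sum_mul]
  refine Finset.sum_congr rfl fun σ _ => ?_
  rw [h5, h6]
  ring

theorem gdt_cb (M : Matrix κ Ω ℂ) :
    ((Fintype.card κ).factorial : ℝ) * gdt M = ∑ J : κ → Ω, ‖(M.submatrix id J).det‖ ^ 2 := by
  have h := cb_c M
  have h1 : ∀ J : κ → Ω, (M.submatrix id J).det * (starRingEnd ℂ) (M.submatrix id J).det =
      ((‖(M.submatrix id J).det‖ ^ 2 : ℝ) : ℂ) := by
    intro J
    rw [Complex.mul_conj', Complex.ofReal_pow]
  rw [Finset.sum_congr rfl fun J _ => h1 J, ← Complex.ofReal_sum] at h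
  have h2 := congrArg Complex.re h
  rw [Complex.ofReal_re, ← Complex.ofReal_natCast, Complex.re_ofReal_mul] at h2
  exact h2

private theorem fac_pos : (0 : ℝ) < ((Fintype.card κ).factorial : ℝ) :=
  Nat.cast_pos.2 (Nat.factorial_pos _)

private theorem det_wt (M : Matrix κ Ω ℂ) (w : Ω → ℝ) (J : κ → Ω) :
    ((Matrix.of fun k o => M k o * (w o : ℂ)).submatrix id J).det =
      ((∏ k, w (J k) : ℝ) : ℂ) * (M.submatrix id J).det := by
  have h := Matrix.det_mul_row (fun k => (w (J k) : ℂ)) (M.submatrix id J)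
  rw [Complex.ofReal_prod, ← h]
  congr 1
  ext i k
  exact mul_comm _ _

theorem gdt_weight (M : Matrix κ Ω ℂ) (w w' : Ω → ℝ) (P : ℝ) (hw : ∀ o, 0 ≤ w o)
    (hw' : ∀ o, 0 ≤ w' o) (hP : 0 ≤ P) (h : ∀ o, w o ≤ P * w' o) :
    gdt (Matrix.of fun k o => M k o * (w o : ℂ)) ≤
      P ^ (2 * Fintype.card κ) * gdt (Matrix.of fun k o => M k o * (w' o : ℂ)) := by
  have hf := fac_pos (κ := κ)
  refine le_of_mul_le_mul_left ?_ hf
  rw [mul_left_comm, gdt_cb, gdt_cb, Finset.mul_sum]
  refine Finset.sum_le_sum fun J _ => ?_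
  rw [det_wt, det_wt, norm_mul, norm_mul, mul_pow, mul_pow, ← mul_assoc]
  refine mul_le_mul_of_nonneg_right ?_ (by positivity)
  have h0 : 0 ≤ ∏ k, w (J k) := Finset.prod_nonneg fun k _ => hw _
  have h0' : 0 ≤ ∏ k, w' (J k) := Finset.prod_nonneg fun k _ => hw' _
  rw [Complex.norm_real, Complex.norm_real, Real.norm_of_nonneg h0, Real.norm_of_nonneg h0',
    mul_comm 2, pow_mul, ← mul_pow]
  refine pow_le_pow_left₀ h0 ?_ 2
  calc ∏ k, w (J k) ≤ ∏ k, (P * w' (J k)) := Finset.prod_le_prod (fun k _ => hw _) fun k _ => h _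
    _ = P ^ Fintype.card κ * ∏ k, w' (J k) := by
      rw [Finset.prod_mul_distrib, Finset.prod_const, Finset.card_univ]

theorem gdt_row (M : Matrix κ Ω ℂ) (s : κ → ℝ) :
    gdt (Matrix.of fun k o => (s k : ℂ) * M k o) = (∏ k, s k) ^ 2 * gdt M := by
  have hf := fac_pos (κ := κ)
  refine mul_left_cancel₀ hf.ne' ?_
  rw [mul_left_comm, gdt_cb, gdt_cb, Finset.mul_sum]
  refine Finset.sum_congr rfl fun J _ => ?_
  have h := Matrix.det_mul_column (fun k => (s k : ℂ)) (M.submatrix id J)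
  have h1 : ((Matrix.of fun k o => (s k : ℂ) * M k o).submatrix id J).det =
      ((∏ k, s k : ℝ) : ℂ) * (M.submatrix id J).det := by
    rw [Complex.ofReal_prod, ← h]
    rfl
  rw [h1, norm_mul, mul_pow, Complex.norm_real, Real.norm_eq_abs, sq_abs]

/-- Columns which are zero may be dropped (`φ` injective). -/
theorem gdt_cols {Ω' : Type} [Fintype Ω'] (M : Matrix κ Ω ℂ) (φ : Ω' → Ω)
    (hφ : Function.Injective φ) (h0 : ∀ o, o ∉ Set.range φ → ∀ k, M k o = 0) :
    gdt (M.submatrix id φ) = gdt M := by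
  have h : M.submatrix id φ * (M.submatrix id φ).conjTranspose = M * M.conjTranspose := by
    ext i k
    rw [Matrix.mul_apply, Matrix.mul_apply]
    refine Fintype.sum_of_injective φ hφ _ _ (fun o ho => ?_) fun o => rfl
    rw [h0 o ho i, zero_mul]
  rw [gdt, gdt, h]

theorem gdt_norm (M M' : Matrix κ Ω ℂ) (h : ∀ J : κ → Ω, ‖(M.submatrix id J).det‖ ≤
    ‖(M'.submatrix id J).det‖) : gdt M ≤ gdt M' := by
  have hf := fac_pos (κ := κ)
  refine le_of_mul_le_mul_left ?_ hf
  rw [gdt_cb, gdt_cb]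
  exact Finset.sum_le_sum fun J _ => pow_le_pow_left₀ (norm_nonneg _) (h J) 2

end Pool.Agent.H72.BE
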