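import Pool.Agent.H72.BE.Sep

/-!
# Minimal number of windows (MP_187c26_nt, Theorem VR+, S5)

Model (r = 1): `Pool/Agent/H72/BD/MinR.lean` (steps (3), (4), (5) are the same; (1) is easier here because windows may wrap around).

PROOF of `min_rep`. All windows are modulo `m`; `inw a ℓ l` is monotone in `ℓ`.
(1) DISJOINT. Suppose `j ≠ j'` and `l ∈ [a_j, a_j + gap) ∩ [a_j', a_j' + gap)`: `a_j + e ≡ a_j' + e'` (mod `m`), `e, e' < gap`. Let
`s_i = a_j i + m_i - gap_i` (`≡ a_j - gap`; `gap ≤ m`). Then `[a_j, a_j + ℓ)` and `[a_j', a_j' + ℓ)` are both contained in `[s, s + L)`, `L ≥ 2 gap + ℓ`: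
`a_j + f ≡ s + (gap + f)`, `a_j' + f ≡ s + (gap + e - e' + f)`, `0 ≤ gap + e - e' + f < 2 gap + ℓ`.
 (1a) `j, j' ≠ 0`: the family without `j'`, with `s` in place of `a_j`, length `L`: `Win h c L (R - 1)`: contradiction to `hmin`.
 (1b) `j = 0` (or `j' = 0`: exchange): replace `g` by `x ^ gap g` (`co_mon_mul_ne_zero`: all supports are shifted by `gap`): the window of `g` is in
 `[gap, gap + ℓ) ⊂ [0, L)`; the merged window becomes `[s + gap, …) = [a_0, …) = [0, L)`, the others `a_i + gap`. `Win h c L (R - 1)`: contradiction.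
(3) So the windows are disjoint. `Rad.exists_sep` (length `ℓ`; `gap ≥ ℓ`) gives `v_ij` for `y = g c_i`; for `i = last`, `g c_last = g` is supported in `[0, ℓ)` only: `v_last j = 0`
for `j ≠ 0` (disjoint windows, last clause of `exists_sep`), `g = aeval x (v_last 0)`, `v_last 0 ≠ 0`.
(4) PRIMITIVE. Divide by a greatest common divisor `p ≠ 0` of all `v_ij` in the UFD `MvPolynomial (Fin r) A` (`aeval x p ≠ 0` by `aeval_eq_zero`,
degrees `< ℓ ≤ m`; the degrees of the quotients are `≤`: `degreeOf` is additive over a domain).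
(5) ACTIVE. If `v_ij = 0` for all `i` (so `j ≠ 0`), the window `j` is superfluous: `Win h c ℓ (R - 1)`, hence `Win h c L (R - 1)`.
-/

set_option autoImplicit false

open MvPolynomial NumberField

namespace Pool.Agent.H72.BE

variable {r : ℕ} {b m : Fin r → ℕ} [∀ i, NeZero (m i)] {A F : Type} [Field A] [NumberField A]
  [Field F] [NumberField F] [Algebra A F] {x : Fin r → F}

theorem win_mono (h : Rad b m A F x) {d : ℕ} (c : Fin (d + 1) → F) (ℓ ℓ' : Fin r → ℕ) (R : ℕ)
    (hℓ : ∀ i, ℓ i ≤ ℓ' i) (hw : Win h c ℓ R) : Win h c ℓ' R := by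
  obtain ⟨a, ha0, g, hg, h1, h2⟩ := hw
  refine ⟨a, ha0, g, hg, fun l hl => inw_mono hℓ (h1 l hl), fun i l hl => ?_⟩
  obtain ⟨j, hj⟩ := h2 i l hl
  exact ⟨j, inw_mono hℓ hj⟩

/-- Two windows which meet can be merged (after a shift by `gap`). -/
private theorem merge (h : Rad b m A F x) {d R : ℕ} (c : Fin (d + 1) → F)
    (a : Fin (R + 1) → Fin r → ℕ) (ha0 : a 0 = 0) (ℓ gap L : Fin r → ℕ)
    (hL : ∀ i, 2 * gap i + ℓ i ≤ L i) (hw : WinAt h c a ℓ) (j j' : Fin (R + 1)) (hjj : j ≠ j')
    (hj' : j' ≠ 0) (l : Gm m) (h1 : inw (a j) gap l) (h2 : inw (a j') gap l) :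
    ∃ R' < R, Win h c L R' := by
  classical
  obtain ⟨R', rfl⟩ : ∃ R', R = R' + 1 := by
    rcases Nat.eq_zero_or_pos R with h0 | h0
    · subst h0
      exact absurd (Fin.ext (by have := j'.isLt; rw [Fin.val_zero]; omega)) hj'
    · exact ⟨R - 1, by omega⟩
  obtain ⟨e, he, hle⟩ := h1
  obtain ⟨e', he', hle'⟩ := h2
  obtain ⟨g, hg, hg1, hg2⟩ := hw
  -- the window `j` and the window `j'`, shifted by `gap`
  have hmj : ∀ l : Gm m, inw (a j) ℓ (l - md m gap) → inw (a j) L l := by
    rintro l ⟨f, hf, hlf⟩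
    rw [sub_eq_iff_eq_add] at hlf
    refine ⟨f + gap, fun i => ?_, ?_⟩
    · have h3 := hf i
      have h4 := hL i
      show f i + gap i < L i
      omega
    · rw [hlf, ← md_add, add_assoc]
  have hmj' : ∀ l : Gm m, inw (a j') ℓ (l - md m gap) → inw (a j) L l := by
    rintro l ⟨f, hf, hlf⟩
    rw [sub_eq_iff_eq_add] at hlf
    refine ⟨fun i => gap i + e i - e' i + f i, fun i => ?_, ?_⟩
    · have h3 := hf i
      have h4 := hL i
      have h5 := he i
      show gap i + e i - e' i + f i < L i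
      omega
    · have h6 : md m (a j + e) = md m (a j' + e') := by rw [← hle, ← hle']
      have h7 : (fun i => gap i + e i - e' i + f i) + e' = gap + e + f := by
        funext i
        have h5 := he' i
        show gap i + e i - e' i + f i + e' i = gap i + e i + f i
        omega
      have h8 : md m (a j + fun i => gap i + e i - e' i + f i) + md m e' =
          md m (a j' + f) + md m gap + md m e' := by
        rw [← md_add, add_assoc, h7]
        have h9 : a j + (gap + e + f) = (a j + e) + (gap + f) := by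
          funext i
          show a j i + (gap i + e i + f i) = a j i + e i + (gap i + f i)
          ring
        rw [h9, md_add, h6, md_add, md_add, md_add]
        abel
      rw [hlf]
      exact (add_right_cancel h8).symm
  have hx : mon x gap ≠ 0 := by
    unfold mon
    refine Finset.prod_ne_zero_iff.2 fun i _ => pow_ne_zero _ fun h0 => ?_
    have h3 := h.pow i
    rw [h0, zero_pow (NeZero.ne (m i))] at h3
    have h4 : b i = 0 := by exact_mod_cast h3.symm
    have h5 := h.two i
    omega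
  refine ⟨R', Nat.lt_succ_self _, fun t => if t = 0 then 0 else
    if j'.succAbove t = j then a j else a (j'.succAbove t) + gap, by simp, mon x gap * g,
    mul_ne_zero hx hg, fun l hl => ?_, fun i l hl => ?_⟩
  · rw [h.co_mon_mul_ne_zero] at hl
    obtain ⟨f, hf, hlf⟩ := hg1 _ hl
    rw [sub_eq_iff_eq_add] at hlf
    refine ⟨f + gap, fun i => ?_, ?_⟩
    · have h3 := hf i
      have h4 := hL i
      show f i + gap i < L i
      omega
    · rw [hlf, ← md_add, add_assoc]
  · rw [mul_assoc, h.co_mon_mul_ne_zero] at hl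
    obtain ⟨j0, hj0⟩ := hg2 i _ hl
    -- the merged window
    have hm : inw (a j) L l → ∃ t : Fin (R' + 1), inw (if t = 0 then 0 else
        if j'.succAbove t = j then a j else a (j'.succAbove t) + gap) L l := by
      intro h3
      by_cases hj : j = 0
      · refine ⟨0, ?_⟩
        rw [if_pos rfl, ← ha0, ← hj]
        exact h3
      · obtain ⟨t, ht⟩ := Fin.exists_succAbove_eq hjj
        have ht0 : t ≠ 0 := by
          intro h0
          rw [h0, Fin.succAbove_ne_zero_zero hj'] at ht
          exact hj ht.symm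
        refine ⟨t, ?_⟩
        rw [if_neg ht0, if_pos ht]
        exact h3
    by_cases hc1 : j0 = j'
    · rw [hc1] at hj0
      exact hm (hmj' l hj0)
    by_cases hc2 : j0 = j
    · rw [hc2] at hj0
      exact hm (hmj l hj0)
    by_cases hc3 : j0 = 0
    · rw [hc3, ha0] at hj0
      refine ⟨0, ?_⟩
      beta_reduce
      rw [if_pos rfl]
      obtain ⟨f, hf, hlf⟩ := hj0
      rw [sub_eq_iff_eq_add] at hlf
      refine ⟨f + gap, fun i => ?_, ?_⟩
      · have h3 := hf i
        have h4 := hL i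
        show f i + gap i < L i
        omega
      · rw [hlf, ← md_add, add_assoc]
    obtain ⟨t, ht⟩ := Fin.exists_succAbove_eq hc1
    have ht0 : t ≠ 0 := by
      intro h0
      rw [h0, Fin.succAbove_ne_zero_zero hj'] at ht
      exact hc3 ht.symm
    refine ⟨t, ?_⟩
    beta_reduce
    rw [if_neg ht0, ht, if_neg hc2, inw_shift]
    exact inw_mono (fun i => by have := hL i; omega) hj0

theorem min_rep (h : Rad b m A F x) {d R : ℕ} (c : Fin (d + 1) → F) (hc : c (Fin.last d) = 1)
    (a : Fin (R + 1) → Fin r → ℕ) (ha0 : a 0 = 0) (ham : ∀ j i, a j i < m i)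
    (ℓ gap L : Fin r → ℕ) (hℓ : ∀ i, 1 ≤ ℓ i) (hℓg : ∀ i, ℓ i ≤ gap i) (hgm : ∀ i, gap i ≤ m i)
    (hL : ∀ i, 2 * gap i + ℓ i ≤ L i) (hw : WinAt h c a ℓ) (hmin : ∀ R' < R, ¬ Win h c L R') :
    ∃ v : Fin (d + 1) → Fin (R + 1) → MvPolynomial (Fin r) A, Rep m x c ℓ gap a v := by
  classical
  have hsep : ∀ j j', j ≠ j' → ∀ l : Gm m, inw (a j) gap l → ¬ inw (a j') gap l := by
    intro j j' hjj l h1 h2
    by_cases hj' : j' = 0
    · have hj : j ≠ 0 := fun h0 => hjj (h0.trans hj'.symm)
      obtain ⟨R', hR', hwin⟩ := merge h c a ha0 ℓ gap L hL hw j' j (Ne.symm hjj) hj l h2 h1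
      exact hmin R' hR' hwin
    · obtain ⟨R', hR', hwin⟩ := merge h c a ha0 ℓ gap L hL hw j j' hjj hj' l h1 h2
      exact hmin R' hR' hwin
  have hsepℓ : ∀ j j', j ≠ j' → ∀ l : Gm m, inw (a j) ℓ l → ¬ inw (a j') ℓ l := by
    intro j j' hjj l h1 h2
    exact hsep j j' hjj l (inw_mono hℓg h1) (inw_mono hℓg h2)
  have hℓm : ∀ i, ℓ i ≤ m i := fun i => (hℓg i).trans (hgm i)
  have hℓL : ∀ i, ℓ i ≤ L i := fun i => by
    have := hL i
    omega
  obtain ⟨g, hg, h1, h2⟩ := hw
  have hex : ∀ i, ∃ v : Fin (R + 1) → MvPolynomial (Fin r) A, (∀ j k, (v j).degreeOf k < ℓ k) ∧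
      g * c i = ∑ j, mon x (a j) * aeval x (v j) ∧
      ∀ j, (∀ l, h.co (g * c i) l ≠ 0 → ¬ inw (a j) ℓ l) → v j = 0 := fun i =>
    h.exists_sep a ℓ hℓ hℓm hsepℓ _ (fun l hl => h2 i l hl)
  choose v hvdeg hveq hvz using hex
  have hvl : ∀ j, j ≠ 0 → v (Fin.last d) j = 0 := by
    intro j hj
    refine hvz (Fin.last d) j (fun l hl hin => ?_)
    rw [hc, mul_one] at hl
    have h3 := h1 l hl
    rw [← ha0] at h3
    exact hsepℓ j 0 hj l hin h3
  have hvg : aeval x (v (Fin.last d) 0) = g := by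
    have h3 := hveq (Fin.last d)
    rw [hc, mul_one] at h3
    rw [h3, Finset.sum_eq_single 0]
    · rw [ha0, mon_zero, one_mul]
    · intro j _ hj
      rw [hvl j hj, map_zero, mul_zero]
    · intro h0
      exact absurd (Finset.mem_univ _) h0
  have hv0 : v (Fin.last d) 0 ≠ 0 := by
    intro h0
    rw [h0, map_zero] at hvg
    exact hg hvg.symm
  -- greatest common divisor
  let _ : NormalizedGCDMonoid (MvPolynomial (Fin r) A) := Classical.choice inferInstance
  obtain ⟨w, hwe, hwg⟩ := Finset.extract_gcd (s := (Finset.univ : Finset (Fin (d + 1) × Fin (R + 1))))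
    (fun p => v p.1 p.2) ⟨(Fin.last d, 0), Finset.mem_univ _⟩
  set G : MvPolynomial (Fin r) A :=
    (Finset.univ : Finset (Fin (d + 1) × Fin (R + 1))).gcd (fun p => v p.1 p.2) with hG
  have hwe' : ∀ i j, v i j = G * w (i, j) := fun i j => hwe (i, j) (Finset.mem_univ _)
  have hG0 : G ≠ 0 := by
    intro h0
    have := hwe' (Fin.last d) 0
    rw [h0, zero_mul] at this
    exact hv0 this
  have hGdeg : ∀ k, G.degreeOf k < m k := by
    intro k
    have h3 := hwe' (Fin.last d) 0
    have h4 : w (Fin.last d, 0) ≠ 0 := by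
      intro h0
      rw [h0, mul_zero] at h3
      exact hv0 h3
    have h5 := hvdeg (Fin.last d) 0 k
    rw [h3, degreeOf_mul_eq hG0 h4] at h5
    have h6 := hℓm k
    omega
  have hGx : aeval x G ≠ 0 := fun h0 => hG0 (h.aeval_eq_zero G hGdeg h0)
  refine ⟨fun i j => w (i, j), ?_⟩
  constructor
  · exact ha0
  · exact ham
  · exact hsep
  · exact hgm
  · intro i j k
    show (w (i, j)).degreeOf k < ℓ k
    by_cases h3 : w (i, j) = 0
    · rw [h3, degreeOf_zero]
      have := hℓ k
      omega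
    · have h5 := hvdeg i j k
      rw [hwe' i j, degreeOf_mul_eq hG0 h3] at h5
      omega
  · intro j hj
    have h3 := hvl j hj
    rw [hwe'] at h3
    exact (mul_eq_zero.1 h3).resolve_left hG0
  · intro h0
    have h3 := hwe' (Fin.last d) 0
    rw [h0, mul_zero] at h3
    exact hv0 h3
  · intro i
    apply mul_left_cancel₀ hGx
    have h3 : aeval x G * (aeval x (w (Fin.last d, 0)) * c i) = g * c i := by
      rw [← mul_assoc, ← map_mul, ← hwe', hvg]
    rw [h3, hveq i, Finset.mul_sum]
    refine Finset.sum_congr rfl fun j _ => ?_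
    rw [hwe' i j, map_mul]
    ring
  · intro p hp
    have h3 : p ∣ (Finset.univ : Finset (Fin (d + 1) × Fin (R + 1))).gcd w :=
      Finset.dvd_gcd fun q _ => hp q.1 q.2
    rw [hwg] at h3
    exact isUnit_of_dvd_one h3
  · intro j
    by_contra hne
    push Not at hne
    have hvj : ∀ i, v i j = 0 := fun i => by
      rw [hwe' i j]
      have := hne i
      rw [this, mul_zero]
    have hj : j ≠ 0 := by
      intro h0
      rw [h0] at hvj
      exact hv0 (hvj _)
    obtain ⟨R', rfl⟩ : ∃ R', R = R' + 1 := by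
      rcases Nat.eq_zero_or_pos R with h0 | h0
      · subst h0
        exact absurd (Fin.ext (by have := j.isLt; rw [Fin.val_zero]; omega)) hj
      · exact ⟨R - 1, by omega⟩
    refine hmin R' (Nat.lt_succ_self _) ⟨fun t => a (j.succAbove t), ?_, g, hg,
      fun l hl => ?_, fun i l hl => ?_⟩
    · show a (j.succAbove 0) = 0
      rw [Fin.succAbove_ne_zero_zero hj, ha0]
    · exact inw_mono hℓL (h1 l hl)
    · rw [hveq i, map_sum, Finset.sum_apply] at hl
      obtain ⟨j0, _, hj0⟩ := Finset.exists_ne_zero_of_sum_ne_zero hl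
      have hne0 : j0 ≠ j := by
        intro h0
        rw [h0, hvj, map_zero, mul_zero, map_zero, Pi.zero_apply] at hj0
        exact hj0 rfl
      obtain ⟨t, ht⟩ := Fin.exists_succAbove_eq hne0
      refine ⟨t, ?_⟩
      show inw (a (j.succAbove t)) L l
      rw [ht]
      exact inw_mono hℓL (h.inw_of_ne_zero (a j0) ℓ hℓm (v i j0) (hvdeg i j0) l hj0)

end Pool.Agent.H72.BE
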