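import Pool.Agent.H72.BE.SizeB

/-!
# The size lemma (MP_187c26_nt, Theorem VR+, S2)

Model (r = 1): `Pool/Agent/H72/BD/Size.lean`. `e = [A : ℚ]`, `M = ∏ m_i`, `[F : ℚ] = e M` (`Rad.finrank_eq`).

PROOF. `μ_s` = maximum of `deg_s` of the `v_ij`, `μ_s < ℓ_s`, attained at a nonzero `v_ij` (`v last 0 ≠ 0`; if `μ_s = 0` take `v last 0`). `n = k + ℓ`,
`k' = n - μ`, so `1 ≤ k_s < k'_s ≤ n_s ≤ 2 k_s ≤ 2 k'_s`. `K = ∏ k'_s`, `N' = ∏ n_s ≤ 2 ^ r K`, `P = ∏ ρ_i ^ n_i ≥ 1`.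
`P ^ (2 Q) ≤ 2`: for each `i`: `(ρ_i ^ (2 Q r n_i)) ^ m_i = b_i ^ (2 Q r n_i) ≤ 2 ^ m_i`, so `ρ_i ^ (2 Q r n_i) ≤ 2`; the product over `i` is `P ^ (2 Q r) ≤ 2 ^ r`; take the
`r`-th root (`r = 0`: `P = 1`). So also `P ≤ P ^ (2 Q) ≤ 2`.
`g_i = gcd (m_i, Q)`, `N_i = m_i / g_i`; `2 ^ (2 Q r n_i) ≤ b_i ^ (2 Q r n_i) ≤ 2 ^ m_i`, so (`r ≥ 1` as there is an `i`) `n_i Q ≤ m_i`, `g_i ≤ Q`: `n_i ≤ N_i`.
`W = ∏ φ, wt φ = ∏ φ, wz (φ | A) (φ (x_i) ^ Q)` (`wt_eq`) `= ∏_t (∏ χ, fo (uv^t) χ) ^ (∏ g_i)` (`Rad.prod_pow` with `f = wz b m a v`, `fo_uv`).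
`gr_lower` (group `Gm N`, shifts `mb N k'`, injective as `k' ≤ n ≤ N`, `card (Box k') = K`, `card (Gm N) = ∏ N_i`): `(∏ χ, fo) ^ K ≤ gdt (sm (uv^t)) ^ (∏ N_i)`. So
`W ^ K ≤ ∏_t gdt (sm (uv^t)) ^ (∏ N_i ∏ g_i) = (∏_t gdt (sm (uv^t))) ^ M`.
`gram_le` and `sub_bound` (with `n`, `k'`, `μ`): `(∏_t gdt (sm (uv^t))) ctv ^ (2 K) ≤ (P ^ (2 Q)) ^ (K e) Bb ^ (2 e K) P ^ (e N') (4 ^ d) ^ (e N') T
≤ 2 ^ (e K) Bb ^ (2 e K) (2 · 4 ^ d) ^ (e 2 ^ r K) 2 ^ (e K)` (`T ≤ 2 ^ (e ∏ k_i) ≤ 2 ^ (e K)`, `T ≥ 0` from `Siz`)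
`≤ ((Cs b d) ^ 2) ^ (e K)`: `Cs ^ 2 = 4 (2 · 4 ^ d · Bb) ^ (2 · 2 ^ r) ≥ 2 · 2 · Bb ^ 2 · (2 · 4 ^ d) ^ (2 ^ r)` (`Bb ≥ 1`, `2 ^ r ≥ 1`).
So `(W ctv ^ (2 M)) ^ K ≤ (((Cs b d) ^ 2) ^ (e M)) ^ K`; take the `K`-th root (`K ≥ 1`, both sides `≥ 0`: `ctv ≥ 0` as a finprod of suprema of values).
-/

set_option autoImplicit false

open MvPolynomial NumberField

namespace Pool.Agent.H72.BE

variable {r : ℕ} {b m : Fin r → ℕ} [∀ i, NeZero (m i)] {A F : Type} [Field A] [NumberField A]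
  [Field F] [NumberField F] [Algebra A F] {x : Fin r → F} {d R : ℕ}

theorem ctv_nonneg (v : Fin (d + 1) → Fin (R + 1) → MvPolynomial (Fin r) A) : 0 ≤ ctv v := by
  unfold ctv ct
  exact finprod_nonneg fun w => Real.iSup_nonneg fun p => apply_nonneg w _

private theorem sz_T (h : Rad b m A F x) {ι : Type} [Fintype ι] (c : ι → F) (D T : ℝ)
    (hS : h.Siz c D T) : 0 ≤ T := by
  obtain ⟨N, hN, _, _, h4⟩ := hS
  have h5 : 0 ≤ ∏ φ, N φ := Finset.prod_nonneg fun φ _ => zero_le_one.trans (hN φ)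
  exact (mul_nonneg (by positivity) h5).trans h4

omit [∀ i, NeZero (m i)] [NumberField A] [NumberField F] in
private theorem sz_mu {ℓ gap : Fin r → ℕ} {c : Fin (d + 1) → F}
    {a : Fin (R + 1) → Fin r → ℕ} {v : Fin (d + 1) → Fin (R + 1) → MvPolynomial (Fin r) A}
    (hr : Rep m x c ℓ gap a v) (s : Fin r) : ∃ μ < ℓ s, (∀ i j, (v i j).degreeOf s ≤ μ) ∧
      ∃ i j, (v i j).degreeOf s = μ ∧ v i j ≠ 0 := by
  obtain ⟨p, _, hp⟩ := Finset.exists_max_image (Finset.univ : Finset (Fin (d + 1) × Fin (R + 1)))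
    (fun p => (v p.1 p.2).degreeOf s) ⟨(0, 0), Finset.mem_univ _⟩
  refine ⟨(v p.1 p.2).degreeOf s, hr.deg _ _ _, fun i j => hp (i, j) (Finset.mem_univ _), ?_⟩
  by_cases h0 : v p.1 p.2 = 0
  · refine ⟨Fin.last d, 0, ?_, hr.vl0⟩
    have h1 := hp (Fin.last d, 0) (Finset.mem_univ _)
    simp only [h0, degreeOf_zero, Nat.le_zero] at h1
    rw [h1, h0, degreeOf_zero]
  · exact ⟨p.1, p.2, rfl, h0⟩

/-- The numerical part. -/
private theorem sz_num (e K N q d B : ℕ) (P PQ T : ℝ) (hP0 : 0 ≤ P) (hP : P ≤ 2) (hPQ0 : 0 ≤ PQ)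
    (hPQ : PQ ≤ 2) (hT0 : 0 ≤ T) (hT : T ≤ 2 ^ (e * K)) (hN : N ≤ q * K) (hq : 1 ≤ q)
    (hB : 1 ≤ B) :
    PQ ^ (K * e) * ((B : ℝ) ^ (2 * (e * K)) * (P ^ (e * N) * ((4 ^ d) ^ (e * N) * T))) ≤
      (((2 * (2 * 4 ^ d * B) ^ q : ℕ) : ℝ) ^ 2) ^ (e * K) := by
  have hB' : (1 : ℝ) ≤ B := by exact_mod_cast hB
  have h4 : (1 : ℝ) ≤ 4 ^ d := one_le_pow₀ (by norm_num)
  have a1 : PQ ^ (K * e) ≤ 2 ^ (e * K) := by
    rw [mul_comm K e]
    exact pow_le_pow_left₀ hPQ0 hPQ _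
  have a2 : P ^ (e * N) ≤ 2 ^ (e * (q * K)) :=
    (pow_le_pow_left₀ hP0 hP _).trans (pow_le_pow_right₀ (by norm_num) (Nat.mul_le_mul_left e hN))
  have a3 : ((4 : ℝ) ^ d) ^ (e * N) ≤ ((4 : ℝ) ^ d) ^ (e * (q * K)) :=
    pow_le_pow_right₀ h4 (Nat.mul_le_mul_left e hN)
  have a4 : PQ ^ (K * e) * ((B : ℝ) ^ (2 * (e * K)) * (P ^ (e * N) * ((4 ^ d) ^ (e * N) * T))) ≤
      2 ^ (e * K) * ((B : ℝ) ^ (2 * (e * K)) * (2 ^ (e * (q * K)) *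
        ((4 ^ d) ^ (e * (q * K)) * 2 ^ (e * K)))) := by
    gcongr
  refine a4.trans ?_
  have a5 : (2 : ℝ) ^ (e * K) * ((B : ℝ) ^ (2 * (e * K)) * (2 ^ (e * (q * K)) *
        ((4 ^ d) ^ (e * (q * K)) * 2 ^ (e * K)))) =
      (2 * ((B : ℝ) ^ 2 * (2 ^ q * ((4 ^ d) ^ q * 2)))) ^ (e * K) := by
    rw [mul_pow, mul_pow, mul_pow, mul_pow, ← pow_mul (B : ℝ) 2, ← pow_mul (2 : ℝ) q,
      ← pow_mul ((4 : ℝ) ^ d) q, show q * (e * K) = e * (q * K) by ring]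
  rw [a5]
  refine pow_le_pow_left₀ (by positivity) ?_ _
  push_cast
  have b0 : (2 * (2 * 4 ^ d * (B : ℝ)) ^ q) ^ 2 =
      4 * (((B : ℝ) ^ q) ^ 2 * (((2 : ℝ) ^ q) ^ 2 * (((4 : ℝ) ^ d) ^ q) ^ 2)) := by
    rw [mul_pow (2 * (4 : ℝ) ^ d), mul_pow (2 : ℝ) ((4 : ℝ) ^ d)]
    ring
  rw [b0]
  have b1 : (1 : ℝ) ≤ 2 ^ q := one_le_pow₀ (by norm_num)
  have b2 : (1 : ℝ) ≤ ((4 : ℝ) ^ d) ^ q := one_le_pow₀ h4
  have b3 : (B : ℝ) ≤ B ^ q := by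
    calc (B : ℝ) = B ^ 1 := (pow_one _).symm
      _ ≤ B ^ q := pow_le_pow_right₀ hB' hq
  have b4 : (B : ℝ) ^ 2 ≤ (B ^ q) ^ 2 := pow_le_pow_left₀ (by positivity) b3 2
  have b5 : (2 : ℝ) ^ q ≤ (2 ^ q) ^ 2 := by nlinarith
  have b6 : ((4 : ℝ) ^ d) ^ q ≤ ((4 ^ d) ^ q) ^ 2 := by nlinarith
  have b7 : (2 : ℝ) ^ q * ((4 : ℝ) ^ d) ^ q ≤ (2 ^ q) ^ 2 * (((4 : ℝ) ^ d) ^ q) ^ 2 :=
    mul_le_mul b5 b6 (by positivity) (by positivity)
  have b8 : (B : ℝ) ^ 2 * ((2 : ℝ) ^ q * ((4 : ℝ) ^ d) ^ q) ≤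
      ((B : ℝ) ^ q) ^ 2 * ((2 ^ q) ^ 2 * (((4 : ℝ) ^ d) ^ q) ^ 2) :=
    mul_le_mul b4 b7 (by positivity) (by positivity)
  have b9 : 2 * ((B : ℝ) ^ 2 * ((2 : ℝ) ^ q * (((4 : ℝ) ^ d) ^ q * 2))) =
      4 * ((B : ℝ) ^ 2 * ((2 : ℝ) ^ q * ((4 : ℝ) ^ d) ^ q)) := by ring
  rw [b9]
  exact mul_le_mul_of_nonneg_left b8 (by norm_num)

private theorem sz_pow (w : ℝ) (n q m : ℕ) : ((w ^ n) ^ q) ^ m = (w ^ m) ^ (q * n) := by
  rw [← pow_mul, ← pow_mul, ← pow_mul]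
  congr 1
  ring

private theorem sz_pow2 (w : ℝ) (M K : ℕ) : (w ^ (2 * M)) ^ K = (w ^ (2 * K)) ^ M := by
  rw [← pow_mul, ← pow_mul]
  congr 1
  ring

private theorem sz_pow3 (w : ℝ) (e M K : ℕ) : (w ^ (e * K)) ^ M = (w ^ (e * M)) ^ K := by
  rw [← pow_mul, ← pow_mul]
  congr 1
  ring

private theorem sz_P (h : Rad b m A F x) (n : Fin r → ℕ) (Q : ℕ)
    (hQ' : ∀ i, b i ^ (2 * Q * r * n i) ≤ 2 ^ m i) : (∏ i, rho b m i ^ n i) ^ (2 * Q) ≤ 2 := by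
  have h0 : ∀ i, 0 ≤ rho b m i := fun i => (rho_pos h.two i).le
  have hP0 : 0 ≤ ∏ i, rho b m i ^ n i := Finset.prod_nonneg fun i _ => pow_nonneg (h0 i) _
  rcases Nat.eq_zero_or_pos r with hr0 | hr0
  · subst hr0
    rw [Finset.univ_eq_empty, Finset.prod_empty, one_pow]
    norm_num
  have h1 : ∀ i, (rho b m i ^ n i) ^ (2 * Q * r) ≤ 2 := by
    intro i
    have h2 : ((rho b m i ^ n i) ^ (2 * Q * r)) ^ m i ≤ 2 ^ m i := by
      rw [sz_pow, rho_pow i (NeZero.ne _)]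
      exact_mod_cast hQ' i
    exact (pow_le_pow_iff_left₀ (pow_nonneg (pow_nonneg (h0 i) _) _) (by norm_num)
      (NeZero.ne (m i))).1 h2
  have h3 : ((∏ i, rho b m i ^ n i) ^ (2 * Q)) ^ r ≤ 2 ^ r := by
    rw [← pow_mul, ← Finset.prod_pow]
    calc ∏ i, (rho b m i ^ n i) ^ (2 * Q * r) ≤ ∏ _i : Fin r, (2 : ℝ) :=
          Finset.prod_le_prod (fun i _ => pow_nonneg (pow_nonneg (h0 i) _) _) fun i _ => h1 i
      _ = 2 ^ r := by rw [Finset.prod_const, Finset.card_univ, Fintype.card_fin]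
  exact (pow_le_pow_iff_left₀ (pow_nonneg hP0 _) (by norm_num) hr0.ne').1 h3

theorem size (h : Rad b m A F x) {ℓ gap : Fin r → ℕ} {c : Fin (d + 1) → F}
    {a : Fin (R + 1) → Fin r → ℕ} {v : Fin (d + 1) → Fin (R + 1) → MvPolynomial (Fin r) A}
    (hr : Rep m x c ℓ gap a v) (hc : c (Fin.last d) = 1) (T : ℝ) (hS : h.Siz c (4 ^ d) T)
    (k : Fin r → ℕ) (Q : ℕ) (hQ : 1 ≤ Q) (hk : ∀ i, ℓ i ≤ k i)
    (hgap : ∀ i, k i + 2 * ℓ i ≤ gap i) (hT : T ≤ 2 ^ (Module.finrank ℚ A * ∏ i, k i))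
    (hQ' : ∀ i, b i ^ (2 * Q * r * (k i + ℓ i)) ≤ 2 ^ m i) :
    (∏ φ : F →+* ℂ, wt b m x a v Q φ) * ctv v ^ (2 * ∏ i, m i) ≤
      ((Cs b d : ℝ) ^ 2) ^ Module.finrank ℚ F := by
  classical
  choose μ hμℓ hμ hμ' using sz_mu hr
  obtain ⟨n, hnd⟩ : ∃ n : Fin r → ℕ, ∀ s, n s = k s + ℓ s := ⟨fun s => k s + ℓ s, fun _ => rfl⟩
  obtain ⟨k', hk'⟩ : ∃ k' : Fin r → ℕ, ∀ s, n s = k' s + μ s := ⟨fun s => n s - μ s, fun s => by
    have := hμℓ s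
    have := hnd s
    show n s = (n s - μ s) + μ s
    omega⟩
  have hkk : ∀ s, k s ≤ k' s := fun s => by
    have := hμℓ s
    have := hnd s
    have := hk' s
    omega
  have hk1 : ∀ s, 1 ≤ k' s := fun s => by
    have := hμℓ s
    have := hnd s
    have := hk' s
    omega
  have hn2 : ∀ s, n s ≤ 2 * k' s := fun s => by
    have := hμℓ s
    have := hnd s
    have := hk' s
    have := hk s
    omega
  have hQn : ∀ i, b i ^ (2 * Q * r * n i) ≤ 2 ^ m i := fun i => by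
    rw [hnd]
    exact hQ' i
  obtain ⟨N, hN⟩ : ∃ N : Fin r → ℕ, ∀ i, N i * Nat.gcd (m i) Q = m i :=
    ⟨fun i => m i / Nat.gcd (m i) Q, fun i => Nat.div_mul_cancel (Nat.gcd_dvd_left _ _)⟩
  have hN0 : ∀ i, NeZero (N i) := fun i => ⟨by
    intro h0
    have h1 := hN i
    rw [h0, zero_mul] at h1
    exact NeZero.ne (m i) h1.symm⟩
  have hnN : ∀ i, n i ≤ N i := by
    intro i
    have hr1 : 1 ≤ r := by
      have := i.2
      omega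
    have h1 : 2 ^ (2 * Q * r * n i) ≤ 2 ^ m i := (Nat.pow_le_pow_left (h.two i) _).trans (hQn i)
    have h2 : 2 * Q * r * n i ≤ m i := (Nat.pow_le_pow_iff_right (by norm_num)).1 h1
    have hg : Nat.gcd (m i) Q ≤ Q := Nat.gcd_le_right _ (by omega)
    have h3 : n i * Q ≤ N i * Q := by
      calc n i * Q ≤ 2 * Q * r * n i := by
            have : n i * Q * 1 ≤ n i * Q * (2 * r) := Nat.mul_le_mul_left _ (by omega)
            calc n i * Q = n i * Q * 1 := (mul_one _).symm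
              _ ≤ n i * Q * (2 * r) := this
              _ = 2 * Q * r * n i := by ring
        _ ≤ m i := h2
        _ = N i * Nat.gcd (m i) Q := (hN i).symm
        _ ≤ N i * Q := Nat.mul_le_mul_left _ hg
    exact Nat.le_of_mul_le_mul_right h3 (by omega)
  obtain ⟨e, he⟩ : ∃ e, e = Module.finrank ℚ A := ⟨_, rfl⟩
  obtain ⟨K, hK⟩ : ∃ K, K = ∏ i, k' i := ⟨_, rfl⟩
  have hK0 : K ≠ 0 := by
    rw [hK]
    exact Finset.prod_ne_zero_iff.2 fun i _ => by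
      have := hk1 i
      omega
  have hkK : ∏ i, k i ≤ K := by
    rw [hK]
    exact Finset.prod_le_prod (fun _ _ => Nat.zero_le _) fun i _ => hkk i
  have hNK : ∏ i, n i ≤ 2 ^ r * K := by
    rw [hK]
    calc ∏ i, n i ≤ ∏ i, 2 * k' i :=
          Finset.prod_le_prod (fun _ _ => Nat.zero_le _) fun i _ => hn2 i
      _ = 2 ^ r * ∏ i, k' i := by
          rw [Finset.prod_mul_distrib, Finset.prod_const, Finset.card_univ, Fintype.card_fin]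
  have hsub := sub_bound h hr hc T hS n k' μ hk1 (fun i j s => hμ s i j) hμ' hk' (fun s => by
    have := hgap s
    have := hnd s
    omega)
  have hdk : ∀ i j s, (v i j).degreeOf s + k' s ≤ n s := fun i j s => by
    have := hμ s i j
    have := hk' s
    omega
  have hng : ∀ i, n i ≤ gap i := fun s => by
    have := hgap s
    have := hnd s
    omega
  have hgl := gram_le h hr n k' hdk hng Q hQ N hnN
  have hk'N : ∀ i, k' i ≤ N i := fun i => by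
    have := hnN i
    have := hk' i
    omega
  have hlow : ∀ t : A →+* ℂ, (∏ χ : AddChar (Gm N) ℂ, fo (uv b m Q N t a v) χ) ^ K ≤
      gdt (sm (uv b m Q N t a v) (mb N k')) ^ (∏ i, N i) := by
    intro t
    have h1 := gr_lower (uv b m Q N t a v) (mb N k') (mb_inj k' hk'N)
    have h2 : Fintype.card (Box k') = K := by
      rw [hK, Fintype.card_pi]
      exact Finset.prod_congr rfl fun i _ => Fintype.card_fin _
    have h3 : Fintype.card (Gm N) = ∏ i, N i := by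
      rw [Fintype.card_pi]
      exact Finset.prod_congr rfl fun i _ => ZMod.card _
    rw [h2, h3] at h1
    exact h1
  have hdN : ∀ i j s, (v i j).degreeOf s < N s := fun i j s => by
    have := hμ s i j
    have := hμℓ s
    have := hnN s
    have := hnd s
    omega
  have hW : ∏ φ : F →+* ℂ, wt b m x a v Q φ =
      ∏ t : A →+* ℂ, (∏ χ : AddChar (Gm N) ℂ, fo (uv b m Q N t a v) χ) ^
        (∏ i, Nat.gcd (m i) Q) := by
    have h1 := h.prod_pow Q hQ N hN (wz b m a v)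
    rw [Finset.prod_congr rfl fun φ _ => wt_eq (b := b) (m := m) (x := x) a v Q φ, h1]
    refine Finset.prod_congr rfl fun t _ => ?_
    congr 1
    refine Finset.prod_congr rfl fun χ _ => ?_
    rw [fo_uv Q N t a v hdN χ]
  have hfo0 : ∀ t : A →+* ℂ, 0 ≤ ∏ χ : AddChar (Gm N) ℂ, fo (uv b m Q N t a v) χ := fun t =>
    Finset.prod_nonneg fun χ _ => fo_nonneg _ χ
  have hM : (∏ i, N i) * (∏ i, Nat.gcd (m i) Q) = ∏ i, m i := by
    rw [← Finset.prod_mul_distrib]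
    exact Finset.prod_congr rfl fun i _ => hN i
  obtain ⟨G, hG⟩ : ∃ G : ℝ, G = ∏ t : A →+* ℂ, gdt (sm (uv b m Q N t a v) (mb N k')) := ⟨_, rfl⟩
  have hG0 : 0 ≤ G := by
    rw [hG]
    exact Finset.prod_nonneg fun t _ => gdt_nonneg _
  have hWG : (∏ φ : F →+* ℂ, wt b m x a v Q φ) ^ K ≤ G ^ (∏ i, m i) := by
    rw [hW, ← Finset.prod_pow, hG, ← Finset.prod_pow]
    refine Finset.prod_le_prod (fun t _ => pow_nonneg (pow_nonneg (hfo0 t) _) _) fun t _ => ?_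
    rw [← hM, pow_mul, ← pow_mul, mul_comm (∏ i, Nat.gcd (m i) Q) K, pow_mul]
    exact pow_le_pow_left₀ (pow_nonneg (hfo0 t) _) (hlow t) _
  obtain ⟨P, hP⟩ : ∃ P : ℝ, P = ∏ i, rho b m i ^ n i := ⟨_, rfl⟩
  have hP1 : 1 ≤ P := by
    rw [hP]
    exact Finset.prod_induction _ (fun z : ℝ => 1 ≤ z)
      (fun _ _ h1 h2 => one_le_mul_of_one_le_of_one_le h1 h2) le_rfl
      (fun i _ => one_le_pow₀ (one_le_rho h.two i))
  have hPQ : P ^ (2 * Q) ≤ 2 := by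
    rw [hP]
    exact sz_P h n Q hQn
  have hP2 : P ≤ 2 := by
    refine le_trans ?_ hPQ
    calc P = P ^ 1 := (pow_one _).symm
      _ ≤ P ^ (2 * Q) := pow_le_pow_right₀ hP1 (by omega)
  have hctv := ctv_nonneg v
  have hGle : G ≤ (P ^ (2 * Q)) ^ (K * e) *
      ∏ t : A →+* ℂ, gdt (wm (wc b m) t (Em (v (Fin.last d) 0) k' n * Psi h c n)) := by
    rw [hG]
    calc ∏ t : A →+* ℂ, gdt (sm (uv b m Q N t a v) (mb N k')) ≤
        ∏ t : A →+* ℂ, ((P ^ (2 * Q)) ^ K *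
          gdt (wm (wc b m) t (Em (v (Fin.last d) 0) k' n * Psi h c n))) := by
          refine Finset.prod_le_prod (fun t _ => gdt_nonneg _) fun t _ => ?_
          have := hgl t
          rw [← hP, ← hK] at this
          exact this
      _ = _ := by
          rw [Finset.prod_mul_distrib, Finset.prod_const, Finset.card_univ, card_emb, ← he,
            ← pow_mul]
  have hT0 := sz_T h c _ T hS
  have hT' : T ≤ 2 ^ (e * K) := by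
    refine hT.trans (pow_le_pow_right₀ (by norm_num) ?_)
    rw [he]
    exact Nat.mul_le_mul_left _ hkK
  have hBb : 1 ≤ Bb b := by
    unfold Bb
    exact Nat.one_le_iff_ne_zero.2 (Finset.prod_ne_zero_iff.2 fun i _ => by
      have := h.two i
      omega)
  have hq : 1 ≤ 2 ^ r := Nat.one_le_two_pow
  rw [← hK, ← he, ← hP] at hsub
  have hmain : G * ctv v ^ (2 * K) ≤ ((Cs b d : ℝ) ^ 2) ^ (e * K) := by
    calc G * ctv v ^ (2 * K) ≤ ((P ^ (2 * Q)) ^ (K * e) *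
        ∏ t : A →+* ℂ, gdt (wm (wc b m) t (Em (v (Fin.last d) 0) k' n * Psi h c n))) *
          ctv v ^ (2 * K) := mul_le_mul_of_nonneg_right hGle (pow_nonneg hctv _)
      _ = (P ^ (2 * Q)) ^ (K * e) * ((∏ t : A →+* ℂ,
          gdt (wm (wc b m) t (Em (v (Fin.last d) 0) k' n * Psi h c n))) * ctv v ^ (2 * K)) := by
            ring
      _ ≤ (P ^ (2 * Q)) ^ (K * e) * ((Bb b : ℝ) ^ (2 * (e * K)) *
          (P ^ (e * ∏ i, n i) * ((4 ^ d) ^ (e * ∏ i, n i) * T))) :=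
            mul_le_mul_of_nonneg_left hsub (by positivity)
      _ ≤ _ := sz_num e K (∏ i, n i) (2 ^ r) d (Bb b) P (P ^ (2 * Q)) T (by linarith) hP2
            (by positivity) hPQ hT0 hT' hNK hq hBb
  have hfin : ((∏ φ : F →+* ℂ, wt b m x a v Q φ) * ctv v ^ (2 * ∏ i, m i)) ^ K ≤
      (((Cs b d : ℝ) ^ 2) ^ Module.finrank ℚ F) ^ K := by
    rw [mul_pow]
    calc (∏ φ : F →+* ℂ, wt b m x a v Q φ) ^ K * (ctv v ^ (2 * ∏ i, m i)) ^ K ≤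
        G ^ (∏ i, m i) * (ctv v ^ (2 * ∏ i, m i)) ^ K :=
          mul_le_mul_of_nonneg_right hWG (pow_nonneg (pow_nonneg hctv _) _)
      _ = (G * ctv v ^ (2 * K)) ^ (∏ i, m i) := by
          rw [mul_pow, sz_pow2]
      _ ≤ (((Cs b d : ℝ) ^ 2) ^ (e * K)) ^ (∏ i, m i) :=
          pow_le_pow_left₀ (mul_nonneg hG0 (pow_nonneg hctv _)) hmain _
      _ = _ := by
          rw [h.finrank_eq, ← he, sz_pow3]
  exact le_of_pow_le_pow_left₀ hK0 (by positivity) hfin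

end Pool.Agent.H72.BE
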