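import Pool.Agent.H72.BE.Two
import Pool.Agent.H72.BE.MinR
import Pool.Agent.H72.BE.Size
import Pool.Agent.H72.BD.Chain
import Pool.Agent.H4.RR.AbsHeight

/-!
# The chain (MP_187c26_nt, Theorem VR+, S5)

Model (r = 1): `Pool/Agent/H72/BD/Chain.lean` (the same induction; `Sm`, `sm_step` are those of `Pool.Agent.H72.BD`).

`chain_size`: `size` for `α ^ (n0 n')`, the windows `n' a_j mod m`, `ℓ := n' ℓ`, the same `k`: `n' ℓ ≤ N ℓ ≤ k`, `k + 2 n' ℓ ≤ gap`,
`b_i ^ (2 Q r (k_i + n' ℓ_i)) ≤ b_i ^ (2 N r (k_i + N ℓ_i)) ≤ 2 ^ m_i`.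
`chain`: by strong induction on `n'`. `n' = 1`: `min_rep` for `c = cf F (α ^ n0) d` (`hmin 1`), `1 * a j i % m i = a j i`. `n' > 1`: `sm_step`: a prime factor `p`, `n' = n'' p`,
`Q1 ≤ p`, `Sm Q1 n''`; `Rep` for `n''`; `chain_size` with `Q = p`; `step_win` for `α ^ (n0 n'')`, `p` and the Frobenius `S.frob p` (`p ≤ N`;
`(α ^ (n0 n'')) ^ p = α ^ (n0 n')`; `p d h(α ^ (n0 n'')) = d n0 n' h(α) ≤ log 2`: `absLogHeight_pow`; `p n'' ℓ ≤ gap ≤ m`): `WinAt` for `α ^ (n0 n')` at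
`p (n'' a_j % m) % m = n' a_j % m`, length `n' ℓ`. `min_rep` with `gap` and `L` (`hmin n'`; `2 gap + n' ℓ ≤ L`).
-/

set_option autoImplicit false

open MvPolynomial NumberField

namespace Pool.Agent.H72.BE

open Pool.Agent.H72.BD (Sm sm_step)

theorem cf_last {F Ω : Type} [Field F] [Field Ω] [Algebra F Ω] (α : Ω) (d : ℕ)
    (hα : IsIntegral F α) (hd : (minpoly F α).natDegree = d) : cf F α d (Fin.last d) = 1 := by
  unfold cf
  rw [Fin.val_last, ← hd]
  exact minpoly.monic hα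

/-- The data of the chain. -/
structure Setup {r : ℕ} {b m : Fin r → ℕ} [∀ i, NeZero (m i)] {A F : Type} [Field A]
    [NumberField A] [Field F] [NumberField F] [Algebra A F] {x : Fin r → F}
    (h : Rad b m A F x) {Ω : Type} [Field Ω] [CharZero Ω] [Algebra F Ω] (α : Ω)
    (d R n0 N : ℕ) (ℓ gap k L : Fin r → ℕ) (Q1 : ℕ) (a : Fin (R + 1) → Fin r → ℕ) (T : ℝ) :
    Prop where
  int : IsIntegral ℚ α
  a0 : a 0 = 0
  am : ∀ j i, a j i < m i
  hR : R ≤ R0 r d
  hℓ : ∀ i, 1 ≤ ℓ i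
  hn0 : 1 ≤ n0
  deg : ∀ n, 1 ≤ n → n ≤ n0 * N → (minpoly F (α ^ n)).natDegree = d
  siz : ∀ n, 1 ≤ n → n ≤ n0 * N → h.Siz (cf F (α ^ n) d) (4 ^ d) T
  hT : T ≤ 2 ^ (Module.finrank ℚ A * ∏ i, k i)
  hk : ∀ i, N * ℓ i ≤ k i
  hgap : ∀ i, k i + 2 * (N * ℓ i) ≤ gap i
  hgm : ∀ i, gap i ≤ m i
  hL : ∀ i, 2 * gap i + N * ℓ i ≤ L i
  hQ : ∀ i, b i ^ (2 * N * r * (k i + N * ℓ i)) ≤ 2 ^ m i
  hh : n0 * N * d * absLogHeight₁ α ≤ Real.log 2
  win : WinAt h (cf F (α ^ n0) d) a ℓ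
  hmin : ∀ n', Sm Q1 n' → 1 ≤ n' → n' ≤ N → ∀ R' < R, ¬ Win h (cf F (α ^ (n0 * n')) d) L R'
  hQ1 : 4 * K1 b d ^ (R0 r d + 1) ≤ Q1
  frob : ∀ p : ℕ, p.Prime → Q1 ≤ p → p ≤ N → ∃ σ : A →+* A, Frob A p σ

variable {r : ℕ} {b m : Fin r → ℕ} [∀ i, NeZero (m i)] {A F : Type} [Field A] [NumberField A]
  [Field F] [NumberField F] [Algebra A F] {x : Fin r → F} {h : Rad b m A F x} {Ω : Type}
  [Field Ω] [CharZero Ω] [Algebra F Ω] {α : Ω} {d R n0 N : ℕ} {ℓ gap k L : Fin r → ℕ} {Q1 : ℕ}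
  {a : Fin (R + 1) → Fin r → ℕ} {T : ℝ}

/-- The sizes along the chain. -/
theorem chain_size (S : Setup h α d R n0 N ℓ gap k L Q1 a T) (n' : ℕ) (h1 : 1 ≤ n')
    (hN : n' ≤ N) (v : Fin (d + 1) → Fin (R + 1) → MvPolynomial (Fin r) A)
    (hr : Rep m x (cf F (α ^ (n0 * n')) d) (fun i => n' * ℓ i) gap
      (fun j i => n' * a j i % m i) v) (Q : ℕ) (hQ0 : 1 ≤ Q) (hQN : Q ≤ N) :
    (∏ φ : F →+* ℂ, wt b m x (fun j i => n' * a j i % m i) v Q φ) * ctv v ^ (2 * ∏ i, m i) ≤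
      ((Cs b d : ℝ) ^ 2) ^ Module.finrank ℚ F := by
  have hn1 : 1 ≤ n0 * n' := Nat.mul_pos S.hn0 h1
  have hn2 : n0 * n' ≤ n0 * N := Nat.mul_le_mul_left _ hN
  have hle : ∀ i, n' * ℓ i ≤ N * ℓ i := fun i => Nat.mul_le_mul_right _ hN
  refine size h hr (cf_last _ d (S.int.tower_top.pow _) (S.deg _ hn1 hn2)) T (S.siz _ hn1 hn2)
    k Q hQ0 (fun i => (hle i).trans (S.hk i)) (fun i => ?_) S.hT fun i => ?_
  · have h2 := S.hgap i
    have h3 := hle i
    omega
  · refine le_trans (Nat.pow_le_pow_right ?_ ?_) (S.hQ i)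
    · have := h.two i
      omega
    · exact Nat.mul_le_mul (Nat.mul_le_mul_right _ (Nat.mul_le_mul_left _ hQN))
        (Nat.add_le_add_left (hle i) _)

theorem chain (S : Setup h α d R n0 N ℓ gap k L Q1 a T) (n' : ℕ) (hsm : Sm Q1 n')
    (h1 : 1 ≤ n') (hN : n' ≤ N) :
    ∃ v : Fin (d + 1) → Fin (R + 1) → MvPolynomial (Fin r) A,
      Rep m x (cf F (α ^ (n0 * n')) d) (fun i => n' * ℓ i) gap
        (fun j i => n' * a j i % m i) v := by
  have hNpos : 1 ≤ N := h1.trans hN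
  induction n' using Nat.strong_induction_on with
  | _ n' ih =>
  have hn1 : 1 ≤ n0 * n' := Nat.mul_pos S.hn0 h1
  have hn2 : n0 * n' ≤ n0 * N := Nat.mul_le_mul_left _ hN
  have hle : ∀ i, n' * ℓ i ≤ N * ℓ i := fun i => Nat.mul_le_mul_right _ hN
  have key : WinAt h (cf F (α ^ (n0 * n')) d) (fun j i => n' * a j i % m i)
      (fun i => n' * ℓ i) := by
    rcases Nat.eq_or_lt_of_le h1 with h2 | h2
    · rw [← h2]
      have ea : (fun j i => 1 * a j i % m i) = a := by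
        funext j i
        rw [one_mul, Nat.mod_eq_of_lt (S.am j i)]
      have el : (fun i => 1 * ℓ i) = ℓ := by
        funext i
        rw [one_mul]
      rw [ea, el, mul_one]
      exact S.win
    · obtain ⟨p, n'', hp, hpQ, rfl, hsm', h1', hlt⟩ := sm_step hsm h2
      have hN' : n'' ≤ N := hlt.le.trans hN
      obtain ⟨v, hv⟩ := ih n'' hlt hsm' h1' hN'
      have hpN : p ≤ N := le_trans (Nat.le_mul_of_pos_left _ h1') hN
      have hs := chain_size S n'' h1' hN' v hv p hp.one_lt.le hpN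
      obtain ⟨σ, hσ⟩ := S.frob p hp hpQ hpN
      have hpow : (α ^ (n0 * n'')) ^ p = α ^ (n0 * (n'' * p)) := by
        rw [← pow_mul, mul_assoc]
      have hstep := step_win h (α ^ (n0 * n'')) (S.int.pow _) hv
        (S.deg _ (Nat.mul_pos S.hn0 h1') (Nat.mul_le_mul_left _ hN')) p hp σ hσ
        (by rw [hpow]; exact S.deg _ hn1 hn2) S.hR hs
        (by
          rw [Pool.Agent.H4.RR.absLogHeight_pow Ω α S.int]
          have e1 : (p : ℝ) * d * (((n0 * n'' : ℕ) : ℝ) * absLogHeight₁ α) =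
              ((n0 * (n'' * p) : ℕ) : ℝ) * d * absLogHeight₁ α := by
            push_cast; ring
          rw [e1]
          rcases le_or_gt 0 (absLogHeight₁ α) with h0 | h0
          · refine le_trans ?_ S.hh
            refine mul_le_mul_of_nonneg_right ?_ h0
            refine mul_le_mul_of_nonneg_right ?_ (Nat.cast_nonneg d)
            exact_mod_cast hn2
          · have h3 : (((n0 * (n'' * p) : ℕ) : ℝ) * d) * absLogHeight₁ α ≤ 0 :=
              mul_nonpos_of_nonneg_of_nonpos (by positivity) h0.le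
            exact h3.trans (Real.log_nonneg (by norm_num)))
        (S.hQ1.trans hpQ)
        (fun i => by
          have h4 : p * (n'' * ℓ i) = n'' * p * ℓ i := by ring
          rw [h4]
          have h5 := S.hgm i
          have h6 := S.hgap i
          have h7 := hle i
          omega)
      rw [hpow] at hstep
      have e2 : (fun (j : Fin (R + 1)) (i : Fin r) => p * (n'' * a j i % m i) % m i) =
          fun j i => n'' * p * a j i % m i := by
        funext j i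
        rw [Nat.mul_mod, Nat.mod_mod, ← Nat.mul_mod]
        congr 1
        ring
      have e3 : (fun i => p * (n'' * ℓ i)) = fun i => n'' * p * ℓ i := by
        funext i
        ring
      have e5 : (fun i => p * (fun i => n'' * ℓ i) i) = fun i => n'' * p * ℓ i := e3
      have e4 : (fun (j : Fin (R + 1)) (i : Fin r) =>
          p * (fun j i => n'' * a j i % m i) j i % m i) = fun j i => n'' * p * a j i % m i := e2
      rw [e4, e5] at hstep
      exact hstep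
  refine min_rep h _ (cf_last _ d (S.int.tower_top.pow _) (S.deg _ hn1 hn2)) _ ?_
    (fun j i => Nat.mod_lt _ (NeZero.pos (m i))) (fun i => n' * ℓ i) gap L
    (fun i => Nat.mul_pos h1 (S.hℓ i)) (fun i => ?_) S.hgm
    (fun i => ?_) key (S.hmin n' hsm h1 hN)
  · funext i
    have h3 : a 0 i = 0 := by
      rw [S.a0]
      rfl
    show n' * a 0 i % m i = 0
    rw [h3, mul_zero, Nat.zero_mod]
  · show n' * ℓ i ≤ gap i
    have h3 := S.hgap i
    have h4 := hle i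
    omega
  · show 2 * gap i + n' * ℓ i ≤ L i
    have h3 := S.hL i
    have h4 := hle i
    omega

end Pool.Agent.H72.BE
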