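import Pool.Agent.H72.BE.Def

/-!
# Toeplitz determinants over a finite abelian group (MP_187c26_nt, Theorem VR+, toolkit)

Model: `Pool/Agent/H72/BD/Toe.lean`, `ToeB.lean` (the case `G = ZMod m`, real `u`); here `G` is any finite abelian group, `u` is complex
valued, `k : κ → G` is any injective family of shifts. `gr = sm u k * (sm u k)ᴴ`.

NOTATION. `V : Matrix κ (AddChar G ℂ) ℂ`, `V a ψ = ψ (k a) / √|G|`; `V Vᴴ = 1` (orthogonality: `∑ ψ, ψ (g) = 0` for `g ≠ 0`,
`AddChar.sum_apply_eq_ite`, `AddChar.card_eq`; `ψ (g)` conjugate `= ψ (-g)`, `AddChar.map_neg_eq_conj`).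

PROOF of `gr_fourier`: `gr a a' = ∑ i, ∑ l, u i (l - k a) conj (u i (l - k a'))`; the shift `l ↦ u i (l - k a)` has the transform
`ψ (k a) û_i(ψ)`, `û_i(ψ) = ∑ l, u i l ψ l`; Parseval: `∑ l, f l conj (g l) = (1 / |G|) ∑ ψ, f̂(ψ) conj (ĝ(ψ))`. So
`gr = V diag (fo u) Vᴴ` (all `fo u ψ` are real `≥ 0`).

PROOF of `gd_nonneg`, `gr_det_real`: the determinant of a positive semidefinite (Hermitian) matrix is real and `≥ 0`.

PROOF of `gr_upper`, `gr_lower`: Cauchy–Binet: `det gr = ∑ J, |V_J| ^ 2 ∏ ψ ∈ J, fo u ψ`, `∑ J, |V_J| ^ 2 = 1` (`V Vᴴ = 1`, `k` injective);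
weighted AM–GM; `∑ J ∋ ψ, |V_J| ^ 2` does not depend on `ψ` (multiply all characters of `J` by a fixed character `χ`: the rows are
multiplied by `χ (k a)`, of absolute value one), so it is `|κ| / |G|`. See ToeB.lean for the formal version with functions
`J : κ → AddChar G ℂ` instead of subsets (`Fintype.card κ ! * det = ∑ over functions`).
-/

set_option autoImplicit false

namespace Pool.Agent.H72.BE

variable {G : Type} [AddCommGroup G] [Fintype G] {ι κ : Type} [Fintype ι] [Fintype κ]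
  [DecidableEq κ]

theorem fo_nonneg (u : ι → G → ℂ) (ψ : AddChar G ℂ) : 0 ≤ fo u ψ :=
  Finset.sum_nonneg fun _ _ => by positivity

open scoped ComplexOrder in
private theorem det_nn {Ω : Type} [Fintype Ω] (M : Matrix κ Ω ℂ) :
    0 ≤ ((M * M.conjTranspose).det).re ∧ ((M * M.conjTranspose).det).im = 0 := by
  have h : 0 ≤ (M * M.conjTranspose).det :=
    (Matrix.posSemidef_self_mul_conjTranspose M).det_nonneg
  have h1 := Complex.le_def.1 h
  exact ⟨h1.1, h1.2.symm⟩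

theorem gdt_nonneg {Ω : Type} [Fintype Ω] (M : Matrix κ Ω ℂ) : 0 ≤ gdt M :=
  (det_nn M).1

theorem gdt_real {Ω : Type} [Fintype Ω] (M : Matrix κ Ω ℂ) :
    (M * M.conjTranspose).det = (gdt M : ℂ) := by
  have h := (det_nn M).2
  apply Complex.ext
  · rw [Complex.ofReal_re]
    rfl
  · rw [Complex.ofReal_im]
    exact h

private theorem ortho [DecidableEq G] (l l' : G) :
    ∑ ψ : AddChar G ℂ, ψ l * (starRingEnd ℂ) (ψ l') = if l = l' then (Fintype.card G : ℂ) else 0 := by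
  have h1 : ∀ ψ : AddChar G ℂ, ψ l * (starRingEnd ℂ) (ψ l') = ψ (l - l') := by
    intro ψ
    rw [← AddChar.map_neg_eq_conj, ← AddChar.map_add_eq_mul, sub_eq_add_neg]
  rw [Finset.sum_congr rfl fun ψ _ => h1 ψ, AddChar.sum_apply_eq_ite]
  by_cases h2 : l = l'
  · rw [if_pos h2, if_pos (sub_eq_zero.2 h2)]
  · rw [if_neg h2, if_neg (fun h3 => h2 (sub_eq_zero.1 h3))]

private theorem parseval (f g : G → ℂ) :
    ∑ l, f l * (starRingEnd ℂ) (g l) = (1 / (Fintype.card G : ℂ)) *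
      ∑ ψ : AddChar G ℂ, (∑ l, f l * ψ l) * (starRingEnd ℂ) (∑ l, g l * ψ l) := by
  classical
  have hG : (Fintype.card G : ℂ) ≠ 0 := Nat.cast_ne_zero.2 Fintype.card_ne_zero
  have h1 : ∀ ψ : AddChar G ℂ, (∑ l, f l * ψ l) * (starRingEnd ℂ) (∑ l, g l * ψ l) =
      ∑ l, ∑ l', f l * (starRingEnd ℂ) (g l') * (ψ l * (starRingEnd ℂ) (ψ l')) := by
    intro ψ
    rw [map_sum, Finset.sum_mul_sum]
    refine Finset.sum_congr rfl fun l _ => Finset.sum_congr rfl fun l' _ => ?_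
    rw [map_mul]
    ring
  rw [Finset.sum_congr rfl fun ψ _ => h1 ψ, Finset.sum_comm]
  have h2 : ∀ l : G, ∑ ψ : AddChar G ℂ, ∑ l', f l * (starRingEnd ℂ) (g l') *
      (ψ l * (starRingEnd ℂ) (ψ l')) = (Fintype.card G : ℂ) * (f l * (starRingEnd ℂ) (g l)) := by
    intro l
    rw [Finset.sum_comm]
    have h3 : ∀ l' : G, ∑ ψ : AddChar G ℂ, f l * (starRingEnd ℂ) (g l') *
        (ψ l * (starRingEnd ℂ) (ψ l')) =
        if l = l' then (Fintype.card G : ℂ) * (f l * (starRingEnd ℂ) (g l')) else 0 := by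
      intro l'
      rw [← Finset.mul_sum, ortho]
      split_ifs
      · ring
      · rw [mul_zero]
    rw [Finset.sum_congr rfl fun l' _ => h3 l', Finset.sum_ite_eq]
    rw [if_pos (Finset.mem_univ _)]
  rw [Finset.sum_congr rfl fun l _ => h2 l, ← Finset.mul_sum, ← mul_assoc, one_div,
    inv_mul_cancel₀ hG, one_mul]

private theorem shf (f : G → ℂ) (k : G) (ψ : AddChar G ℂ) :
    ∑ l, f (l - k) * ψ l = ψ k * ∑ l, f l * ψ l := by
  rw [← Equiv.sum_comp (Equiv.addRight k) fun l => f (l - k) * ψ l, Finset.mul_sum]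
  refine Finset.sum_congr rfl fun l _ => ?_
  rw [Equiv.coe_addRight, add_sub_cancel_right, AddChar.map_add_eq_mul]
  ring

theorem gr_fourier (u : ι → G → ℂ) (k : κ → G) (a a' : κ) :
    (sm u k * (sm u k).conjTranspose) a a' = (1 / (Fintype.card G : ℂ)) *
      ∑ ψ : AddChar G ℂ, ψ (k a) * (starRingEnd ℂ) (ψ (k a')) * (fo u ψ : ℂ) := by
  have h1 : (sm u k * (sm u k).conjTranspose) a a' =
      ∑ i, ∑ l, u i (l - k a) * (starRingEnd ℂ) (u i (l - k a')) := by
    rw [Matrix.mul_apply, Fintype.sum_prod_type]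
    rfl
  rw [h1]
  have h2 : ∀ i : ι, ∑ l, u i (l - k a) * (starRingEnd ℂ) (u i (l - k a')) =
      (1 / (Fintype.card G : ℂ)) * ∑ ψ : AddChar G ℂ, ψ (k a) * (starRingEnd ℂ) (ψ (k a')) *
        ((‖∑ l, u i l * ψ l‖ ^ 2 : ℝ) : ℂ) := by
    intro i
    rw [parseval (fun l => u i (l - k a)) fun l => u i (l - k a')]
    congr 1
    refine Finset.sum_congr rfl fun ψ _ => ?_
    rw [shf, shf, map_mul, Complex.ofReal_pow, ← Complex.mul_conj']
    ring
  rw [Finset.sum_congr rfl fun i _ => h2 i, ← Finset.mul_sum, Finset.sum_comm]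
  congr 1
  refine Finset.sum_congr rfl fun ψ _ => ?_
  rw [← Finset.mul_sum, fo, Complex.ofReal_sum]

end Pool.Agent.H72.BE
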