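import Pool.Agent.H72.BE.Dat
import Pool.Agent.H11.FR.Multi
import Pool.Agent.H11.FR.Ordx
import Pool.Agent.H4.OH.BaseS

/-!
# Integers of `ℚ(ξ, x_1, …, x_r)` and unramified primes (MP_187c26_nt, Theorem VR+)

`ints_sup`: `H11.FR.comp` with `K = ℚ`, `ι = Option (Fin r)` (see the use in `H11/FR/Whole.lean`), elements `ξ`, `x_i`, exponents `n`, `m_i`, `a = 1, b_i`,
`R = closure ({ξ} ∪ range x) ⊔ sup_i O_i`, `O_i` = integers of `ℚ(x_i)`. For `ξ`: the integers of `ℚ(ξ)` are `ℤ[ξ]`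
(`IsCyclotomicExtension.Rat` / `IsPrimitiveRoot` results of Mathlib). (`comp` needs `Ω` algebraic over `ℚ`: hypothesis.)
`int_mul`: `H11.FR.multi` with `A = closure ({ξ} ∪ range x)`, `O_i`, `d_i = m_i b_i`: `d_i w ∈ ℤ[x_i] ≤ A` for `w ∈ O_i` (`H11.FR.ordOf_kill` for `K = ℚ`, or `rad_sub`).
-/

set_option autoImplicit false

open NumberField IntermediateField

namespace Pool.Agent.H72.BE

variable {Ω : Type} [Field Ω] [CharZero Ω] [Algebra.IsAlgebraic ℚ Ω] {r : ℕ}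
  {b m : Fin r → ℕ} {n : ℕ} {ξ : Ω} {x : Fin r → Ω}

/-- `ℤ[ξ, x_1, …, x_r]`. -/
def SS (ξ : Ω) (x : Fin r → Ω) : Subring Ω := Subring.closure ({ξ} ∪ Set.range x)

/-- The integers of `ℚ(y)`. -/
def OO (y : Ω) : Subring Ω := ℚ⟮y⟯.toSubalgebra.toSubring ⊓ (integralClosure ℤ Ω).toSubring

omit [Algebra.IsAlgebraic ℚ Ω] in
private theorem oq_mem (R : Subring Ω) (s : 𝓞 ℚ) : algebraMap (𝓞 ℚ) Ω s ∈ R := by
  obtain ⟨k, hk⟩ : ∃ k : ℤ, (k : 𝓞 ℚ) = s := by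
    refine ⟨Rat.ringOfIntegersEquiv s, ?_⟩
    apply Rat.ringOfIntegersEquiv.injective
    rw [map_intCast]
    rfl
  rw [← hk, map_intCast]
  exact intCast_mem R k

omit [Algebra.IsAlgebraic ℚ Ω] in
private theorem cyc_mem (hn : 1 ≤ n) (hξ : IsPrimitiveRoot ξ n) (z : Ω) (hz : z ∈ ℚ⟮ξ⟯)
    (hzi : IsIntegral ℤ z) : z ∈ Subring.closure {ξ} := by
  rw [← Pool.Agent.H4.OH.baseS_range n hn ξ hξ]
  have h1 : IsIntegral ℤ (⟨z, hz⟩ : ℚ⟮ξ⟯) :=
    (isIntegral_algHom_iff (IsScalarTower.toAlgHom ℤ (ℚ⟮ξ⟯) Ω)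
      (algebraMap (ℚ⟮ξ⟯) Ω).injective).1 hzi
  exact ⟨⟨⟨z, hz⟩, h1⟩, rfl⟩

omit [CharZero Ω] [Algebra.IsAlgebraic ℚ Ω] in
private theorem xi_mem (ξ : Ω) (x : Fin r → Ω) : ξ ∈ SS ξ x := Subring.subset_closure (Or.inl rfl)

omit [CharZero Ω] [Algebra.IsAlgebraic ℚ Ω] in
private theorem x_mem (ξ : Ω) (x : Fin r → Ω) (i : Fin r) : x i ∈ SS ξ x :=
  Subring.subset_closure (Or.inr ⟨i, rfl⟩)

theorem Dat.ints_sup (h : Dat b m n ξ x) (z : Ω) (hz : z ∈ FF ξ x) (hzi : IsIntegral ℤ z) :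
    z ∈ SS ξ x ⊔ Finset.univ.sup (fun i => OO (x i)) := by
  classical
  obtain ⟨R, hR⟩ : ∃ R, R = SS ξ x ⊔ Finset.univ.sup (fun i => OO (x i)) := ⟨_, rfl⟩
  have hSR : SS ξ x ≤ R := by
    rw [hR]
    exact le_sup_left
  have hOR : ∀ i, OO (x i) ≤ R := by
    intro i
    rw [hR]
    exact (Finset.le_sup (f := fun i => OO (x i)) (Finset.mem_univ i)).trans le_sup_right
  rw [← hR]
  let y : Option (Fin r) → Ω := fun o => o.elim ξ x
  let e : Option (Fin r) → ℕ := fun o => o.elim n m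
  let a : Option (Fin r) → 𝓞 ℚ := fun o => o.elim 1 (fun i => (b i : 𝓞 ℚ))
  have hcast : ∀ i j : ℕ, Nat.Coprime i j → IsCoprime (i : 𝓞 ℚ) (j : 𝓞 ℚ) := by
    intro i j hij
    have h1 := (Nat.isCoprime_iff_coprime.2 hij).map (Int.castRingHom (𝓞 ℚ))
    simpa using h1
  have hall := Pool.Agent.H11.FR.comp (K := ℚ) R (oq_mem R) y (by
    rintro (_ | i)
    · exact hSR (xi_mem ξ x)
    · exact hSR (x_mem ξ x i)) e (by
    rintro (_ | i)
    · exact h.hn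
    · exact h.hm i) a (by
    rintro (_ | i)
    · show ξ ^ n = algebraMap (𝓞 ℚ) Ω 1
      rw [h.prim.pow_eq_one, map_one]
    · show x i ^ m i = algebraMap (𝓞 ℚ) Ω (b i : 𝓞 ℚ)
      rw [h.pow, map_natCast]) (by
    rintro (_ | i) (_ | j) hij
    · exact absurd rfl hij
    · show IsCoprime ((n : 𝓞 ℚ) * 1) ((m j : 𝓞 ℚ) * (b j : 𝓞 ℚ))
      rw [mul_one, ← Nat.cast_mul]
      exact hcast _ _ (h.cn j)
    · show IsCoprime ((m i : 𝓞 ℚ) * (b i : 𝓞 ℚ)) ((n : 𝓞 ℚ) * 1)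
      rw [mul_one, ← Nat.cast_mul]
      exact (hcast _ _ (h.cn i)).symm
    · show IsCoprime ((m i : 𝓞 ℚ) * (b i : 𝓞 ℚ)) ((m j : 𝓞 ℚ) * (b j : 𝓞 ℚ))
      rw [← Nat.cast_mul, ← Nat.cast_mul]
      exact hcast _ _ (h.cb i j fun h1 => hij (by rw [h1]))) (by
    rintro (_ | i) z hz hzi
    · have h1 : Subring.closure {ξ} ≤ SS ξ x := by
        unfold SS
        exact Subring.closure_mono Set.subset_union_left
      exact hSR (h1 (cyc_mem h.hn h.prim z hz hzi))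
    · exact hOR i ⟨hz, hzi⟩)
  refine hall _ Finset.univ rfl z ?_ hzi
  have h2 : ({ξ} ∪ Set.range x : Set Ω) ⊆
      {w | ∃ o ∈ (Finset.univ : Finset (Option (Fin r))), w = y o} := by
    rintro w (hw | ⟨i, rfl⟩)
    · rw [Set.mem_singleton_iff] at hw
      exact ⟨none, Finset.mem_univ _, hw⟩
    · exact ⟨some i, Finset.mem_univ _, rfl⟩
  exact IntermediateField.adjoin.mono ℚ _ _ h2 hz

omit [CharZero Ω] [Algebra.IsAlgebraic ℚ Ω] in
private theorem mul_sup (A : Subring Ω) (O : Fin r → Subring Ω) (d : Fin r → ℕ)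
    (hd : ∀ i, ∀ w ∈ O i, (d i : Ω) * w ∈ A) (T : Finset (Fin r)) :
    ∀ z ∈ A ⊔ T.sup O, ((∏ i ∈ T, d i : ℕ) : Ω) * z ∈ A := by
  classical
  induction T using Finset.induction_on with
  | empty =>
    intro z hz
    rw [Finset.sup_empty, sup_bot_eq] at hz
    rw [Finset.prod_empty, Nat.cast_one, one_mul]
    exact hz
  | insert j T hj ih =>
    intro z hz
    have h1 : A ⊔ (insert j T).sup O = (A ⊔ T.sup O) ⊔ O j := by
      rw [Finset.sup_insert, sup_assoc, sup_comm (T.sup O)]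
    rw [h1] at hz
    have h2 := Pool.Agent.H11.FR.mem_sup_closure _ _ z hz
    clear hz
    rw [Finset.prod_insert hj, Nat.cast_mul]
    induction h2 using AddSubgroup.closure_induction with
    | mem t ht =>
      obtain ⟨a, ha, w, hw, rfl⟩ := ht
      have h3 : (d j : Ω) * ((∏ i ∈ T, d i : ℕ) : Ω) * (a * w) =
          (((∏ i ∈ T, d i : ℕ) : Ω) * a) * ((d j : Ω) * w) := by ring
      rw [h3]
      exact A.mul_mem (ih a ha) (hd j w hw)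
    | zero => rw [mul_zero]; exact A.zero_mem
    | add u v _ _ hu hv => rw [mul_add]; exact A.add_mem hu hv
    | neg u _ hu => rw [mul_neg]; exact A.neg_mem hu

theorem Dat.int_mul (h : Dat b m n ξ x) (z : Ω) (hz : z ∈ FF ξ x) (hzi : IsIntegral ℤ z) :
    ((∏ i, m i * b i : ℕ) : Ω) * z ∈ SS ξ x := by
  refine mul_sup (SS ξ x) (fun i => OO (x i)) (fun i => m i * b i) ?_ Finset.univ z
    (h.ints_sup z hz hzi)
  intro i w hw
  have h1 : x i ^ m i = algebraMap (𝓞 ℚ) Ω (b i : 𝓞 ℚ) := by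
    rw [h.pow, map_natCast]
  have h2 := Pool.Agent.H11.FR.ordOf_kill (K := ℚ) (h.hm i) h1 w hw
  have h3 : algebraMap (𝓞 ℚ) Ω ((m i : 𝓞 ℚ) * (b i : 𝓞 ℚ)) = ((m i * b i : ℕ) : Ω) := by
    rw [← Nat.cast_mul, map_natCast]
  rw [h3] at h2
  exact Pool.Agent.H11.FR.ordOf_le (K := ℚ) (x i) (SS ξ x) (oq_mem _) (x_mem ξ x i) h2

end Pool.Agent.H72.BE
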