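import Pool.Agent.H72.BE.DatU

/-!
# `Rad` for `ℚ(ξ, x_1, …, x_r)` over `ℚ(ξ)` (MP_187c26_nt, Theorem VR+)

`li`: induction on `r`. For `r + 1`: `L = FF ξ x'`, `x' = x ∘ Fin.castSucc` (`Dat` for `x'`: as `Dat.drop (Fin.last r)`, `Fin.succAbove_last`), `y = x (Fin.last r)`, `y ^ M = B`, `M = m last`, `B = b last ≥ 2`: a prime `p ∣ B`,
`p ^ 2 ∤ B` (squarefree), `p ∤ n`, `p ∤ m_i b_i` for `i < r` (coprimality). `deg_rad`: `1, y, …, y ^ (M - 1)` are independent over `L`; the monomials of `x'` are independent over `AA ξ` by induction and lie in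
`L`: `LinearIndependent.smul` (tower `AA ξ`, `L`, `Ω`); reindex `Gm m ≃ Gm (m ∘ castSucc) × ZMod (m last)` (`Fin.snocEquiv` or similar), `mon x (vl l) = mon x' (vl l') * y ^ (l last).val` (`Fin.prod_univ_castSucc`).
`rad`: `li` in `FF ξ x` follows from `li` in `Ω` (injectivity). Degree: `FF ξ x` is spanned over `AA ξ` by the monomials `mon x (vl l)`: their span contains `1`, is stable under multiplication by the
`x_i` (`mon_reduce`-like: `x_i ^ m_i = b_i`) and by `AA ξ`, so it is the subalgebra generated by the `x_i`, which is a field (algebraic elements), `= FF ξ x`. So the `mon` form a basis.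
-/

set_option autoImplicit false

open NumberField IntermediateField

namespace Pool.Agent.H72.BE

variable {Ω : Type} [Field Ω] [CharZero Ω] [Algebra.IsAlgebraic ℚ Ω]

omit [Algebra.IsAlgebraic ℚ Ω] in
private theorem datb_map {r : ℕ} (ξ : Ω) (x : Fin r → Ω) (a : Fin r → ℕ) :
    algebraMap (FF ξ x) Ω (mon (xF ξ x) a) = mon x a := by
  unfold mon
  rw [map_prod]
  refine Finset.prod_congr rfl fun i _ => ?_
  rw [map_pow]
  rfl

omit [Algebra.IsAlgebraic ℚ Ω] in
private theorem datb_down {r : ℕ} {ι : Type} {ξ : Ω} {x : Fin r → Ω} (f : ι → Fin r → ℕ)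
    (h : LinearIndependent (AA ξ) (fun l : ι => mon x (f l))) :
    LinearIndependent (AA ξ) (fun l : ι => mon (xF ξ x) (f l)) := by
  refine LinearIndependent.of_comp (IsScalarTower.toAlgHom (AA ξ) (FF ξ x) Ω).toLinearMap ?_
  have h1 : ((IsScalarTower.toAlgHom (AA ξ) (FF ξ x) Ω).toLinearMap ∘
      fun l : ι => mon (xF ξ x) (f l)) = fun l : ι => mon x (f l) := by
    funext l
    exact datb_map ξ x (f l)
  rw [h1]
  exact h

private theorem li_aux {n : ℕ} {ξ : Ω} : ∀ (r : ℕ) (b m : Fin r → ℕ) (x : Fin r → Ω),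
    Dat b m n ξ x → LinearIndependent (AA ξ) (fun l : Gm m => mon x (vl l)) := by
  intro r
  induction r with
  | zero =>
    intro b m x _
    rw [linearIndependent_unique_iff]
    unfold mon
    rw [Finset.univ_eq_empty, Finset.prod_empty]
    exact one_ne_zero
  | succ r ih =>
    intro b m x h
    have h' := h.drop (Fin.last r)
    simp only [Fin.succAbove_last] at h'
    obtain ⟨p, hp, hpB⟩ := Nat.exists_prime_and_dvd (show b (Fin.last r) ≠ 1 by
      have := h.two (Fin.last r); omega)
    have hpB2 : ¬ p ^ 2 ∣ b (Fin.last r) := by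
      intro h1
      have h2 := h.sqf (Fin.last r) p (by rw [← pow_two]; exact h1)
      exact hp.one_lt.ne' (Nat.isUnit_iff.1 h2)
    have hpmb : p ∣ m (Fin.last r) * b (Fin.last r) := Dvd.dvd.mul_left hpB _
    have hpn : ¬ p ∣ n := by
      intro h1
      have h2 := Nat.dvd_gcd h1 hpmb
      rw [h.cn (Fin.last r)] at h2
      exact hp.one_lt.ne' (Nat.dvd_one.1 h2)
    have hpm : ∀ i : Fin r, ¬ p ∣ m i.castSucc * b i.castSucc := by
      intro i h1
      have h2 := Nat.dvd_gcd h1 hpmb
      rw [h.cb i.castSucc (Fin.last r) (Fin.castSucc_lt_last i).ne] at h2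
      exact hp.one_lt.ne' (Nat.dvd_one.1 h2)
    have hdeg := h'.deg_rad p hp hpn hpm (x (Fin.last r)) (m (Fin.last r)) (b (Fin.last r))
      (h.hm _) (h.pow _) hpB hpB2
    have h1 := ih _ _ _ h'
    have h2 := datb_down _ h1
    have h3 : LinearIndependent (FF ξ fun i : Fin r => x i.castSucc)
        (fun i : Fin (minpoly (FF ξ fun i : Fin r => x i.castSucc) (x (Fin.last r))).natDegree =>
          x (Fin.last r) ^ (i : ℕ)) := linearIndependent_pow _
    have h4 := linearIndependent_smul h2 h3
    have hz : ∀ i, NeZero (m i) := fun i => ⟨by have := h.hm i; omega⟩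
    let g : Gm m → Gm (fun i : Fin r => m i.castSucc) ×
        Fin (minpoly (FF ξ fun i : Fin r => x i.castSucc) (x (Fin.last r))).natDegree :=
      fun l => (fun i => l i.castSucc, ⟨(l (Fin.last r)).val, by
        rw [hdeg]
        exact ZMod.val_lt _⟩)
    have hg : Function.Injective g := by
      intro l l' hl
      rw [Prod.ext_iff] at hl
      obtain ⟨h5, h6⟩ := hl
      have h7 : (l (Fin.last r)).val = (l' (Fin.last r)).val := congrArg Fin.val h6
      funext i
      refine Fin.lastCases ?_ (fun j => ?_) i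
      · exact ZMod.val_injective _ h7
      · exact congrFun h5 j
    have h5 := h4.comp g hg
    have h6 : (fun l : Gm m => mon x (vl l)) = (fun q : Gm (fun i : Fin r => m i.castSucc) ×
        Fin (minpoly (FF ξ fun i : Fin r => x i.castSucc) (x (Fin.last r))).natDegree =>
        mon (xF ξ fun i : Fin r => x i.castSucc) (vl q.1) • x (Fin.last r) ^ (q.2 : ℕ)) ∘ g := by
      funext l
      show mon x (vl l) = mon (xF ξ fun i : Fin r => x i.castSucc)
        (vl fun i : Fin r => l i.castSucc) • x (Fin.last r) ^ (l (Fin.last r)).val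
      rw [Algebra.smul_def, datb_map]
      unfold mon
      rw [Fin.prod_univ_castSucc]
      rfl
    rw [h6]
    exact h5

theorem Dat.li {r : ℕ} {b m : Fin r → ℕ} {n : ℕ} {ξ : Ω} {x : Fin r → Ω}
    (h : Dat b m n ξ x) : LinearIndependent (AA ξ) (fun l : Gm m => mon x (vl l)) :=
  li_aux r b m x h

/-- the reduction of a monomial -/
private theorem datb_red {r : ℕ} {b m : Fin r → ℕ} {n : ℕ} {ξ : Ω} {x : Fin r → Ω}
    (h : Dat b m n ξ x) (a : Fin r → ℕ) :
    mon x a = ((∏ i, b i ^ (a i / m i) : ℕ) : Ω) * mon x (vl (md m a)) := by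
  unfold mon
  rw [Nat.cast_prod, ← Finset.prod_mul_distrib]
  refine Finset.prod_congr rfl fun i _ => ?_
  have h1 : vl (md m a) i = a i % m i := by
    unfold vl md
    exact ZMod.val_natCast _ _
  rw [h1, Nat.cast_pow, ← h.pow i, ← pow_mul, ← pow_add, Nat.div_add_mod]

private theorem datb_mon {r : ℕ} {b m : Fin r → ℕ} {n : ℕ} {ξ : Ω} {x : Fin r → Ω}
    (h : Dat b m n ξ x) (a : Fin r → ℕ) :
    mon x a ∈ Submodule.span (AA ξ) (Set.range fun l : Gm m => mon x (vl l)) := by
  rw [datb_red h a]
  have h1 : ((∏ i, b i ^ (a i / m i) : ℕ) : Ω) * mon x (vl (md m a)) =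
      ((∏ i, b i ^ (a i / m i) : ℕ) : AA ξ) • mon x (vl (md m a)) := by
    rw [Algebra.smul_def, map_natCast]
  rw [h1]
  exact Submodule.smul_mem _ _ (Submodule.subset_span ⟨_, rfl⟩)

private theorem datb_mul {r : ℕ} {b m : Fin r → ℕ} {n : ℕ} {ξ : Ω} {x : Fin r → Ω}
    (h : Dat b m n ξ x) {y z : Ω}
    (hy : y ∈ Submodule.span (AA ξ) (Set.range fun l : Gm m => mon x (vl l)))
    (hz : z ∈ Submodule.span (AA ξ) (Set.range fun l : Gm m => mon x (vl l))) :
    y * z ∈ Submodule.span (AA ξ) (Set.range fun l : Gm m => mon x (vl l)) := by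
  induction hy using Submodule.span_induction with
  | mem y hy =>
    obtain ⟨l, rfl⟩ := hy
    induction hz using Submodule.span_induction with
    | mem z hz =>
      obtain ⟨l', rfl⟩ := hz
      show mon x (vl l) * mon x (vl l') ∈ _
      rw [← mon_add]
      exact datb_mon h _
    | zero => rw [mul_zero]; exact Submodule.zero_mem _
    | add z z' _ _ h1 h2 => rw [mul_add]; exact Submodule.add_mem _ h1 h2
    | smul c z _ h1 => rw [mul_smul_comm]; exact Submodule.smul_mem _ _ h1
  | zero => rw [zero_mul]; exact Submodule.zero_mem _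
  | add y y' _ _ h1 h2 => rw [add_mul]; exact Submodule.add_mem _ h1 h2
  | smul c y _ h1 => rw [smul_mul_assoc]; exact Submodule.smul_mem _ _ h1

private theorem datb_span {r : ℕ} {b m : Fin r → ℕ} {n : ℕ} {ξ : Ω} {x : Fin r → Ω}
    (h : Dat b m n ξ x) {z : Ω} (hz : z ∈ FF ξ x) :
    z ∈ Submodule.span (AA ξ) (Set.range fun l : Gm m => mon x (vl l)) := by
  have hone : (1 : Ω) ∈ Submodule.span (AA ξ) (Set.range fun l : Gm m => mon x (vl l)) := by
    rw [← mon_zero x]
    exact datb_mon h 0
  have hA : ∀ c : AA ξ, (c : Ω) ∈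
      Submodule.span (AA ξ) (Set.range fun l : Gm m => mon x (vl l)) := by
    intro c
    have h1 : (c : Ω) = c • (1 : Ω) := by
      rw [Algebra.smul_def, mul_one]
      rfl
    rw [h1]
    exact Submodule.smul_mem _ _ hone
  have h1 : z ∈ (FF ξ x).toSubalgebra := hz
  unfold FF at h1
  rw [IntermediateField.adjoin_toSubalgebra] at h1
  clear hz
  induction h1 using Algebra.adjoin_induction with
  | mem z hz =>
    rcases hz with hz | ⟨i, rfl⟩
    · rw [Set.mem_singleton_iff] at hz
      rw [hz]
      exact hA (ξA ξ)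
    · have h2 : x i = mon x (Pi.single i 1) := by
        unfold mon
        rw [Finset.prod_eq_single i]
        · rw [Pi.single_eq_same, pow_one]
        · intro j _ hj
          rw [Pi.single_eq_of_ne hj, pow_zero]
        · intro hi
          exact absurd (Finset.mem_univ i) hi
      rw [h2]
      exact datb_mon h _
  | algebraMap c => exact hA (algebraMap ℚ (AA ξ) c)
  | add y z _ _ h1 h2 => exact Submodule.add_mem _ h1 h2
  | mul y z _ _ h1 h2 => exact datb_mul h h1 h2

theorem Dat.rad {r : ℕ} {b m : Fin r → ℕ} {n : ℕ} {ξ : Ω} {x : Fin r → Ω}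
    (h : Dat b m n ξ x) [NumberField (AA ξ)] [NumberField (FF ξ x)] :
    Rad b m (AA ξ) (FF ξ x) (xF ξ x) := by
  have hz : ∀ i, NeZero (m i) := fun i => ⟨by have := h.hm i; omega⟩
  have hli := datb_down _ h.li
  refine ⟨h.two, ?_, ?_, ?_, hli⟩
  · intro i j hij
    exact Nat.Coprime.coprime_dvd_left (Dvd.intro_left _ rfl)
      (Nat.Coprime.coprime_dvd_right (Dvd.intro_left _ rfl) (h.cb i j hij))
  · intro i
    apply Subtype.ext
    exact h.pow i
  · have hsp : ⊤ ≤ Submodule.span (AA ξ) (Set.range fun l : Gm m => mon (xF ξ x) (vl l)) := by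
      intro z _
      have h1 := datb_span h z.2
      have h2 : (Set.range fun l : Gm m => mon x (vl l)) =
          (IsScalarTower.toAlgHom (AA ξ) (FF ξ x) Ω).toLinearMap ''
            (Set.range fun l : Gm m => mon (xF ξ x) (vl l)) := by
        rw [← Set.range_comp]
        congr 1
        funext l
        exact (datb_map ξ x (vl l)).symm
      rw [h2, ← Submodule.map_span] at h1
      obtain ⟨z', hz', hzz⟩ := h1
      have h3 : z' = z := Subtype.ext hzz
      rw [← h3]
      exact hz'
    let B := Module.Basis.mk hli hsp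
    rw [Module.finrank_eq_card_basis B, Fintype.card_pi]
    exact Finset.prod_congr rfl fun i _ => ZMod.card _

end Pool.Agent.H72.BE
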