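import Pool.Agent.H72.BE.DatA

/-!
# Unramified primes, degrees of radicals (MP_187c26_nt, Theorem VR+)

`unr`: `S = closure ({ξ} ∪ range x)`, `N = ∏ m_i b_i`, `p ∤ n N`. The generators `y = ξ, x_i` of `S` satisfy `y ^ e = a ∈ ℤ`, `p ∤ e a`, so modulo `p S`:
`y ^ (e (p - 1)) = 1` (Fermat for `a`), `e (p - 1)` prime to `p`: choose `f ≥ 1` with `p ^ f ≡ 1` modulo all `e (p - 1)` (order of `p` modulo the product): `y ^ (p ^ f) ≡ y` modulo `p S`. The map
`z ↦ z ^ (p ^ f) - z` is additive modulo `p S` and the set of `z ∈ S` with `z ^ (p ^ f) - z ∈ p S` is a subring: it is `S`. For `z ∈ FF` integral: `N z ∈ S` (`int_mul`):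
`(N z) ^ (p ^ f) - N z ∈ p S`; `N ^ (p ^ f) ≡ N` modulo `p`: so `N (z ^ (p ^ f) - z) ∈ p (integers)`; `gcd (N, p) = 1`: Bezout.

`deg_rad`: `L = FF ξ x`, `𝓞 L`. Take a maximal ideal `P` of `𝓞 L` which contains `p`. By `unr` (`z ^ (p ^ f) - z ∈ p 𝓞 L` for all `z`): `p ∉ P ^ 2` (otherwise take `z ∈ P`, `z ∉ P ^ 2`: `z ^ (p ^ f) ∈ P ^ 2`,
so `z ∈ P ^ 2 + p 𝓞 L ≤ P ^ 2`, contradiction; `P ≠ P ^ 2` in a Dedekind domain, `P ≠ ⊥`). `B = p u`, `p ∤ u`: `u v = 1 + p w` in `ℤ`: if `B ∈ P ^ 2` then `p = v B - p ^ 2 w ∈ P ^ 2`. So `X ^ M - B` is Eisenstein at `P`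
(`Polynomial.IsEisensteinAt.irreducible`, monic, so primitive), irreducible over `𝓞 L`, hence over `L` (`Polynomial.Monic.irreducible_iff_irreducible_map_fraction_map`): it is the
minimal polynomial of `y`.
-/

set_option autoImplicit false

open NumberField IntermediateField

namespace Pool.Agent.H72.BE

variable {Ω : Type} [Field Ω] [CharZero Ω] [Algebra.IsAlgebraic ℚ Ω] {r : ℕ}
  {b m : Fin r → ℕ} {n : ℕ} {ξ : Ω} {x : Fin r → Ω}

omit [CharZero Ω] [Algebra.IsAlgebraic ℚ Ω] in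
/-- A generator modulo `p`. -/
private theorem datu_gen (S : Subring Ω) {p : ℕ} (hp : p.Prime) {q e a : ℕ} (hq1 : 1 ≤ q)
    (hq : e * (p - 1) ∣ q - 1) {y : Ω} (hy : y ∈ S) (hya : y ^ e = (a : Ω)) (hpa : ¬ p ∣ a) :
    ∃ c ∈ S, y ^ q - y = (p : Ω) * c := by
  obtain ⟨t, ht⟩ := hq
  have hcop : IsCoprime (a : ℤ) (p : ℤ) := by
    rw [Nat.isCoprime_iff_coprime]
    exact (Nat.coprime_comm.1 ((Nat.Prime.coprime_iff_not_dvd hp).2 hpa))
  have h1 := (Int.ModEq.pow_card_sub_one_eq_one hp hcop).pow t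
  rw [one_pow] at h1
  obtain ⟨k, hk⟩ := (Int.modEq_iff_dvd.1 h1.symm)
  refine ⟨y * (k : Ω), S.mul_mem hy (intCast_mem S k), ?_⟩
  have h2 : q = e * ((p - 1) * t) + 1 := by
    rw [← mul_assoc, ← ht]
    omega
  have h3 : (((a : ℤ) ^ (p - 1)) ^ t - 1 : ℤ) = (p : ℤ) * k := hk
  have h4 : (((a : Ω) ^ (p - 1)) ^ t - 1 : Ω) = (p : Ω) * (k : Ω) := by
    have h5 := congrArg (fun z : ℤ => (z : Ω)) h3
    push_cast at h5
    exact h5
  rw [h2, pow_succ, pow_mul, hya, pow_mul]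
  linear_combination y * h4

omit [CharZero Ω] [Algebra.IsAlgebraic ℚ Ω] in
/-- All elements modulo `p`. -/
private theorem datu_all (s : Set Ω) {p : ℕ} (hp : p.Prime) (f : ℕ)
    (hs : ∀ y ∈ s, ∃ c ∈ Subring.closure s, y ^ (p ^ f) - y = (p : Ω) * c) {z : Ω}
    (hz : z ∈ Subring.closure s) : ∃ c ∈ Subring.closure s, z ^ (p ^ f) - z = (p : Ω) * c := by
  have hq : p ^ f ≠ 0 := pow_ne_zero _ hp.ne_zero
  induction hz using Subring.closure_induction with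
  | mem y hy => exact hs y hy
  | zero => exact ⟨0, zero_mem _, by rw [zero_pow hq, sub_zero, mul_zero]⟩
  | one => exact ⟨0, zero_mem _, by rw [one_pow, sub_self, mul_zero]⟩
  | add y w hy hw h1 h2 =>
    obtain ⟨c, hc, h1⟩ := h1
    obtain ⟨e, he, h2⟩ := h2
    obtain ⟨r, hr⟩ := exists_add_pow_prime_pow_eq hp (⟨y, hy⟩ : Subring.closure s) ⟨w, hw⟩ f
    have hr' : (y + w) ^ (p ^ f) = y ^ (p ^ f) + w ^ (p ^ f) + (p : Ω) * y * w * (r : Ω) := by
      have h3 := congrArg (fun z : Subring.closure s => (z : Ω)) hr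
      push_cast at h3
      exact h3
    refine ⟨c + e + y * w * r, add_mem (add_mem hc he) (mul_mem (mul_mem hy hw) r.2), ?_⟩
    rw [hr']
    linear_combination h1 + h2
  | neg y hy h1 =>
    obtain ⟨c, hc, h1⟩ := h1
    rcases hp.eq_two_or_odd' with h2 | h2
    · subst h2
      by_cases hf : f = 0
      · subst hf
        refine ⟨0, zero_mem _, ?_⟩
        rw [pow_zero, pow_one, sub_self, mul_zero]
      · have h3 : Even (2 ^ f) := (Nat.even_pow.2 ⟨even_two, hf⟩)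
        refine ⟨c + y, add_mem hc hy, ?_⟩
        rw [h3.neg_pow]
        push_cast at h1 ⊢
        linear_combination h1
    · refine ⟨-c, neg_mem hc, ?_⟩
      rw [(h2.pow).neg_pow]
      linear_combination -h1
  | mul y w hy hw h1 h2 =>
    obtain ⟨c, hc, h1⟩ := h1
    obtain ⟨e, he, h2⟩ := h2
    refine ⟨y * e + w * c + (p : Ω) * c * e, add_mem (add_mem (mul_mem hy he) (mul_mem hw hc))
      (mul_mem (mul_mem (natCast_mem _ _) hc) he), ?_⟩
    rw [mul_pow]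
    have h3 : y ^ (p ^ f) = y + (p : Ω) * c := by linear_combination h1
    have h4 : w ^ (p ^ f) = w + (p : Ω) * e := by linear_combination h2
    rw [h3, h4]
    ring

omit [Algebra.IsAlgebraic ℚ Ω] in
private theorem datu_SS_le {z : Ω} (hz : z ∈ SS ξ x) : z ∈ FF ξ x := by
  have h1 : SS ξ x ≤ (FF ξ x).toSubalgebra.toSubring := by
    unfold SS
    rw [Subring.closure_le]
    exact IntermediateField.subset_adjoin ℚ _
  exact h1 hz

omit [Algebra.IsAlgebraic ℚ Ω] in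
private theorem datu_SS_int (h : Dat b m n ξ x) {z : Ω} (hz : z ∈ SS ξ x) : IsIntegral ℤ z := by
  have h1 : SS ξ x ≤ (integralClosure ℤ Ω).toSubring := by
    unfold SS
    rw [Subring.closure_le]
    rintro y (hy | ⟨i, rfl⟩)
    · rw [Set.mem_singleton_iff] at hy
      rw [hy]
      exact h.integral_ξ
    · exact h.integral_x i
  exact h1 hz

theorem Dat.unr (h : Dat b m n ξ x) (p : ℕ) (hp : p.Prime) (hpn : ¬ p ∣ n)
    (hpm : ∀ i, ¬ p ∣ m i * b i) : ∃ f : ℕ, 1 ≤ f ∧ ∀ z ∈ FF ξ x, IsIntegral ℤ z →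
      ∃ c ∈ FF ξ x, IsIntegral ℤ c ∧ z ^ (p ^ f) - z = p * c := by
  have hp1 : 1 < p := hp.one_lt
  have hE0 : 0 < n * (∏ i, m i) * (p - 1) := by
    refine Nat.mul_pos (Nat.mul_pos (by have := h.hn; omega) (Finset.prod_pos fun i _ => ?_)) (by omega)
    have := h.hm i
    omega
  have hcop : Nat.Coprime p (n * (∏ i, m i) * (p - 1)) := by
    refine Nat.Coprime.mul_right (Nat.Coprime.mul_right ((Nat.Prime.coprime_iff_not_dvd hp).2 hpn)
      (Nat.Coprime.prod_right fun i _ => ?_)) ?_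
    · exact (Nat.Prime.coprime_iff_not_dvd hp).2 fun h1 => hpm i (dvd_mul_of_dvd_left h1 _)
    · refine (Nat.Prime.coprime_iff_not_dvd hp).2 fun h1 => ?_
      have := Nat.le_of_dvd (by omega) h1
      omega
  obtain ⟨f, hf⟩ : ∃ f, f = (n * (∏ i, m i) * (p - 1)).totient := ⟨_, rfl⟩
  have hf1 : 1 ≤ f := by
    rw [hf]
    exact Nat.totient_pos.2 hE0
  have hq1 : 1 ≤ p ^ f := Nat.one_le_pow _ _ (by omega)
  have hEq : n * (∏ i, m i) * (p - 1) ∣ p ^ f - 1 := by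
    have h1 := Nat.ModEq.pow_totient hcop
    rw [← hf] at h1
    exact (Nat.modEq_iff_dvd' hq1).1 h1.symm
  -- all elements of `S`
  have hS : ∀ z ∈ SS ξ x, ∃ c ∈ SS ξ x, z ^ (p ^ f) - z = (p : Ω) * c := by
    intro z hz
    refine datu_all _ hp f (fun y hy => ?_) hz
    rcases hy with hy | ⟨i, rfl⟩
    · rw [Set.mem_singleton_iff] at hy
      subst hy
      refine datu_gen _ hp (e := n) (a := 1) hq1 ?_ (Subring.subset_closure (Or.inl rfl)) ?_ ?_
      · refine dvd_trans ?_ hEq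
        exact Nat.mul_dvd_mul_right (Dvd.intro _ rfl) _
      · rw [h.prim.pow_eq_one, Nat.cast_one]
      · intro h1
        have := Nat.le_of_dvd one_pos h1
        omega
    · refine datu_gen _ hp (e := m i) (a := b i) hq1 ?_ (Subring.subset_closure (Or.inr ⟨i, rfl⟩)) (h.pow i) ?_
      · refine dvd_trans ?_ hEq
        refine Nat.mul_dvd_mul_right (dvd_mul_of_dvd_right ?_ _) _
        exact Finset.dvd_prod_of_mem m (Finset.mem_univ i)
      · exact fun h1 => hpm i (dvd_mul_of_dvd_right h1 _)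
  refine ⟨f, hf1, fun z hz hzi => ?_⟩
  have hN := h.int_mul z hz hzi
  obtain ⟨N, hNd⟩ : ∃ N : ℕ, N = ∏ i, m i * b i := ⟨_, rfl⟩
  rw [← hNd] at hN
  have hpN : Nat.Coprime N p := by
    rw [hNd]
    exact Nat.Coprime.prod_left fun i _ =>
      Nat.coprime_comm.1 ((Nat.Prime.coprime_iff_not_dvd hp).2 (hpm i))
  obtain ⟨c, hc, h1⟩ := hS _ hN
  have : Fact p.Prime := ⟨hp⟩
  obtain ⟨k, hk⟩ : ∃ k : ℤ, (N : ℤ) ^ (p ^ f) - N = p * k := by
    have h2 : ((N : ℤ) ^ (p ^ f) - N : ℤ) = ((N : ℤ) ^ (p ^ f) - N : ℤ) := rfl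
    have h3 : (((N : ℤ) ^ (p ^ f) - N : ℤ) : ZMod p) = 0 := by
      push_cast
      rw [ZMod.pow_card_pow, sub_self]
    exact (ZMod.intCast_zmod_eq_zero_iff_dvd _ _).1 h3
  have hk' : (N : Ω) ^ (p ^ f) - N = p * k := by
    have h2 := congrArg (fun z : ℤ => (z : Ω)) hk
    push_cast at h2
    exact h2
  obtain ⟨u, v, huv⟩ := (Nat.isCoprime_iff_coprime.2 hpN : IsCoprime (N : ℤ) (p : ℤ))
  have huv' : (u : Ω) * N + v * p = 1 := by
    have h2 := congrArg (fun z : ℤ => (z : Ω)) huv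
    push_cast at h2
    exact h2
  have hzq : z ^ (p ^ f) ∈ FF ξ x := pow_mem hz _
  have hzqi : IsIntegral ℤ (z ^ (p ^ f)) := hzi.pow _
  have hint : ∀ j : ℤ, IsIntegral ℤ (j : Ω) := fun j => by
    have h2 : (j : Ω) = algebraMap ℤ Ω j := by simp
    rw [h2]
    exact isIntegral_algebraMap
  refine ⟨u * (c - k * z ^ (p ^ f)) + v * (z ^ (p ^ f) - z), ?_, ?_, ?_⟩
  · exact add_mem (mul_mem (intCast_mem _ _) (sub_mem (datu_SS_le hc) (mul_mem (intCast_mem _ _) hzq)))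
      (mul_mem (intCast_mem _ _) (sub_mem hzq hz))
  · exact ((hint u).mul ((datu_SS_int h hc).sub ((hint k).mul hzqi))).add ((hint v).mul (hzqi.sub hzi))
  · rw [mul_pow] at h1
    have h2 : (N : Ω) * (z ^ (p ^ f) - z) = p * (c - k * z ^ (p ^ f)) := by
      linear_combination h1 - z ^ (p ^ f) * hk'
    linear_combination (-(z ^ (p ^ f) - z)) * huv' + (u : Ω) * h2

theorem Dat.deg_rad (h : Dat b m n ξ x) (p : ℕ) (hp : p.Prime) (hpn : ¬ p ∣ n)
    (hpm : ∀ i, ¬ p ∣ m i * b i) (y : Ω) (M B : ℕ) (hM : 1 ≤ M) (hy : y ^ M = (B : Ω))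
    (hpB : p ∣ B) (hpB2 : ¬ p ^ 2 ∣ B) : (minpoly (FF ξ x) y).natDegree = M := by
  have := h.nf_F
  have : Fact p.Prime := ⟨hp⟩
  obtain ⟨f, hf, hu⟩ := h.unr p hp hpn hpm
  have hcg : ∀ z : 𝓞 (FF ξ x), ∃ c : 𝓞 (FF ξ x), z ^ (p ^ f) - z = (p : 𝓞 (FF ξ x)) * c := by
    intro z
    obtain ⟨c, hc, hci, h1⟩ := hu ((z : FF ξ x) : Ω) (z : FF ξ x).2
      (IsIntegral.algebraMap (RingOfIntegers.isIntegral_coe z))
    have hci' : IsIntegral ℤ (⟨c, hc⟩ : FF ξ x) :=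
      (isIntegral_algebraMap_iff (algebraMap (FF ξ x) Ω).injective).1 hci
    refine ⟨⟨⟨c, hc⟩, hci'⟩, ?_⟩
    apply RingOfIntegers.ext
    apply Subtype.ext
    push_cast
    exact h1
  have hmx : (Ideal.span {(p : ℤ)}).IsMaximal := Int.ideal_span_isMaximal_of_prime p
  obtain ⟨P, hP, hPl⟩ := Ideal.exists_maximal_ideal_liesOver_of_isIntegral (S := 𝓞 (FF ξ x))
    (Ideal.span {(p : ℤ)})
  have hpP : (p : 𝓞 (FF ξ x)) ∈ P := by
    have h1 := (Ideal.mem_of_liesOver P (Ideal.span {(p : ℤ)}) (p : ℤ)).1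
      (Ideal.mem_span_singleton_self _)
    rw [map_natCast] at h1
    exact h1
  have hP0 : P ≠ ⊥ := by
    rintro rfl
    rw [Ideal.mem_bot, Nat.cast_eq_zero] at hpP
    exact hp.ne_zero hpP
  have hPt : P ≠ ⊤ := hP.ne_top
  have hpP2 : (p : 𝓞 (FF ξ x)) ∉ P ^ 2 := by
    intro h1
    obtain ⟨z, hz, hz2⟩ := SetLike.exists_of_lt (Ideal.pow_lt_self P hP0 hPt 2 le_rfl)
    apply hz2
    obtain ⟨c, hc⟩ := hcg z
    have h2 : 2 ≤ p ^ f := hp.two_le.trans (Nat.le_self_pow (by omega) p)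
    have h3 : z ^ (p ^ f) ∈ P ^ 2 := Ideal.pow_le_pow_right h2 (Ideal.pow_mem_pow hz _)
    have h4 : z = z ^ (p ^ f) - p * c := by
      rw [← hc]
      ring
    rw [h4]
    exact sub_mem h3 (Ideal.mul_mem_right _ _ h1)
  obtain ⟨u, rfl⟩ := hpB
  have hpu : ¬ p ∣ u := fun h1 => hpB2 (by
    rw [pow_two]
    exact Nat.mul_dvd_mul_left p h1)
  obtain ⟨v, w, hvw⟩ : IsCoprime (u : ℤ) (p : ℤ) := by
    rw [Nat.isCoprime_iff_coprime]
    exact Nat.coprime_comm.1 ((Nat.Prime.coprime_iff_not_dvd hp).2 hpu)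
  have hvw' : (v : 𝓞 (FF ξ x)) * u + w * p = 1 := by
    have h2 := congrArg (fun z : ℤ => (z : 𝓞 (FF ξ x))) hvw
    push_cast at h2
    exact h2
  have hBP : ((p * u : ℕ) : 𝓞 (FF ξ x)) ∈ P := by
    rw [Nat.cast_mul]
    exact Ideal.mul_mem_right _ _ hpP
  have hBP2 : ((p * u : ℕ) : 𝓞 (FF ξ x)) ∉ P ^ 2 := by
    intro h1
    apply hpP2
    have h2 : (p : 𝓞 (FF ξ x)) = v * ((p * u : ℕ) : 𝓞 (FF ξ x)) + w * (p : 𝓞 (FF ξ x)) ^ 2 := by
      rw [Nat.cast_mul]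
      linear_combination (-(p : 𝓞 (FF ξ x))) * hvw'
    rw [h2]
    exact add_mem (Ideal.mul_mem_left _ _ h1) (Ideal.mul_mem_left _ _ (Ideal.pow_mem_pow hpP 2))
  obtain ⟨g, hg⟩ : ∃ g : Polynomial (𝓞 (FF ξ x)), g = Polynomial.X ^ M - Polynomial.C ((p * u : ℕ) : 𝓞 (FF ξ x)) :=
    ⟨_, rfl⟩
  have hM0 : M ≠ 0 := by omega
  have hgm : g.Monic := by
    rw [hg]
    exact Polynomial.monic_X_pow_sub_C _ hM0
  have hgd : g.natDegree = M := by
    rw [hg]
    exact Polynomial.natDegree_X_pow_sub_C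
  have hei : g.IsEisensteinAt P := by
    refine ⟨?_, fun {k} hk => ?_, ?_⟩
    · rw [hgm.leadingCoeff]
      exact (Ideal.ne_top_iff_one P).1 hPt
    · rw [hgd] at hk
      rw [hg, Polynomial.coeff_sub, Polynomial.coeff_X_pow, if_neg (by omega), zero_sub, Polynomial.coeff_C]
      split_ifs with h1
      · exact neg_mem hBP
      · rw [neg_zero]
        exact zero_mem _
    · rw [hg, Polynomial.coeff_sub, Polynomial.coeff_X_pow, if_neg (by omega), zero_sub, Polynomial.coeff_C_zero]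
      exact fun h1 => hBP2 ((neg_mem_iff).1 h1)
  have hirr := hei.irreducible hP.isPrime hgm.isPrimitive (by omega)
  rw [hgm.irreducible_iff_irreducible_map_fraction_map (K := FF ξ x)] at hirr
  have h1 : g.map (algebraMap (𝓞 (FF ξ x)) (FF ξ x)) = minpoly (FF ξ x) y := by
    refine minpoly.eq_of_irreducible_of_monic hirr ?_ (hgm.map _)
    rw [hg, Polynomial.map_sub, Polynomial.map_pow, Polynomial.map_X, Polynomial.map_C, map_natCast, map_sub,
      map_pow, Polynomial.aeval_X, Polynomial.aeval_C, map_natCast, hy, sub_self]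
  rw [← h1, hgm.natDegree_map, hgd]

end Pool.Agent.H72.BE
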