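import Mathlib

/-!
# Uniform relative heights over fields of radicals and roots of unity (MP_187c26_nt, Theorem VR+): definitions

`A` a number field (in the end `A = ℚ(ξ)`), `F = A(x_1, …, x_r)`, `x_i ^ m_i = b_i`, `[F : A] = ∏ m_i`.
Index group `Gm m = ∏ ZMod (m i)`. The element `mon x a = ∏ i, x_i ^ a_i`.
-/

set_option autoImplicit false

open MvPolynomial NumberField

namespace Pool.Agent.H72.BE

variable {r : ℕ}

/-- The group of exponents modulo `m`. -/
abbrev Gm (m : Fin r → ℕ) : Type := ∀ i, ZMod (m i)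

/-- The box of all exponents `a` with `a_i < n_i`. -/
abbrev Box (n : Fin r → ℕ) : Type := ∀ i, Fin (n i)

/-- The representatives `0 ≤ l_i < m_i` (if `m_i ≠ 0`). -/
def vl {m : Fin r → ℕ} (l : Gm m) : Fin r → ℕ := fun i => (l i).val

/-- The values of an element of a box. -/
def bv {n : Fin r → ℕ} (a : Box n) : Fin r → ℕ := fun i => (a i : ℕ)

/-- The exponent `a` modulo `m`. -/
def md (m : Fin r → ℕ) (a : Fin r → ℕ) : Gm m := fun i => (a i : ZMod (m i))

/-- The monomial `∏ i, x_i ^ a_i`. -/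
def mon {F : Type} [CommMonoid F] (x : Fin r → F) (a : Fin r → ℕ) : F := ∏ i, x i ^ a i

/-- `b_i ^ (1 / m_i)`. -/
noncomputable def rho (b m : Fin r → ℕ) (i : Fin r) : ℝ := (b i : ℝ) ^ ((m i : ℝ)⁻¹)

/-- The weight `∏ i, b_i ^ (a_i / m_i)`. -/
noncomputable def rw (b m : Fin r → ℕ) (a : Fin r → ℕ) : ℝ := mon (rho b m) a

/-- `F` is generated over `A` by `x_i` with `x_i ^ m_i = b_i`, of degree `∏ i, m_i`. -/
structure Rad (b m : Fin r → ℕ) (A F : Type) [Field A] [NumberField A] [Field F] [NumberField F]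
    [Algebra A F] (x : Fin r → F) : Prop where
  two : ∀ i, 2 ≤ b i
  cop : ∀ i j, i ≠ j → Nat.Coprime (b i) (b j)
  pow : ∀ i, x i ^ m i = b i
  deg : Module.finrank A F = ∏ i, m i
  li : LinearIndependent A (fun l : Gm m => mon x (vl l))

section

variable {b m : Fin r → ℕ} {A F : Type} [Field A] [NumberField A] [Field F] [NumberField F]
  [Algebra A F] {x : Fin r → F}

/-- The coordinates with respect to the monomials. -/
theorem Rad.exists_co [∀ i, NeZero (m i)] (h : Rad b m A F x) : ∃ e : F ≃ₗ[A] (Gm m → A),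
    ∀ f : Gm m → A, e.symm f = ∑ l, f l • mon x (vl l) := by
  have hcard : Fintype.card (Gm m) = Module.finrank A F := by
    rw [h.deg, Fintype.card_pi]
    exact Finset.prod_congr rfl fun i _ => ZMod.card _
  have : FiniteDimensional A F := by
    apply Module.finite_of_finrank_pos
    rw [h.deg]
    exact Finset.prod_pos fun i _ => Nat.pos_of_ne_zero (NeZero.ne _)
  let B := basisOfLinearIndependentOfCardEqFinrank h.li hcard
  refine ⟨B.equivFun, fun f => ?_⟩
  rw [Module.Basis.equivFun_symm_apply]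
  refine Finset.sum_congr rfl fun l _ => ?_
  rw [coe_basisOfLinearIndependentOfCardEqFinrank]

/-- The coordinates with respect to the monomials. -/
noncomputable def Rad.co [∀ i, NeZero (m i)] (h : Rad b m A F x) : F ≃ₗ[A] (Gm m → A) :=
  Classical.choose h.exists_co

theorem Rad.co_symm [∀ i, NeZero (m i)] (h : Rad b m A F x) (f : Gm m → A) :
    h.co.symm f = ∑ l, f l • mon x (vl l) :=
  Classical.choose_spec h.exists_co f

/-- The coordinates with respect to the normalised monomials, at the embedding `t`. -/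
noncomputable def Rad.uu [∀ i, NeZero (m i)] (h : Rad b m A F x) (t : A →+* ℂ) (y : F)
    (l : Gm m) : ℂ :=
  t (h.co y l) * (rw b m (vl l) : ℂ)

/-- The elements with integral coordinates. -/
def Rad.zx [∀ i, NeZero (m i)] (h : Rad b m A F x) : AddSubgroup F where
  carrier := {y | ∀ l, IsIntegral ℤ (h.co y l)}
  zero_mem' := fun l => by simp [isIntegral_zero]
  add_mem' := fun {y z} hy hz l => by
    rw [map_add, Pi.add_apply]
    exact (hy l).add (hz l)
  neg_mem' := fun {y} hy l => by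
    rw [map_neg, Pi.neg_apply]
    exact (hy l).neg

/-- The `y` with integral coordinates such that all `y c_i` have integral coordinates. -/
def Rad.den [∀ i, NeZero (m i)] (h : Rad b m A F x) {ι : Type} (c : ι → F) : AddSubgroup F where
  carrier := {y | y ∈ h.zx ∧ ∀ i, y * c i ∈ h.zx}
  zero_mem' := ⟨zero_mem _, fun i => by rw [zero_mul]; exact zero_mem _⟩
  add_mem' := fun {y z} hy hz => ⟨add_mem hy.1 hz.1, fun i => by
    rw [add_mul]; exact add_mem (hy.2 i) (hz.2 i)⟩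
  neg_mem' := fun {y} hy => ⟨neg_mem hy.1, fun i => by
    rw [neg_mul]; exact neg_mem (hy.2 i)⟩

/-- `index (den c) ^ 2 * ∏ N_φ ≤ T`, where `∑ i, |φ (c i)| ^ 2 ≤ D N_φ`, `N_φ ≥ 1`. -/
def Rad.Siz [∀ i, NeZero (m i)] (h : Rad b m A F x) {ι : Type} [Fintype ι] (c : ι → F)
    (D T : ℝ) : Prop :=
  ∃ N : (F →+* ℂ) → ℝ, (∀ φ, 1 ≤ N φ) ∧ (∀ φ, ∑ i, ‖φ (c i)‖ ^ 2 ≤ D * N φ) ∧
    (h.den c).relIndex h.zx ≠ 0 ∧ ((h.den c).relIndex h.zx : ℝ) ^ 2 * ∏ φ, N φ ≤ T

end

/-! ### Shifts in a finite abelian group -/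

section

variable {G : Type} [AddCommGroup G] {ι κ : Type} [Fintype ι] [Fintype κ]

/-- The matrix of the shifts of `u` by `k a`, `a : κ`. -/
def sm (u : ι → G → ℂ) (k : κ → G) : Matrix κ (ι × G) ℂ :=
  Matrix.of fun a w => u w.1 (w.2 - k a)

/-- The Gram determinant of the rows of a complex matrix. -/
noncomputable def gdt {Ω : Type} [Fintype Ω] [DecidableEq κ] (M : Matrix κ Ω ℂ) : ℝ :=
  ((M * M.conjTranspose).det).re

/-- The sum of the squares of the absolute values of the Fourier transforms at the character `ψ`. -/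
noncomputable def fo [Fintype G] (u : ι → G → ℂ) (ψ : AddChar G ℂ) : ℝ :=
  ∑ i, ‖∑ l, u i l * ψ l‖ ^ 2

end

/-! ### Heights of subspaces -/

section

variable {A : Type} [Field A] [NumberField A] {κ Ω : Type} [Fintype κ] [Fintype Ω]
  [DecidableEq κ]

/-- The matrix `Y` at the embedding `t`, with weights. -/
noncomputable def wm (ww : Ω → ℝ) (t : A →+* ℂ) (Y : Matrix κ Ω A) : Matrix κ Ω ℂ :=
  Matrix.of fun k o => t (Y k o) * (ww o : ℂ)

/-- The finite part of the height of the row space: `∏_v max_J |minor_J|_v`. -/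
noncomputable def fm (Y : Matrix κ Ω A) : ℝ :=
  ∏ᶠ v : FinitePlace A, ⨆ J : κ → Ω, v ((Y.submatrix id J).det)

/-- The square of the height of the row space. -/
noncomputable def Hh (ww : Ω → ℝ) (Y : Matrix κ Ω A) : ℝ :=
  (∏ t : A →+* ℂ, gdt (wm ww t Y)) * fm Y ^ 2

/-- The content of a finite family of polynomials: `∏_v max |coefficients|_v`. -/
noncomputable def ct {ι : Type} (w : ι → MvPolynomial (Fin r) A) : ℝ :=
  ∏ᶠ v : FinitePlace A, ⨆ p : ι × (Fin r →₀ ℕ), v ((w p.1).coeff p.2)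

end

/-! ### Windows -/

/-- `l ∈ [a, a + ℓ)` modulo `m` (in all coordinates). -/
def inw {m : Fin r → ℕ} (a ℓ : Fin r → ℕ) (l : Gm m) : Prop :=
  ∃ e : Fin r → ℕ, (∀ i, e i < ℓ i) ∧ l = md m (a + e)

section

variable {b m : Fin r → ℕ} [∀ i, NeZero (m i)] {A F : Type} [Field A] [NumberField A] [Field F]
  [NumberField F] [Algebra A F] {x : Fin r → F}

/-- For some `g ≠ 0` in the window `[0, ℓ)` all `g c_i` are in the windows `[a_j, a_j + ℓ)`. -/
def WinAt (h : Rad b m A F x) {d R : ℕ} (c : Fin (d + 1) → F) (a : Fin (R + 1) → Fin r → ℕ)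
    (ℓ : Fin r → ℕ) : Prop :=
  ∃ g : F, g ≠ 0 ∧ (∀ l, h.co g l ≠ 0 → inw 0 ℓ l) ∧
    ∀ i l, h.co (g * c i) l ≠ 0 → ∃ j, inw (a j) ℓ l

/-- `R + 1` windows of size `ℓ` are sufficient. -/
def Win (h : Rad b m A F x) {d : ℕ} (c : Fin (d + 1) → F) (ℓ : Fin r → ℕ) (R : ℕ) : Prop :=
  ∃ a : Fin (R + 1) → Fin r → ℕ, a 0 = 0 ∧ WinAt h c a ℓ

end

/-- A representation `g c_i = ∑ j, x ^ (a_j) v_ij (x)`, `g = v_d0 (x)`, with windows of size `gap` which are
disjoint modulo `m`. -/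
structure Rep (m : Fin r → ℕ) {A F : Type} [Field A] [Field F] [Algebra A F] (x : Fin r → F)
    {d R : ℕ} (c : Fin (d + 1) → F) (ℓ gap : Fin r → ℕ) (a : Fin (R + 1) → Fin r → ℕ)
    (v : Fin (d + 1) → Fin (R + 1) → MvPolynomial (Fin r) A) : Prop where
  a0 : a 0 = 0
  am : ∀ j i, a j i < m i
  sep : ∀ j j', j ≠ j' → ∀ l : Gm m, inw (a j) gap l → ¬ inw (a j') gap l
  gapm : ∀ i, gap i ≤ m i
  deg : ∀ i j k, (v i j).degreeOf k < ℓ k
  vl : ∀ j, j ≠ 0 → v (Fin.last d) j = 0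
  vl0 : v (Fin.last d) 0 ≠ 0
  eq : ∀ i, aeval x (v (Fin.last d) 0) * c i = ∑ j, mon x (a j) * aeval x (v i j)
  prim : ∀ p : MvPolynomial (Fin r) A, (∀ i j, p ∣ v i j) → IsUnit p
  act : ∀ j, ∃ i, v i j ≠ 0

/-- The coefficients of the minimal polynomial. -/
noncomputable def cf (F : Type) [Field F] {Ω : Type} [Field Ω] [Algebra F Ω] (α : Ω) (d : ℕ) :
    Fin (d + 1) → F := fun i => (minpoly F α).coeff i

/-- The size of a representation at the embedding `φ`, after `x ↦ x ^ Q`. -/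
noncomputable def wt {A F : Type} [Field A] [Field F] [Algebra A F] (b m : Fin r → ℕ)
    (x : Fin r → F) {d R : ℕ} (a : Fin (R + 1) → Fin r → ℕ)
    (v : Fin (d + 1) → Fin (R + 1) → MvPolynomial (Fin r) A) (Q : ℕ) (φ : F →+* ℂ) : ℝ :=
  ∑ i, ∑ j, rw b m (a j) ^ 2 * ‖φ (aeval (fun k => x k ^ Q) (v i j))‖ ^ 2

/-- The content of a representation. -/
noncomputable def ctv {A : Type} [Field A] [NumberField A] {d R : ℕ}
    (v : Fin (d + 1) → Fin (R + 1) → MvPolynomial (Fin r) A) : ℝ :=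
  ct (fun p : Fin (d + 1) × Fin (R + 1) => v p.1 p.2)

/-! ### Constants -/

/-- `∏ b_i`. -/
def Bb (b : Fin r → ℕ) : ℕ := ∏ i, b i

/-- The ratio of the multiplier box and the windows. -/
def Lc (r d : ℕ) : ℕ := 24 * r * (2 * 4 ^ d) ^ 3 + 1

/-- The bound for the number of windows. -/
def R0 (r d : ℕ) : ℕ := 2 * (2 * 4 ^ d) ^ 3 * Lc r d ^ r

/-- The square root of the constant of the size lemma. -/
def Cs {r : ℕ} (b : Fin r → ℕ) (d : ℕ) : ℕ := 2 * (2 * 4 ^ d * Bb b) ^ (2 ^ r)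

/-- The constant of the Frobenius step. -/
def K1 {r : ℕ} (b : Fin r → ℕ) (d : ℕ) : ℕ := 2 * Bb b * (d + 1) * (R0 r d + 1) * Cs b d

end Pool.Agent.H72.BE
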