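import Mathlib

/-!
# Dependence from vanishing minors (MP_187c26_nt, Theorem VR+)

Model: `dep_of_minors` in `Pool/Agent/H72/BD/Cover.lean` (or `WinOf.lean`): `κ = Fin n` there.

PROOF. If the rows of `B` restricted to the columns in `S` were linearly independent, the rank of this matrix would be `|κ|`, so
`|κ|` columns in `S` would be linearly independent and the minor would not be zero.
`exists_minor_of_li`: the contrapositive for `S = univ`.
-/

set_option autoImplicit false

namespace Pool.Agent.H72.BE

theorem dep_of_minors {K κ Ω : Type} [Field K] [Fintype κ] [DecidableEq κ] [Fintype Ω]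
    (B : Matrix κ Ω K) (S : Set Ω)
    (hS : ∀ J : κ → Ω, (∀ k, J k ∈ S) → (B.submatrix id J).det = 0) :
    ∃ q : κ → K, q ≠ 0 ∧ ∀ o ∈ S, Matrix.vecMul q B o = 0 := by
  classical
  by_contra hcon
  push Not at hcon
  have hfS : Fintype S := Fintype.ofFinite S
  obtain ⟨B', hB'⟩ : ∃ B' : Matrix κ S K, B' = Matrix.of fun k (o : S) => B k (o : Ω) := ⟨_, rfl⟩
  have hrow : LinearIndependent K B'.row := by
    rw [Fintype.linearIndependent_iff]
    intro q hq
    by_contra hne
    push Not at hne
    obtain ⟨i, hi⟩ := hne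
    obtain ⟨o, ho, h1⟩ := hcon q (fun h => hi (by rw [h]; rfl))
    apply h1
    have h2 := congrFun hq ⟨o, ho⟩
    rw [Finset.sum_apply] at h2
    rw [Matrix.vecMul, dotProduct]
    rw [hB'] at h2
    exact h2
  have hrank : B'.rank = Fintype.card κ := by
    rw [hrow.rank_matrix]
  obtain ⟨κ', a, hinj, hspan, hli⟩ := exists_linearIndependent' K B'.col
  have hfin : Finite κ' := Finite.of_injective a hinj
  have hfκ : Fintype κ' := Fintype.ofFinite κ'
  have hcard : Fintype.card κ' = Fintype.card κ := by
    rw [← hrank, Matrix.rank_eq_finrank_span_cols, ← hspan]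
    exact (finrank_span_eq_card hli).symm
  have eκ : κ ≃ κ' := (Fintype.equivOfCardEq hcard).symm
  have hli2 : LinearIndependent K (B'.col ∘ (a ∘ eκ)) := hli.comp eκ eκ.injective
  have hdet := hS (fun k => ((a (eκ k) : S) : Ω)) (fun k => (a (eκ k)).2)
  have hli3 : LinearIndependent K (B.submatrix id (fun k => ((a (eκ k) : S) : Ω))).col := by
    have : (B.submatrix id (fun k => ((a (eκ k) : S) : Ω))).col = B'.col ∘ (a ∘ eκ) := by
      funext k i
      rw [hB']
      rfl
    rw [this]
    exact hli2
  rw [Matrix.linearIndependent_cols_iff_isUnit, Matrix.isUnit_iff_isUnit_det, hdet] at hli3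
  exact not_isUnit_zero hli3

end Pool.Agent.H72.BE
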