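import Pool.Agent.H72.BE.Co

/-!
# Embeddings (MP_187c26_nt, Theorem VR+)

`exists_emb`: for `t : A →+* ℂ` and a character `ψ` of `Gm m` the map `y ↦ ∑ l, uu t y l * ψ l` is a ring homomorphism `F → ℂ`: it is additive, maps
`c • mon x a` (`c ∈ A`) to `t(c) rw(a) ψ (md m a)` (`co_smul_mon`, `rw_reduce`), which is multiplicative in `(c, a)`, and these elements span
`F`. It extends `t` and maps `x_i` to `rho_i ψ (Pi.single i 1)`. Different pairs give different homomorphisms (`t` = restriction to `A`,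
`ψ (Pi.single i 1)` is determined, characters of `Gm m` are determined by the values at the `Pi.single i 1`, which generate). The number of pairs
is `[A : ℚ] ∏ m_i = [F : ℚ] = #(F →+* ℂ)` (`AddChar.card_eq`, `NumberField.Embeddings.card`): bijection.
`prod_pow`: `φ(x_i) ^ Q = rho_i ^ Q ψ (Pi.single i 1) ^ Q`. The map `ψ ↦` (the character `χ` of `Gm N` with
`χ (Pi.single i 1) = ψ (Pi.single i 1) ^ Q`): `ψ (Pi.single i 1)` runs through the `m_i`-th roots of unity, its `Q`-th power through the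
`N_i`-th roots of unity, each `gcd (m_i, Q)` times (coordinatewise; characters of the product group = families of roots of unity).
-/

set_option autoImplicit false

open MvPolynomial NumberField

namespace Pool.Agent.H72.BE

variable {r : ℕ} {b m : Fin r → ℕ} [∀ i, NeZero (m i)] {A F : Type} [Field A] [NumberField A]
  [Field F] [NumberField F] [Algebra A F] {x : Fin r → F}

private theorem em95_md_vl (l : Gm m) : md m (vl l) = l := by
  funext i
  exact ZMod.natCast_zmod_val _

omit [∀ i, NeZero (m i)] in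
private theorem em95_md_zero : md m 0 = 0 := by
  funext i
  exact Nat.cast_zero

omit [∀ i, NeZero (m i)] in
private theorem em95_md_add (a c : Fin r → ℕ) : md m (a + c) = md m a + md m c := by
  funext i
  exact Nat.cast_add _ _

/-- the value at `c x ^ a` -/
private theorem em95_ev_mon (h : Rad b m A F x) (t : A →+* ℂ) (ψ : AddChar (Gm m) ℂ) (c : A)
    (a : Fin r → ℕ) : ∑ l, h.uu t (algebraMap A F c * mon x a) l * ψ l =
      t c * (rw b m a : ℂ) * ψ (md m a) := by
  classical
  rw [Finset.sum_eq_single (md m a)]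
  · rw [Rad.uu, h.co_smul_mon, if_pos rfl, rw_reduce (b := b) a, map_mul, map_natCast]
    push_cast
    ring
  · intro l _ hl
    rw [Rad.uu, h.co_smul_mon, if_neg hl, map_zero, zero_mul, zero_mul]
  · intro hl
    exact absurd (Finset.mem_univ _) hl

private theorem em95_expand (h : Rad b m A F x) (y : F) :
    y = ∑ l, algebraMap A F (h.co y l) * mon x (vl l) := by
  have h3 : y = ∑ l, h.co y l • mon x (vl l) := by
    rw [← h.co_symm, LinearEquiv.symm_apply_apply]
  conv_lhs => rw [h3]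
  exact Finset.sum_congr rfl fun l _ => Algebra.smul_def _ _

private theorem em95_ev_add (h : Rad b m A F x) (t : A →+* ℂ) (ψ : AddChar (Gm m) ℂ) (y z : F) :
    ∑ l, h.uu t (y + z) l * ψ l = ∑ l, h.uu t y l * ψ l + ∑ l, h.uu t z l * ψ l := by
  rw [← Finset.sum_add_distrib]
  refine Finset.sum_congr rfl fun l _ => ?_
  rw [Rad.uu, Rad.uu, Rad.uu, map_add, Pi.add_apply, map_add]
  ring

private theorem em95_ev_sum (h : Rad b m A F x) (t : A →+* ℂ) (ψ : AddChar (Gm m) ℂ) {ι : Type}
    (s : Finset ι) (y : ι → F) :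
    ∑ l, h.uu t (∑ i ∈ s, y i) l * ψ l = ∑ i ∈ s, ∑ l, h.uu t (y i) l * ψ l := by
  classical
  induction s using Finset.induction_on with
  | empty => simp [Rad.uu]
  | insert i s hi ih => rw [Finset.sum_insert hi, Finset.sum_insert hi, em95_ev_add, ih]

private theorem em95_ev_mul (h : Rad b m A F x) (t : A →+* ℂ) (ψ : AddChar (Gm m) ℂ) (y z : F) :
    ∑ l, h.uu t (y * z) l * ψ l = (∑ l, h.uu t y l * ψ l) * ∑ l, h.uu t z l * ψ l := by
  have h1 : y * z = ∑ l, ∑ l', algebraMap A F (h.co y l * h.co z l') * mon x (vl l + vl l') := by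
    conv_lhs => rw [em95_expand h y, em95_expand h z]
    rw [Finset.sum_mul_sum]
    refine Finset.sum_congr rfl fun l _ => Finset.sum_congr rfl fun l' _ => ?_
    rw [map_mul, mon_add]
    ring
  rw [h1, em95_ev_sum, Finset.sum_mul_sum]
  refine Finset.sum_congr rfl fun l _ => ?_
  rw [em95_ev_sum]
  refine Finset.sum_congr rfl fun l' _ => ?_
  rw [em95_ev_mon, em95_md_add, em95_md_vl, em95_md_vl, AddChar.map_add_eq_mul, rw_add, Rad.uu, Rad.uu, map_mul]
  push_cast
  ring

/-- the embedding given by an embedding of `A` and a character -/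
private noncomputable def em95_ev_hom (h : Rad b m A F x) (t : A →+* ℂ) (ψ : AddChar (Gm m) ℂ) :
    F →+* ℂ where
  toFun y := ∑ l, h.uu t y l * ψ l
  map_zero' := by simp [Rad.uu]
  map_add' y z := em95_ev_add h t ψ y z
  map_one' := by
    have h1 : (1 : F) = algebraMap A F 1 * mon x 0 := by rw [map_one, mon_zero, one_mul]
    show ∑ l, h.uu t 1 l * ψ l = 1
    rw [h1, em95_ev_mon, em95_md_zero, map_one, AddChar.map_zero_eq_one, rw, mon_zero]
    simp
  map_mul' y z := em95_ev_mul h t ψ y z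

theorem Rad.exists_emb (h : Rad b m A F x) :
    ∃ e : (A →+* ℂ) × AddChar (Gm m) ℂ ≃ (F →+* ℂ), ∀ t ψ y,
      e (t, ψ) y = ∑ l, h.uu t y l * ψ l := by
  classical
  let g : (A →+* ℂ) × AddChar (Gm m) ℂ → (F →+* ℂ) := fun p => em95_ev_hom h p.1 p.2
  have hg : ∀ t ψ y, g (t, ψ) y = ∑ l, h.uu t y l * ψ l := fun t ψ y => rfl
  have hinj : Function.Injective g := by
    rintro ⟨t, ψ⟩ ⟨t', ψ'⟩ he
    have h1 : ∀ y, ∑ l, h.uu t y l * ψ l = ∑ l, h.uu t' y l * ψ' l := fun y => by
      rw [← hg, ← hg, he]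
    have e1 : t = t' := by
      ext c
      have h2 := h1 (algebraMap A F c * mon x 0)
      rw [em95_ev_mon h t ψ c 0, em95_ev_mon h t' ψ' c 0, em95_md_zero, AddChar.map_zero_eq_one,
        AddChar.map_zero_eq_one, mul_one, mul_one] at h2
      have h3 : (rw b m 0 : ℂ) = 1 := by rw [rw, mon_zero, Complex.ofReal_one]
      rwa [h3, mul_one, mul_one] at h2
    subst e1
    have e2 : ψ = ψ' := by
      ext l
      have h2 := h1 (algebraMap A F 1 * mon x (vl l))
      rw [em95_ev_mon h t ψ 1 (vl l), em95_ev_mon h t ψ' 1 (vl l), em95_md_vl] at h2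
      have h3 : t 1 * (rw b m (vl l) : ℂ) ≠ 0 := by
        rw [map_one, one_mul]
        exact_mod_cast (lt_of_lt_of_le one_pos (one_le_rw h.two _)).ne'
      exact mul_left_cancel₀ h3 h2
    subst e2
    rfl
  have hbij : Function.Bijective g := by
    rw [Fintype.bijective_iff_injective_and_card]
    refine ⟨hinj, ?_⟩
    rw [Fintype.card_prod, NumberField.Embeddings.card, NumberField.Embeddings.card,
      AddChar.card_eq, Fintype.card_pi]
    rw [← Module.finrank_mul_finrank ℚ A F, h.deg]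
    congr 1
    exact Finset.prod_congr rfl fun i _ => ZMod.card _
  exact ⟨Equiv.ofBijective g hbij, fun t ψ y => hg t ψ y⟩

/-- The embedding given by an embedding of `A` and a character. -/
noncomputable def Rad.emb (h : Rad b m A F x) : (A →+* ℂ) × AddChar (Gm m) ℂ ≃ (F →+* ℂ) :=
  Classical.choose h.exists_emb

theorem Rad.emb_apply (h : Rad b m A F x) (t : A →+* ℂ) (ψ : AddChar (Gm m) ℂ) (y : F) :
    h.emb (t, ψ) y = ∑ l, h.uu t y l * ψ l :=
  Classical.choose_spec h.exists_emb t ψ y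

theorem Rad.fo_uu (h : Rad b m A F x) {ι : Type} [Fintype ι] (c : ι → F) (t : A →+* ℂ)
    (ψ : AddChar (Gm m) ℂ) :
    fo (fun i => h.uu t (c i)) ψ = ∑ i, ‖h.emb (t, ψ) (c i)‖ ^ 2 := by
  simp only [fo, h.emb_apply]

theorem Rad.emb_algebraMap (h : Rad b m A F x) (t : A →+* ℂ) (ψ : AddChar (Gm m) ℂ) (y : A) :
    h.emb (t, ψ) (algebraMap A F y) = t y := by
  have h1 : algebraMap A F y = algebraMap A F y * mon x 0 := by rw [mon_zero, mul_one]
  rw [h.emb_apply, h1, em95_ev_mon, em95_md_zero, AddChar.map_zero_eq_one, rw, mon_zero]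
  simp

private theorem em95_mon_single {R : Type} [CommMonoid R] (x : Fin r → R) (i : Fin r) :
    mon x (Pi.single i 1) = x i := by
  classical
  rw [mon, Finset.prod_eq_single i]
  · rw [Pi.single_eq_same, pow_one]
  · intro j _ hj
    rw [Pi.single_eq_of_ne hj, pow_zero]
  · intro hi
    exact absurd (Finset.mem_univ _) hi

omit [∀ i, NeZero (m i)] in
private theorem em95_md_single (i : Fin r) : md m (Pi.single i 1) = Pi.single i 1 := by
  classical
  funext j
  by_cases hj : j = i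
  · subst hj
    simp [md]
  · simp [md, Pi.single_eq_of_ne hj]

theorem Rad.emb_x (h : Rad b m A F x) (t : A →+* ℂ) (ψ : AddChar (Gm m) ℂ) (i : Fin r) :
    h.emb (t, ψ) (x i) = (rho b m i : ℂ) * ψ (Pi.single i 1) := by
  have h1 : x i = algebraMap A F 1 * mon x (Pi.single i 1) := by
    rw [map_one, one_mul, em95_mon_single]
  rw [h.emb_apply, h1, em95_ev_mon, em95_md_single, map_one, one_mul, rw, em95_mon_single]

theorem Rad.norm_mon (h : Rad b m A F x) (φ : F →+* ℂ) (a : Fin r → ℕ) :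
    ‖φ (mon x a)‖ = rw b m a := by
  obtain ⟨⟨t, ψ⟩, rfl⟩ := h.emb.surjective φ
  have h1 : mon x a = algebraMap A F 1 * mon x a := by rw [map_one, one_mul]
  rw [h.emb_apply, h1, em95_ev_mon, map_one, one_mul, norm_mul, AddChar.norm_apply, mul_one,
    Complex.norm_real, Real.norm_of_nonneg (zero_le_one.trans (one_le_rw h.two _))]

theorem Rad.prod_emb (h : Rad b m A F x) (f : (F →+* ℂ) → ℝ) :
    ∏ φ : F →+* ℂ, f φ = ∏ t : A →+* ℂ, ∏ ψ : AddChar (Gm m) ℂ, f (h.emb (t, ψ)) := by
  rw [← Equiv.prod_comp h.emb f, Fintype.prod_prod_type]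

theorem Rad.finrank_eq (h : Rad b m A F x) :
    Module.finrank ℚ F = Module.finrank ℚ A * ∏ i, m i := by
  rw [← h.deg, Module.finrank_mul_finrank]

private theorem em95_st_pow {m : ℕ} [NeZero m] (s : ZMod m) (k : ℕ) :
    (ZMod.stdAddChar s : ℂ) ^ k = ZMod.stdAddChar (s * (k : ZMod m)) := by
  rw [← AddChar.map_nsmul_eq_pow, nsmul_eq_mul, mul_comm]

/-- the characters of `Gm m` -/
private noncomputable def em95_chr {m : Fin r → ℕ} [∀ i, NeZero (m i)] (s : Gm m) :
    AddChar (Gm m) ℂ where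
  toFun l := ∏ i, (ZMod.stdAddChar (s i * l i) : ℂ)
  map_zero_eq_one' := by simp
  map_add_eq_mul' l l' := by
    rw [← Finset.prod_mul_distrib]
    refine Finset.prod_congr rfl fun i _ => ?_
    rw [Pi.add_apply, mul_add, AddChar.map_add_eq_mul]

private theorem em95_chr_single {m : Fin r → ℕ} [∀ i, NeZero (m i)] (s : Gm m) (i : Fin r) :
    em95_chr s (Pi.single i 1) = (ZMod.stdAddChar (s i) : ℂ) := by
  classical
  show ∏ j, (ZMod.stdAddChar (s j * (Pi.single i 1 : Gm m) j) : ℂ) = _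
  rw [Finset.prod_eq_single i]
  · rw [Pi.single_eq_same, mul_one]
  · intro j _ hj
    rw [Pi.single_eq_of_ne hj, mul_zero, AddChar.map_zero_eq_one]
  · intro hi
    exact absurd (Finset.mem_univ _) hi

private theorem em95_chr_bij {m : Fin r → ℕ} [∀ i, NeZero (m i)] :
    Function.Bijective (em95_chr (m := m)) := by
  classical
  rw [Fintype.bijective_iff_injective_and_card]
  refine ⟨fun s s' hs => ?_, by rw [AddChar.card_eq]⟩
  funext i
  have h1 := em95_chr_single s i
  rw [hs, em95_chr_single s' i] at h1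
  exact (ZMod.injective_stdAddChar h1).symm

private theorem em95_prod_chr {m : Fin r → ℕ} [∀ i, NeZero (m i)] (G : AddChar (Gm m) ℂ → ℝ) :
    ∏ ψ, G ψ = ∏ s, G (em95_chr s) :=
  ((Equiv.ofBijective _ (em95_chr_bij (m := m))).prod_comp G).symm

private theorem em95_prod_hom {G G' : Type} [AddCommGroup G] [AddCommGroup G'] [Fintype G]
    [Fintype G'] [DecidableEq G'] (π : G →+ G') (hπ : Function.Surjective π) (k : ℕ)
    (hk : Fintype.card G = Fintype.card G' * k) (H : G' → ℝ) :
    ∏ s, H (π s) = (∏ u, H u) ^ k := by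
  classical
  have h1 : ∀ u : G', (Finset.univ.filter (fun s => π s = u)).card =
      (Finset.univ.filter (fun s => π s = 0)).card := fun u =>
    AddMonoidHom.card_fiber_eq_of_mem_range π (hπ u) (hπ 0)
  have h2 : Fintype.card G = Fintype.card G' * (Finset.univ.filter (fun s => π s = 0)).card := by
    have h3 := Finset.card_eq_sum_card_fiberwise (f := π) (s := Finset.univ) (t := Finset.univ)
      (fun _ _ => Finset.mem_coe.2 (Finset.mem_univ _))
    rw [Finset.card_univ] at h3
    rw [h3, Finset.sum_congr rfl fun u _ => h1 u, Finset.sum_const, Finset.card_univ,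
      smul_eq_mul]
  have h4 : (Finset.univ.filter (fun s => π s = 0)).card = k := by
    rw [hk] at h2
    exact (Nat.eq_of_mul_eq_mul_left Fintype.card_pos h2).symm
  rw [Finset.prod_comp H π]
  rw [Finset.image_univ_of_surjective hπ]
  rw [Finset.prod_congr rfl fun u _ => by rw [h1 u, h4], Finset.prod_pow]

/-- one coordinate -/
private theorem em95_st_gcd (m Q N : ℕ) [NeZero m] [NeZero N] (hN : N * Nat.gcd m Q = m) :
    ∃ π : ZMod m →+ ZMod N, Function.Surjective π ∧
      ∀ s : ZMod m, (ZMod.stdAddChar s : ℂ) ^ Q = ZMod.stdAddChar (π s) := by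
  obtain ⟨g, hg⟩ : ∃ g, g = Nat.gcd m Q := ⟨_, rfl⟩
  have hg0 : 0 < Nat.gcd m Q := Nat.gcd_pos_of_pos_left _ (Nat.pos_of_ne_zero (NeZero.ne m))
  obtain ⟨Q', hQ'⟩ : ∃ Q', Q = Nat.gcd m Q * Q' := Nat.gcd_dvd_right m Q
  have hcop : Nat.Coprime Q' N := by
    have h1 := Nat.coprime_div_gcd_div_gcd hg0
    have h2 : m / Nat.gcd m Q = N := by
      apply Nat.div_eq_of_eq_mul_left hg0
      exact hN.symm
    have h3 : Q / Nat.gcd m Q = Q' := by
      apply Nat.div_eq_of_eq_mul_right hg0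
      exact hQ'
    rw [h2, h3] at h1
    exact h1.symm
  rw [← hg] at hN hg0 hQ'
  have hd : N ∣ m := ⟨g, hN.symm⟩
  have hst : ∀ s : ZMod m, (ZMod.stdAddChar (s * (Q : ZMod m)) : ℂ) =
      ZMod.stdAddChar (((s.val * Q' : ℕ) : ZMod N)) := by
    intro s
    have h1 : s * (Q : ZMod m) = (((s.val * Q : ℕ) : ℤ) : ZMod m) := by
      push_cast
      rw [ZMod.natCast_zmod_val]
    have h2 : (((s.val * Q' : ℕ) : ZMod N)) = (((s.val * Q' : ℕ) : ℤ) : ZMod N) := by
      push_cast
      rfl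
    rw [h1, h2, ZMod.stdAddChar_coe, ZMod.stdAddChar_coe]
    congr 1
    have hN0 : (N : ℂ) ≠ 0 := by exact_mod_cast NeZero.ne N
    have hgc : (g : ℂ) ≠ 0 := by exact_mod_cast hg0.ne'
    have h3 : (m : ℂ) = N * g := by exact_mod_cast hN.symm
    have h4 : (Q : ℂ) = g * Q' := by exact_mod_cast hQ'
    push_cast
    rw [h3, h4]
    field_simp
  refine ⟨(AddMonoidHom.mulRight (Q' : ZMod N)).comp (ZMod.castHom hd (ZMod N)).toAddMonoidHom,
    ?_, fun s => ?_⟩
  · have hu : IsUnit ((Q' : ZMod N)) := (ZMod.isUnit_iff_coprime _ _).2 hcop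
    obtain ⟨v, hv⟩ := hu
    intro w
    obtain ⟨s, hs⟩ := ZMod.castHom_surjective hd (w * ((v⁻¹ : (ZMod N)ˣ) : ZMod N))
    refine ⟨s, ?_⟩
    show (ZMod.castHom hd (ZMod N)) s * (Q' : ZMod N) = w
    rw [hs, ← hv, mul_assoc, Units.inv_mul, mul_one]
  · rw [em95_st_pow, hst]
    congr 1
    show _ = (ZMod.castHom hd (ZMod N)) s * (Q' : ZMod N)
    rw [ZMod.castHom_apply, Nat.cast_mul, ZMod.natCast_val]

private theorem em95_prod_chars {m : Fin r → ℕ} [∀ i, NeZero (m i)] (Q : ℕ) (hQ : 1 ≤ Q)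
    (N : Fin r → ℕ) [∀ i, NeZero (N i)] (hN : ∀ i, N i * Nat.gcd (m i) Q = m i)
    (G : (Fin r → ℂ) → ℝ) :
    ∏ ψ : AddChar (Gm m) ℂ, G (fun i => ψ (Pi.single i 1) ^ Q) =
      (∏ χ : AddChar (Gm N) ℂ, G (fun i => χ (Pi.single i 1))) ^ (∏ i, Nat.gcd (m i) Q) := by
  classical
  have h0 : ∀ i, ∃ π : ZMod (m i) →+ ZMod (N i), Function.Surjective π ∧
      ∀ s : ZMod (m i), (ZMod.stdAddChar s : ℂ) ^ Q = ZMod.stdAddChar (π s) :=
    fun i => em95_st_gcd (m i) Q (N i) (hN i)
  choose π hπ hπ2 using h0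
  let P : Gm m →+ Gm N :=
    { toFun := fun s i => π i (s i)
      map_zero' := by funext i; exact map_zero _
      map_add' := fun s s' => by funext i; exact map_add _ _ _ }
  have hP : Function.Surjective P := by
    intro u
    choose s hs using fun i => hπ i (u i)
    exact ⟨s, funext hs⟩
  rw [em95_prod_chr, em95_prod_chr, ← em95_prod_hom P hP (∏ i, Nat.gcd (m i) Q) ?_
    (fun u => G (fun i => em95_chr u (Pi.single i 1)))]
  · refine Finset.prod_congr rfl fun s _ => ?_
    congr 1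
    funext i
    rw [em95_chr_single, em95_chr_single, hπ2]
    rfl
  · rw [Fintype.card_pi, Fintype.card_pi, ← Finset.prod_mul_distrib]
    refine Finset.prod_congr rfl fun i _ => ?_
    rw [ZMod.card, ZMod.card, hN]

theorem Rad.prod_pow (h : Rad b m A F x) (Q : ℕ) (hQ : 1 ≤ Q) (N : Fin r → ℕ)
    [∀ i, NeZero (N i)] (hN : ∀ i, N i * Nat.gcd (m i) Q = m i)
    (f : (A →+* ℂ) → (Fin r → ℂ) → ℝ) :
    ∏ φ : F →+* ℂ, f (φ.comp (algebraMap A F)) (fun i => φ (x i) ^ Q) =
      ∏ t : A →+* ℂ, (∏ χ : AddChar (Gm N) ℂ,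
        f t (fun i => ((rho b m i ^ Q : ℝ) : ℂ) * χ (Pi.single i 1))) ^
          (∏ i, Nat.gcd (m i) Q) := by
  classical
  rw [h.prod_emb]
  refine Finset.prod_congr rfl fun t _ => ?_
  have h1 : ∀ ψ : AddChar (Gm m) ℂ, f ((h.emb (t, ψ)).comp (algebraMap A F))
      (fun i => h.emb (t, ψ) (x i) ^ Q) =
      (fun w : Fin r → ℂ => f t (fun i => ((rho b m i ^ Q : ℝ) : ℂ) * w i))
        (fun i => ψ (Pi.single i 1) ^ Q) := by
    intro ψ
    have e1 : (h.emb (t, ψ)).comp (algebraMap A F) = t := by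
      ext y
      exact h.emb_algebraMap t ψ y
    rw [e1]
    congr 1
    funext i
    rw [h.emb_x, mul_pow]
    push_cast
    rfl
  rw [Finset.prod_congr rfl fun ψ _ => h1 ψ]
  exact em95_prod_chars Q hQ N hN (fun w => f t (fun i => ((rho b m i ^ Q : ℝ) : ℂ) * w i))

end Pool.Agent.H72.BE
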