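import Pool.Agent.H72.BE.Toe

/-!
# Toeplitz determinants over a finite abelian group, bounds (MP_187c26_nt, Theorem VR+)

Proofs: see the header of `Pool/Agent/H72/BE/Toe.lean` and the complete Lean model `Pool/Agent/H72/BD/ToeB.lean` (the case
`G = ZMod m`, real `u`, `κ = Fin n`): replace `ZMod m` (as the index of the Fourier transform) by `AddChar G ℂ`.
-/

set_option autoImplicit false

namespace Pool.Agent.H72.BE

variable {G : Type} [AddCommGroup G] [Fintype G] {ι κ : Type} [Fintype ι] [Fintype κ]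
  [DecidableEq κ]

/-- Cauchy-Binet over functions. -/
private theorem tb_cb {S : Type} [Fintype S] (A : Matrix κ S ℂ)
    (C : Matrix S κ ℂ) : (Nat.factorial (Fintype.card κ) : ℂ) * (A * C).det =
      ∑ f : κ → S, (A.submatrix id f).det * (C.submatrix f id).det := by
  classical
  have h1 : (A * C).det = ∑ p : κ → S, (A.submatrix id p).det * ∏ i, C (p i) i := by
    simp only [Matrix.det_apply', Matrix.mul_apply, Finset.prod_univ_sum, Finset.mul_sum,
      Fintype.piFinset_univ]
    rw [Finset.sum_comm]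
    refine Finset.sum_congr rfl fun p _ => ?_
    rw [Finset.sum_mul]
    refine Finset.sum_congr rfl fun σ _ => ?_
    rw [Finset.prod_mul_distrib, ← mul_assoc]
    rfl
  have h2 : ∀ τ : Equiv.Perm κ, (A * C).det = ∑ p : κ → S,
      (A.submatrix id p).det * ((Equiv.Perm.sign τ : ℤ) * ∏ i, C (p (τ i)) i) := by
    intro τ
    rw [h1]
    refine Fintype.sum_equiv (Equiv.arrowCongr τ (Equiv.refl S)) _ _ fun p => ?_
    have e1 : (Equiv.arrowCongr τ (Equiv.refl S)) p = p ∘ τ.symm := rfl
    rw [e1]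
    have e2 : A.submatrix id (p ∘ τ.symm) = (A.submatrix id p).submatrix id τ.symm := rfl
    rw [e2, Matrix.det_permute']
    have e3 : ∏ i, C ((p ∘ τ.symm) (τ i)) i = ∏ i, C (p i) i := by
      refine Finset.prod_congr rfl fun i _ => ?_
      simp
    rw [e3]
    have e4 : (Equiv.Perm.sign (τ.symm) : ℤ) = Equiv.Perm.sign τ := by
      rw [← Equiv.Perm.inv_def, Equiv.Perm.sign_inv]
    rw [e4]
    have e5 : ((Equiv.Perm.sign τ : ℤ) : ℂ) * ((Equiv.Perm.sign τ : ℤ) : ℂ) = 1 := by
      rw [← Int.cast_mul, ← Units.val_mul, Int.units_mul_self]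
      simp
    calc (A.submatrix id p).det * ∏ i, C (p i) i
        = (((Equiv.Perm.sign τ : ℤ) : ℂ) * ((Equiv.Perm.sign τ : ℤ) : ℂ)) *
          ((A.submatrix id p).det * ∏ i, C (p i) i) := by rw [e5, one_mul]
      _ = _ := by ring
  have h3 : (Nat.factorial (Fintype.card κ) : ℂ) * (A * C).det = ∑ τ : Equiv.Perm κ, (A * C).det := by
    rw [Finset.sum_const, Finset.card_univ, Fintype.card_perm, nsmul_eq_mul]
  rw [h3, Finset.sum_congr rfl (fun τ _ => h2 τ), Finset.sum_comm]
  refine Finset.sum_congr rfl fun p _ => ?_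
  rw [← Finset.mul_sum, Matrix.det_apply' (C.submatrix p id)]
  rfl

/-- The matrix of the values of the characters. -/
private noncomputable def tv (k : κ → G) : Matrix κ (AddChar G ℂ) ℂ :=
  Matrix.of fun a ψ => ψ (k a)

private noncomputable def tp (k : κ → G) (f : κ → AddChar G ℂ) : ℝ :=
  ‖((tv k).submatrix id f).det‖ ^ 2

omit [Fintype G] in
private theorem tp_nonneg (k : κ → G) (f : κ → AddChar G ℂ) : 0 ≤ tp k f := by
  unfold tp
  positivity

private theorem tb_w (k : κ → G) (w : AddChar G ℂ → ℝ) : (Nat.factorial (Fintype.card κ) : ℂ) *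
    (Matrix.of fun a a' : κ => ∑ ψ : AddChar G ℂ, ψ (k a) *
        (starRingEnd ℂ) (ψ (k a')) * (w ψ : ℂ)).det =
      ((∑ f : κ → AddChar G ℂ, tp k f * ∏ r, w (f r) : ℝ) : ℂ) := by
  classical
  have h1 : (Matrix.of fun a a' : κ => ∑ ψ : AddChar G ℂ, ψ (k a) *
        (starRingEnd ℂ) (ψ (k a')) * (w ψ : ℂ)) =
      (tv k * Matrix.diagonal fun ψ => (w ψ : ℂ)) * (tv k).conjTranspose := by
    ext a a'
    rw [Matrix.mul_apply]
    refine Finset.sum_congr rfl fun ψ _ => ?_
    rw [Matrix.mul_diagonal, Matrix.conjTranspose_apply]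
    show ψ (k a) * (starRingEnd ℂ) (ψ (k a')) * (w ψ : ℂ) =
      ψ (k a) * (w ψ : ℂ) * (starRingEnd ℂ) (ψ (k a'))
    ring
  rw [h1, tb_cb, Complex.ofReal_sum]
  refine Finset.sum_congr rfl fun f _ => ?_
  have h2 : (tv k * Matrix.diagonal fun ψ => (w ψ : ℂ)).submatrix id f =
      (tv k).submatrix id f * Matrix.diagonal fun r => (w (f r) : ℂ) := by
    ext a r
    rw [Matrix.submatrix_apply, Matrix.mul_diagonal, Matrix.mul_diagonal, Matrix.submatrix_apply]
  have h3 : (tv k).conjTranspose.submatrix f id = ((tv k).submatrix id f).conjTranspose := rfl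
  rw [h2, h3, Matrix.det_mul, Matrix.det_diagonal, Matrix.det_conjTranspose, Complex.ofReal_mul,
    Complex.ofReal_prod]
  unfold tp
  rw [Complex.ofReal_pow, ← Complex.mul_conj']
  show _ * _ * (starRingEnd ℂ) _ = _
  ring

omit [Fintype G] in
private theorem tb_inj (k : κ → G) (f : κ → AddChar G ℂ) (hf : ¬ Function.Injective f) :
    tp k f = 0 := by
  unfold Function.Injective at hf
  push Not at hf
  obtain ⟨a, b, hab, hne⟩ := hf
  unfold tp
  rw [Matrix.det_zero_of_column_eq hne (fun c => by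
    rw [Matrix.submatrix_apply, Matrix.submatrix_apply, hab])]
  simp

private theorem tb_shift (k : κ → G) (f : κ → AddChar G ℂ) (t : AddChar G ℂ) :
    tp k (fun r => f r * t) = tp k f := by
  have h1 : (tv k).submatrix id (fun r => f r * t) =
      Matrix.of fun (a : κ) (r : κ) => (t (k a) : ℂ) *
        ((tv k).submatrix id f) a r := by
    ext a r
    show ((f r * t) (k a) : ℂ) = t (k a) * (f r) (k a)
    rw [AddChar.mul_apply, mul_comm]
  unfold tp
  rw [h1, Matrix.det_mul_column, norm_mul, norm_prod]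
  rw [Finset.prod_eq_one (fun a _ => AddChar.norm_apply _ _), one_mul]

private theorem tb_gr (u : ι → G → ℂ) (k : κ → G) :
    (Nat.factorial (Fintype.card κ) : ℝ) * gdt (sm u k) =
    ∑ f : κ → AddChar G ℂ, tp k f * ∏ r, (fo u (f r) / (Fintype.card G : ℝ)) := by
  have h1 := tb_w k (fun ψ => fo u ψ / (Fintype.card G : ℝ))
  have h2 : (Matrix.of fun a a' : κ => ∑ ψ : AddChar G ℂ, ψ (k a) *
        (starRingEnd ℂ) (ψ (k a')) * ((fo u ψ / (Fintype.card G : ℝ) : ℝ) : ℂ)) =
      sm u k * (sm u k).conjTranspose := by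
    ext a a'
    rw [gr_fourier, Finset.mul_sum]
    refine Finset.sum_congr rfl fun ψ _ => ?_
    push_cast
    ring
  rw [h2, gdt_real] at h1
  exact_mod_cast h1

private theorem tb_one (k : κ → G) (hk : Function.Injective k) :
    (Nat.factorial (Fintype.card κ) : ℝ) =
    ∑ f : κ → AddChar G ℂ, tp k f * ∏ _r : κ, (1 / (Fintype.card G : ℝ)) := by
  classical
  have h1 := tb_w k (fun _ => 1 / (Fintype.card G : ℝ))
  have hm : (Fintype.card G : ℂ) ≠ 0 := Nat.cast_ne_zero.2 Fintype.card_ne_zero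
  have h2 : (Matrix.of fun a a' : κ => ∑ ψ : AddChar G ℂ, ψ (k a) *
        (starRingEnd ℂ) (ψ (k a')) * ((1 / (Fintype.card G : ℝ) : ℝ) : ℂ)) = 1 := by
    ext a a'
    rw [Matrix.of_apply, ← Finset.sum_mul]
    have h3 : ∀ ψ : AddChar G ℂ, ψ (k a) *
        (starRingEnd ℂ) (ψ (k a')) = (ψ (k a - k a') : ℂ) := by
      intro ψ
      rw [← AddChar.map_neg_eq_conj, ← AddChar.map_add_eq_mul, sub_eq_add_neg]
    rw [Finset.sum_congr rfl fun ψ _ => h3 ψ, AddChar.sum_apply_eq_ite]
    rw [Matrix.one_apply]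
    by_cases h : a = a'
    · rw [if_pos h, h, sub_self, if_pos rfl]
      push_cast
      field_simp
    · have h4 : k a - k a' ≠ 0 := by
        intro h5
        exact h (hk (sub_eq_zero.1 h5))
      rw [if_neg h, if_neg h4]
      simp
  rw [h2, Matrix.det_one, mul_one] at h1
  exact_mod_cast h1

theorem gr_upper (u : ι → G → ℂ) (k : κ → G) (hk : Function.Injective k) (D : ℝ) (hD : 0 ≤ D)
    (N : AddChar G ℂ → ℝ) (hN : ∀ ψ, 1 ≤ N ψ) (h : ∀ ψ, fo u ψ ≤ D * N ψ) :
    gdt (sm u k) ≤ D ^ Fintype.card κ * ∏ ψ, N ψ := by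
  classical
  have hm : (0 : ℝ) < (Fintype.card G : ℝ) := Nat.cast_pos.2 Fintype.card_pos
  have hf : (0 : ℝ) < Nat.factorial (Fintype.card κ) := Nat.cast_pos.2 (Nat.factorial_pos _)
  have h1 : (Nat.factorial (Fintype.card κ) : ℝ) * gdt (sm u k) ≤
      (Nat.factorial (Fintype.card κ) : ℝ) * (D ^ Fintype.card κ * ∏ ψ, N ψ) := by
    rw [tb_gr]
    conv_rhs => rw [tb_one k hk, Finset.sum_mul]
    refine Finset.sum_le_sum fun f _ => ?_
    by_cases hinj : Function.Injective f
    · rw [mul_assoc]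
      refine mul_le_mul_of_nonneg_left ?_ (tp_nonneg k f)
      have h2 : ∏ r, (fo u (f r) / (Fintype.card G : ℝ)) ≤
          ∏ r, (D * N (f r) / (Fintype.card G : ℝ)) :=
        Finset.prod_le_prod (fun r _ => div_nonneg (fo_nonneg u _) hm.le)
          fun r _ => div_le_div_of_nonneg_right (h _) hm.le
      have h3 : ∏ r, (D * N (f r) / (Fintype.card G : ℝ)) =
          (∏ _r : κ, (1 / (Fintype.card G : ℝ))) * (D ^ Fintype.card κ * ∏ r, N (f r)) := by
        have h4 : ∀ r : κ, D * N (f r) / (Fintype.card G : ℝ) =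
            1 / (Fintype.card G : ℝ) * (D * N (f r)) := fun r => by ring
        rw [Finset.prod_congr rfl fun r _ => h4 r, Finset.prod_mul_distrib, Finset.prod_mul_distrib,
          Finset.prod_const D, Finset.card_univ]
      have h5 : ∏ r, N (f r) ≤ ∏ ψ, N ψ := by
        rw [← Finset.prod_image (s := Finset.univ) (g := f) (f := N) (fun a _ b _ hab => hinj hab)]
        have h6 : ∀ T : Finset (AddChar G ℂ), 1 ≤ ∏ ψ ∈ T, N ψ := fun T => by
          have h7 := Finset.prod_le_prod (s := T) (f := fun _ => (1 : ℝ)) (g := N)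
            (fun _ _ => zero_le_one) (fun s _ => hN s)
          rwa [Finset.prod_const_one] at h7
        rw [← Finset.prod_sdiff (Finset.subset_univ (Finset.image f Finset.univ))]
        exact le_mul_of_one_le_left (zero_le_one.trans (h6 _)) (h6 _)
      rw [h3] at h2
      refine h2.trans (mul_le_mul_of_nonneg_left
        (mul_le_mul_of_nonneg_left h5 (pow_nonneg hD _)) ?_)
      exact Finset.prod_nonneg fun r _ => by positivity
    · rw [tb_inj k f hinj, zero_mul, zero_mul, zero_mul]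
  exact le_of_mul_le_mul_left h1 hf

theorem gr_lower (u : ι → G → ℂ) (k : κ → G) (hk : Function.Injective k) :
    (∏ ψ : AddChar G ℂ, fo u ψ) ^ Fintype.card κ ≤ gdt (sm u k) ^ Fintype.card G := by
  classical
  have hm : (0 : ℝ) < (Fintype.card G : ℝ) := Nat.cast_pos.2 Fintype.card_pos
  have hf : (0 : ℝ) < Nat.factorial (Fintype.card κ) := Nat.cast_pos.2 (Nat.factorial_pos _)
  have hcd : (Fintype.card (AddChar G ℂ) : ℝ) = Fintype.card G := by
    rw [AddChar.card_eq]
  by_cases hn0 : Fintype.card κ = 0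
  · have hE : IsEmpty κ := Fintype.card_eq_zero_iff.1 hn0
    have hg : gdt (sm u k) = 1 := by
      unfold gdt
      rw [Matrix.det_isEmpty]
      simp
    rw [hn0, hg]
    simp
  by_cases hz : ∃ s, fo u s = 0
  · obtain ⟨s, hs⟩ := hz
    rw [Finset.prod_eq_zero (Finset.mem_univ s) hs, zero_pow hn0]
    exact pow_nonneg (gdt_nonneg _) _
  · have hpos : ∀ s, 0 < fo u s := fun s =>
      lt_of_le_of_ne (fo_nonneg u s) (fun h => hz ⟨s, h.symm⟩)
    obtain ⟨P, hP⟩ : ∃ P : (κ → AddChar G ℂ) → ℝ, ∀ f, P f =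
      tp k f * (∏ _r : κ, (1 / (Fintype.card G : ℝ))) / Nat.factorial (Fintype.card κ) :=
      ⟨_, fun _ => rfl⟩
    have hP0 : ∀ f, 0 ≤ P f := fun f => by
      rw [hP]
      exact div_nonneg (mul_nonneg (tp_nonneg k f) (Finset.prod_nonneg fun r _ => by positivity)) hf.le
    have hP1 : ∑ f, P f = 1 := by
      rw [Finset.sum_congr rfl fun f _ => hP f, ← Finset.sum_div, ← tb_one k hk, div_self hf.ne']
    have hPs : ∀ f t, P (fun r => f r * t) = P f := fun f t => by
      rw [hP, hP, tb_shift]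
    have hdet : gdt (sm u k) = ∑ f, P f * ∏ r, fo u (f r) := by
      apply mul_left_cancel₀ hf.ne'
      rw [tb_gr, Finset.mul_sum]
      refine Finset.sum_congr rfl fun f _ => ?_
      rw [hP]
      have h4 : ∀ r : κ, fo u (f r) / (Fintype.card G : ℝ) =
        1 / (Fintype.card G : ℝ) * fo u (f r) := fun r => by ring
      rw [Finset.prod_congr rfl fun r _ => h4 r, Finset.prod_mul_distrib]
      field_simp
    have hag := Real.geom_mean_le_arith_mean_weighted Finset.univ P (fun f => ∏ r, fo u (f r))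
      (fun f _ => hP0 f) hP1 (fun f _ => Finset.prod_nonneg fun r _ => fo_nonneg u _)
    rw [← hdet] at hag
    obtain ⟨l, hl⟩ : ∃ l : AddChar G ℂ → ℝ, ∀ s, l s = Real.log (fo u s) := ⟨_, fun _ => rfl⟩
    have hz0 : ∀ f : κ → AddChar G ℂ, 0 < ∏ r, fo u (f r) :=
      fun f => Finset.prod_pos fun r _ => hpos _
    have hlog : Real.log (∏ f, (∏ r, fo u (f r)) ^ P f) = ∑ f, P f * ∑ r, l (f r) := by
      rw [Real.log_prod (fun f _ => (Real.rpow_pos_of_pos (hz0 f) _).ne')]
      refine Finset.sum_congr rfl fun f _ => ?_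
      rw [Real.log_rpow (hz0 f), Real.log_prod (fun r _ => (hpos _).ne')]
      simp only [hl]
    have hQ : ∀ t : AddChar G ℂ, ∑ f, P f * ∑ r, l (f r) = ∑ f, P f * ∑ r, l (f r * t) := by
      intro t
      rw [← Equiv.sum_comp (Equiv.mulRight (fun _ : κ => t)) fun f => P f * ∑ r, l (f r)]
      refine Finset.sum_congr rfl fun f _ => ?_
      have h5 : (Equiv.mulRight (fun _ : κ => t)) f = fun r => f r * t := rfl
      rw [h5, hPs]
    have hmQ : (Fintype.card G : ℝ) * ∑ f, P f * ∑ r, l (f r) =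
        (Fintype.card κ : ℝ) * ∑ s, l s := by
      have h6 : (Fintype.card G : ℝ) * ∑ f, P f * ∑ r, l (f r) =
          ∑ t : AddChar G ℂ, ∑ f, P f * ∑ r, l (f r * t) := by
        rw [← Finset.sum_congr rfl fun t _ => hQ t, Finset.sum_const, Finset.card_univ,
          nsmul_eq_mul, hcd]
      rw [h6, Finset.sum_comm]
      have h7 : ∀ f : κ → AddChar G ℂ, ∑ t : AddChar G ℂ, P f * ∑ r, l (f r * t) =
          P f * ((Fintype.card κ : ℝ) * ∑ s, l s) := by
        intro f
        rw [← Finset.mul_sum, Finset.sum_comm]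
        congr 1
        have h8 : ∀ r : κ, ∑ t : AddChar G ℂ, l (f r * t) = ∑ s, l s := fun r =>
          Equiv.sum_comp (Equiv.mulLeft (f r)) l
        rw [Finset.sum_congr rfl fun r _ => h8 r, Finset.sum_const, Finset.card_univ,
          nsmul_eq_mul]
      rw [Finset.sum_congr rfl fun f _ => h7 f, ← Finset.sum_mul, hP1, one_mul]
    have hgm : 0 < ∏ f, (∏ r, fo u (f r)) ^ P f :=
      Finset.prod_pos fun f _ => Real.rpow_pos_of_pos (hz0 f) _
    have hdp : 0 < gdt (sm u k) := lt_of_lt_of_le hgm hag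
    have hprod : 0 < ∏ s, fo u s := Finset.prod_pos fun s _ => hpos s
    rw [← Real.log_le_log_iff (pow_pos hprod _) (pow_pos hdp _), Real.log_pow, Real.log_pow,
      Real.log_prod (fun s _ => (hpos s).ne')]
    have h9 : ∑ s, Real.log (fo u s) = ∑ s, l s := Finset.sum_congr rfl fun s _ => (hl s).symm
    rw [h9, ← hmQ, ← hlog]
    exact mul_le_mul_of_nonneg_left (Real.log_le_log hgm hag) hm.le

end Pool.Agent.H72.BE
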