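import Pool.Agent.H72.BE.Lat
import Pool.Agent.H72.BE.Emb
import Pool.Agent.H72.BE.ToeB
import Pool.Agent.H72.BE.Dep

/-!
# Gram determinants of the multipliers (MP_187c26_nt, Theorem VR+)

Model: `Pool/Agent/H72/BD/Gram.lean`. `e = [A : ℚ]` = number of the `t : A →+* ℂ` (`NumberField.Embeddings.card`), `N = ∏ n_i`.

`gram_upper`: for each `t`: `fo (uu t ∘ c) ψ = ∑ i, ‖emb (t, ψ) (c i)‖ ^ 2 ≤ D N (emb (t, ψ))` (`Rad.fo_uu`), `gr_upper` (shifts `mb m n`, injective as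
`n ≤ m`): `gdt^t ≤ D ^ N ∏ ψ, N (emb (t, ψ))`; multiply over `t`, `Rad.prod_emb`; multiply by the square of the index.
`gram_pos`: `c last = 1`, so `fo (uu t ∘ c) ψ ≥ 1`, and `gr_lower` gives `1 ≤ gdt ^ |G|`; `gdt ≥ 0`.
`minor_alt`: if the minor `δ` of `Psi` at `J` is `0` all the minors of the `sm^t` vanish (`minor_zero`). Otherwise the product formula
`∏_t |t δ| ∏_v |δ|_v = 1`, `∏_v |δ|_v ≤ fm (Psi) ≤ relIndex` (`|δ|_v ≤` the supremum over `J`, for all `v`; finite supports: `fm_support`; `finprod` monotone) and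
`|t δ| ≤ |t δ| ∏ wc (J a) = (∏ a, rw (bv a)) |minor^t|`. So `1 ≤ relIndex ∏_t ((∏ rw) |minor^t|)`; square, `prod_rw`.
`exists_minor`: otherwise `dep_of_minors` (`S = univ`) gives `q ≠ 0` with `q Psi = 0`; at the columns `(last, l)` (`c last = 1`, `psi_vecMul`):
`co (∑ a, q a x ^ a) = 0`, so `∑ a, q a x ^ a = 0`; the `x ^ a`, `a ∈ Box n`, are independent (`n ≤ m`: `co_smul_mon`, `mb_inj`, `bet ≠ 0`).
-/

set_option autoImplicit false

open MvPolynomial NumberField

namespace Pool.Agent.H72.BE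

variable {r : ℕ} {b m : Fin r → ℕ} [∀ i, NeZero (m i)] {A F : Type} [Field A] [NumberField A]
  [Field F] [NumberField F] [Algebra A F] {x : Fin r → F} {d : ℕ}

theorem card_emb (A : Type) [Field A] [NumberField A] :
    Fintype.card (A →+* ℂ) = Module.finrank ℚ A := NumberField.Embeddings.card A ℂ

private theorem card_box (n : Fin r → ℕ) : Fintype.card (Box n) = ∏ i, n i := by
  rw [Fintype.card_pi]
  exact Finset.prod_congr rfl fun i _ => Fintype.card_fin _

theorem gram_upper (h : Rad b m A F x) (c : Fin (d + 1) → F) (D T : ℝ) (hD : 0 ≤ D)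
    (hS : h.Siz c D T) (n : Fin r → ℕ) (hn : ∀ i, n i ≤ m i) :
    ((h.den c).relIndex h.zx : ℝ) ^ 2 * ∏ t : A →+* ℂ, gdt (sm (fun i => h.uu t (c i)) (mb m n)) ≤
      D ^ (Module.finrank ℚ A * ∏ i, n i) * T := by
  obtain ⟨N, h1, h2, -, h4⟩ := hS
  have h5 : ∀ t : A →+* ℂ, gdt (sm (fun i => h.uu t (c i)) (mb m n)) ≤
      D ^ (∏ i, n i) * ∏ ψ : AddChar (Gm m) ℂ, N (h.emb (t, ψ)) := by
    intro t
    have h6 := gr_upper (fun i => h.uu t (c i)) (mb m n) (mb_inj n hn) D hD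
      (fun ψ => N (h.emb (t, ψ))) (fun ψ => h1 _) (fun ψ => by rw [h.fo_uu c t ψ]; exact h2 _)
    rwa [card_box] at h6
  have h7 : ∏ t : A →+* ℂ, gdt (sm (fun i => h.uu t (c i)) (mb m n)) ≤
      D ^ (Module.finrank ℚ A * ∏ i, n i) * ∏ φ : F →+* ℂ, N φ := by
    refine (Finset.prod_le_prod (fun t _ => gdt_nonneg _) fun t _ => h5 t).trans ?_
    rw [Finset.prod_mul_distrib, Finset.prod_const, Finset.card_univ, card_emb, ← pow_mul,
      ← h.prod_emb N, mul_comm (∏ i, n i)]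
  calc ((h.den c).relIndex h.zx : ℝ) ^ 2 * ∏ t : A →+* ℂ, gdt (sm (fun i => h.uu t (c i)) (mb m n))
      ≤ ((h.den c).relIndex h.zx : ℝ) ^ 2 *
        (D ^ (Module.finrank ℚ A * ∏ i, n i) * ∏ φ : F →+* ℂ, N φ) :=
        mul_le_mul_of_nonneg_left h7 (by positivity)
    _ = D ^ (Module.finrank ℚ A * ∏ i, n i) *
        (((h.den c).relIndex h.zx : ℝ) ^ 2 * ∏ φ, N φ) := by ring
    _ ≤ D ^ (Module.finrank ℚ A * ∏ i, n i) * T := mul_le_mul_of_nonneg_left h4 (by positivity)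

theorem gram_pos (h : Rad b m A F x) (c : Fin (d + 1) → F) (hc : c (Fin.last d) = 1)
    (n : Fin r → ℕ) (hn : ∀ i, n i ≤ m i) (t : A →+* ℂ) :
    0 < gdt (sm (fun i => h.uu t (c i)) (mb m n)) := by
  have h1 := gr_lower (fun i => h.uu t (c i)) (mb m n) (mb_inj n hn)
  have h2 : ∀ ψ, 1 ≤ fo (fun i => h.uu t (c i)) ψ := by
    intro ψ
    rw [h.fo_uu c t ψ]
    have h3 : ‖h.emb (t, ψ) (c (Fin.last d))‖ ^ 2 ≤ ∑ i, ‖h.emb (t, ψ) (c i)‖ ^ 2 :=
      Finset.single_le_sum (f := fun i => ‖h.emb (t, ψ) (c i)‖ ^ 2) (fun i _ => by positivity)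
        (Finset.mem_univ _)
    rw [hc, map_one, norm_one, one_pow] at h3
    exact h3
  have h4 : (1 : ℝ) ≤ (∏ ψ, fo (fun i => h.uu t (c i)) ψ) ^ Fintype.card (Box n) := by
    refine one_le_pow₀ ?_
    have h5 := Finset.prod_le_prod (s := Finset.univ) (f := fun _ : AddChar (Gm m) ℂ => (1 : ℝ))
      (g := fun ψ => fo (fun i => h.uu t (c i)) ψ) (fun _ _ => zero_le_one) fun s _ => h2 s
    rwa [Finset.prod_const_one] at h5
  refine lt_of_le_of_ne (gdt_nonneg _) fun h0 => ?_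
  rw [← h0, zero_pow Fintype.card_ne_zero] at h1
  linarith

theorem minor_all (h : Rad b m A F x) (c : Fin (d + 1) → F) (n : Fin r → ℕ)
    (J : Box n → Fin (d + 1) × Gm m) (t t' : A →+* ℂ)
    (h0 : ((sm (fun i => h.uu t (c i)) (mb m n)).submatrix id J).det = 0) :
    ((sm (fun i => h.uu t' (c i)) (mb m n)).submatrix id J).det = 0 :=
  (minor_zero h c n t' J).1 ((minor_zero h c n t J).2 h0)

private theorem finprod_le_fm {κ Ω : Type} [Fintype κ] [Fintype Ω] [DecidableEq κ]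
    (Y : Matrix κ Ω A) (J : κ → Ω) (hJ : (Y.submatrix id J).det ≠ 0) :
    ∏ᶠ v : FinitePlace A, v ((Y.submatrix id J).det) ≤ fm Y := by
  have h1 := fm_support Y J hJ
  have h2 : (Function.mulSupport fun v : FinitePlace A => v ((Y.submatrix id J).det)).Finite :=
    FinitePlace.hasFiniteMulSupport hJ
  unfold fm
  classical
  rw [finprod_eq_prod_of_mulSupport_subset (s := h1.toFinset ∪ h2.toFinset) _ (by
      intro v hv
      rw [Finset.mem_coe, Finset.mem_union]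
      exact Or.inr (h2.mem_toFinset.2 hv)),
    finprod_eq_prod_of_mulSupport_subset (s := h1.toFinset ∪ h2.toFinset) _ (by
      intro v hv
      rw [Finset.mem_coe, Finset.mem_union]
      exact Or.inl (h1.mem_toFinset.2 hv))]
  refine Finset.prod_le_prod (fun v _ => apply_nonneg v _) fun v _ => ?_
  exact le_ciSup (f := fun J : κ → Ω => v ((Y.submatrix id J).det))
    (Set.finite_range fun J : κ → Ω => v ((Y.submatrix id J).det)).bddAbove J

theorem minor_alt (h : Rad b m A F x) (c : Fin (d + 1) → F)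
    (h0 : (h.den c).relIndex h.zx ≠ 0) (n : Fin r → ℕ) (J : Box n → Fin (d + 1) × Gm m) :
    (∃ t : A →+* ℂ, ((sm (fun i => h.uu t (c i)) (mb m n)).submatrix id J).det = 0) ∨
      1 ≤ ((h.den c).relIndex h.zx : ℝ) ^ 2 *
        (∏ i, rho b m i ^ n i) ^ (Module.finrank ℚ A * ∏ i, n i) *
        ∏ t : A →+* ℂ, ‖((sm (fun i => h.uu t (c i)) (mb m n)).submatrix id J).det‖ ^ 2 := by
  by_cases hδ : ((Psi h c n).submatrix id J).det = 0
  · left
    have t : A →+* ℂ := Classical.arbitrary _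
    exact ⟨t, (minor_zero h c n t J).1 hδ⟩
  right
  obtain ⟨ρ, hρ⟩ : ∃ ρ : ℝ, ρ = ∏ a : Box n, rw b m (bv a) := ⟨_, rfl⟩
  have hρ0 : 0 ≤ ρ := by
    rw [hρ]
    exact Finset.prod_nonneg fun a _ => zero_le_one.trans (one_le_rw h.two _)
  obtain ⟨M, hM⟩ : ∃ M : (A →+* ℂ) → ℝ, ∀ t, M t =
      ‖((sm (fun i => h.uu t (c i)) (mb m n)).submatrix id J).det‖ := ⟨_, fun _ => rfl⟩
  have hM0 : ∀ t, 0 ≤ M t := fun t => by
    rw [hM]
    exact norm_nonneg _
  have h1 : ∀ t : A →+* ℂ, ‖t ((Psi h c n).submatrix id J).det‖ ≤ ρ * M t := by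
    intro t
    have h2 := congrArg norm (minor_psi h c n t J)
    rw [norm_mul, norm_mul, norm_prod, Complex.norm_real, Real.norm_of_nonneg (by rw [← hρ]; exact hρ0),
      ← hρ, ← hM] at h2
    rw [← h2]
    refine le_mul_of_one_le_right (norm_nonneg _) ?_
    refine Finset.prod_induction _ (fun z : ℝ => 1 ≤ z)
      (fun _ _ h1 h2 => one_le_mul_of_one_le_of_one_le h1 h2) le_rfl fun a _ => ?_
    have h3 := one_le_wc h (J a)
    rw [Complex.norm_real, Real.norm_of_nonneg (zero_le_one.trans h3)]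
    exact h3
  have h2 := prod_formula _ hδ
  have h3 : (1 : ℝ) ≤ (∏ t : A →+* ℂ, (ρ * M t)) * ((h.den c).relIndex h.zx : ℝ) := by
    rw [← h2]
    refine mul_le_mul (Finset.prod_le_prod (fun t _ => norm_nonneg _) fun t _ => h1 t)
      ((finprod_le_fm _ J hδ).trans (fm_psi h c n h0)) ?_ ?_
    · exact finprod_nonneg fun v => apply_nonneg v _
    · exact Finset.prod_nonneg fun t _ => mul_nonneg hρ0 (hM0 t)
  rw [Finset.prod_mul_distrib, Finset.prod_const, Finset.card_univ, card_emb] at h3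
  have h4 := pow_le_pow_left₀ zero_le_one h3 2
  rw [one_pow] at h4
  refine h4.trans ?_
  have h5 : (ρ ^ Module.finrank ℚ A * (∏ t, M t) * ((h.den c).relIndex h.zx : ℝ)) ^ 2 =
      ((h.den c).relIndex h.zx : ℝ) ^ 2 * (ρ ^ 2) ^ Module.finrank ℚ A * ∏ t, M t ^ 2 := by
    rw [Finset.prod_pow]
    ring
  rw [h5, Finset.prod_congr rfl fun t _ => by rw [hM t]]
  refine mul_le_mul_of_nonneg_right (mul_le_mul_of_nonneg_left ?_ (by positivity))
    (Finset.prod_nonneg fun t _ => by positivity)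
  rw [mul_comm (Module.finrank ℚ A), pow_mul]
  refine pow_le_pow_left₀ (by positivity) ?_ _
  rw [hρ]
  exact prod_rw h.two n

/-- Some minor of `Psi` is not zero. -/
theorem exists_minor (h : Rad b m A F x) (c : Fin (d + 1) → F) (hc : c (Fin.last d) = 1)
    (n : Fin r → ℕ) (hn : ∀ i, n i ≤ m i) :
    ∃ J : Box n → Fin (d + 1) × Gm m, ((Psi h c n).submatrix id J).det ≠ 0 := by
  classical
  by_contra hcon
  push Not at hcon
  obtain ⟨q, hq0, hq⟩ := dep_of_minors (Psi h c n) Set.univ (fun J _ => hcon J)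
  obtain ⟨a0, ha0⟩ := Function.ne_iff.1 hq0
  have h1 := hq (Fin.last d, md m (bv a0)) (Set.mem_univ _)
  rw [psi_vecMul] at h1
  simp only at h1
  rw [hc, mul_one, map_sum, Finset.sum_apply, Finset.sum_congr rfl fun a _ => h.co_smul_mon (q a) (bv a) _,
    Finset.sum_eq_single a0] at h1
  · rw [if_pos rfl] at h1
    rcases mul_eq_zero.1 h1 with h2 | h2
    · exact ha0 h2
    · exact bet_ne_zero h.two (bv a0) (by exact_mod_cast h2)
  · intro a _ ha
    rw [if_neg]
    intro h2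
    exact ha (mb_inj n hn h2.symm)
  · intro h2
    exact absurd (Finset.mem_univ _) h2

end Pool.Agent.H72.BE
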