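import Mathlib

/-!
# Kronecker type lemma in several dimensions, tools (MP_187c26_nt, Theorem VR+, S5)

`dirichlet_r`: pigeonhole: for `h = 0, …, X ^ r` the vector `(X * (h M a_i % m_i) / m_i)_i` is in `{0, …, X - 1} ^ r` (`X ^ r` boxes): two values `h1 < h2` have the
same vector; `h = h2 - h1`, `|(h2 M a_i % m_i) - (h1 M a_i % m_i)| X < m_i`.

`prod_pow_ne`: let `g_i = min (e_i, e'_i)`. `∏ b ^ e = ∏ b ^ g ∏ b ^ (e - g)`; `q` is prime, `q > b_i` (if `U ≥ 1`; if `U = 0`, `e = e'`), so `q ∤ ∏ b ^ g`; if `q` divides the difference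
then `q ∣ ∏ b ^ (e - g) - ∏ b ^ (e' - g)`; both products are in `[1, (∏ b) ^ U]`, `< q`: they are equal. There is `i` with `e_i ≠ e'_i`, say `e_i > e'_i`: a prime
factor `p` of `b_i` divides the left product; the right product has exponent `e'_i - g_i = 0` at `b_i` and the other `b_j` are prime to `b_i`: contradiction.

`bq_card`: choose `(s_j, s'_j)` for each `j`; if `(s_j, s'_j) = (s_k, s'_k)` then `q ∣ s'_j (z_j - z_k)`, `q ∤ s'_j`: `j = k`. So the map to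
`[-H, H] ^ 2` is injective.
-/

set_option autoImplicit false

namespace Pool.Agent.H72.BE

/-- Quotients modulo `q` of integers of absolute value `≤ H`. -/
def BQ (H q : ℕ) (z : ℤ) : Prop :=
  ∃ s s' : ℤ, |s| ≤ H ∧ |s'| ≤ H ∧ ¬ (q : ℤ) ∣ s' ∧ (q : ℤ) ∣ s - s' * z

theorem dirichlet_r {r : ℕ} (m a : Fin r → ℕ) (hm : ∀ i, 1 ≤ m i) (M X : ℕ) (hX : 1 ≤ X) :
    ∃ h : ℕ, 1 ≤ h ∧ h ≤ X ^ r ∧ ∀ i, ∃ k : ℤ, |(h : ℤ) * M * a i - k * m i| * X < m i := by
  have hlt : ∀ (h : ℕ) (i : Fin r), X * (h * M * a i % m i) / m i < X := by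
    intro h i
    have h1 : h * M * a i % m i < m i := Nat.mod_lt _ (hm i)
    exact Nat.div_lt_of_lt_mul (by rw [mul_comm (m i)]; exact Nat.mul_lt_mul_of_pos_left h1 (by omega))
  let f : Fin (X ^ r + 1) → (Fin r → Fin X) := fun h i => ⟨_, hlt (h : ℕ) i⟩
  have hcard : Fintype.card (Fin r → Fin X) < Fintype.card (Fin (X ^ r + 1)) := by
    rw [Fintype.card_fun, Fintype.card_fin, Fintype.card_fin, Fintype.card_fin]
    exact Nat.lt_succ_self _
  obtain ⟨x, y, hxy, hf⟩ := Fintype.exists_ne_map_eq_of_card_lt f hcard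
  have key : ∀ x y : Fin (X ^ r + 1), x < y → f x = f y → ∃ h : ℕ, 1 ≤ h ∧ h ≤ X ^ r ∧
      ∀ i, ∃ k : ℤ, |(h : ℤ) * M * a i - k * m i| * X < m i := by
    intro x y hlt' hf
    have h1 : (x : ℕ) < y := hlt'
    have h2 : (y : ℕ) < X ^ r + 1 := y.2
    refine ⟨y - x, by omega, by omega, fun i => ?_⟩
    have h3 : X * ((x : ℕ) * M * a i % m i) / m i = X * ((y : ℕ) * M * a i % m i) / m i :=
      congrArg Fin.val (congrFun hf i)
    have d1 := Nat.div_add_mod ((x : ℕ) * M * a i) (m i)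
    have d2 := Nat.div_add_mod ((y : ℕ) * M * a i) (m i)
    obtain ⟨u1, hu1⟩ : ∃ u1, u1 = (x : ℕ) * M * a i % m i := ⟨_, rfl⟩
    obtain ⟨u2, hu2⟩ : ∃ u2, u2 = (y : ℕ) * M * a i % m i := ⟨_, rfl⟩
    obtain ⟨q1, hq1⟩ : ∃ q1, q1 = (x : ℕ) * M * a i / m i := ⟨_, rfl⟩
    obtain ⟨q2, hq2⟩ : ∃ q2, q2 = (y : ℕ) * M * a i / m i := ⟨_, rfl⟩
    rw [← hu1, ← hu2] at h3
    rw [← hu1, ← hq1] at d1
    rw [← hu2, ← hq2] at d2
    have m1 := Nat.div_add_mod (X * u1) (m i)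
    have m2 := Nat.div_add_mod (X * u2) (m i)
    have n1 := Nat.mod_lt (X * u1) (hm i)
    have n2 := Nat.mod_lt (X * u2) (hm i)
    rw [h3] at m1
    refine ⟨(q2 : ℤ) - q1, ?_⟩
    have e1 : (((y : ℕ) - (x : ℕ) : ℕ) : ℤ) * M * a i - ((q2 : ℤ) - q1) * m i = (u2 : ℤ) - u1 := by
      rw [Nat.cast_sub h1.le]
      have c1 : ((m i : ℤ)) * q1 + u1 = (x : ℕ) * M * a i := by exact_mod_cast d1
      have c2 : ((m i : ℤ)) * q2 + u2 = (y : ℕ) * M * a i := by exact_mod_cast d2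
      linear_combination c1 - c2
    rw [e1]
    have hX0 : (0 : ℤ) ≤ X := Int.natCast_nonneg X
    rw [← abs_of_nonneg hX0, ← abs_mul, abs_lt]
    generalize X * u2 / m i = c at m1 m2
    generalize X * u1 % m i = r1 at m1 n1
    generalize X * u2 % m i = r2 at m2 n2
    have k1 : ((m i : ℤ)) * c + r1 = X * u1 := by exact_mod_cast m1
    have k2 : ((m i : ℤ)) * c + r2 = X * u2 := by exact_mod_cast m2
    have k3 : ((u2 : ℤ) - u1) * X = r2 - r1 := by linear_combination k1 - k2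
    rw [k3]
    constructor <;> omega
  rcases lt_or_gt_of_ne hxy with h | h
  · exact key x y h hf
  · exact key y x h hf.symm

private theorem kr_ne {r : ℕ} (b : Fin r → ℕ) (hb : ∀ i, 2 ≤ b i)
    (hc : ∀ i j, i ≠ j → Nat.Coprime (b i) (b j)) (e e' : Fin r → ℕ) (i : Fin r)
    (hi : e' i < e i) : ∏ j, b j ^ (e j - e' j) ≠ ∏ j, b j ^ (e' j - e j) := by
  intro heq
  obtain ⟨p, hp, hpb⟩ := Nat.exists_prime_and_dvd (n := b i) (by have := hb i; omega)
  have h1 : p ∣ ∏ j, b j ^ (e j - e' j) :=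
    (hpb.trans (dvd_pow_self _ (by omega))).trans
      (Finset.dvd_prod_of_mem (fun j => b j ^ (e j - e' j)) (Finset.mem_univ i))
  rw [heq] at h1
  obtain ⟨j, -, hj⟩ := (hp.prime.dvd_finsetProd_iff _).1 h1
  by_cases hij : i = j
  · subst hij
    have h2 : e' i - e i = 0 := by omega
    rw [h2, pow_zero] at hj
    exact hp.one_lt.ne' (Nat.dvd_one.1 hj)
  · have h2 := hp.dvd_of_dvd_pow hj
    have h3 := Nat.dvd_gcd hpb h2
    rw [(hc i j hij).gcd_eq_one] at h3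
    exact hp.one_lt.ne' (Nat.dvd_one.1 h3)

theorem prod_pow_ne {r : ℕ} (b : Fin r → ℕ) (hb : ∀ i, 2 ≤ b i)
    (hc : ∀ i j, i ≠ j → Nat.Coprime (b i) (b j)) (q U : ℕ) (hq : q.Prime)
    (hU : (∏ i, b i) ^ U < q) (e e' : Fin r → ℕ) (he : ∀ i, e i ≤ e' i + U ∧ e' i ≤ e i + U)
    (hne : e ≠ e') : ¬ (q : ℤ) ∣ (∏ i, (b i : ℤ) ^ e i) - ∏ i, (b i : ℤ) ^ e' i := by
  obtain ⟨i0, hi0⟩ := Function.ne_iff.1 hne
  have hU1 : 1 ≤ U := by
    have := he i0
    omega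
  have hb1 : ∀ i, 1 ≤ b i := fun i => by have := hb i; omega
  have hle : ∀ i, b i ≤ ∏ j, b j := fun i =>
    Finset.single_le_prod' (f := b) (fun j _ => hb1 j) (Finset.mem_univ i)
  have hP1 : 1 ≤ ∏ j, b j := Finset.one_le_prod' fun j _ => hb1 j
  have hbq : ∀ i, ¬ q ∣ b i := by
    intro i hd
    have h1 := Nat.le_of_dvd (hb1 i) hd
    have h2 : ∏ j, b j ≤ (∏ j, b j) ^ U := Nat.le_self_pow (by omega) _
    have := hle i
    omega
  obtain ⟨G, hG⟩ : ∃ G, G = ∏ i, b i ^ min (e i) (e' i) := ⟨_, rfl⟩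
  obtain ⟨A, hA⟩ : ∃ A, A = ∏ i, b i ^ (e i - e' i) := ⟨_, rfl⟩
  obtain ⟨A', hA'⟩ : ∃ A', A' = ∏ i, b i ^ (e' i - e i) := ⟨_, rfl⟩
  have e1 : ∏ i, b i ^ e i = G * A := by
    rw [hG, hA, ← Finset.prod_mul_distrib]
    refine Finset.prod_congr rfl fun i _ => ?_
    rw [← pow_add]
    congr 1
    omega
  have e2 : ∏ i, b i ^ e' i = G * A' := by
    rw [hG, hA', ← Finset.prod_mul_distrib]
    refine Finset.prod_congr rfl fun i _ => ?_
    rw [← pow_add]
    congr 1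
    omega
  have hGq : ¬ q ∣ G := by
    rw [hG]
    intro hd
    obtain ⟨j, -, hj⟩ := (hq.prime.dvd_finsetProd_iff _).1 hd
    exact hbq j (hq.dvd_of_dvd_pow hj)
  have hbd : ∀ x : Fin r → ℕ, (∀ i, x i ≤ U) → ∏ i, b i ^ x i < q := by
    intro x hx
    refine lt_of_le_of_lt ?_ hU
    rw [← Finset.prod_pow]
    exact Finset.prod_le_prod' fun i _ => Nat.pow_le_pow_right (hb1 i) (hx i)
  have hAq : A < q := by
    rw [hA]
    exact hbd _ fun i => by have := he i; omega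
  have hAq' : A' < q := by
    rw [hA']
    exact hbd _ fun i => by have := he i; omega
  have hAA : A ≠ A' := by
    rw [hA, hA']
    rcases lt_or_gt_of_ne hi0 with h | h
    · exact (kr_ne b hb hc e' e i0 h).symm
    · exact kr_ne b hb hc e e' i0 h
  intro hd
  have c1 : ∏ i, (b i : ℤ) ^ e i = (G : ℤ) * A := by exact_mod_cast e1
  have c2 : ∏ i, (b i : ℤ) ^ e' i = (G : ℤ) * A' := by exact_mod_cast e2
  rw [c1, c2, ← mul_sub] at hd
  have hqp : Prime (q : ℤ) := Nat.prime_iff_prime_int.1 hq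
  rcases hqp.dvd_or_dvd hd with h | h
  · exact hGq (by exact_mod_cast h)
  · have h0 : (A : ℤ) - A' = 0 := by
      refine Int.eq_zero_of_abs_lt_dvd h ?_
      rw [abs_lt]
      constructor <;> omega
    omega

theorem bq_card (H q : ℕ) (hq : q.Prime) {P : ℕ} (z : Fin (P + 1) → ℤ)
    (hz : ∀ j, BQ H q (z j)) (hne : ∀ j j', j ≠ j' → ¬ (q : ℤ) ∣ z j - z j') :
    P + 1 ≤ (2 * H + 1) ^ 2 := by
  choose s s' h1 h2 h3 h4 using hz
  have hqp : Prime (q : ℤ) := Nat.prime_iff_prime_int.1 hq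
  have hmem : ∀ j ∈ (Finset.univ : Finset (Fin (P + 1))), (s j, s' j) ∈
      Finset.Icc (-(H : ℤ)) H ×ˢ Finset.Icc (-(H : ℤ)) H := by
    intro j _
    rw [Finset.mem_product, Finset.mem_Icc, Finset.mem_Icc]
    exact ⟨abs_le.1 (h1 j), abs_le.1 (h2 j)⟩
  have hinj : Set.InjOn (fun j => (s j, s' j)) (Finset.univ : Finset (Fin (P + 1))) := by
    intro j _ k _ hjk
    have e1 : s j = s k := congrArg Prod.fst hjk
    have e2 : s' j = s' k := congrArg Prod.snd hjk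
    by_contra hne'
    have h5 : (q : ℤ) ∣ s' j * (z j - z k) := by
      have h6 := dvd_sub (h4 k) (h4 j)
      rw [← e1, ← e2] at h6
      have h7 : s j - s' j * z k - (s j - s' j * z j) = s' j * (z j - z k) := by ring
      rwa [h7] at h6
    rcases hqp.dvd_or_dvd h5 with h | h
    · exact h3 j h
    · exact hne j k hne' h
  have hc := Finset.card_le_card_of_injOn _ hmem hinj
  rw [Finset.card_univ, Fintype.card_fin, Finset.card_product, Int.card_Icc] at hc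
  have h5 : ((H : ℤ) + 1 - -(H : ℤ)).toNat = 2 * H + 1 := by omega
  rw [h5] at hc
  rw [pow_two]
  exact hc

end Pool.Agent.H72.BE
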