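import Pool.Agent.H72.BE.Sep
import Pool.Agent.H72.BE.Cova

/-!
# The module of the multipliers (MP_187c26_nt, Theorem VR+)

Model (r = 1, A = Q): `Pool/Agent/H72/BD/Lat.lean`.

`Lat h c n` = the `g ∈ (𝓞 A)^(Box n)` with `∑ a, g a x ^ a ∈ den c`; `Psi h c n` = the matrix over `A` with rows `co (x ^ a c_i)`.

`lat_index`: `Lat` = comap of `den c` under `pe`, `range pe ≤ zx` (`mon x a ∈ zx`, `smul_mem`): `AddSubgroup.index_comap`,
`relIndex_le_of_le_right` (see BD/Lat.lean).
`psi_vecMul`: linearity of `co`. `psi_int`: `pe g * c_i ∈ zx` by definition of `den`.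
`fm_psi`: `fin_minor` for `L = Lat h c n`, `Y = Psi h c n`.
`wm_psi`: `uu_mon_mul`. `prod_rw`: pair `a` with the reflected exponent `n - 1 - a` (`Fin.rev` in each coordinate):
`rw a * rw (n - 1 - a) = rw (n - 1) ≤ ∏ i, ρ_i ^ n_i`.
`gdt_psi`: rows multiplied by `rw (bv a) > 0`. `minor_psi`: `wm` at `J` = `diag (rw (bv a)) * sm_J`, columns of `wm` carry `rw (vl (J k).2)`.
`md_inj`: `a i < n i ≤ m i`.
-/

set_option autoImplicit false

open MvPolynomial NumberField

namespace Pool.Agent.H72.BE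

variable {r : ℕ} {b m : Fin r → ℕ} [∀ i, NeZero (m i)] {A F : Type} [Field A] [NumberField A]
  [Field F] [NumberField F] [Algebra A F] {x : Fin r → F} {ι : Type}

/-- The element `∑ a, g a x ^ a`. -/
noncomputable def pe (A : Type) [Field A] [NumberField A] {F : Type} [Field F] [Algebra A F]
    (x : Fin r → F) (n : Fin r → ℕ) : (Box n → 𝓞 A) →+ F where
  toFun g := ∑ a, algebraMap A F ((g a : 𝓞 A) : A) * mon x (bv a)
  map_zero' := by simp
  map_add' g g' := by simp [add_mul, Finset.sum_add_distrib]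

/-- The `g` with `∑ a, g a x ^ a ∈ den c`. -/
def Lat (h : Rad b m A F x) (c : ι → F) (n : Fin r → ℕ) : Submodule (𝓞 A) (Box n → 𝓞 A) where
  carrier := {g | pe A x n g ∈ h.den c}
  zero_mem' := by
    show pe A x n 0 ∈ h.den c
    rw [map_zero]
    exact zero_mem _
  add_mem' := fun {g g'} hg hg' => by
    show pe A x n (g + g') ∈ h.den c
    rw [map_add]
    exact add_mem hg hg'
  smul_mem' := fun s g hg => by
    have h1 : pe A x n (s • g) = algebraMap A F (s : A) * pe A x n g := by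
      show ∑ a, algebraMap A F (((s • g) a : 𝓞 A) : A) * mon x (bv a) =
        algebraMap A F (s : A) * ∑ a, algebraMap A F ((g a : 𝓞 A) : A) * mon x (bv a)
      rw [Finset.mul_sum]
      refine Finset.sum_congr rfl fun a _ => ?_
      show algebraMap A F ((s : A) * ((g a : 𝓞 A) : A)) * mon x (bv a) = _
      rw [map_mul, mul_assoc]
    show pe A x n (s • g) ∈ h.den c
    rw [h1]
    exact ⟨h.smul_mem _ (RingOfIntegers.isIntegral_coe s) _ hg.1, fun i => by
      rw [mul_assoc]
      exact h.smul_mem _ (RingOfIntegers.isIntegral_coe s) _ (hg.2 i)⟩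

/-- The matrix with the rows `co (x ^ a c_i)`. -/
noncomputable def Psi (h : Rad b m A F x) (c : ι → F) (n : Fin r → ℕ) :
    Matrix (Box n) (ι × Gm m) A :=
  Matrix.of fun a w => h.co (mon x (bv a) * c w.1) w.2

/-- The weights of the columns. -/
noncomputable def wc (b m : Fin r → ℕ) {ι : Type} (w : ι × Gm m) : ℝ := rw b m (vl w.2)

/-- The shifts of the box. -/
def mb (m n : Fin r → ℕ) (a : Box n) : Gm m := md m (bv a)

theorem mb_inj (n : Fin r → ℕ) (hn : ∀ i, n i ≤ m i) : Function.Injective (mb m n) := by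
  intro a a' h
  funext i
  have h1 := congrArg ZMod.val (congrFun h i)
  unfold mb md bv at h1
  rw [ZMod.val_natCast_of_lt ((a i).2.trans_le (hn i)),
    ZMod.val_natCast_of_lt ((a' i).2.trans_le (hn i))] at h1
  exact Fin.ext h1

theorem one_le_wc (h : Rad b m A F x) (w : ι × Gm m) : 1 ≤ wc b m w := one_le_rw h.two _

theorem lat_index (h : Rad b m A F x) (c : ι → F) (n : Fin r → ℕ)
    (h0 : (h.den c).relIndex h.zx ≠ 0) :
    (Lat h c n).toAddSubgroup.index ≠ 0 ∧
      (Lat h c n).toAddSubgroup.index ≤ (h.den c).relIndex h.zx := by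
  have hr : (pe A x n).range ≤ h.zx := by
    rintro _ ⟨g, rfl⟩
    show (∑ a, algebraMap A F ((g a : 𝓞 A) : A) * mon x (bv a)) ∈ h.zx
    refine sum_mem fun a _ => h.smul_mem _ (RingOfIntegers.isIntegral_coe (g a)) _ ?_
    have h1 := h.mon_mul_mem (bv a) 1 h.one_mem
    rwa [mul_one] at h1
  have h2 : (Lat h c n).toAddSubgroup = (h.den c).comap (pe A x n) := rfl
  rw [h2, AddSubgroup.index_comap]
  exact ⟨fun h3 => h0 (AddSubgroup.relIndex_eq_zero_of_le_right hr h3),
    AddSubgroup.relIndex_le_of_le_right hr h0⟩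

theorem psi_vecMul (h : Rad b m A F x) (c : ι → F) (n : Fin r → ℕ) (g : Box n → A)
    (w : ι × Gm m) :
    Matrix.vecMul g (Psi h c n) w =
      h.co ((∑ a, algebraMap A F (g a) * mon x (bv a)) * c w.1) w.2 := by
  rw [Finset.sum_mul, map_sum, Finset.sum_apply]
  simp only [Matrix.vecMul, dotProduct, Psi, Matrix.of_apply]
  refine Finset.sum_congr rfl fun a _ => ?_
  rw [mul_assoc, ← Algebra.smul_def, map_smul, Pi.smul_apply, smul_eq_mul]

theorem psi_int (h : Rad b m A F x) (c : ι → F) (n : Fin r → ℕ) (g : Box n → 𝓞 A)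
    (hg : g ∈ Lat h c n) (w : ι × Gm m) :
    IsIntegral ℤ (Matrix.vecMul (fun k => ((g k : 𝓞 A) : A)) (Psi h c n) w) := by
  rw [psi_vecMul]
  exact hg.2 w.1 w.2

theorem fm_psi [Fintype ι] (h : Rad b m A F x) (c : ι → F) (n : Fin r → ℕ)
    (h0 : (h.den c).relIndex h.zx ≠ 0) : fm (Psi h c n) ≤ (h.den c).relIndex h.zx := by
  obtain ⟨h1, h2⟩ := lat_index h c n h0
  refine (fin_minor (Lat h c n) h1 (Psi h c n) fun g hg o => psi_int h c n g hg o).trans ?_
  exact_mod_cast h2

theorem wm_psi (h : Rad b m A F x) (c : ι → F) (n : Fin r → ℕ) (t : A →+* ℂ) (a : Box n)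
    (w : ι × Gm m) :
    wm (wc b m) t (Psi h c n) a w =
      (rw b m (bv a) : ℂ) * sm (fun i => h.uu t (c i)) (mb m n) a w := by
  exact h.uu_mon_mul t (c w.1) (bv a) w.2

theorem prod_rw (hb : ∀ i, 2 ≤ b i) (n : Fin r → ℕ) :
    (∏ a : Box n, rw b m (bv a)) ^ 2 ≤ (∏ i, rho b m i ^ n i) ^ (∏ i, n i) := by
  have hcard : Fintype.card (Box n) = ∏ i, n i := by
    rw [Fintype.card_pi]
    exact Finset.prod_congr rfl fun i _ => Fintype.card_fin _
  have hrev : ∏ a : Box n, rw b m (bv (fun i => Fin.rev (a i))) = ∏ a : Box n, rw b m (bv a) :=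
    Equiv.prod_comp (Equiv.piCongrRight fun i => (Fin.revPerm : Equiv.Perm (Fin (n i))))
      (fun a : Box n => rw b m (bv a))
  have h1 : (∏ a : Box n, rw b m (bv a)) ^ 2 =
      ∏ a : Box n, (rw b m (bv a) * rw b m (bv (fun i => Fin.rev (a i)))) := by
    rw [Finset.prod_mul_distrib, hrev, sq]
  rw [h1, ← hcard, ← Finset.card_univ, ← Finset.prod_const]
  refine Finset.prod_le_prod (fun a _ => ?_) fun a _ => ?_
  · exact mul_nonneg (zero_le_one.trans (one_le_rw hb _)) (zero_le_one.trans (one_le_rw hb _))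
  · rw [← rw_add]
    unfold rw mon
    refine Finset.prod_le_prod (fun i _ => pow_nonneg (rho_pos hb i).le _) fun i _ => ?_
    refine pow_le_pow_right₀ (one_le_rho hb i) ?_
    show ((a i : ℕ) + (Fin.rev (a i) : ℕ)) ≤ n i
    rw [Fin.val_rev]
    have := (a i).2
    omega

theorem gdt_psi [Fintype ι] (h : Rad b m A F x) (c : ι → F) (n : Fin r → ℕ) (t : A →+* ℂ) :
    gdt (wm (wc b m) t (Psi h c n)) = (∏ a : Box n, rw b m (bv a)) ^ 2 *
      gdt (sm (fun i => h.uu t (c i)) (mb m n)) := by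
  obtain ⟨M, hM⟩ : ∃ M, M = sm (fun i => h.uu t (c i)) (mb m n) := ⟨_, rfl⟩
  have h1 : wm (wc b m) t (Psi h c n) =
      Matrix.diagonal (fun a : Box n => (rw b m (bv a) : ℂ)) * M := by
    ext a w
    rw [Matrix.diagonal_mul, hM]
    exact wm_psi h c n t a w
  have h2 : (Matrix.diagonal (fun a : Box n => (rw b m (bv a) : ℂ)) * M) *
      (Matrix.diagonal (fun a : Box n => (rw b m (bv a) : ℂ)) * M).conjTranspose =
      Matrix.diagonal (fun a : Box n => (rw b m (bv a) : ℂ)) * (M * M.conjTranspose) *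
        Matrix.diagonal (fun a : Box n => (rw b m (bv a) : ℂ)) := by
    rw [Matrix.conjTranspose_mul, Matrix.diagonal_conjTranspose]
    have h3 : star (fun a : Box n => (rw b m (bv a) : ℂ)) = fun a : Box n => (rw b m (bv a) : ℂ) := by
      funext a
      exact Complex.conj_ofReal _
    rw [h3]
    simp only [Matrix.mul_assoc]
  rw [← hM, h1]
  unfold gdt
  rw [h2, Matrix.det_mul, Matrix.det_mul, Matrix.det_diagonal, ← Complex.ofReal_prod]
  have h4 : ((∏ a : Box n, rw b m (bv a) : ℝ) : ℂ) * (M * M.conjTranspose).det *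
      ((∏ a : Box n, rw b m (bv a) : ℝ) : ℂ) =
      (((∏ a : Box n, rw b m (bv a)) ^ 2 : ℝ) : ℂ) * (M * M.conjTranspose).det := by
    push_cast
    ring
  rw [h4, Complex.re_ofReal_mul]

theorem minor_psi (h : Rad b m A F x) (c : ι → F) (n : Fin r → ℕ) (t : A →+* ℂ)
    (J : Box n → ι × Gm m) :
    t ((Psi h c n).submatrix id J).det * ∏ a, ((wc b m (J a) : ℝ) : ℂ) =
      ((∏ a : Box n, rw b m (bv a) : ℝ) : ℂ) *
        ((sm (fun i => h.uu t (c i)) (mb m n)).submatrix id J).det := by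
  have h1 : t ((Psi h c n).submatrix id J).det =
      (Matrix.of fun a k : Box n => t ((Psi h c n) a (J k))).det := by
    rw [RingHom.map_det]
    rfl
  have h2 : (Matrix.of fun a k : Box n => ((wc b m (J k) : ℝ) : ℂ) *
      (Matrix.of fun a k : Box n => t ((Psi h c n) a (J k))) a k).det =
      (∏ a : Box n, ((wc b m (J a) : ℝ) : ℂ)) *
        (Matrix.of fun a k : Box n => t ((Psi h c n) a (J k))).det :=
    Matrix.det_mul_row (fun k : Box n => ((wc b m (J k) : ℝ) : ℂ)) _
  have h3 : (Matrix.of fun a k : Box n => ((wc b m (J k) : ℝ) : ℂ) *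
      (Matrix.of fun a k : Box n => t ((Psi h c n) a (J k))) a k) =
      Matrix.of fun a k : Box n => ((rw b m (bv a) : ℝ) : ℂ) *
        ((sm (fun i => h.uu t (c i)) (mb m n)).submatrix id J) a k := by
    ext a k
    have h4 := wm_psi h c n t a (J k)
    simp only [Matrix.of_apply, Matrix.submatrix_apply, id_eq]
    rw [← h4, mul_comm]
    rfl
  rw [h1, mul_comm, ← h2, h3, Matrix.det_mul_column, Complex.ofReal_prod]

theorem minor_zero (h : Rad b m A F x) (c : ι → F) (n : Fin r → ℕ) (t : A →+* ℂ)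
    (J : Box n → ι × Gm m) :
    ((Psi h c n).submatrix id J).det = 0 ↔
      ((sm (fun i => h.uu t (c i)) (mb m n)).submatrix id J).det = 0 := by
  have h1 := minor_psi h c n t J
  have h2 : (∏ a, ((wc b m (J a) : ℝ) : ℂ)) ≠ 0 := by
    refine Finset.prod_ne_zero_iff.2 fun a _ => ?_
    have h3 := one_le_wc h (J a)
    exact Complex.ofReal_ne_zero.2 (by linarith)
  have h4 : ((∏ a : Box n, rw b m (bv a) : ℝ) : ℂ) ≠ 0 := by
    rw [Complex.ofReal_ne_zero]
    refine Finset.prod_ne_zero_iff.2 fun a _ => ?_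
    have h5 := one_le_rw (b := b) (m := m) h.two (bv a)
    linarith
  constructor
  · intro h5
    rw [h5, map_zero, zero_mul] at h1
    exact (mul_eq_zero.1 h1.symm).resolve_left h4
  · intro h5
    rw [h5, mul_zero] at h1
    have h6 := (mul_eq_zero.1 h1).resolve_right h2
    exact (map_eq_zero t).1 h6

end Pool.Agent.H72.BE
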