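import Pool.Agent.H72.BE.Toe
import Pool.Agent.H4.RR.Hadamard

/-!
# The energy window lemma, abstract form (MP_187c26_nt, Theorem VR+, S1)

Model for (1), (2), (4): `Pool/Agent/H72/BD/Wl.lean` (real case, one variable; factorisation `R = C O`, `O Oᴴ = 1`).

DATA. `T` = finite nonempty set (embeddings), `G = Gm m`, `u t : ι → G → ℂ`, rows `sm (u t) k`, `k : Box n → G`, `n = Λ w`,
`N = |Box n| = ∏ n_i`. For each `t`: `R = sm (u t) k = C O`, `O Oᴴ = 1` (`gdt > 0`), `p^t_x = ∑ k, |O k x| ^ 2` (`x ∈ ι × G`),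
`p = mean of p^t over t`.
(1) `0 ≤ p^t ≤ 1`, `∑ x, p^t_x = N`.
(2) HADAMARD: `|minor_J^t| ^ 2 ≤ gdt^t ∏ k, p^t_(J k)`. So for `J` with all minors nonzero, by `hmin`:
`∏_t ∏ k, p^t_(J k) ≥ D ^ (-N |T|)`, and `∏_t p^t_x ≤ p_x ^ |T|` (AM–GM), so `∏ k, p_(J k) ≥ D ^ (-N)`.
(3) PARTIAL FAMILIES. Fix `t0`. Independence of columns at `t0` (vectors `(sm (u t0) k)(·, x) ∈ ℂ^(Box n)`). If `J'` is an
independent set of columns, extend it to a basis `J` (rank `N` since `gdt > 0`): `minor_J^(t0) ≠ 0`, hence all `minor_J^t ≠ 0` (`hall`);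
as `p ≤ 1`: `∏_(x ∈ J') p_x ≥ D ^ (-N)`. So an independent set of columns with all `p_x < D ^ (-3)` has at most `N / 3` elements
(`D ≥ 2`).
(4) VARIATION. For each coordinate `i`: `V^t` = row space, `U_i` = cyclic shift by `e_i` (`Pi.single i 1`), the rows `k` with `k_i ≥ 1`
are in `V^t ∩ U_i V^t`: a common subspace `V₀` of dimension `N - N / n_i`. `p_(U_i V)(x) = p_V (x - e_i)`. As in BD/Wl.lean:
`∑ x, max 0 (p^t_x - p^t_(x - e_i)) ≤ N / n_i`; the sum of the differences is `0`, so `∑ x, |p_x - p_(x - e_i)| ≤ 2 N / n_i` (mean over `t`).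
(5) BOXES. Cut `{0, …, m_i - 1}` into intervals of lengths in `[w_i, 2 w_i)` (`⌊m_i / w_i⌋` intervals `[c w_i, (c + 1) w_i)`, the last one
up to `m_i`); products: boxes `Q` of `G`, `∏ w_i ≤ |Q|`. For `(i', Q)`: mean `p_Q` of `p_(i', l)`, `l ∈ Q`. GOOD: `p_Q ≥ τ = 1 / (2 D ^ 3)`. The
number of good pairs is at most `N / (τ ∏ w_i) = 2 D ^ 3 Λ ^ r` (`∑ p = N`).
(6) POINCARÉ: `∑_(l ∈ Q) |p_l - p_Q| ≤ (1 / |Q|) ∑_(l, l' ∈ Q) |p_l - p_l'| ≤ ∑ i, 2 w_i ∑_(l, l - e_i ∈ Q) |p_l - p_(l - e_i)|` (change the coordinates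
one after the other; each edge is used at most (side length) × |Q| times for ordered pairs). So
`∑_(i', Q) ∑_(l ∈ Q) |p_l - p_Q| ≤ ∑ i, 2 w_i 2 N / n_i = 4 r N / Λ`.
(7) BAD COLUMNS: `(i', l)` in a bad box. Those with `p ≥ 2 τ = D ^ (-3)` have `|p - p_Q| ≥ τ`: at most `4 r N / (Λ τ) = 8 r D ^ 3 N / Λ ≤ N / 3`
of them. Those with `p < D ^ (-3)`: rank at most `N / 3` by (3). So the rank of the bad columns is `≤ 2 N / 3 < N` and every `N × N` minor with
all columns bad vanishes (at `t0`, so at all `t` by `hall`).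
(8) `a` enumerates the corners of the boxes `Q` of the good pairs (repeat one if there are less); the boxes have sides `< 2 w_i`.
-/

set_option autoImplicit false

namespace Pool.Agent.H72.BE

set_option linter.unusedSectionVars false

open Matrix

section lin

open scoped MatrixOrder ComplexOrder

variable {W : Type} [Fintype W] {κ : Type} [Fintype κ] [DecidableEq κ]

/-- An orthonormal factor. -/
private theorem wl_fac (R : Matrix κ W ℂ) (h : (R * Rᴴ).PosDef) :
    ∃ (C : Matrix κ κ ℂ) (O : Matrix κ W ℂ), R = C * O ∧ O * Oᴴ = 1 ∧ IsUnit C.det := by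
  obtain ⟨B, hB⟩ := CStarAlgebra.nonneg_iff_eq_star_mul_self.mp h.posSemidef.nonneg
  rw [star_eq_conjTranspose] at hB
  have hdet : IsUnit B.det := by
    have h1 := h.det_pos
    rw [hB, det_mul, det_conjTranspose] at h1
    refine isUnit_iff_ne_zero.2 fun h2 => ?_
    rw [h2, mul_zero] at h1
    exact lt_irrefl _ h1
  have hdet' : IsUnit (Bᴴ).det := by
    rw [det_conjTranspose]
    exact hdet.star
  refine ⟨Bᴴ, (Bᴴ)⁻¹ * R, ?_, ?_, hdet'⟩
  · rw [mul_nonsing_inv_cancel_left _ _ hdet']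
  · rw [conjTranspose_mul, Matrix.mul_assoc, ← Matrix.mul_assoc R, hB, conjTranspose_nonsing_inv,
      conjTranspose_conjTranspose, Matrix.mul_assoc, mul_nonsing_inv _ hdet, Matrix.mul_one,
      nonsing_inv_mul _ hdet']

private theorem wl_pd (R : Matrix κ W ℂ) (h : 0 < gdt R) : (R * Rᴴ).PosDef := by
  have h1 : (R * Rᴴ).PosSemidef := posSemidef_self_mul_conjTranspose R
  rw [h1.posDef_iff_isUnit, isUnit_iff_isUnit_det, isUnit_iff_ne_zero]
  intro h2
  unfold gdt at h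
  rw [h2, Complex.zero_re] at h
  exact lt_irrefl _ h

private theorem wl_row (O : Matrix κ W ℂ) (hO : O * Oᴴ = 1) (j : κ) : ∑ w, ‖O j w‖ ^ 2 = 1 := by
  have h2 := congrFun (congrFun hO j) j
  rw [Matrix.mul_apply, Matrix.one_apply_eq] at h2
  have h3 : ((∑ w, ‖O j w‖ ^ 2 : ℝ) : ℂ) = 1 := by
    rw [← h2]
    push_cast
    refine Finset.sum_congr rfl fun w _ => ?_
    rw [Matrix.conjTranspose_apply, ← Complex.mul_conj']
    rfl
  exact_mod_cast h3

private theorem wl_sum (O : Matrix κ W ℂ) (hO : O * Oᴴ = 1) :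
    ∑ w, ∑ j, ‖O j w‖ ^ 2 = Fintype.card κ := by
  rw [Finset.sum_comm, Finset.sum_congr rfl fun j _ => wl_row O hO j]
  simp

private theorem wl_nrm (O : Matrix κ W ℂ) (hO : O * Oᴴ = 1) (c : κ → ℂ) :
    ∑ w, ‖(c ᵥ* O) w‖ ^ 2 = ∑ j, ‖c j‖ ^ 2 := by
  have h1 : (c ᵥ* O) ⬝ᵥ star (c ᵥ* O) = c ⬝ᵥ star c := by
    rw [star_vecMul, Matrix.dotProduct_mulVec, Matrix.vecMul_vecMul, hO, Matrix.vecMul_one]
  have h2 : ∀ {X : Type} [Fintype X] (f : X → ℂ), f ⬝ᵥ star f = ((∑ x, ‖f x‖ ^ 2 : ℝ) : ℂ) := by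
    intro X _ f
    simp only [dotProduct]
    push_cast
    refine Finset.sum_congr rfl fun x _ => ?_
    rw [← Complex.mul_conj']
    rfl
  rw [h2, h2] at h1
  exact_mod_cast h1

private theorem wl_cs (O : Matrix κ W ℂ) (hO : O * Oᴴ = 1) (c : κ → ℂ) (w : W) :
    ‖(c ᵥ* O) w‖ ^ 2 ≤ (∑ w', ‖(c ᵥ* O) w'‖ ^ 2) * ∑ j, ‖O j w‖ ^ 2 := by
  rw [wl_nrm O hO]
  have h1 := Finset.sum_mul_sq_le_sq_mul_sq Finset.univ (fun j => ‖c j‖) (fun j => ‖O j w‖)
  refine le_trans ?_ h1
  have h2 : ‖(c ᵥ* O) w‖ ≤ ∑ j, ‖c j‖ * ‖O j w‖ := by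
    simp only [Matrix.vecMul, dotProduct]
    refine (norm_sum_le _ _).trans (Finset.sum_le_sum fun j _ => ?_)
    rw [norm_mul]
  gcongr

private theorem wl_diag (O : Matrix κ W ℂ) (w : W) :
    ((fun j => star (O j w)) ᵥ* O) w = ((∑ j, ‖O j w‖ ^ 2 : ℝ) : ℂ) := by
  simp only [Matrix.vecMul, dotProduct]
  push_cast
  refine Finset.sum_congr rfl fun j _ => ?_
  rw [← Complex.conj_mul']
  rfl

private theorem wl_le (O : Matrix κ W ℂ) (hO : O * Oᴴ = 1) (w : W) : ∑ j, ‖O j w‖ ^ 2 ≤ 1 := by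
  have h1 := wl_nrm O hO fun j => star (O j w)
  have h2 : ‖((fun j => star (O j w)) ᵥ* O) w‖ ^ 2 ≤
      ∑ w', ‖((fun j => star (O j w)) ᵥ* O) w'‖ ^ 2 :=
    Finset.single_le_sum (f := fun w' => ‖((fun j => star (O j w)) ᵥ* O) w'‖ ^ 2)
      (fun _ _ => sq_nonneg _) (Finset.mem_univ w)
  have h0 : 0 ≤ ∑ j, ‖O j w‖ ^ 2 := Finset.sum_nonneg fun j _ => sq_nonneg _
  rw [h1, wl_diag, Complex.norm_real, Real.norm_of_nonneg h0] at h2
  simp only [norm_star] at h2
  rcases h0.eq_or_lt with h3 | h3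
  · rw [← h3]
    exact zero_le_one
  · rw [pow_two] at h2
    nlinarith

private theorem wl_mono {κ₀ : Type} [Fintype κ₀] [DecidableEq κ₀] (O : Matrix κ W ℂ)
    (hO : O * Oᴴ = 1) (O₀ : Matrix κ₀ W ℂ)
    (h0 : O₀ * O₀ᴴ = 1) (σ : W ≃ W)
    (h : ∀ a : κ₀ → ℂ, ∃ c : κ → ℂ, ∀ w, (c ᵥ* O) (σ w) = (a ᵥ* O₀) w) (w : W) :
    ∑ j, ‖O₀ j w‖ ^ 2 ≤ ∑ j, ‖O j (σ w)‖ ^ 2 := by
  obtain ⟨c, hc⟩ := h fun j => star (O₀ j w)
  have h1 := wl_cs O hO c (σ w)
  have h3 : 0 ≤ ∑ j, ‖O₀ j w‖ ^ 2 := Finset.sum_nonneg fun j _ => sq_nonneg _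
  rw [← Equiv.sum_comp σ, hc, wl_diag, Complex.norm_real, Real.norm_of_nonneg h3] at h1
  simp only [hc] at h1
  rw [wl_nrm O₀ h0] at h1
  simp only [norm_star] at h1
  rcases h3.eq_or_lt with h4 | h4
  · rw [← h4]
    exact Finset.sum_nonneg fun j _ => sq_nonneg _
  · rw [pow_two] at h1
    exact le_of_mul_le_mul_left h1 h4

private theorem wl_minor (R : Matrix κ W ℂ) (C : Matrix κ κ ℂ)
    (O : Matrix κ W ℂ) (hR : R = C * O) (hO : O * Oᴴ = 1) (J : κ → W) :
    ‖(R.submatrix id J).det‖ ^ 2 ≤ gdt R * ∏ k, ∑ j, ‖O j (J k)‖ ^ 2 := by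
  have h1 : R.submatrix id J = C * O.submatrix id J := by
    rw [hR]
    ext i k
    rfl
  have h2 : gdt R = ‖C.det‖ ^ 2 := by
    unfold gdt
    rw [hR, conjTranspose_mul, Matrix.mul_assoc, ← Matrix.mul_assoc O, hO, Matrix.one_mul,
      det_mul, det_conjTranspose]
    have h3 : C.det * star C.det = ((‖C.det‖ ^ 2 : ℝ) : ℂ) := by
      push_cast
      rw [← Complex.mul_conj']
      rfl
    rw [h3, Complex.ofReal_re]
  rw [h1, h2, det_mul, norm_mul, mul_pow]
  refine mul_le_mul_of_nonneg_left ?_ (sq_nonneg _)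
  have h3 := Pool.Agent.H4.RR.hadamard (O.submatrix id J)ᵀ
  rw [det_transpose] at h3
  exact h3

/-- The energies of one matrix. -/
private theorem wl_one (R : Matrix κ W ℂ) (h : 0 < gdt R) : ∃ p : W → ℝ, (∀ x, 0 ≤ p x) ∧
    (∀ x, p x ≤ 1) ∧ ∑ x, p x = Fintype.card κ ∧
    (∀ J : κ → W, ‖(R.submatrix id J).det‖ ^ 2 ≤ gdt R * ∏ k, p (J k)) ∧
    ∀ (σ : W ≃ W) (κ₀ : Type) [Fintype κ₀] (f g : κ₀ → κ), Function.Injective f →
      (∀ a x, R (g a) (σ x) = R (f a) x) →
      ∑ x, |p x - p (σ x)| ≤ 2 * ((Fintype.card κ : ℝ) - Fintype.card κ₀) := by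
  classical
  have hpd := wl_pd R h
  obtain ⟨C, O, hRC, hO, hC⟩ := wl_fac R hpd
  refine ⟨fun x => ∑ j, ‖O j x‖ ^ 2, fun x => Finset.sum_nonneg fun j _ => sq_nonneg _,
    wl_le O hO, wl_sum O hO, wl_minor R C O hRC hO, ?_⟩
  intro σ κ₀ _ f g hf hfg
  let R₀ : Matrix κ₀ W ℂ := R.submatrix f id
  have hpd0 : (R₀ * R₀ᴴ).PosDef := by
    have h1 : R₀ * R₀ᴴ = (R * Rᴴ).submatrix f f := by
      ext i j
      rfl
    rw [h1]
    exact hpd.submatrix hf
  obtain ⟨C₀, O₀, hRC0, hO0, hC0⟩ := wl_fac R₀ hpd0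
  have hO0R : ∀ a : κ₀ → ℂ, ∃ e : κ₀ → ℂ, a ᵥ* O₀ = e ᵥ* R₀ := by
    intro a
    refine ⟨a ᵥ* C₀⁻¹, ?_⟩
    rw [hRC0, Matrix.vecMul_vecMul, nonsing_inv_mul_cancel_left _ _ hC0]
  have key : ∀ (e : κ₀ → ℂ) (g' : κ₀ → κ) (x : W),
      ((fun k => ∑ a, if g' a = k then e a else 0) ᵥ* R) x = ∑ a, e a * R (g' a) x := by
    intro e g' x
    simp only [Matrix.vecMul, dotProduct]
    rw [Finset.sum_congr rfl fun k _ => Finset.sum_mul _ _ _, Finset.sum_comm]
    refine Finset.sum_congr rfl fun a _ => ?_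
    simp only [ite_mul, zero_mul]
    rw [Finset.sum_ite_eq, if_pos (Finset.mem_univ _)]
  have hq1 : ∀ x, ∑ j, ‖O₀ j x‖ ^ 2 ≤ ∑ j, ‖O j x‖ ^ 2 := by
    intro x
    refine wl_mono O hO O₀ hO0 (Equiv.refl _) (fun a => ?_) x
    obtain ⟨e, he⟩ := hO0R a
    refine ⟨(fun k => ∑ a, if f a = k then e a else 0) ᵥ* C, fun w => ?_⟩
    rw [he, Matrix.vecMul_vecMul, ← hRC, Equiv.refl_apply, key]
    simp only [Matrix.vecMul, dotProduct]
    rfl
  have hq2 : ∀ x, ∑ j, ‖O₀ j x‖ ^ 2 ≤ ∑ j, ‖O j (σ x)‖ ^ 2 := by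
    intro x
    refine wl_mono O hO O₀ hO0 σ (fun a => ?_) x
    obtain ⟨e, he⟩ := hO0R a
    refine ⟨(fun k => ∑ a, if g a = k then e a else 0) ᵥ* C, fun w => ?_⟩
    rw [he, Matrix.vecMul_vecMul, ← hRC, key]
    simp only [Matrix.vecMul, dotProduct]
    refine Finset.sum_congr rfl fun a _ => ?_
    rw [hfg]
    rfl
  have hs := wl_sum O hO
  have hs' : ∑ x, ∑ j, ‖O j (σ x)‖ ^ 2 = Fintype.card κ := by
    rw [← hs]
    exact Equiv.sum_comp σ fun x => ∑ j, ‖O j x‖ ^ 2
  have hs0 := wl_sum O₀ hO0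
  calc ∑ x, |∑ j, ‖O j x‖ ^ 2 - ∑ j, ‖O j (σ x)‖ ^ 2|
      ≤ ∑ x, ((∑ j, ‖O j x‖ ^ 2 - ∑ j, ‖O₀ j x‖ ^ 2) +
        (∑ j, ‖O j (σ x)‖ ^ 2 - ∑ j, ‖O₀ j x‖ ^ 2)) := by
        refine Finset.sum_le_sum fun x _ => ?_
        rw [abs_le]
        constructor <;> linarith [hq1 x, hq2 x]
    _ = 2 * ((Fintype.card κ : ℝ) - Fintype.card κ₀) := by
        rw [Finset.sum_add_distrib, Finset.sum_sub_distrib, Finset.sum_sub_distrib, hs, hs', hs0]
        ring

end lin

/-- Inequality of the geometric and the arithmetic mean. -/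
private theorem wl_amgm {T : Type} [Fintype T] [Nonempty T] (z : T → ℝ) (hz : ∀ t, 0 ≤ z t) :
    ∏ t, z t ≤ ((∑ t, z t) / Fintype.card T) ^ Fintype.card T := by
  have hT : (0 : ℝ) < Fintype.card T := by exact_mod_cast Fintype.card_pos
  have h1 := Real.geom_mean_le_arith_mean_weighted Finset.univ (fun _ : T => (1 : ℝ) / Fintype.card T) z
    (fun _ _ => by positivity) (by
      rw [Finset.sum_const, Finset.card_univ, nsmul_eq_mul, mul_one_div_cancel hT.ne'])
    (fun t _ => hz t)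
  have h2 : ∑ t, (1 : ℝ) / Fintype.card T * z t = (∑ t, z t) / Fintype.card T := by
    rw [← Finset.mul_sum]
    ring
  rw [h2] at h1
  have h3 : ∏ t, z t = (∏ t, z t ^ ((1 : ℝ) / Fintype.card T)) ^ Fintype.card T := by
    rw [← Finset.prod_pow]
    refine Finset.prod_congr rfl fun t _ => ?_
    rw [← Real.rpow_natCast, ← Real.rpow_mul (hz t), one_div, inv_mul_cancel₀ hT.ne', Real.rpow_one]
  rw [h3]
  exact pow_le_pow_left₀ (Finset.prod_nonneg fun t _ => Real.rpow_nonneg (hz t) _) h1 _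

/-- The mean energies. -/
private theorem wl_core {W : Type} [Fintype W] {κ : Type} [Fintype κ] [DecidableEq κ] {T : Type}
    [Fintype T] [Nonempty T] (R : T → Matrix κ W ℂ) (D : ℕ) (hpos : ∀ t, 0 < gdt (R t))
    (hall : ∀ (J : κ → W) (t t' : T), ((R t).submatrix id J).det = 0 →
      ((R t').submatrix id J).det = 0)
    (hmin : ∀ J : κ → W, (∃ t, ((R t).submatrix id J).det = 0) ∨
      ∏ t, gdt (R t) ≤ (D : ℝ) ^ (Fintype.card T * Fintype.card κ) *
        ∏ t, ‖((R t).submatrix id J).det‖ ^ 2) :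
    ∃ p : W → ℝ, (∀ x, 0 ≤ p x) ∧ (∀ x, p x ≤ 1) ∧ ∑ x, p x = Fintype.card κ ∧
      (∀ (J : κ → W) (t : T), ((R t).submatrix id J).det ≠ 0 →
        1 ≤ (D : ℝ) ^ Fintype.card κ * ∏ k, p (J k)) ∧
      ∀ (σ : W ≃ W) (κ₀ : Type) [Fintype κ₀] (f g : κ₀ → κ), Function.Injective f →
        (∀ t a x, R t (g a) (σ x) = R t (f a) x) →
        ∑ x, |p x - p (σ x)| ≤ 2 * ((Fintype.card κ : ℝ) - Fintype.card κ₀) := by
  have hT : (0 : ℝ) < Fintype.card T := by exact_mod_cast Fintype.card_pos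
  have hT0 : Fintype.card T ≠ 0 := Fintype.card_ne_zero
  choose p hp0 hp1 hps hpm hpv using fun t => wl_one (R t) (hpos t)
  refine ⟨fun x => (∑ t, p t x) / Fintype.card T, fun x => ?_, fun x => ?_, ?_, ?_, ?_⟩
  · exact div_nonneg (Finset.sum_nonneg fun t _ => hp0 t x) hT.le
  · rw [div_le_one hT]
    refine (Finset.sum_le_sum fun t _ => hp1 t x).trans (le_of_eq ?_)
    simp
  · rw [← Finset.sum_div, Finset.sum_comm, Finset.sum_congr rfl fun t _ => hps t]
    rw [Finset.sum_const, Finset.card_univ, nsmul_eq_mul, mul_comm, mul_div_assoc, div_self hT.ne',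
      mul_one]
  · intro J t0 hJ
    have hne : ∀ t, ((R t).submatrix id J).det ≠ 0 := fun t h => hJ (hall J t t0 h)
    rcases hmin J with ⟨t, h⟩ | h
    · exact absurd h (hne t)
    have hg : 0 < ∏ t, gdt (R t) := Finset.prod_pos fun t _ => hpos t
    have h1 : ∏ t, ‖((R t).submatrix id J).det‖ ^ 2 ≤
        (∏ t, gdt (R t)) * ∏ k, ((∑ t, p t (J k)) / Fintype.card T) ^ Fintype.card T := by
      calc ∏ t, ‖((R t).submatrix id J).det‖ ^ 2 ≤ ∏ t, (gdt (R t) * ∏ k, p t (J k)) :=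
            Finset.prod_le_prod (fun t _ => sq_nonneg _) fun t _ => hpm t J
        _ = (∏ t, gdt (R t)) * ∏ k, ∏ t, p t (J k) := by
            rw [Finset.prod_mul_distrib, Finset.prod_comm]
        _ ≤ _ := by
            refine mul_le_mul_of_nonneg_left ?_ hg.le
            exact Finset.prod_le_prod (fun k _ => Finset.prod_nonneg fun t _ => hp0 t _)
              fun k _ => wl_amgm _ fun t => hp0 t _
    have h2 : (∏ t, gdt (R t)) * 1 ≤ (∏ t, gdt (R t)) *
        ((D : ℝ) ^ Fintype.card κ * ∏ k, ((∑ t, p t (J k)) / Fintype.card T)) ^ Fintype.card T := by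
      calc (∏ t, gdt (R t)) * 1 = ∏ t, gdt (R t) := mul_one _
        _ ≤ _ := h
        _ ≤ (D : ℝ) ^ (Fintype.card T * Fintype.card κ) * ((∏ t, gdt (R t)) *
            ∏ k, ((∑ t, p t (J k)) / Fintype.card T) ^ Fintype.card T) :=
            mul_le_mul_of_nonneg_left h1 (by positivity)
        _ = _ := by
            rw [mul_pow, Finset.prod_pow, ← pow_mul, mul_comm (Fintype.card κ)]
            ring
    have h3 := le_of_mul_le_mul_left h2 hg
    have h4 : 0 ≤ (D : ℝ) ^ Fintype.card κ * ∏ k, ((∑ t, p t (J k)) / Fintype.card T) := by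
      refine mul_nonneg (by positivity) (Finset.prod_nonneg fun k _ => ?_)
      exact div_nonneg (Finset.sum_nonneg fun t _ => hp0 t _) hT.le
    by_contra h5
    push Not at h5
    exact absurd h3 (not_le.2 (pow_lt_one₀ h4 h5 hT0))
  · intro σ κ₀ _ f g hf hfg
    have h1 : ∀ x, |(∑ t, p t x) / (Fintype.card T : ℝ) - (∑ t, p t (σ x)) / Fintype.card T| ≤
        (∑ t, |p t x - p t (σ x)|) / Fintype.card T := by
      intro x
      rw [← sub_div, ← Finset.sum_sub_distrib, abs_div, abs_of_pos hT]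
      exact div_le_div_of_nonneg_right (Finset.abs_sum_le_sum_abs _ _) hT.le
    refine (Finset.sum_le_sum fun x _ => h1 x).trans ?_
    rw [← Finset.sum_div, Finset.sum_comm, div_le_iff₀ hT]
    refine (Finset.sum_le_sum fun t _ => hpv t σ κ₀ f g hf (hfg t)).trans (le_of_eq ?_)
    rw [Finset.sum_const, Finset.card_univ, nsmul_eq_mul]
    ring

/-- The number of the interval of `z` (intervals of length `w`, the last one is longer). -/
private def wlc (m w : ℕ) (z : ZMod m) : ℕ := min (z.val / w) (m / w - 1)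

private theorem wlc_le {m w : ℕ} (z : ZMod m) : wlc m w z * w ≤ z.val :=
  (Nat.mul_le_mul_right _ (min_le_left _ _)).trans (Nat.div_mul_le_self _ _)

private theorem wlc_lt {m w : ℕ} [NeZero m] (hw : 1 ≤ w) (hwm : w ≤ m) (z : ZMod m) :
    z.val < wlc m w z * w + 2 * w := by
  unfold wlc
  rcases min_cases (z.val / w) (m / w - 1) with ⟨h, _⟩ | ⟨h, _⟩ <;> rw [h]
  · have := Nat.lt_div_mul_add (a := z.val) (b := w) (by omega)
    omega
  · have h1 := z.val_lt
    have h2 := Nat.lt_div_mul_add (a := m) (b := w) (by omega)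
    have h3 : 1 ≤ m / w := Nat.div_pos hwm hw
    obtain ⟨k, hk⟩ : ∃ k, m / w = k + 1 := ⟨m / w - 1, by omega⟩
    rw [hk] at h2 ⊢
    rw [Nat.add_sub_cancel]
    rw [Nat.add_mul, one_mul] at h2
    omega

private theorem wlc_mono {m w : ℕ} {y y' : ZMod m} (h : y.val ≤ y'.val) :
    wlc m w y ≤ wlc m w y' := min_le_min_right _ (Nat.div_le_div_right h)

/-- The interval of `z`. -/
private def wls (m w : ℕ) [NeZero m] (z : ZMod m) : Finset (ZMod m) :=
  Finset.univ.filter fun y => wlc m w y = wlc m w z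

private theorem mem_wls {m w : ℕ} [NeZero m] {z y : ZMod m} :
    y ∈ wls m w z ↔ wlc m w y = wlc m w z := by
  unfold wls
  rw [Finset.mem_filter]
  exact ⟨fun h => h.2, fun h => ⟨Finset.mem_univ _, h⟩⟩

private theorem wls_eq {m w : ℕ} [NeZero m] {z y : ZMod m} (h : y ∈ wls m w z) :
    wls m w y = wls m w z := by
  ext x
  rw [mem_wls, mem_wls, mem_wls.1 h]

private theorem wls_le {m w : ℕ} [NeZero m] (hw : 1 ≤ w) (hwm : w ≤ m) (z : ZMod m) :
    (wls m w z).card ≤ 2 * w := by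
  have h1 : (Finset.Ico (wlc m w z * w) (wlc m w z * w + 2 * w)).card = 2 * w := by
    rw [Nat.card_Ico, Nat.add_sub_cancel_left]
  rw [← h1]
  refine Finset.card_le_card_of_injOn ZMod.val (fun y hy => ?_) (ZMod.val_injective m).injOn
  have h2 := mem_wls.1 (Finset.mem_coe.1 hy)
  rw [Finset.mem_coe, Finset.mem_Ico, ← h2]
  exact ⟨wlc_le y, wlc_lt hw hwm y⟩

private theorem le_wls {m w : ℕ} [NeZero m] (hw : 1 ≤ w) (hwm : w ≤ m) (z : ZMod m) :
    w ≤ (wls m w z).card := by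
  have h3 : 1 ≤ m / w := Nat.div_pos hwm hw
  have hc : wlc m w z + 1 ≤ m / w := by
    have : wlc m w z ≤ m / w - 1 := min_le_right _ _
    omega
  have hlt : ∀ v < w, wlc m w z * w + v < m := by
    intro v hv
    have h1 : (wlc m w z + 1) * w ≤ m / w * w := Nat.mul_le_mul_right _ hc
    have h2 := Nat.div_mul_le_self m w
    rw [Nat.add_mul, one_mul] at h1
    omega
  have hval : ∀ v < w, ((wlc m w z * w + v : ℕ) : ZMod m).val = wlc m w z * w + v := by
    intro v hv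
    exact ZMod.val_cast_of_lt (hlt v hv)
  rw [← Finset.card_range w]
  refine Finset.card_le_card_of_injOn (fun v => ((wlc m w z * w + v : ℕ) : ZMod m)) ?_ ?_
  · intro v hv
    have hv' : v < w := Finset.mem_range.1 (Finset.mem_coe.1 hv)
    rw [Finset.mem_coe, Finset.card_range, mem_wls]
    have h1 : (wlc m w z * w + v) / w = wlc m w z := by
      rw [mul_comm, Nat.mul_add_div (by omega), Nat.div_eq_of_lt hv', add_zero]
    have h2 : wlc m w ((wlc m w z * w + v : ℕ) : ZMod m) =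
        min (((wlc m w z * w + v : ℕ) : ZMod m).val / w) (m / w - 1) := rfl
    rw [h2, hval v hv', h1]
    omega
  · intro v hv v' hv' h
    have h1 := congrArg ZMod.val h
    simp only at h1
    rw [hval v (Finset.mem_range.1 (Finset.mem_coe.1 hv)),
      hval v' (Finset.mem_range.1 (Finset.mem_coe.1 hv'))] at h1
    omega

/-- Telescoping in an interval. -/
private theorem wlc_tel {m w : ℕ} [NeZero m] (F : ZMod m → ℝ) (z z' : ZMod m)
    (h : z' ∈ wls m w z) : |F z - F z'| ≤ ∑ y ∈ wls m w z, |F y - F (y - 1)| := by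
  classical
  wlog hle : z.val ≤ z'.val generalizing z z' with H
  · have h1 : z ∈ wls m w z' := mem_wls.2 (mem_wls.1 h).symm
    have h2 := H z' z h1 (le_of_not_ge hle)
    rw [abs_sub_comm, ← wls_eq h]
    exact h2
  have hz : ((z.val : ℕ) : ZMod m) = z := ZMod.natCast_zmod_val z
  have hz' : ((z'.val : ℕ) : ZMod m) = z' := ZMod.natCast_zmod_val z'
  have e := Finset.sum_Ico_sub (fun v : ℕ => F (v : ZMod m)) hle
  rw [hz, hz'] at e
  rw [abs_sub_comm, ← e]
  refine (Finset.abs_sum_le_sum_abs _ _).trans ?_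
  have hinj : Set.InjOn (fun v : ℕ => ((v + 1 : ℕ) : ZMod m)) (Finset.Ico z.val z'.val) := by
    intro v hv v' hv' hvv
    have h1 := congrArg ZMod.val hvv
    have h2 := (Finset.mem_Ico.1 (Finset.mem_coe.1 hv)).2
    have h3 := (Finset.mem_Ico.1 (Finset.mem_coe.1 hv')).2
    have h4 := z'.val_lt
    simp only at h1
    rw [ZMod.val_cast_of_lt (by omega), ZMod.val_cast_of_lt (by omega)] at h1
    omega
  have e2 : ∑ v ∈ Finset.Ico z.val z'.val, |F ((v + 1 : ℕ) : ZMod m) - F ((v : ℕ) : ZMod m)| =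
      ∑ y ∈ (Finset.Ico z.val z'.val).image (fun v : ℕ => ((v + 1 : ℕ) : ZMod m)),
        |F y - F (y - 1)| := by
    rw [Finset.sum_image hinj]
    refine Finset.sum_congr rfl fun v _ => ?_
    congr 3
    push_cast
    ring
  rw [e2]
  refine Finset.sum_le_sum_of_subset_of_nonneg ?_ fun _ _ _ => abs_nonneg _
  intro y hy
  rw [Finset.mem_image] at hy
  obtain ⟨v, hv, rfl⟩ := hy
  rw [Finset.mem_Ico] at hv
  have h4 := z'.val_lt
  have h5 : ((v + 1 : ℕ) : ZMod m).val = v + 1 := ZMod.val_cast_of_lt (by omega)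
  rw [mem_wls]
  have h6 : wlc m w ((v + 1 : ℕ) : ZMod m) ≤ wlc m w z' := wlc_mono (by omega)
  have h7 : wlc m w z ≤ wlc m w ((v + 1 : ℕ) : ZMod m) := wlc_mono (by omega)
  have h8 := mem_wls.1 h
  omega

section avg

variable {r : ℕ} (m w : Fin r → ℕ) [∀ i, NeZero (m i)]

/-- The mean over the interval in the coordinate `i`. -/
private noncomputable def wla (i : Fin r) (f : Gm m → ℝ) (l : Gm m) : ℝ :=
  (∑ y ∈ wls (m i) (w i) (l i), f (Function.update l i y)) / ((wls (m i) (w i) (l i)).card : ℝ)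

variable {m w}

private theorem wl_swap (i : Fin r) (H : Gm m → ZMod (m i) → ℝ) :
    ∑ l, ∑ y, H l y = ∑ l, ∑ y, H (Function.update l i y) (l i) := by
  rw [← Fintype.sum_prod_type', ← Fintype.sum_prod_type']
  have he : Function.Involutive (fun x : Gm m × ZMod (m i) => (Function.update x.1 i x.2, x.1 i)) := by
    rintro ⟨l, y⟩
    simp
  exact (Equiv.sum_comp he.toPerm fun x : Gm m × ZMod (m i) => H x.1 x.2).symm

private theorem wl_sw (i : Fin r) (h : Gm m → ℝ) (b : ZMod (m i) → ℝ) :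
    ∑ l : Gm m, ∑ y ∈ wls (m i) (w i) (l i), h (Function.update l i y) * b (l i) =
      ∑ l : Gm m, ∑ y ∈ wls (m i) (w i) (l i), h l * b y := by
  have h1 : ∀ (F : Gm m → ZMod (m i) → ℝ), ∑ l : Gm m, ∑ y ∈ wls (m i) (w i) (l i), F l y =
      ∑ l : Gm m, ∑ y, if wlc (m i) (w i) y = wlc (m i) (w i) (l i) then F l y else 0 := by
    intro F
    refine Finset.sum_congr rfl fun l _ => ?_
    unfold wls
    rw [Finset.sum_filter]
  rw [h1, h1, wl_swap]
  refine Finset.sum_congr rfl fun l _ => Finset.sum_congr rfl fun y _ => ?_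
  simp only [Function.update_self, Function.update_idem, Function.update_eq_self]
  by_cases hc : wlc (m i) (w i) y = wlc (m i) (w i) (l i)
  · rw [if_pos hc, if_pos hc.symm]
  · rw [if_neg hc, if_neg (Ne.symm hc)]

private theorem wls_pos {m w : ℕ} [NeZero m] (z : ZMod m) : (0 : ℝ) < ((wls m w z).card : ℝ) := by
  have : z ∈ wls m w z := mem_wls.2 rfl
  exact_mod_cast Finset.card_pos.2 ⟨z, this⟩

private theorem wla_sum (i : Fin r) (f : Gm m → ℝ) : ∑ l, wla m w i f l = ∑ l, f l := by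
  have h1 := wl_sw (w := w) i f fun z => 1 / ((wls (m i) (w i) z).card : ℝ)
  have h2 : ∑ l, wla m w i f l = ∑ l : Gm m, ∑ y ∈ wls (m i) (w i) (l i),
      f (Function.update l i y) * (1 / ((wls (m i) (w i) (l i)).card : ℝ)) := by
    refine Finset.sum_congr rfl fun l _ => ?_
    unfold wla
    rw [← Finset.sum_mul, mul_one_div]
  rw [h2, h1]
  refine Finset.sum_congr rfl fun l _ => ?_
  have h3 : ∀ y ∈ wls (m i) (w i) (l i), f l * (1 / ((wls (m i) (w i) y).card : ℝ)) =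
      f l * (1 / ((wls (m i) (w i) (l i)).card : ℝ)) := by
    intro y hy
    rw [wls_eq hy]
  rw [Finset.sum_congr rfl h3, Finset.sum_const, nsmul_eq_mul]
  have h4 := wls_pos (w := w i) (l i)
  field_simp

private theorem wla_sub (i : Fin r) (f g : Gm m → ℝ) (l : Gm m) :
    wla m w i f l - wla m w i g l = wla m w i (fun x => f x - g x) l := by
  unfold wla
  rw [Finset.sum_sub_distrib, sub_div]

private theorem wla_abs (i : Fin r) (f : Gm m → ℝ) : ∑ l, |wla m w i f l| ≤ ∑ l, |f l| := by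
  rw [← wla_sum (w := w) i fun l => |f l|]
  refine Finset.sum_le_sum fun l _ => ?_
  unfold wla
  rw [abs_div, abs_of_pos (wls_pos (w := w i) (l i))]
  exact div_le_div_of_nonneg_right (Finset.abs_sum_le_sum_abs _ _) (wls_pos _).le

private theorem wla_nonneg (i : Fin r) (f : Gm m → ℝ) (hf : ∀ l, 0 ≤ f l) (l : Gm m) :
    0 ≤ wla m w i f l :=
  div_nonneg (Finset.sum_nonneg fun _ _ => hf _) (wls_pos (w := w i) _).le

/-- Poincaré inequality in one coordinate. -/
private theorem wla_one (hw : ∀ i, 1 ≤ w i) (hwm : ∀ i, w i ≤ m i) (i : Fin r) (f : Gm m → ℝ) :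
    ∑ l, |f l - wla m w i f l| ≤ 2 * w i * ∑ l : Gm m, |f l - f (l - Pi.single i 1)| := by
  have h1 : ∀ l, |f l - wla m w i f l| ≤ ∑ y ∈ wls (m i) (w i) (l i),
      |f (Function.update l i y) - f (Function.update l i y - Pi.single i 1)| * 1 := by
    intro l
    have hs := wls_pos (w := w i) (l i)
    have h2 : ∀ y ∈ wls (m i) (w i) (l i), |f l - f (Function.update l i y)| ≤
        ∑ y ∈ wls (m i) (w i) (l i),
          |f (Function.update l i y) - f (Function.update l i y - Pi.single i 1)| * 1 := by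
      intro y hy
      have h3 := wlc_tel (w := w i) (fun z => f (Function.update l i z)) (l i) y hy
      simp only [Function.update_eq_self] at h3
      refine h3.trans (le_of_eq ?_)
      refine Finset.sum_congr rfl fun z _ => ?_
      rw [mul_one]
      congr 3
      funext j
      by_cases hj : j = i
      · subst hj
        simp
      · rw [Pi.sub_apply, Function.update_of_ne hj, Function.update_of_ne hj, Pi.single_eq_of_ne hj,
          sub_zero]
    have h3 : f l - wla m w i f l = (∑ y ∈ wls (m i) (w i) (l i), (f l - f (Function.update l i y))) /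
        ((wls (m i) (w i) (l i)).card : ℝ) := by
      unfold wla
      rw [Finset.sum_sub_distrib, Finset.sum_const, nsmul_eq_mul, sub_div, mul_div_assoc,
        mul_comm, div_mul_cancel₀ _ hs.ne']
    rw [h3, abs_div, abs_of_pos hs, div_le_iff₀ hs]
    refine (Finset.abs_sum_le_sum_abs _ _).trans ((Finset.sum_le_sum h2).trans (le_of_eq ?_))
    rw [Finset.sum_const, nsmul_eq_mul, mul_comm]
  refine (Finset.sum_le_sum fun l _ => h1 l).trans ?_
  have h2 := wl_sw (w := w) i (fun l : Gm m => |f l - f (l - Pi.single i 1)|) fun _ => 1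
  rw [h2, Finset.mul_sum]
  refine Finset.sum_le_sum fun l _ => ?_
  rw [Finset.sum_const, nsmul_eq_mul, mul_one]
  refine mul_le_mul_of_nonneg_right ?_ (abs_nonneg _)
  exact_mod_cast wls_le (hw i) (hwm i) (l i)

/-- Poincaré inequality. -/
private theorem wl_poi (hw : ∀ i, 1 ≤ w i) (hwm : ∀ i, w i ≤ m i) (f : Gm m → ℝ)
    (hf : ∀ l, 0 ≤ f l) (S : Finset (Fin r)) : ∃ g : Gm m → ℝ, (∀ l, 0 ≤ g l) ∧
      ∑ l, g l = ∑ l, f l ∧
      (∀ i ∈ S, ∀ l, ∀ z ∈ wls (m i) (w i) (l i), g (Function.update l i z) = g l) ∧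
      ∑ l, |f l - g l| ≤ ∑ i ∈ S, 2 * w i * ∑ l : Gm m, |f l - f (l - Pi.single i 1)| := by
  classical
  induction S using Finset.induction_on with
  | empty =>
    exact ⟨f, hf, rfl, fun i hi => absurd hi (Finset.notMem_empty i), by simp⟩
  | insert j S hj ih =>
    obtain ⟨g, hg0, hgs, hgi, hgd⟩ := ih
    refine ⟨wla m w j g, wla_nonneg j g hg0, (wla_sum j g).trans hgs, ?_, ?_⟩
    · intro i hi l z hz
      by_cases hij : i = j
      · subst hij
        unfold wla
        rw [Function.update_self, wls_eq hz]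
        simp only [Function.update_idem]
      · have hiS : i ∈ S := (Finset.mem_insert.1 hi).resolve_left hij
        unfold wla
        rw [Function.update_of_ne (Ne.symm hij)]
        congr 1
        refine Finset.sum_congr rfl fun y _ => ?_
        rw [Function.update_comm hij]
        exact hgi i hiS _ z (by rw [Function.update_of_ne hij]; exact hz)
    · rw [Finset.sum_insert hj]
      refine le_trans ?_ (add_le_add (wla_one hw hwm j f) hgd)
      calc ∑ l, |f l - wla m w j g l|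
          ≤ ∑ l, (|f l - wla m w j f l| + |wla m w j f l - wla m w j g l|) := by
            refine Finset.sum_le_sum fun l _ => ?_
            exact abs_sub_le _ _ _
        _ = ∑ l, |f l - wla m w j f l| + ∑ l, |wla m w j f l - wla m w j g l| :=
            Finset.sum_add_distrib
        _ ≤ _ := by
            refine add_le_add le_rfl ?_
            rw [Finset.sum_congr rfl fun l _ => congrArg abs (wla_sub (w := w) j f g l)]
            exact wla_abs j _

private theorem wl_const (g : Gm m → ℝ)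
    (h : ∀ i, ∀ l, ∀ z ∈ wls (m i) (w i) (l i), g (Function.update l i z) = g l) (l l' : Gm m)
    (hl : ∀ i, wlc (m i) (w i) (l' i) = wlc (m i) (w i) (l i)) : g l' = g l := by
  classical
  have key : ∀ S : Finset (Fin r), g (fun i => if i ∈ S then l' i else l i) = g l := by
    intro S
    induction S using Finset.induction_on with
    | empty => simp
    | insert j S hj ih =>
      rw [← ih]
      have h1 : (fun i => if i ∈ insert j S then l' i else l i) =
          Function.update (fun i => if i ∈ S then l' i else l i) j (l' j) := by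
        funext i
        by_cases hij : i = j
        · subst hij
          simp
        · rw [Function.update_of_ne hij]
          simp [Finset.mem_insert, hij]
      rw [h1]
      apply h
      rw [if_neg hj, mem_wls]
      exact hl j
  have h2 := key Finset.univ
  simp only [Finset.mem_univ, if_true] at h2
  exact h2

end avg

private theorem wl_enum {X : Type} [Inhabited X] (C : Finset X) (M : ℕ) (h : C.card ≤ M) :
    ∃ a : Fin M → X, ∀ v ∈ C, ∃ j, a j = v := by
  refine ⟨fun j => if h : (j : ℕ) < C.card then (C.equivFin.symm ⟨j, h⟩ : X) else default,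
    fun v hv => ?_⟩
  refine ⟨⟨C.equivFin ⟨v, hv⟩, (C.equivFin ⟨v, hv⟩).2.trans_le h⟩, ?_⟩
  simp

private theorem wl_box {r : ℕ} (n : Fin r → ℕ) (hn : ∀ i, 1 ≤ n i) (i : Fin r) :
    ((Fintype.card (Box n) : ℝ) - Fintype.card {k : Box n // ¬ (k i : ℕ) = 0}) * n i =
      Fintype.card (Box n) := by
  classical
  have e : Box n ≃ {k : Box n // (k i : ℕ) = 0} × Fin (n i) :=
    { toFun := fun k => (⟨Function.update k i ⟨0, hn i⟩, by simp⟩, k i)
      invFun := fun x => Function.update x.1.1 i x.2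
      left_inv := fun k => by simp
      right_inv := by
        rintro ⟨⟨k, hk⟩, c⟩
        have h1 : (⟨0, hn i⟩ : Fin (n i)) = k i := Fin.ext hk.symm
        simp [h1] }
  have h1 := Fintype.card_congr e
  rw [Fintype.card_prod, Fintype.card_fin] at h1
  have h2 := Fintype.card_subtype_compl (fun k : Box n => (k i : ℕ) = 0)
  have h3 : Fintype.card {k : Box n // (k i : ℕ) = 0} ≤ Fintype.card (Box n) :=
    Fintype.card_subtype_le _
  have h4 : (Fintype.card {k : Box n // ¬ (k i : ℕ) = 0} : ℝ) =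
      Fintype.card (Box n) - Fintype.card {k : Box n // (k i : ℕ) = 0} := by
    rw [h2, Nat.cast_sub h3]
  rw [h4, sub_sub_cancel]
  exact_mod_cast h1.symm

private theorem wl_win {r : ℕ} {m w : Fin r → ℕ} [∀ i, NeZero (m i)] {ι : Type} [Fintype ι]
    (hw : ∀ i, 1 ≤ w i) (hwm : ∀ i, w i ≤ m i) (D Λ : ℕ) (hD : 2 ≤ D)
    (hΛ : 24 * r * D ^ 3 + 1 ≤ Λ) (p : ι × Gm m → ℝ) (hp0 : ∀ x, 0 ≤ p x)
    (hps : ∑ x, p x = ∏ i, ((Λ : ℝ) * w i))
    (hpv : ∀ i, ∑ x : ι × Gm m, |p x - p (x.1, x.2 - Pi.single i 1)| ≤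
      2 * (∏ i, ((Λ : ℝ) * w i)) / (Λ * w i)) :
    ∃ a : Fin (2 * D ^ 3 * Λ ^ r) → Fin r → ℕ, ∀ B : Finset (ι × Gm m),
      (∀ x ∈ B, (∀ j, ¬ inw (a j) (fun i => 2 * w i) x.2) ∧ 1 / (D : ℝ) ^ 3 ≤ p x) →
      3 * (B.card : ℝ) < ∏ i, ((Λ : ℝ) * w i) := by
  classical
  have hΛ1 : 1 ≤ Λ := by omega
  have hΛ0 : (0 : ℝ) < Λ := by exact_mod_cast hΛ1
  have hD0 : (0 : ℝ) < D := by exact_mod_cast (by omega : 0 < D)
  have hw0 : ∀ i, (0 : ℝ) < w i := fun i => by exact_mod_cast hw i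
  have hW0 : (0 : ℝ) < ∏ i, (w i : ℝ) := Finset.prod_pos fun i _ => hw0 i
  have hN : ∏ i, ((Λ : ℝ) * w i) = (Λ : ℝ) ^ r * ∏ i, (w i : ℝ) := by
    rw [Finset.prod_mul_distrib, Finset.prod_const, Finset.card_univ, Fintype.card_fin]
  have hex := fun i' : ι => wl_poi hw hwm (fun l => p (i', l)) (fun l => hp0 _) Finset.univ
  choose g hg0 hgs hgi hgd using hex
  have hgc : ∀ i' l l', (∀ i, wlc (m i) (w i) (l' i) = wlc (m i) (w i) (l i)) →
      g i' l' = g i' l := fun i' l l' h => wl_const (g i')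
    (fun i l z hz => hgi i' i (Finset.mem_univ _) l z hz) l l' h
  obtain ⟨τ, hτ⟩ : ∃ τ : ℝ, τ = 1 / (2 * (D : ℝ) ^ 3) := ⟨_, rfl⟩
  have hτ0 : 0 < τ := by
    rw [hτ]
    positivity
  -- the good boxes
  let lab : ι × Gm m → ι × (Fin r → ℕ) := fun x => (x.1, fun i => wlc (m i) (w i) (x.2 i))
  set X := Finset.univ.filter fun x : ι × Gm m => τ ≤ g x.1 x.2 with hX
  have hfib : ∀ b ∈ X.image lab, ∏ i, w i ≤ (X.filter fun x => lab x = b).card := by
    intro b hb
    rw [Finset.mem_image] at hb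
    obtain ⟨x, hx, rfl⟩ := hb
    rw [hX, Finset.mem_filter] at hx
    have h1 : ((Fintype.piFinset fun i => wls (m i) (w i) (x.2 i)).image
        fun l : Gm m => (x.1, l)) ⊆ X.filter fun y => lab y = lab x := by
      intro y hy
      rw [Finset.mem_image] at hy
      obtain ⟨l, hl, rfl⟩ := hy
      rw [Fintype.mem_piFinset] at hl
      have hl' : ∀ i, wlc (m i) (w i) (l i) = wlc (m i) (w i) (x.2 i) := fun i => mem_wls.1 (hl i)
      rw [Finset.mem_filter, hX, Finset.mem_filter]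
      refine ⟨⟨Finset.mem_univ _, ?_⟩, ?_⟩
      · show τ ≤ g x.1 l
        rw [hgc x.1 x.2 l hl']
        exact hx.2
      · show (x.1, fun i => wlc (m i) (w i) (l i)) = (x.1, fun i => wlc (m i) (w i) (x.2 i))
        rw [funext hl']
    refine le_trans ?_ (Finset.card_le_card h1)
    rw [Finset.card_image_of_injective _ (Prod.mk_right_injective x.1), Fintype.card_piFinset]
    exact Finset.prod_le_prod' fun i _ => le_wls (hw i) (hwm i) _
  have hXc := Finset.mul_card_image_le_card X (∏ i, w i) hfib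
  have hXs : (X.card : ℝ) * τ ≤ (Λ : ℝ) ^ r * ∏ i, (w i : ℝ) := by
    rw [← hN, ← hps, Fintype.sum_prod_type, ← Finset.sum_congr rfl fun i' _ => hgs i',
      ← Fintype.sum_prod_type', ← nsmul_eq_mul]
    refine (Finset.card_nsmul_le_sum X (fun x => g x.1 x.2) τ fun x hx =>
      (Finset.mem_filter.1 hx).2).trans ?_
    exact Finset.sum_le_sum_of_subset_of_nonneg (Finset.subset_univ _) fun x _ _ => hg0 _ _
  have hgood : (X.image lab).card ≤ 2 * D ^ 3 * Λ ^ r := by
    have h1 : (∏ i, (w i : ℝ)) * ((X.image lab).card : ℝ) ≤ X.card := by exact_mod_cast hXc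
    have h2 : (∏ i, (w i : ℝ)) * ((X.image lab).card * τ) ≤ (∏ i, (w i : ℝ)) * (Λ : ℝ) ^ r := by
      calc (∏ i, (w i : ℝ)) * ((X.image lab).card * τ)
          = (∏ i, (w i : ℝ)) * ((X.image lab).card : ℝ) * τ := by ring
        _ ≤ X.card * τ := mul_le_mul_of_nonneg_right h1 hτ0.le
        _ ≤ _ := hXs
        _ = _ := mul_comm _ _
    have h3 := le_of_mul_le_mul_left h2 hW0
    rw [hτ, mul_one_div, div_le_iff₀ (by positivity)] at h3
    have h4 : ((X.image lab).card : ℝ) ≤ ((2 * D ^ 3 * Λ ^ r : ℕ) : ℝ) := by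
      push_cast
      linarith
    exact_mod_cast h4
  obtain ⟨a, ha⟩ := wl_enum ((X.image lab).image fun y => fun i => y.2 i * w i) (2 * D ^ 3 * Λ ^ r)
    (Finset.card_image_le.trans hgood)
  refine ⟨a, fun B hB => ?_⟩
  -- the bad columns
  have hbad : ∀ x ∈ B, τ ≤ |p x - g x.1 x.2| := by
    intro x hx
    obtain ⟨h1, h2⟩ := hB x hx
    have h3 : g x.1 x.2 < τ := by
      by_contra h4
      push Not at h4
      have h5 : x ∈ X := by
        rw [hX, Finset.mem_filter]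
        exact ⟨Finset.mem_univ _, h4⟩
      obtain ⟨j, hj⟩ := ha _ (Finset.mem_image_of_mem _ (Finset.mem_image_of_mem lab h5))
      refine h1 j ?_
      rw [hj]
      refine ⟨fun i => (x.2 i).val - wlc (m i) (w i) (x.2 i) * w i, fun i => ?_, ?_⟩
      · have h6 := wlc_lt (hw i) (hwm i) (x.2 i)
        have h7 := wlc_le (w := w i) (x.2 i)
        show (x.2 i).val - wlc (m i) (w i) (x.2 i) * w i < 2 * w i
        omega
      · funext i
        have h7 := wlc_le (w := w i) (x.2 i)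
        show x.2 i = ((wlc (m i) (w i) (x.2 i) * w i + ((x.2 i).val -
          wlc (m i) (w i) (x.2 i) * w i) : ℕ) : ZMod (m i))
        rw [Nat.add_sub_cancel' h7, ZMod.natCast_zmod_val]
    have h4 : 1 / (D : ℝ) ^ 3 = 2 * τ := by
      rw [hτ]
      field_simp
    rw [h4] at h2
    refine le_trans ?_ (le_abs_self _)
    linarith
  have h1 : (B.card : ℝ) * τ ≤ ∑ x : ι × Gm m, |p x - g x.1 x.2| := by
    rw [← nsmul_eq_mul]
    refine (Finset.card_nsmul_le_sum B _ τ hbad).trans ?_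
    exact Finset.sum_le_sum_of_subset_of_nonneg (Finset.subset_univ _) fun _ _ _ => abs_nonneg _
  have h2 : ∑ x : ι × Gm m, |p x - g x.1 x.2| ≤ ∑ i, 2 * (w i : ℝ) *
      ∑ x : ι × Gm m, |p x - p (x.1, x.2 - Pi.single i 1)| := by
    rw [Fintype.sum_prod_type]
    refine (Finset.sum_le_sum fun i' _ => hgd i').trans (le_of_eq ?_)
    rw [Finset.sum_comm]
    refine Finset.sum_congr rfl fun i _ => ?_
    rw [← Finset.mul_sum, Fintype.sum_prod_type]
  have h3 : ∑ i, 2 * (w i : ℝ) * ∑ x : ι × Gm m, |p x - p (x.1, x.2 - Pi.single i 1)| ≤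
      r * (4 * (∏ i, ((Λ : ℝ) * w i)) / Λ) := by
    have h4 : ∀ i ∈ (Finset.univ : Finset (Fin r)), 2 * (w i : ℝ) *
        ∑ x : ι × Gm m, |p x - p (x.1, x.2 - Pi.single i 1)| ≤
        4 * (∏ i, ((Λ : ℝ) * w i)) / Λ := by
      intro i _
      have hwi := hw0 i
      calc 2 * (w i : ℝ) * ∑ x : ι × Gm m, |p x - p (x.1, x.2 - Pi.single i 1)|
          ≤ 2 * (w i : ℝ) * (2 * (∏ i, ((Λ : ℝ) * w i)) / (Λ * w i)) :=
            mul_le_mul_of_nonneg_left (hpv i) (by positivity)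
        _ = 4 * (∏ i, ((Λ : ℝ) * w i)) / Λ := by
            field_simp
            ring
    refine (Finset.sum_le_sum h4).trans (le_of_eq ?_)
    rw [Finset.sum_const, Finset.card_univ, Fintype.card_fin, nsmul_eq_mul]
  have h4 := h1.trans (h2.trans h3)
  have hNpos : 0 < ∏ i, ((Λ : ℝ) * w i) := by
    rw [hN]
    positivity
  obtain ⟨N, hNdef⟩ : ∃ N : ℝ, N = ∏ i, ((Λ : ℝ) * w i) := ⟨_, rfl⟩
  rw [← hNdef] at h4 hNpos ⊢
  rw [hτ, mul_one_div, div_le_iff₀ (by positivity)] at h4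
  have h5 : (24 * r * D ^ 3 + 1 : ℝ) ≤ Λ := by exact_mod_cast hΛ
  have h6 : 3 * (B.card : ℝ) * Λ ≤ 24 * r * (D : ℝ) ^ 3 * N := by
    have h7 : (r : ℝ) * (4 * N / Λ) * (2 * (D : ℝ) ^ 3) * Λ = 8 * r * (D : ℝ) ^ 3 * N := by
      field_simp
      ring
    have h8 := mul_le_mul_of_nonneg_right h4 hΛ0.le
    rw [h7] at h8
    linarith
  have h7 : 24 * r * (D : ℝ) ^ 3 * N < Λ * N := mul_lt_mul_of_pos_right (by linarith) hNpos
  have h8 : 3 * (B.card : ℝ) * Λ < N * Λ := by linarith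
  exact lt_of_mul_lt_mul_right h8 hΛ0.le

theorem wl {r : ℕ} (m w : Fin r → ℕ) [∀ i, NeZero (m i)] {T : Type} [Fintype T] [Nonempty T]
    {ι : Type} [Fintype ι] (u : T → ι → Gm m → ℂ) (D Λ : ℕ) (hD : 2 ≤ D)
    (hΛ : 24 * r * D ^ 3 + 1 ≤ Λ) (hw : ∀ i, 1 ≤ w i) (hwm : ∀ i, Λ * w i ≤ m i)
    (hpos : ∀ t, 0 < gdt (sm (u t) (fun k : Box (fun i => Λ * w i) => md m (bv k))))
    (hall : ∀ (J : Box (fun i => Λ * w i) → ι × Gm m) (t t' : T),
      ((sm (u t) (fun k : Box (fun i => Λ * w i) => md m (bv k))).submatrix id J).det = 0 →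
      ((sm (u t') (fun k : Box (fun i => Λ * w i) => md m (bv k))).submatrix id J).det = 0)
    (hmin : ∀ J : Box (fun i => Λ * w i) → ι × Gm m,
      (∃ t, ((sm (u t) (fun k : Box (fun i => Λ * w i) => md m (bv k))).submatrix id J).det = 0) ∨
      ∏ t, gdt (sm (u t) (fun k : Box (fun i => Λ * w i) => md m (bv k))) ≤
        (D : ℝ) ^ (Fintype.card T * ∏ i, Λ * w i) *
        ∏ t, ‖((sm (u t) (fun k : Box (fun i => Λ * w i) => md m (bv k))).submatrix id J).det‖ ^ 2) :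
    ∃ a : Fin (2 * D ^ 3 * Λ ^ r) → Fin r → ℕ, ∀ (J : Box (fun i => Λ * w i) → ι × Gm m),
      (∀ k j, ¬ inw (a j) (fun i => 2 * w i) (J k).2) → ∀ t,
      ((sm (u t) (fun k : Box (fun i => Λ * w i) => md m (bv k))).submatrix id J).det = 0 := by
  classical
  have hΛ1 : 1 ≤ Λ := by omega
  have hwm' : ∀ i, w i ≤ m i := fun i => (Nat.le_mul_of_pos_left _ hΛ1).trans (hwm i)
  have hn : ∀ i, 1 ≤ Λ * w i := fun i => Nat.mul_pos hΛ1 (hw i)
  have hcard : Fintype.card (Box (fun i => Λ * w i)) = ∏ i, Λ * w i := by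
    rw [Fintype.card_pi]
    exact Finset.prod_congr rfl fun i _ => Fintype.card_fin _
  have hcardR : (Fintype.card (Box (fun i => Λ * w i)) : ℝ) = ∏ i, ((Λ : ℝ) * w i) := by
    rw [hcard]
    push_cast
    rfl
  rw [← hcard] at hmin
  obtain ⟨p, hp0, hp1, hps, hpJ, hpv⟩ := wl_core
    (fun t => sm (u t) (fun k : Box (fun i => Λ * w i) => md m (bv k))) D hpos hall hmin
  have hv : ∀ i, ∑ x : ι × Gm m, |p x - p (x.1, x.2 - Pi.single i 1)| ≤
      2 * (∏ i, ((Λ : ℝ) * w i)) / (Λ * w i) := by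
    intro i
    have h1 := hpv ((Equiv.refl ι).prodCongr (Equiv.subRight (Pi.single i (1 : ZMod (m i)))))
      {k : Box (fun i => Λ * w i) // ¬ (k i : ℕ) = 0} Subtype.val
      (fun k => Function.update k.1 i ⟨(k.1 i : ℕ) - 1, by have := (k.1 i).2; omega⟩)
      Subtype.val_injective ?_
    · refine h1.trans (le_of_eq ?_)
      have h2 := wl_box (fun i => Λ * w i) hn i
      have h3 : (0 : ℝ) < (Λ : ℝ) * w i := by exact_mod_cast hn i
      rw [eq_div_iff h3.ne', ← hcardR]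
      push_cast at h2
      linear_combination 2 * h2
    · intro t k x
      show u t x.1 (x.2 - Pi.single i 1 - md m (bv (Function.update k.1 i _))) =
        u t x.1 (x.2 - md m (bv k.1))
      congr 1
      rw [sub_sub]
      congr 1
      funext j
      by_cases hj : j = i
      · subst hj
        simp only [Pi.add_apply, Pi.single_eq_same, md, bv, Function.update_self]
        have h2 : 1 ≤ (k.1 j : ℕ) := Nat.one_le_iff_ne_zero.2 k.2
        rw [Nat.cast_sub h2]
        push_cast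
        ring
      · simp only [Pi.add_apply, Pi.single_eq_of_ne hj, md, bv, Function.update_of_ne hj, zero_add]
  obtain ⟨a, ha⟩ := wl_win hw hwm' D Λ hD hΛ p hp0 (hps.trans hcardR) hv
  refine ⟨a, fun J hJ t => ?_⟩
  by_contra hne
  have h1 := hpJ J t hne
  have hinj : Function.Injective J := by
    intro k k' hk
    by_contra hkk
    apply hne
    refine Matrix.det_zero_of_column_eq hkk fun c => ?_
    simp only [Matrix.submatrix_apply, hk]
  have hD0 : (0 : ℝ) < D := by exact_mod_cast (by omega : 0 < D)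
  have hD1 : (1 : ℝ) < D := by exact_mod_cast (by omega : 1 < D)
  set A := Finset.univ.filter fun k => ¬ 1 / (D : ℝ) ^ 3 ≤ p (J k) with hA
  set B := Finset.univ.filter fun k => 1 / (D : ℝ) ^ 3 ≤ p (J k) with hB
  have hAB : B.card + A.card = Fintype.card (Box (fun i => Λ * w i)) := by
    rw [hA, hB, Finset.card_filter_add_card_filter_not, Finset.card_univ]
  have hB3 := ha (B.map ⟨J, hinj⟩) (by
    intro x hx
    rw [Finset.mem_map] at hx
    obtain ⟨k, hk, rfl⟩ := hx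
    rw [hB, Finset.mem_filter] at hk
    exact ⟨hJ k, hk.2⟩)
  rw [Finset.card_map] at hB3
  have hA3 : 3 * A.card ≤ Fintype.card (Box (fun i => Λ * w i)) := by
    have h2 : ∏ k, p (J k) ≤ (1 / (D : ℝ) ^ 3) ^ A.card := by
      calc ∏ k, p (J k) = (∏ k ∈ A, p (J k)) * ∏ k ∈ Aᶜ, p (J k) :=
            (Finset.prod_mul_prod_compl A _).symm
        _ ≤ (1 / (D : ℝ) ^ 3) ^ A.card * 1 := by
            refine mul_le_mul ?_ ?_ (Finset.prod_nonneg fun k _ => hp0 _) (by positivity)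
            · rw [← Finset.prod_const]
              refine Finset.prod_le_prod (fun k _ => hp0 _) fun k hk => ?_
              exact (not_le.1 (Finset.mem_filter.1 hk).2).le
            · exact Finset.prod_le_one (fun k _ => hp0 _) fun k _ => hp1 _
        _ = _ := mul_one _
    have h3 : (1 : ℝ) ≤ (D : ℝ) ^ Fintype.card (Box (fun i => Λ * w i)) *
        (1 / (D : ℝ) ^ 3) ^ A.card := h1.trans (mul_le_mul_of_nonneg_left h2 (by positivity))
    rw [one_div, inv_pow, ← pow_mul, ← div_eq_mul_inv, le_div_iff₀ (by positivity), one_mul] at h3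
    exact (pow_le_pow_iff_right₀ hD1).1 h3
  have hA3' : 3 * (A.card : ℝ) ≤ ∏ i, ((Λ : ℝ) * w i) := by
    rw [← hcardR]
    exact_mod_cast hA3
  have hAB' : (B.card : ℝ) + A.card = ∏ i, ((Λ : ℝ) * w i) := by
    rw [← hcardR]
    exact_mod_cast hAB
  have hN : 0 < ∏ i, ((Λ : ℝ) * w i) :=
    Finset.prod_pos fun i _ => by exact_mod_cast hn i
  linarith

end Pool.Agent.H72.BE
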