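import Pool.Agent.H72.BE.Gram
import Pool.Agent.H72.BE.Wl

/-!
# The window lemma (MP_187c26_nt, Theorem VR+, S1)

Model (r = 1): `Pool/Agent/H72/BD/WinOf.lean`.

PROOF. `D = 2 * 4 ^ d`, `Λ = Lc r d = 24 r D ^ 3 + 1`, `n = Λ w`, `N = ∏ n_i`, `e = [A : ℚ] = |A →+* ℂ|` (`card_emb`); `wl` for `T = (A →+* ℂ)`, `u t = h.uu t ∘ c`,
shifts `md m (bv k) = mb m n k` (by definition).
`hpos` = `gram_pos`, `hall` = `minor_all`. `hmin`: let `I = relIndex ≥ 1`, `P = ∏ ρ_i ^ n_i`. If no minor^t is `0`: `minor_alt`: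
`1 ≤ I ^ 2 P ^ (e N) ∏_t |minor^t| ^ 2`; `gram_upper` (with `4 ^ d`): `I ^ 2 ∏_t gdt^t ≤ (4 ^ d) ^ (e N) T`. So
`I ^ 2 ∏ gdt ≤ (4 ^ d) ^ (e N) T · I ^ 2 P ^ (e N) ∏ |minor| ^ 2 ≤ I ^ 2 (2 · 4 ^ d) ^ (e N) ∏ |minor| ^ 2` by `hT`; cancel `I ^ 2` (exactly as in BD/WinOf.lean).
`wl` gives corners `a' : Fin (R0 r d) → …`: all minors of `sm^t`, hence (`minor_zero`) of `Psi`, with all columns outside of the windows
`[a'_j, a'_j + 2 w)` vanish. `dep_of_minors` (K = A, `B = Psi h c n`, `S` = the `(i, l)` with `l` in none of these windows): `q ≠ 0` with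
`vecMul q Psi = 0` on `S`. `g = ∑ a, q a x ^ a`: `co (g c_i) l = vecMul q Psi (i, l)` (`psi_vecMul`), so it is `0` for `l` outside of the windows;
`co g l ≠ 0` only for `l = md m (bv a)`, `a ∈ Box n` (`co_smul_mon`), and `co g (md m (bv a)) = q a · bet (bv a) ≠ 0` for some `a` (`mb_inj`). Windows of
`Win`: index `0`: `a 0 = 0`; index `j + 1`: `a'_j` (`Fin.cons`), `2 w_i ≤ Λ w_i` (`Λ ≥ 2` as `r ≥ 1` if there is an `i`), `inw_mono`.
-/

set_option autoImplicit false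

open MvPolynomial NumberField

namespace Pool.Agent.H72.BE

variable {r : ℕ} {b m : Fin r → ℕ} [∀ i, NeZero (m i)] {A F : Type} [Field A] [NumberField A]
  [Field F] [NumberField F] [Algebra A F] {x : Fin r → F} {d : ℕ}

private theorem wo_co (h : Rad b m A F x) (n : Fin r → ℕ) (q : Box n → A) (l : Gm m) :
    h.co (∑ a, algebraMap A F (q a) * mon x (bv a)) l =
      ∑ a, if l = mb m n a then q a * (bet b m (bv a) : A) else 0 := by
  rw [map_sum, Finset.sum_apply]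
  refine Finset.sum_congr rfl fun a _ => ?_
  rw [h.co_smul_mon]
  rfl

private theorem wo_min (h : Rad b m A F x) (c : Fin (d + 1) → F) (hc : c (Fin.last d) = 1) (T : ℝ)
    (hS : h.Siz c (4 ^ d) T) (n : Fin r → ℕ) (hnm : ∀ i, n i ≤ m i)
    (hT : T * (∏ i, rho b m i ^ n i) ^ (Module.finrank ℚ A * ∏ i, n i) ≤
      2 ^ (Module.finrank ℚ A * ∏ i, n i)) (J : Box n → Fin (d + 1) × Gm m) :
    (∃ t : A →+* ℂ, ((sm (fun i => h.uu t (c i)) (mb m n)).submatrix id J).det = 0) ∨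
      ∏ t : A →+* ℂ, gdt (sm (fun i => h.uu t (c i)) (mb m n)) ≤
        ((2 * 4 ^ d : ℕ) : ℝ) ^ (Module.finrank ℚ A * ∏ i, n i) *
          ∏ t : A →+* ℂ, ‖((sm (fun i => h.uu t (c i)) (mb m n)).submatrix id J).det‖ ^ 2 := by
  have h0 : (h.den c).relIndex h.zx ≠ 0 := by
    obtain ⟨N, _, _, h1, _⟩ := hS
    exact h1
  have hgu := gram_upper h c (4 ^ d) T (by positivity) hS n hnm
  have hg0 : 0 < ∏ t : A →+* ℂ, gdt (sm (fun i => h.uu t (c i)) (mb m n)) :=
    Finset.prod_pos fun t _ => gram_pos h c hc n hnm t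
  have hI0 : 0 < ((h.den c).relIndex h.zx : ℝ) ^ 2 := by
    have h1 : (0 : ℝ) < ((h.den c).relIndex h.zx : ℝ) := by
      exact_mod_cast Nat.pos_of_ne_zero h0
    positivity
  rcases minor_alt h c h0 n J with h1 | h1
  · exact Or.inl h1
  · right
    generalize ∏ t : A →+* ℂ, gdt (sm (fun i => h.uu t (c i)) (mb m n)) = G at hgu hg0 ⊢
    have hM0 : 0 ≤ ∏ t : A →+* ℂ,
        ‖((sm (fun i => h.uu t (c i)) (mb m n)).submatrix id J).det‖ ^ 2 :=
      Finset.prod_nonneg fun t _ => sq_nonneg _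
    generalize ∏ t : A →+* ℂ,
      ‖((sm (fun i => h.uu t (c i)) (mb m n)).submatrix id J).det‖ ^ 2 = M at h1 hM0 ⊢
    generalize ((h.den c).relIndex h.zx : ℝ) = I at h1 hgu hI0
    generalize (∏ i, rho b m i ^ n i) = P at h1 hT
    generalize Module.finrank ℚ A * ∏ i, n i = E at h1 hT hgu ⊢
    have hT0 : 0 ≤ ((4 : ℝ) ^ d) ^ E * T := (mul_pos hI0 hg0).le.trans hgu
    have h2 : I ^ 2 * G ≤ I ^ 2 * (((2 * 4 ^ d : ℕ) : ℝ) ^ E * M) := by
      calc I ^ 2 * G ≤ ((4 : ℝ) ^ d) ^ E * T := hgu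
        _ ≤ ((4 : ℝ) ^ d) ^ E * T * (I ^ 2 * P ^ E * M) := le_mul_of_one_le_right hT0 h1
        _ = (((4 : ℝ) ^ d) ^ E * I ^ 2 * M) * (T * P ^ E) := by ring
        _ ≤ (((4 : ℝ) ^ d) ^ E * I ^ 2 * M) * 2 ^ E :=
          mul_le_mul_of_nonneg_left hT (by positivity)
        _ = I ^ 2 * (((2 * 4 ^ d : ℕ) : ℝ) ^ E * M) := by
          push_cast
          rw [mul_pow]
          ring
    exact le_of_mul_le_mul_left h2 hI0

theorem win_of_siz (h : Rad b m A F x) (c : Fin (d + 1) → F) (hc : c (Fin.last d) = 1) (T : ℝ)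
    (hS : h.Siz c (4 ^ d) T) (w : Fin r → ℕ) (hw : ∀ i, 1 ≤ w i)
    (hwm : ∀ i, Lc r d * w i ≤ m i)
    (hT : T * (∏ i, rho b m i ^ (Lc r d * w i)) ^
      (Module.finrank ℚ A * ∏ i, Lc r d * w i) ≤ 2 ^ (Module.finrank ℚ A * ∏ i, Lc r d * w i)) :
    Win h c (fun i => Lc r d * w i) (R0 r d) := by
  classical
  have h0 : (h.den c).relIndex h.zx ≠ 0 := by
    obtain ⟨N, _, _, h1, _⟩ := hS
    exact h1
  have hmin := wo_min h c hc T hS (fun i => Lc r d * w i) hwm hT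
  have hD : 2 ≤ 2 * 4 ^ d := by
    have : 0 < 4 ^ d := by positivity
    omega
  obtain ⟨a', ha'⟩ := wl m w (T := (A →+* ℂ)) (fun t i => h.uu t (c i)) (2 * 4 ^ d) (Lc r d) hD
    le_rfl hw hwm (fun t => gram_pos h c hc (fun i => Lc r d * w i) hwm t)
    (fun J t t' h1 => minor_all h c (fun i => Lc r d * w i) J t t' h1) (fun J => by
      have h1 := hmin J
      rw [← card_emb A] at h1
      exact h1)
  obtain ⟨t0⟩ : Nonempty (A →+* ℂ) := inferInstance
  obtain ⟨q, hq0, hq⟩ := dep_of_minors (Psi h c (fun i => Lc r d * w i))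
    {o | ∀ j, ¬ inw (a' j) (fun i => 2 * w i) o.2} (fun J hJ =>
      (minor_zero h c (fun i => Lc r d * w i) t0 J).2 (ha' J (fun k j => hJ k j) t0))
  refine ⟨Fin.cons 0 a', rfl, ∑ a, algebraMap A F (q a) * mon x (bv a), ?_, ?_, ?_⟩
  · intro hg
    apply hq0
    funext a0
    have h1 := wo_co h (fun i => Lc r d * w i) q (mb m (fun i => Lc r d * w i) a0)
    rw [hg, map_zero, Pi.zero_apply, Finset.sum_eq_single a0, if_pos rfl] at h1
    · rcases mul_eq_zero.1 h1.symm with h2 | h2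
      · exact h2
      · exact absurd h2 (Nat.cast_ne_zero.2 (bet_ne_zero h.two _))
    · intro a _ ha
      rw [if_neg]
      intro h2
      exact ha (mb_inj (fun i => Lc r d * w i) hwm h2.symm)
    · intro h2
      exact absurd (Finset.mem_univ _) h2
  · intro l hl
    rw [wo_co h (fun i => Lc r d * w i) q l] at hl
    obtain ⟨a, _, ha⟩ := Finset.exists_ne_zero_of_sum_ne_zero hl
    have h1 : l = mb m (fun i => Lc r d * w i) a := by
      by_contra h2
      rw [if_neg h2] at ha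
      exact ha rfl
    exact ⟨bv a, fun i => (a i).2, by rw [zero_add]; exact h1⟩
  · intro i l hl
    by_contra h1
    apply hl
    have h2 := hq (i, l) (fun j hj => h1 ⟨Fin.succ j, ?_⟩)
    · rw [psi_vecMul] at h2
      exact h2
    · rw [Fin.cons_succ]
      refine inw_mono (fun k => Nat.mul_le_mul_right _ ?_) hj
      have h3 : 0 < r := Fin.pos k
      have h4 : 0 < 24 * r * (2 * 4 ^ d) ^ 3 := by positivity
      unfold Lc
      omega

end Pool.Agent.H72.BE
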