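import Pool.Agent.H72.BE.Fin

/-!
# The local Gauss lemma as a minor (MP_187c26_nt, Theorem VR+, S2)

`w` a finite family of polynomials in `r` variables over `A`; `C` the matrix with rows `a ∈ Box k` and columns `(i, e)`, `e ∈ Box n`:
`C a (i, e) = coeff_e (X ^ a w_i) = coeff_(e - a) (w_i)` (zero unless `a ≤ e`). All exponents of `w_i` plus all `a ∈ Box k` are in `Box n`.

CLAIM (`tri`). For every finite place `v`: `(max of |coefficients of the w_i|_v) ^ |Box k| ≤ max_J |minor_J (C)|_v`.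
PROOF. Trivial if all coefficients are `0` and `|Box k| ≥ 1`. Let `M` be the maximum, choose `i₀` and the lexicographically largest exponent `e₀`
with `|coeff_(e₀) (w_i₀)|_v = M`. Take `J a = (i₀, a + e₀)`. The square matrix `D a a' = coeff_(a' + e₀ - a) (w_i₀)`: for `a' > a`
(lexicographically) the exponent `a' + e₀ - a` (if it is one) is larger than `e₀`, so `|D a a'|_v < M`; for `a' = a` it is `= M`; always `≤ M`. In the
expansion of `det D` the identity permutation gives absolute value `M ^ |Box k|`; any other permutation `σ` has some `a` with `σ a > a`, so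
its product is smaller. Ultrametric inequality: `|det D|_v = M ^ |Box k|`.
`ct_tri`: with global data: multiply over `v` (`finprod_le_finprod`-like; supports are finite): `ct w ^ |Box k| ≤ fm C`.
`fm_scale`: if `|Y J-minors|` change by column factors: for `Y' k o = Y k o * β o` with `β o` nonzero integers of absolute value `≤ B`:
`fm Y ≤ B ^ ([A : ℚ] |κ|) fm Y'` (`minor_J (Y') = minor_J (Y) ∏ β (J k)`, `∏_v |β|_v = |β| ^ (-[A : ℚ])`, and for each place
`|β (J k)|_v ≥ |B'|_v` with `B' = ` a common multiple: assume `β o ∣ B` in `ℤ`).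
-/

set_option autoImplicit false

open MvPolynomial NumberField

namespace Pool.Agent.H72.BE

variable {r : ℕ} {A : Type} [Field A] [NumberField A] {ι : Type} [Fintype ι]

omit [Fintype ι] in
private theorem v_neg (v : FinitePlace A) (x : A) : v (-x) = v x := by
  rw [FinitePlace.coe_apply, FinitePlace.coe_apply, AbsoluteValue.map_neg]

private theorem v_sum_lt (v : FinitePlace A) {τ : Type} (s : Finset τ) (f : τ → A) {M : ℝ} (hM : 0 < M)
    (h : ∀ i ∈ s, v (f i) < M) : v (∑ i ∈ s, f i) < M := by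
  classical
  induction s using Finset.induction_on with
  | empty =>
    rw [Finset.sum_empty, map_zero]
    exact hM
  | insert a s ha ih =>
    rw [Finset.sum_insert ha]
    refine (FinitePlace.add_le v _ _).trans_lt (max_lt (h a (Finset.mem_insert_self a s)) ?_)
    exact ih fun i hi => h i (Finset.mem_insert_of_mem hi)

private theorem v_sign (v : FinitePlace A) {τ : Type} [Fintype τ] [DecidableEq τ] (σ : Equiv.Perm τ) :
    v (((Equiv.Perm.sign σ : ℤˣ) : ℤ) : A) = 1 := by
  rcases Int.units_eq_one_or (Equiv.Perm.sign σ) with h | h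
  · rw [h]
    simp
  · rw [h]
    simp [v_neg]

/-- A matrix which is dominated by its diagonal. -/
private theorem det_dom (v : FinitePlace A) {κ : Type} [Fintype κ] [DecidableEq κ] (D : Matrix κ κ A) {M : ℝ}
    (hM : 0 < M) (h1 : ∀ b a, v (D b a) ≤ M) (h2 : ∀ a, v (D a a) = M)
    (h3 : ∀ σ : Equiv.Perm κ, σ ≠ 1 → ∃ a, v (D (σ a) a) < M) : M ^ Fintype.card κ ≤ v D.det := by
  have hterm : ∀ σ : Equiv.Perm κ, σ ≠ 1 →
      v ((((Equiv.Perm.sign σ : ℤˣ) : ℤ) : A) * ∏ i, D (σ i) i) < M ^ Fintype.card κ := by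
    intro σ hσ
    obtain ⟨a, ha⟩ := h3 σ hσ
    rw [map_mul, v_sign, one_mul, map_prod, ← Finset.mul_prod_erase _ _ (Finset.mem_univ a)]
    have e1 : ∏ x ∈ Finset.univ.erase a, v (D (σ x) x) ≤ M ^ (Fintype.card κ - 1) := by
      refine (Finset.prod_le_prod (fun i _ => apply_nonneg v _) fun i _ => h1 (σ i) i).trans (le_of_eq ?_)
      rw [Finset.prod_const, Finset.card_erase_of_mem (Finset.mem_univ a), Finset.card_univ]
    have e2 : 0 < Fintype.card κ := Fintype.card_pos_iff.2 ⟨a⟩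
    have e3 : M ^ Fintype.card κ = M * M ^ (Fintype.card κ - 1) := by
      rw [← pow_succ', Nat.sub_add_cancel e2]
    rw [e3]
    calc v (D (σ a) a) * ∏ x ∈ Finset.univ.erase a, v (D (σ x) x)
        ≤ v (D (σ a) a) * M ^ (Fintype.card κ - 1) := mul_le_mul_of_nonneg_left e1 (apply_nonneg v _)
      _ < M * M ^ (Fintype.card κ - 1) := mul_lt_mul_of_pos_right ha (pow_pos hM _)
  have hone : v ((((Equiv.Perm.sign (1 : Equiv.Perm κ) : ℤˣ) : ℤ) : A) * ∏ i, D ((1 : Equiv.Perm κ) i) i) =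
      M ^ Fintype.card κ := by
    rw [map_mul, v_sign, one_mul, map_prod]
    simp only [Equiv.Perm.one_apply, h2]
    rw [Finset.prod_const, Finset.card_univ]
  have hsum : v (∑ σ ∈ Finset.univ.erase (1 : Equiv.Perm κ),
      (((Equiv.Perm.sign σ : ℤˣ) : ℤ) : A) * ∏ i, D (σ i) i) < M ^ Fintype.card κ :=
    v_sum_lt v _ _ (pow_pos hM _) fun σ hσ => hterm σ (Finset.ne_of_mem_erase hσ)
  have hdet : D.det = (((Equiv.Perm.sign (1 : Equiv.Perm κ) : ℤˣ) : ℤ) : A) * ∏ i, D ((1 : Equiv.Perm κ) i) i +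
      ∑ σ ∈ Finset.univ.erase (1 : Equiv.Perm κ), (((Equiv.Perm.sign σ : ℤˣ) : ℤ) : A) * ∏ i, D (σ i) i := by
    rw [Matrix.det_apply']
    exact (Finset.add_sum_erase Finset.univ
      (fun σ : Equiv.Perm κ => (((Equiv.Perm.sign σ : ℤˣ) : ℤ) : A) * ∏ i, D (σ i) i) (Finset.mem_univ 1)).symm
  by_contra hcon
  push Not at hcon
  have e : (((Equiv.Perm.sign (1 : Equiv.Perm κ) : ℤˣ) : ℤ) : A) * ∏ i, D ((1 : Equiv.Perm κ) i) i =
      D.det + -∑ σ ∈ Finset.univ.erase (1 : Equiv.Perm κ), (((Equiv.Perm.sign σ : ℤˣ) : ℤ) : A) * ∏ i, D (σ i) i := by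
    rw [hdet]
    ring
  have h4 := FinitePlace.add_le v D.det
    (-∑ σ ∈ Finset.univ.erase (1 : Equiv.Perm κ), (((Equiv.Perm.sign σ : ℤˣ) : ℤ) : A) * ∏ i, D (σ i) i)
  rw [← e, hone, v_neg] at h4
  exact absurd h4 (not_le.2 (max_lt hcon hsum))

/-- The element of the box as an exponent. -/
private noncomputable def hat {k : Fin r → ℕ} (a : Box k) : Fin r →₀ ℕ := Finsupp.equivFunOnFinite.symm (bv a)

private theorem hat_inj {k : Fin r → ℕ} {a b : Box k} (h : hat a = hat b) : a = b := by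
  have h1 := Finsupp.equivFunOnFinite.symm.injective h
  funext i
  exact Fin.ext (congrFun h1 i)

private theorem perm_lt {k : Fin r → ℕ} (σ : Equiv.Perm (Box k)) (hσ : σ ≠ 1) :
    ∃ a, (MonomialOrder.lex (σ := Fin r)).toSyn (hat (σ a)) < (MonomialOrder.lex (σ := Fin r)).toSyn (hat a) := by
  by_contra hcon
  push Not at hcon
  apply hσ
  have h1 : ∑ a : Box k, (MonomialOrder.lex (σ := Fin r)).toSyn (hat (σ a)) =
      ∑ a : Box k, (MonomialOrder.lex (σ := Fin r)).toSyn (hat a) :=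
    Equiv.sum_comp σ fun a => (MonomialOrder.lex (σ := Fin r)).toSyn (hat a)
  have h2 := (Finset.sum_eq_sum_iff_of_le fun a _ => hcon a).1 h1.symm
  ext a : 1
  have h3 := h2 a (Finset.mem_univ a)
  exact (hat_inj ((MonomialOrder.lex (σ := Fin r)).toSyn.injective h3)).symm

/-- The coefficient matrix of the multiples `X ^ a w_i`. -/
noncomputable def cm (w : ι → MvPolynomial (Fin r) A) (k n : Fin r → ℕ) :
    Matrix (Box k) (ι × Box n) A :=
  Matrix.of fun a o => if ∀ i, bv a i ≤ bv o.2 i then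
    (w o.1).coeff (Finsupp.equivFunOnFinite.symm (bv o.2 - bv a)) else 0

private theorem cf_bdd (w : ι → MvPolynomial (Fin r) A) (v : FinitePlace A) :
    (Set.range fun p : ι × (Fin r →₀ ℕ) => v ((w p.1).coeff p.2)).Finite := by
  classical
  have h1 : (Set.range fun p : ι × (Fin r →₀ ℕ) => v ((w p.1).coeff p.2)) ⊆
      insert 0 (⋃ i : ι, ((w i).support.image fun e => v ((w i).coeff e) : Set ℝ)) := by
    rintro _ ⟨p, rfl⟩
    by_cases h : (w p.1).coeff p.2 = 0
    · simp only
      rw [h, map_zero]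
      exact Set.mem_insert _ _
    · refine Set.mem_insert_of_mem _ (Set.mem_iUnion.2 ⟨p.1, ?_⟩)
      rw [Finset.coe_image]
      exact ⟨p.2, by rwa [Finset.mem_coe, mem_support_iff], rfl⟩
  refine Set.Finite.subset (Set.Finite.insert _ (Set.finite_iUnion fun i => ?_)) h1
  exact Finset.finite_toSet _

theorem tri (w : ι → MvPolynomial (Fin r) A) (k n : Fin r → ℕ)
    (hn : ∀ i j, (w i).degreeOf j + k j ≤ n j) (v : FinitePlace A) :
    (⨆ p : ι × (Fin r →₀ ℕ), v ((w p.1).coeff p.2)) ^ Fintype.card (Box k) ≤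
      ⨆ J : Box k → ι × Box n, v (((cm w k n).submatrix id J).det) := by
  classical
  by_cases hk : IsEmpty (Box k)
  · rw [Fintype.card_eq_zero, pow_zero]
    obtain ⟨J, -⟩ : ∃ J : Box k → ι × Box n, True := ⟨fun a => hk.elim a, trivial⟩
    refine le_trans ?_ (le_ciSup (Set.finite_range _).bddAbove J)
    rw [Matrix.det_isEmpty, map_one]
  rw [not_isEmpty_iff] at hk
  have hcard : Fintype.card (Box k) ≠ 0 := Fintype.card_ne_zero
  obtain ⟨M, hMd⟩ : ∃ M : ℝ, M = ⨆ p : ι × (Fin r →₀ ℕ), v ((w p.1).coeff p.2) := ⟨_, rfl⟩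
  rw [← hMd]
  have hM0 : 0 ≤ M := by
    rw [hMd]
    exact Real.iSup_nonneg fun p => apply_nonneg v _
  have hfin := cf_bdd w v
  rcases hM0.eq_or_lt with hM | hM
  · rw [← hM, zero_pow hcard]
    exact Real.iSup_nonneg fun J => apply_nonneg v _
  have hle : ∀ i e, v ((w i).coeff e) ≤ M := by
    intro i e
    rw [hMd]
    exact le_ciSup hfin.bddAbove (⟨i, e⟩ : ι × (Fin r →₀ ℕ))
  obtain ⟨i₀, e₁, he₁⟩ : ∃ i e, v ((w i).coeff e) = M := by
    have hne : Nonempty (ι × (Fin r →₀ ℕ)) := by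
      by_contra hcon
      rw [not_nonempty_iff] at hcon
      rw [Real.iSup_of_isEmpty] at hMd
      exact hM.ne' hMd
    obtain ⟨p, hp⟩ := Set.Nonempty.csSup_mem (Set.range_nonempty _) hfin
    exact ⟨p.1, p.2, hp.trans hMd.symm⟩
  have hcn : ∀ e, v ((w i₀).coeff e) = M → e ∈ (w i₀).support := by
    intro e he
    rw [mem_support_iff]
    intro h0
    rw [h0, map_zero] at he
    exact hM.ne he
  obtain ⟨e₀, he₀, hmax⟩ := ((w i₀).support.filter fun e => v ((w i₀).coeff e) = M).exists_max_image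
    (fun e => (MonomialOrder.lex (σ := Fin r)).toSyn e) ⟨e₁, Finset.mem_filter.2 ⟨hcn e₁ he₁, he₁⟩⟩
  rw [Finset.mem_filter] at he₀
  have hdeg : ∀ j, e₀ j ≤ (w i₀).degreeOf j := fun j => monomial_le_degreeOf j he₀.1
  obtain ⟨J, hJ⟩ : ∃ J : Box k → ι × Box n, ∀ a, (J a).1 = i₀ ∧ ∀ j, bv (J a).2 j = bv a j + e₀ j := by
    refine ⟨fun a => ⟨i₀, fun j => ⟨bv a j + e₀ j, ?_⟩⟩, fun a => ⟨rfl, fun j => rfl⟩⟩
    have h1 := hdeg j
    have h2 := hn i₀ j
    have h3 : bv a j < k j := (a j).2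
    omega
  refine le_trans ?_ (le_ciSup (Set.finite_range _).bddAbove J)
  have hD : ∀ b a : Box k, (cm w k n).submatrix id J b a = if ∀ i, bv b i ≤ bv a i + e₀ i then
      (w i₀).coeff (Finsupp.equivFunOnFinite.symm (fun i => bv a i + e₀ i - bv b i)) else 0 := by
    intro b a
    rw [Matrix.submatrix_apply]
    unfold cm
    rw [Matrix.of_apply]
    obtain ⟨hJ1, hJ2⟩ := hJ a
    have h3 : bv (J a).2 = fun i => bv a i + e₀ i := funext hJ2
    rw [hJ1, h3]
    rfl
  refine det_dom v _ hM (fun b a => ?_) (fun a => ?_) (fun σ hσ => ?_)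
  · rw [hD]
    split_ifs
    · exact hle _ _
    · rw [map_zero]
      exact hM.le
  · rw [hD, if_pos fun i => Nat.le_add_right _ _]
    have h4 : Finsupp.equivFunOnFinite.symm (fun i => bv a i + e₀ i - bv a i) = e₀ := by
      ext i
      rw [Finsupp.equivFunOnFinite_symm_apply_apply]
      omega
    rw [h4]
    exact he₀.2
  · obtain ⟨a, ha⟩ := perm_lt σ hσ
    refine ⟨a, ?_⟩
    rw [hD]
    split_ifs with h5
    · refine lt_of_le_of_ne (hle _ _) fun h6 => ?_
      have h7 := hmax _ (Finset.mem_filter.2 ⟨hcn _ h6, h6⟩)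
      have h8 : Finsupp.equivFunOnFinite.symm (fun i => bv a i + e₀ i - bv (σ a) i) + hat (σ a) = hat a + e₀ := by
        ext i
        rw [Finsupp.add_apply, Finsupp.add_apply, Finsupp.equivFunOnFinite_symm_apply_apply]
        unfold hat
        rw [Finsupp.equivFunOnFinite_symm_apply_apply, Finsupp.equivFunOnFinite_symm_apply_apply]
        have := h5 i
        omega
      have h9 := congrArg (MonomialOrder.lex (σ := Fin r)).toSyn h8
      rw [map_add, map_add] at h9
      have h10 : (MonomialOrder.lex (σ := Fin r)).toSyn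
          (Finsupp.equivFunOnFinite.symm (fun i => bv a i + e₀ i - bv (σ a) i)) +
          (MonomialOrder.lex (σ := Fin r)).toSyn (hat (σ a)) <
          (MonomialOrder.lex (σ := Fin r)).toSyn (hat a) + (MonomialOrder.lex (σ := Fin r)).toSyn e₀ := by
        rw [add_comm ((MonomialOrder.lex (σ := Fin r)).toSyn (hat a))]
        exact add_lt_add_of_le_of_lt h7 ha
      exact absurd h9 h10.ne
    · rw [map_zero]
      exact hM

theorem ct_tri (w : ι → MvPolynomial (Fin r) A) (hw : ∃ i, w i ≠ 0) (k n : Fin r → ℕ)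
    (hn : ∀ i j, (w i).degreeOf j + k j ≤ n j) :
    ct w ^ Fintype.card (Box k) ≤ fm (cm w k n) := by
  classical
  unfold ct fm
  by_cases hE : IsEmpty (FinitePlace A)
  · rw [finprod_of_isEmpty, finprod_of_isEmpty, one_pow]
  rw [not_isEmpty_iff] at hE
  obtain ⟨v₀⟩ := hE
  have hbd : ∀ v : FinitePlace A, BddAbove (Set.range fun p : ι × (Fin r →₀ ℕ) => v ((w p.1).coeff p.2)) :=
    fun v => (cf_bdd w v).bddAbove
  obtain ⟨i₁, hi₁⟩ := hw
  obtain ⟨e₁, he₁⟩ := MvPolynomial.ne_zero_iff.1 hi₁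
  have hf : Function.HasFiniteMulSupport fun v : FinitePlace A => ⨆ p : ι × (Fin r →₀ ℕ), v ((w p.1).coeff p.2) := by
    have h1 : (⋃ i : ι, ⋃ e ∈ ((w i).support : Set (Fin r →₀ ℕ)),
        Function.mulSupport fun v : FinitePlace A => v ((w i).coeff e)).Finite := by
      refine Set.finite_iUnion fun i => Set.Finite.biUnion (Finset.finite_toSet _) fun e he => ?_
      exact FinitePlace.hasFiniteMulSupport (mem_support_iff.1 he)
    refine Set.Finite.subset h1 fun v hv => ?_
    by_contra hcon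
    apply hv
    have h2 : ∀ i e, (w i).coeff e ≠ 0 → v ((w i).coeff e) = 1 := by
      intro i e he
      by_contra h3
      apply hcon
      exact Set.mem_iUnion.2 ⟨i, Set.mem_iUnion₂.2 ⟨e, mem_support_iff.2 he, h3⟩⟩
    show (⨆ p : ι × (Fin r →₀ ℕ), v ((w p.1).coeff p.2)) = 1
    apply le_antisymm
    · refine Real.iSup_le (fun p => ?_) zero_le_one
      by_cases h3 : (w p.1).coeff p.2 = 0
      · rw [h3, map_zero]
        exact zero_le_one
      · exact (h2 _ _ h3).le
    · rw [← h2 i₁ e₁ he₁]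
      exact le_ciSup (hbd v) (⟨i₁, e₁⟩ : ι × (Fin r →₀ ℕ))
  have hpos : ∀ v : FinitePlace A, 0 < ⨆ p : ι × (Fin r →₀ ℕ), v ((w p.1).coeff p.2) := by
    intro v
    refine lt_of_lt_of_le ?_ (le_ciSup (hbd v) (⟨i₁, e₁⟩ : ι × (Fin r →₀ ℕ)))
    exact FinitePlace.pos_iff.2 he₁
  obtain ⟨J, hJ⟩ : ∃ J : Box k → ι × Box n, ((cm w k n).submatrix id J).det ≠ 0 := by
    by_contra hcon
    push Not at hcon
    have h1 := tri w k n hn v₀
    have h2 : (⨆ J : Box k → ι × Box n, v₀ (((cm w k n).submatrix id J).det)) ≤ 0 := by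
      refine Real.iSup_le (fun J => ?_) le_rfl
      rw [hcon J, map_zero]
    have h3 := pow_pos (hpos v₀) (Fintype.card (Box k))
    linarith
  rw [finprod_pow hf]
  exact finprod_le_finprod (hf.pow _) (fun v => (pow_pos (hpos v) _).le) (fm_support _ J hJ) fun v => tri w k n hn v

theorem fm_scale {κ Ω : Type} [Fintype κ] [Fintype Ω] [DecidableEq κ] (Y Y' : Matrix κ Ω A)
    (β : Ω → ℤ) (B : ℕ) (hB : 1 ≤ B) (hβ : ∀ o, β o ∣ B)
    (hY : ∀ k o, Y' k o = Y k o * (β o : A)) (hne : ∃ J : κ → Ω, (Y.submatrix id J).det ≠ 0) :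
    fm Y ≤ (B : ℝ) ^ (Module.finrank ℚ A * Fintype.card κ) * fm Y' := by
  classical
  have hB0 : (B : A) ≠ 0 := by
    have : B ≠ 0 := by omega
    exact_mod_cast this
  have hB1 : (1 : ℝ) ≤ B := by exact_mod_cast hB
  obtain ⟨J₀, hJ₀⟩ := hne
  have hβ0 : ∀ o, (β o : A) ≠ 0 := by
    intro o h
    have h1 : β o = 0 := by exact_mod_cast h
    have h2 := hβ o
    rw [h1, zero_dvd_iff] at h2
    have : B ≠ 0 := by omega
    exact this (by exact_mod_cast h2)
  have hmin : ∀ J : κ → Ω, (Y'.submatrix id J).det = (Y.submatrix id J).det * ∏ k, (β (J k) : A) := by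
    intro J
    have h1 : Y'.submatrix id J = Y.submatrix id J * Matrix.diagonal fun k => (β (J k) : A) := by
      ext a k
      rw [Matrix.mul_diagonal, Matrix.submatrix_apply, Matrix.submatrix_apply, hY]
    rw [h1, Matrix.det_mul, Matrix.det_diagonal]
  have hJ₀' : (Y'.submatrix id J₀).det ≠ 0 := by
    rw [hmin]
    exact mul_ne_zero hJ₀ (Finset.prod_ne_zero_iff.2 fun k _ => hβ0 _)
  -- the local inequality
  have hint : ∀ (v : FinitePlace A) (c : ℤ), v (c : A) ≤ 1 := by
    intro v c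
    rw [← FinitePlace.norm_embedding_eq]
    have h1 : (c : A) = algebraMap (𝓞 A) A (c : 𝓞 A) := by simp
    rw [h1]
    exact FinitePlace.norm_le_one _ _ _
  have hloc : ∀ (v : FinitePlace A) (o : Ω), v (B : A) ≤ v (β o : A) := by
    intro v o
    obtain ⟨c, hc⟩ := hβ o
    have h1 : (B : A) = (β o : A) * (c : A) := by
      have h2 : ((B : ℤ) : A) = ((β o * c : ℤ) : A) := by rw [hc]
      push_cast at h2
      exact h2
    rw [h1, map_mul]
    exact mul_le_of_le_one_right (apply_nonneg v _) (hint v c)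
  have hsup : ∀ v : FinitePlace A, v (B : A) ^ Fintype.card κ * (⨆ J : κ → Ω, v ((Y.submatrix id J).det)) ≤
      ⨆ J : κ → Ω, v ((Y'.submatrix id J).det) := by
    intro v
    have hne' : Nonempty (κ → Ω) := ⟨J₀⟩
    rw [Real.mul_iSup_of_nonneg (pow_nonneg (apply_nonneg v _) _)]
    refine ciSup_le fun J => ?_
    refine le_trans ?_ (le_ciSup (Set.finite_range _).bddAbove J)
    rw [hmin, map_mul, mul_comm, map_prod]
    refine mul_le_mul_of_nonneg_left ?_ (apply_nonneg v _)
    rw [← Finset.card_univ, ← Finset.prod_const]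
    exact Finset.prod_le_prod (fun k _ => apply_nonneg v _) fun k _ => hloc v _
  have hfB : Function.HasFiniteMulSupport fun v : FinitePlace A => v (B : A) := FinitePlace.hasFiniteMulSupport hB0
  have hfY : Function.HasFiniteMulSupport fun v : FinitePlace A => ⨆ J : κ → Ω, v ((Y.submatrix id J).det) :=
    fm_support Y J₀ hJ₀
  have hfY' : Function.HasFiniteMulSupport fun v : FinitePlace A => ⨆ J : κ → Ω, v ((Y'.submatrix id J).det) :=
    fm_support Y' J₀ hJ₀'
  have hmul : (∏ᶠ v : FinitePlace A, v (B : A)) ^ Fintype.card κ * fm Y ≤ fm Y' := by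
    unfold fm
    have hfBp : Function.HasFiniteMulSupport fun v : FinitePlace A => v (B : A) ^ Fintype.card κ := hfB.pow _
    rw [finprod_pow hfB, ← finprod_mul_distrib hfBp hfY]
    refine finprod_le_finprod (hfBp.mul hfY) (fun v => ?_) hfY' hsup
    exact mul_nonneg (pow_nonneg (apply_nonneg v _) _) (Real.iSup_nonneg fun J => apply_nonneg v _)
  have hpf := prod_formula (B : A) hB0
  have hemb : ∏ t : A →+* ℂ, ‖t (B : A)‖ = (B : ℝ) ^ Module.finrank ℚ A := by
    have h1 : ∀ t : A →+* ℂ, ‖t (B : A)‖ = (B : ℝ) := by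
      intro t
      rw [map_natCast, Complex.norm_natCast]
    rw [Finset.prod_congr rfl fun t _ => h1 t, Finset.prod_const, Finset.card_univ, NumberField.Embeddings.card]
  rw [hemb] at hpf
  have h2 : (B : ℝ) ^ (Module.finrank ℚ A * Fintype.card κ) * (∏ᶠ v : FinitePlace A, v (B : A)) ^ Fintype.card κ = 1 := by
    rw [pow_mul, ← mul_pow, hpf, one_pow]
  calc fm Y = (B : ℝ) ^ (Module.finrank ℚ A * Fintype.card κ) *
      ((∏ᶠ v : FinitePlace A, v (B : A)) ^ Fintype.card κ * fm Y) := by rw [← mul_assoc, h2, one_mul]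
    _ ≤ _ := mul_le_mul_of_nonneg_left hmul (by positivity)

end Pool.Agent.H72.BE
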