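import Pool.Agent.H72.BE.Lat
import Pool.Agent.H72.BE.Emb
import Pool.Agent.H72.BE.Tri
import Pool.Agent.H72.BE.CB

/-!
# The weighted coefficient vectors (MP_187c26_nt, Theorem VR+, S2)

Model (r = 1, A = Q): `Pool/Agent/H72/BD/SizeA.lean`. The combinatorics is simpler here: everything goes through the coefficient matrix
`cm v k n` (rows `p ∈ Box k`, columns `((i, j), e)`, `e ∈ Box n`, entry `coeff_e (X ^ p v_ij)`) of Tri.lean.

`gdt_uv`: `sm (uv …) (mb N k) p ((i, j), l) = rw (a_j) t (coeff_(vl (l - p)) v_ij) rw (vl (l - p)) ^ Q`; as `deg v_ij + k ≤ n ≤ N` there is no wrap: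
this is `rw (a_j) t (coeff_(vl l) (X ^ p v_ij)) rw (vl l) ^ Q / rw (p) ^ Q` if `l = md N e`, `e ∈ Box n`, and `0` for other `l`. So by `gdt_cols` (`e ↦ md N e`
injective as `n ≤ N`) and `gdt_row`: `(∏ p, rw (p) ^ Q) ^ 2 gdt (sm …) = gdt (C with weights rw (a_j) rw (e) ^ Q)`, `rw (p) ≥ 1`.
`fo_uv`: `∑ l, uv l χ l = rw (a_j) ∑ l, t (coeff_(vl l) v_ij) ∏ i, (ρ_i ^ Q χ (Pi.single i 1)) ^ (l i).val = rw (a_j) v_ij^t (z)`, degrees `< N`,
`χ l = ∏ i, χ (Pi.single i 1) ^ (l i).val`.
`wt_eq`: `φ (aeval y p) = eval₂ (φ ∘ algebraMap) (φ ∘ y) p`.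
-/

set_option autoImplicit false

open MvPolynomial NumberField

namespace Pool.Agent.H72.BE

variable {r : ℕ} {b m : Fin r → ℕ} {A F : Type} [Field A] [NumberField A] [Field F]
  [NumberField F] [Algebra A F] {x : Fin r → F} {d R : ℕ}

/-- The size of a representation at a point. -/
noncomputable def wz (b m : Fin r → ℕ) (a : Fin (R + 1) → Fin r → ℕ)
    (v : Fin (d + 1) → Fin (R + 1) → MvPolynomial (Fin r) A) (t : A →+* ℂ) (z : Fin r → ℂ) : ℝ :=
  ∑ i, ∑ j, rw b m (a j) ^ 2 * ‖eval₂ t z (v i j)‖ ^ 2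

theorem wt_eq (a : Fin (R + 1) → Fin r → ℕ)
    (v : Fin (d + 1) → Fin (R + 1) → MvPolynomial (Fin r) A) (Q : ℕ) (φ : F →+* ℂ) :
    wt b m x a v Q φ = wz b m a v (φ.comp (algebraMap A F)) (fun i => φ (x i) ^ Q) := by
  unfold wt wz
  refine Finset.sum_congr rfl fun i _ => Finset.sum_congr rfl fun j _ => ?_
  have h : φ (aeval (fun k => x k ^ Q) (v i j)) =
      eval₂ (φ.comp (algebraMap A F)) (fun i => φ (x i) ^ Q) (v i j) := by
    rw [aeval_def, eval₂_comp_left]
    congr 1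
    funext k
    show φ (x k ^ Q) = _
    rw [map_pow]
  rw [h]

/-- The weighted coefficient vectors of the `v_ij` on `Gm N`. -/
noncomputable def uv (b m : Fin r → ℕ) (Q : ℕ) (N : Fin r → ℕ) (t : A →+* ℂ)
    (a : Fin (R + 1) → Fin r → ℕ) (v : Fin (d + 1) → Fin (R + 1) → MvPolynomial (Fin r) A)
    (p : Fin (d + 1) × Fin (R + 1)) (l : Gm N) : ℂ :=
  (rw b m (a p.2) : ℂ) * (t ((v p.1 p.2).coeff (Finsupp.equivFunOnFinite.symm (vl l))) *
    ((rw b m (vl l) ^ Q : ℝ) : ℂ))

private theorem sa_chr {N : Fin r → ℕ} [∀ i, NeZero (N i)] (χ : AddChar (Gm N) ℂ) (l : Gm N) :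
    χ l = ∏ i, χ (Pi.single i 1) ^ (l i).val := by
  classical
  have h1 : ∀ s : Finset (Fin r), χ (∑ i ∈ s, (l i).val • (Pi.single i 1 : Gm N)) =
      ∏ i ∈ s, χ (Pi.single i 1) ^ (l i).val := by
    intro s
    induction s using Finset.induction_on with
    | empty => rw [Finset.sum_empty, Finset.prod_empty, AddChar.map_zero_eq_one]
    | insert i s hi ih =>
      rw [Finset.sum_insert hi, Finset.prod_insert hi, AddChar.map_add_eq_mul, ih,
        AddChar.map_nsmul_eq_pow]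
  have h2 : l = ∑ i, (l i).val • (Pi.single i 1 : Gm N) := by
    funext j
    rw [Finset.sum_apply, Finset.sum_eq_single j]
    · rw [Pi.smul_apply, Pi.single_eq_same, nsmul_eq_mul, mul_one, ZMod.natCast_zmod_val]
    · intro i _ hij
      rw [Pi.smul_apply, Pi.single_eq_of_ne' hij, smul_zero]
    · intro hj
      exact absurd (Finset.mem_univ j) hj
  conv_lhs => rw [h2]
  exact h1 Finset.univ

omit [NumberField A] in
private theorem sa_zero (p : MvPolynomial (Fin r) A) (e : Fin r → ℕ) (i : Fin r)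
    (h : p.degreeOf i < e i) : p.coeff (Finsupp.equivFunOnFinite.symm e) = 0 := by
  by_contra hne
  have h1 := monomial_le_degreeOf i (mem_support_iff.2 hne)
  rw [Finsupp.equivFunOnFinite_symm_apply_apply] at h1
  omega

omit [NumberField A] in
private theorem sa_sum (N : Fin r → ℕ) [∀ i, NeZero (N i)] (t : A →+* ℂ) (z : Fin r → ℂ)
    (p : MvPolynomial (Fin r) A) (hp : ∀ k, p.degreeOf k < N k) :
    ∑ l : Gm N, t (p.coeff (Finsupp.equivFunOnFinite.symm (vl l))) * ∏ i, z i ^ (l i).val =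
      eval₂ t z p := by
  classical
  rw [eval₂_eq']
  have hinj : Function.Injective fun l : Gm N => (Finsupp.equivFunOnFinite.symm (vl l) :
      Fin r →₀ ℕ) := by
    intro l l' h
    have h1 := Finsupp.equivFunOnFinite.symm.injective h
    funext i
    exact ZMod.val_injective _ (congrFun h1 i)
  have h1 : ∑ l : Gm N, t (p.coeff (Finsupp.equivFunOnFinite.symm (vl l))) *
      ∏ i, z i ^ (l i).val = ∑ e ∈ Finset.univ.image fun l : Gm N =>
        (Finsupp.equivFunOnFinite.symm (vl l) : Fin r →₀ ℕ), t (p.coeff e) * ∏ i, z i ^ e i := by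
    rw [Finset.sum_image fun l _ l' _ h => hinj h]
    refine Finset.sum_congr rfl fun l _ => ?_
    congr 1
  rw [h1]
  symm
  refine Finset.sum_subset (fun e he => ?_) fun e _ he => ?_
  · rw [Finset.mem_image]
    refine ⟨md N e, Finset.mem_univ _, ?_⟩
    ext i
    rw [Finsupp.equivFunOnFinite_symm_apply_apply]
    exact ZMod.val_natCast_of_lt ((monomial_le_degreeOf i he).trans_lt (hp i))
  · rw [notMem_support_iff.1 he, map_zero, zero_mul]

theorem fo_uv (Q : ℕ) (N : Fin r → ℕ) [∀ i, NeZero (N i)] (t : A →+* ℂ)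
    (a : Fin (R + 1) → Fin r → ℕ) (v : Fin (d + 1) → Fin (R + 1) → MvPolynomial (Fin r) A)
    (hv : ∀ i j k, (v i j).degreeOf k < N k) (χ : AddChar (Gm N) ℂ) :
    fo (uv b m Q N t a v) χ =
      wz b m a v t (fun i => ((rho b m i ^ Q : ℝ) : ℂ) * χ (Pi.single i 1)) := by
  classical
  unfold fo wz
  rw [Fintype.sum_prod_type]
  refine Finset.sum_congr rfl fun i _ => Finset.sum_congr rfl fun j _ => ?_
  have h1 : ∑ l : Gm N, uv b m Q N t a v (i, j) l * χ l = (rw b m (a j) : ℂ) *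
      eval₂ t (fun i => ((rho b m i ^ Q : ℝ) : ℂ) * χ (Pi.single i 1)) (v i j) := by
    rw [← sa_sum N t _ (v i j) (hv i j), Finset.mul_sum]
    refine Finset.sum_congr rfl fun l _ => ?_
    have h2 : ((rw b m (vl l) ^ Q : ℝ) : ℂ) = ∏ i, ((rho b m i ^ Q : ℝ) : ℂ) ^ (l i).val := by
      unfold rw mon vl
      rw [← Finset.prod_pow, Complex.ofReal_prod]
      refine Finset.prod_congr rfl fun i _ => ?_
      rw [← Complex.ofReal_pow]
      congr 1
      ring
    simp only [mul_pow, Finset.prod_mul_distrib]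
    rw [← sa_chr χ l, ← h2]
    unfold uv
    ring
  rw [h1, norm_mul, mul_pow, Complex.norm_real, Real.norm_eq_abs, sq_abs]

/-- The family `v` with one index. -/
def vv (v : Fin (d + 1) → Fin (R + 1) → MvPolynomial (Fin r) A) :
    Fin (d + 1) × Fin (R + 1) → MvPolynomial (Fin r) A := fun p => v p.1 p.2

/-- The columns of `Psi` in the windows. -/
def cmap (m : Fin r → ℕ) (a : Fin (R + 1) → Fin r → ℕ) (n : Fin r → ℕ)
    (o : (Fin (d + 1) × Fin (R + 1)) × Box n) : Fin (d + 1) × Gm m :=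
  (o.1.1, md m (a o.1.2 + bv o.2))

/-- The coefficients of `X ^ p g`, `p ∈ Box k`. -/
noncomputable def Em (g : MvPolynomial (Fin r) A) (k n : Fin r → ℕ) : Matrix (Box k) (Box n) A :=
  Matrix.of fun p e => if ∀ i, bv p i ≤ bv e i then
    g.coeff (Finsupp.equivFunOnFinite.symm (bv e - bv p)) else 0

omit [NumberField A] in
private theorem sa_entry (a : Fin (R + 1) → Fin r → ℕ)
    (v : Fin (d + 1) → Fin (R + 1) → MvPolynomial (Fin r) A) (n k : Fin r → ℕ)
    (hk : ∀ i j s, (v i j).degreeOf s + k s ≤ n s) (Q : ℕ) (N : Fin r → ℕ)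
    [∀ i, NeZero (N i)] (hN : ∀ i, n i ≤ N i) (t : A →+* ℂ) (p : Box k)
    (q : Fin (d + 1) × Fin (R + 1)) (l : Gm N) :
    ((rw b m (bv p) ^ Q : ℝ) : ℂ) * sm (uv b m Q N t a v) (mb N k) p (q, l) =
      t (if ∀ i, bv p i ≤ vl l i then
        (v q.1 q.2).coeff (Finsupp.equivFunOnFinite.symm (vl l - bv p)) else 0) *
        ((rw b m (a q.2) * rw b m (vl l) ^ Q : ℝ) : ℂ) := by
  have hpk : ∀ i, bv p i < k i := fun i => (p i).2
  have hpn : ∀ i, bv p i < N i := by
    intro i
    have h1 := hk 0 0 i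
    have h2 := hN i
    have h3 := hpk i
    omega
  have hval : ∀ i, ((bv p i : ℕ) : ZMod (N i)).val = bv p i := fun i =>
    ZMod.val_natCast_of_lt (hpn i)
  show ((rw b m (bv p) ^ Q : ℝ) : ℂ) * ((rw b m (a q.2) : ℂ) * (t ((v q.1 q.2).coeff
    (Finsupp.equivFunOnFinite.symm (vl (l - mb N k p)))) *
    ((rw b m (vl (l - mb N k p)) ^ Q : ℝ) : ℂ))) = _
  by_cases hle : ∀ i, bv p i ≤ vl l i
  · rw [if_pos hle]
    have h1 : vl (l - mb N k p) = vl l - bv p := by
      funext i
      show (l i - ((bv p i : ℕ) : ZMod (N i))).val = (l i).val - bv p i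
      rw [ZMod.val_sub (by rw [hval]; exact hle i), hval]
    have h2 : rw b m (vl l) = rw b m (bv p) * rw b m (vl l - bv p) := by
      rw [← rw_add]
      congr 1
      funext i
      have := hle i
      show vl l i = bv p i + (vl l i - bv p i)
      omega
    rw [h1, h2]
    push_cast
    ring
  · rw [if_neg hle, map_zero, zero_mul]
    push Not at hle
    obtain ⟨i, hi⟩ := hle
    have h1 : (v q.1 q.2).coeff (Finsupp.equivFunOnFinite.symm (vl (l - mb N k p))) = 0 := by
      refine sa_zero _ _ i ?_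
      have h2 : vl (l - mb N k p) i = vl l i + N i - bv p i := by
        have h4 : l i - ((bv p i : ℕ) : ZMod (N i)) = ((vl l i + N i - bv p i : ℕ) : ZMod (N i)) := by
          have h5 : bv p i ≤ vl l i + N i := by
            have := hpn i
            omega
          rw [Nat.cast_sub h5]
          simp [vl]
        show (l i - ((bv p i : ℕ) : ZMod (N i))).val = _
        rw [h4]
        refine ZMod.val_natCast_of_lt ?_
        have := hpn i
        omega
      rw [h2]
      have h3 := hk q.1 q.2 i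
      have h4 := hN i
      have h5 := hpk i
      omega
    rw [h1, map_zero, zero_mul, mul_zero, mul_zero]

theorem gdt_uv (hb : ∀ i, 2 ≤ b i) (a : Fin (R + 1) → Fin r → ℕ)
    (v : Fin (d + 1) → Fin (R + 1) → MvPolynomial (Fin r) A) (n k : Fin r → ℕ)
    (hk : ∀ i j s, (v i j).degreeOf s + k s ≤ n s) (Q : ℕ) (N : Fin r → ℕ)
    [∀ i, NeZero (N i)] (hN : ∀ i, n i ≤ N i) (t : A →+* ℂ) :
    gdt (sm (uv b m Q N t a v) (mb N k)) ≤
      gdt (Matrix.of fun (p : Box k) (o : (Fin (d + 1) × Fin (R + 1)) × Box n) =>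
        t (cm (vv v) k n p o) * ((rw b m (a o.1.2) * rw b m (bv o.2) ^ Q : ℝ) : ℂ)) := by
  classical
  have h0 : 0 ≤ gdt (sm (uv b m Q N t a v) (mb N k)) := by
    have h1 := gdt_cb (sm (uv b m Q N t a v) (mb N k))
    have h2 : (0 : ℝ) < ((Fintype.card (Box k)).factorial : ℝ) :=
      Nat.cast_pos.2 (Nat.factorial_pos _)
    have h3 : 0 ≤ ((Fintype.card (Box k)).factorial : ℝ) *
        gdt (sm (uv b m Q N t a v) (mb N k)) := by
      rw [h1]
      exact Finset.sum_nonneg fun J _ => sq_nonneg _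
    exact nonneg_of_mul_nonneg_right h3 h2
  have hs : 1 ≤ ∏ p : Box k, rw b m (bv p) ^ Q :=
    Finset.prod_induction _ (fun z : ℝ => 1 ≤ z)
      (fun _ _ h1 h2 => one_le_mul_of_one_le_of_one_le h1 h2) le_rfl
      (fun p _ => one_le_pow₀ (one_le_rw hb _))
  have hrow := gdt_row (sm (uv b m Q N t a v) (mb N k)) fun p : Box k => rw b m (bv p) ^ Q
  have hle : gdt (sm (uv b m Q N t a v) (mb N k)) ≤ gdt (Matrix.of fun (p : Box k) o =>
      ((rw b m (bv p) ^ Q : ℝ) : ℂ) * sm (uv b m Q N t a v) (mb N k) p o) := by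
    rw [hrow]
    exact le_mul_of_one_le_left h0 (one_le_pow₀ hs)
  refine hle.trans (le_of_eq ?_)
  have hvl : ∀ e : Box n, vl (md N (bv e)) = bv e := by
    intro e
    funext i
    exact ZMod.val_natCast_of_lt (lt_of_lt_of_le (e i).2 (hN i))
  have hinj : Function.Injective fun o : (Fin (d + 1) × Fin (R + 1)) × Box n =>
      ((o.1, md N (bv o.2)) : (Fin (d + 1) × Fin (R + 1)) × Gm N) := by
    intro o o' h
    have h1 : o.1 = o'.1 := (Prod.ext_iff.1 h).1
    have h2 : md N (bv o.2) = md N (bv o'.2) := (Prod.ext_iff.1 h).2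
    have h3 : bv o.2 = bv o'.2 := by rw [← hvl, ← hvl o'.2, h2]
    refine Prod.ext h1 ?_
    funext i
    exact Fin.ext (congrFun h3 i)
  rw [← gdt_cols _ _ hinj]
  · congr 1
    ext p o
    show ((rw b m (bv p) ^ Q : ℝ) : ℂ) * sm (uv b m Q N t a v) (mb N k) p
      (o.1, md N (bv o.2)) = _
    rw [sa_entry a v n k hk Q N hN t p o.1, hvl]
    rfl
  · rintro ⟨q, l⟩ ho p
    show ((rw b m (bv p) ^ Q : ℝ) : ℂ) * sm (uv b m Q N t a v) (mb N k) p (q, l) = 0
    rw [sa_entry a v n k hk Q N hN t p q]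
    have h1 : ∃ i, n i ≤ vl l i := by
      by_contra hcon
      push Not at hcon
      apply ho
      refine ⟨(q, fun i => ⟨vl l i, hcon i⟩), ?_⟩
      refine Prod.ext rfl ?_
      funext i
      exact ZMod.natCast_zmod_val _
    obtain ⟨i, hi⟩ := h1
    have h2 : (if ∀ i, bv p i ≤ vl l i then
        (v q.1 q.2).coeff (Finsupp.equivFunOnFinite.symm (vl l - bv p)) else 0) = 0 := by
      split_ifs
      · refine sa_zero _ _ i ?_
        show _ < vl l i - bv p i
        have h3 := hk q.1 q.2 i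
        have h5 : bv p i < k i := (p i).2
        omega
      · rfl
    rw [h2, map_zero, zero_mul]

end Pool.Agent.H72.BE
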