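import Pool.Agent.H72.BE.SizeC
import Pool.Agent.H72.BE.Gram
import Pool.Agent.H72.BE.Str

/-!
# The subspace of the multiples (MP_187c26_nt, Theorem VR+, S2)

Model (r = 1, lattices): `Pool/Agent/H72/BD/SizeB.lean`. `μ_i` = the maximum of `deg_i` of the `v_ij`, `n_i = k_i + μ_i`, `k_i ≥ 1`. `e = [A : ℚ]`.

`fm_cols`: the local supremum for `Y.submatrix id φ` is over a subset of the minors of `Y`; `finprod` is monotone for nonnegative functions
with finite supports (`fm_support` for both matrices: use `hne`; `FinitePlace` values are `≥ 0`).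

PROOF of `sub_bound`. `E = Em g k n`, `g = v last 0`, `Y = Psi h c n`.
(1) `cova'` for `ww = wc b m`, `S` = the `(i, l)` with `l` in no window `[a_j, a_j + n)`: `Hh (E Y) ≤ Hh Y`.
 `hY` = `exists_minor`; `hE`: `∑ p, s_p X ^ p g = 0` implies all `s_p = 0` (the exponents `p` are different, `g ≠ 0`; the exponents of `X ^ p g` are
 in `Box n`); `hS` = `epsi_zero`; `hB`: if `q Y = 0` on `S`, let `P = ∑ e ∈ Box n, q e X ^ e` (degrees `< n`): `co (P(x) c_i) l = (q Y)(i, l)` (`psi_vecMul`), so by `str`: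
 `P = H g` and all `H v_ij` have degrees `< n = k + μ`. If `H ≠ 0`: for each variable `s` take a `v_ij ≠ 0` with `deg_s = μ_s`:
 `deg_s H + μ_s < k_s + μ_s` (`degreeOf_mul_eq` over a domain), so all degrees of `H` are `< k` and `P = ∑ p ∈ Box k, H_p X ^ p g` is in the span of the rows.
(2) `ctv v ^ (∏ k) ≤ fm (cm (vv v) k n)` (`ct_tri`, `vl0`) `≤ Bb ^ (e ∏ k) fm ((E Y).submatrix id (cmap m a n))` (`fm_scale`, `β o = bet (a_j + e)`, `epsi`; `bet ∣ Bb`:
 `(a_ji + e_i) / m_i ≤ 1` as `a_ji < m_i`, `e_i < n_i ≤ m_i`) `≤ Bb ^ (e ∏ k) fm (E Y)` (`fm_cols`). (`hne`: by `ct_tri` itself, or the rows of `cm` are independent: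
 `dep_of_minors` with `S = univ`.)
(3) `Hh Y = (∏_t gdt (wm^t Y)) fm (Y) ^ 2 ≤ ∏_t ((∏ a, rw (bv a)) ^ 2 gdt (sm^t)) relIndex ^ 2` (`gdt_psi`, `fm_psi`) `≤ P ^ (e N) (4 ^ d) ^ (e N) T`
 (`prod_rw`, `gram_upper`, `card_emb`), `P = ∏ ρ_i ^ n_i`, `N = ∏ n_i`.
Together `(∏_t gdt (wm^t (E Y))) ctv ^ (2 ∏ k) ≤ Bb ^ (2 e ∏ k) (∏_t gdt (wm^t (E Y))) fm (E Y) ^ 2 = Bb ^ (2 e ∏ k) Hh (E Y) ≤ Bb ^ (2 e ∏ k) Hh Y`.
-/

set_option autoImplicit false

open MvPolynomial NumberField

namespace Pool.Agent.H72.BE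

variable {r : ℕ} {b m : Fin r → ℕ} {A F : Type} [Field A] [NumberField A] [Field F]
  [NumberField F] [Algebra A F] {x : Fin r → F} {d R : ℕ}

theorem fm_cols {κ Ω Ω' : Type} [Fintype κ] [Fintype Ω] [Fintype Ω'] [DecidableEq κ]
    (Y : Matrix κ Ω A) (φ : Ω' → Ω)
    (hne : ∃ J : κ → Ω', ((Y.submatrix id φ).submatrix id J).det ≠ 0) :
    fm (Y.submatrix id φ) ≤ fm Y := by
  obtain ⟨J, hJ⟩ := hne
  have hJ' : (Y.submatrix id (fun k => φ (J k))).det ≠ 0 := hJ
  unfold fm
  refine finprod_le_finprod (fm_support _ J hJ)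
    (fun v => Real.iSup_nonneg fun J => apply_nonneg v _) (fm_support _ _ hJ') fun v => ?_
  have : Nonempty (κ → Ω') := ⟨J⟩
  refine ciSup_le fun J1 => ?_
  exact le_ciSup (f := fun J : κ → Ω => v ((Y.submatrix id J).det))
    (Set.finite_range _).bddAbove (fun k => φ (J1 k))

/-- The exponent of an element of the box. -/
private noncomputable def ex {n : Fin r → ℕ} (e : Box n) : Fin r →₀ ℕ :=
  Finsupp.equivFunOnFinite.symm (bv e)

private theorem ex_apply {n : Fin r → ℕ} (e : Box n) (i : Fin r) : ex e i = bv e i := rfl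

private theorem ex_inj {n : Fin r → ℕ} {e e' : Box n} (h : ex e = ex e') : e = e' := by
  funext i
  exact Fin.ext (DFunLike.congr_fun h i)

private theorem ex_surj {n : Fin r → ℕ} (s : Fin r →₀ ℕ) (hs : ∀ i, s i < n i) :
    ∃ e : Box n, ex e = s := by
  refine ⟨fun i => ⟨s i, hs i⟩, ?_⟩
  ext i
  rfl

/-- The polynomial with the coefficients `q`. -/
private noncomputable def pl (n : Fin r → ℕ) (q : Box n → A) : MvPolynomial (Fin r) A :=
  ∑ e, monomial (ex e) (q e)

omit [NumberField A] in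
private theorem pl_coeff (n : Fin r → ℕ) (q : Box n → A) (e : Box n) :
    (pl n q).coeff (ex e) = q e := by
  classical
  unfold pl
  rw [coeff_sum, Finset.sum_eq_single e]
  · rw [coeff_monomial, if_pos rfl]
  · intro e' _ h
    rw [coeff_monomial, if_neg fun h1 => h (ex_inj h1)]
  · intro h
    exact absurd (Finset.mem_univ _) h

omit [NumberField A] in
private theorem pl_deg (n : Fin r → ℕ) (hn : ∀ i, 1 ≤ n i) (q : Box n → A) (i : Fin r) :
    (pl n q).degreeOf i < n i := by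
  classical
  rw [degreeOf_lt_iff (hn i)]
  intro s hs
  rw [mem_support_iff] at hs
  unfold pl at hs
  rw [coeff_sum] at hs
  obtain ⟨e, -, he⟩ := Finset.exists_ne_zero_of_sum_ne_zero hs
  rw [coeff_monomial] at he
  split_ifs at he with h1
  · rw [← h1]
    exact (e i).2
  · exact absurd rfl he

omit [NumberField A] in
private theorem coeff_out (n : Fin r → ℕ) (P : MvPolynomial (Fin r) A)
    (hP : ∀ i, P.degreeOf i < n i) (s : Fin r →₀ ℕ) (hs : P.coeff s ≠ 0) :
    ∃ e : Box n, ex e = s :=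
  ex_surj s fun i => (monomial_le_degreeOf i (mem_support_iff.2 hs)).trans_lt (hP i)

omit [NumberField A] in
private theorem eq_pl (n : Fin r → ℕ) (P : MvPolynomial (Fin r) A)
    (hP : ∀ i, P.degreeOf i < n i) : P = pl n fun e => P.coeff (ex e) := by
  classical
  ext s
  by_cases h : ∃ e : Box n, ex e = s
  · obtain ⟨e, rfl⟩ := h
    rw [pl_coeff]
  · have h1 : P.coeff s = 0 := by
      by_contra h2
      exact h (coeff_out n P hP s h2)
    rw [h1]
    unfold pl
    rw [coeff_sum]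
    symm
    refine Finset.sum_eq_zero fun e _ => ?_
    rw [coeff_monomial, if_neg fun h2 => h ⟨e, h2⟩]

omit [NumberField A] [NumberField F] in
private theorem pl_aeval (x : Fin r → F) (n : Fin r → ℕ) (q : Box n → A) :
    aeval x (pl n q) = ∑ e, algebraMap A F (q e) * mon x (bv e) := by
  unfold pl
  rw [map_sum]
  refine Finset.sum_congr rfl fun e _ => ?_
  rw [aeval_monomial, Finsupp.prod_fintype _ _ fun i => pow_zero _]
  rfl

omit [NumberField A] in
private theorem em_coeff (g : MvPolynomial (Fin r) A) (k n : Fin r → ℕ) (p : Box k) (e : Box n) :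
    Em g k n p e = (monomial (ex p) 1 * g).coeff (ex e) := by
  classical
  rw [coeff_monomial_mul', one_mul]
  have h1 : ex p ≤ ex e ↔ ∀ i, bv p i ≤ bv e i := Iff.rfl
  have h2 : ex e - ex p = Finsupp.equivFunOnFinite.symm (bv e - bv p) := by
    ext i
    rfl
  unfold Em
  rw [Matrix.of_apply]
  by_cases h : ∀ i, bv p i ≤ bv e i
  · rw [if_pos h, if_pos (h1.2 h), h2]
  · rw [if_neg h, if_neg fun h3 => h (h1.1 h3)]

omit [NumberField A] in
private theorem em_sum (g : MvPolynomial (Fin r) A) (k n : Fin r → ℕ) (s : Box k → A)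
    (e : Box n) : ∑ p, s p * Em g k n p e = (pl k s * g).coeff (ex e) := by
  unfold pl
  rw [Finset.sum_mul, coeff_sum]
  refine Finset.sum_congr rfl fun p _ => ?_
  rw [em_coeff, ← coeff_C_mul, ← mul_assoc, C_mul_monomial, mul_one]

omit [NumberField A] in
/-- The rows of `Em` are independent. -/
private theorem em_indep (g : MvPolynomial (Fin r) A) (hg : g ≠ 0) (k n : Fin r → ℕ)
    (hk : ∀ i, 1 ≤ k i) (hn : ∀ i, g.degreeOf i + k i ≤ n i) (s : Box k → A)
    (hs : ∀ e : Box n, ∑ p, s p * Em g k n p e = 0) (p : Box k) : s p = 0 := by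
  have hdeg : ∀ i, (pl k s * g).degreeOf i < n i := by
    intro i
    have h1 := degreeOf_mul_le i (pl k s) g
    have h2 := pl_deg k hk s i
    have h3 := hn i
    omega
  have h0 : pl k s * g = 0 := by
    ext t
    rw [coeff_zero]
    by_contra h1
    obtain ⟨e, he⟩ := coeff_out n _ hdeg t h1
    apply h1
    rw [← he, ← em_sum, hs]
  have h1 : pl k s = 0 := (mul_eq_zero.1 h0).resolve_right hg
  rw [← pl_coeff k s p, h1, coeff_zero]

theorem sub_bound [∀ i, NeZero (m i)] (h : Rad b m A F x) {ℓ gap : Fin r → ℕ}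
    {c : Fin (d + 1) → F} {a : Fin (R + 1) → Fin r → ℕ}
    {v : Fin (d + 1) → Fin (R + 1) → MvPolynomial (Fin r) A} (hr : Rep m x c ℓ gap a v)
    (hc : c (Fin.last d) = 1) (T : ℝ) (hS : h.Siz c (4 ^ d) T) (n k μ : Fin r → ℕ)
    (hk : ∀ s, 1 ≤ k s) (hμ : ∀ i j s, (v i j).degreeOf s ≤ μ s)
    (hμ' : ∀ s, ∃ i j, (v i j).degreeOf s = μ s ∧ v i j ≠ 0) (hn : ∀ s, n s = k s + μ s)
    (hgap : ∀ s, n s + ℓ s ≤ gap s) :
    (∏ t : A →+* ℂ, gdt (wm (wc b m) t (Em (v (Fin.last d) 0) k n * Psi h c n))) *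
        ctv v ^ (2 * ∏ i, k i) ≤
      (Bb b : ℝ) ^ (2 * (Module.finrank ℚ A * ∏ i, k i)) *
        ((∏ i, rho b m i ^ n i) ^ (Module.finrank ℚ A * ∏ i, n i) *
          ((4 ^ d) ^ (Module.finrank ℚ A * ∏ i, n i) * T)) := by
  classical
  obtain ⟨g, hgd⟩ : ∃ g, g = v (Fin.last d) 0 := ⟨_, rfl⟩
  have hg0 : g ≠ 0 := by rw [hgd]; exact hr.vl0
  have hdk : ∀ i j s, (v i j).degreeOf s + k s ≤ n s := by
    intro i j s
    have h1 := hμ i j s
    have h2 := hn s
    omega
  have hgn : ∀ s, g.degreeOf s + k s ≤ n s := by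
    intro s
    rw [hgd]
    exact hdk _ _ s
  have hn1 : ∀ s, 1 ≤ n s := by
    intro s
    have h1 := hk s
    have h2 := hn s
    omega
  have hng : ∀ s, n s ≤ gap s := by
    intro s
    have := hgap s
    omega
  have hnm : ∀ s, n s ≤ m s := fun s => (hng s).trans (hr.gapm s)
  have hrel : (h.den c).relIndex h.zx ≠ 0 := by
    obtain ⟨N, -, -, h0, -⟩ := hS
    exact h0
  obtain ⟨E, hEd⟩ : ∃ E, E = Em g k n := ⟨_, rfl⟩
  obtain ⟨Y, hYd⟩ : ∃ Y, Y = Psi h c n := ⟨_, rfl⟩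
  have hcard : Fintype.card (Box k) = ∏ i, k i := by
    rw [Fintype.card_pi]
    exact Finset.prod_congr rfl fun i _ => Fintype.card_fin _
  rw [← hgd, ← hEd, ← hYd]
  -- the height does not grow
  have hcov : Hh (wc b m) (E * Y) ≤ Hh (wc b m) Y := by
    refine cova' (wc b m) (one_le_wc h) Y {o | ∀ j, ¬ inw (a j) n o.2} ?_ E ?_ ?_ ?_
    · rw [hYd]
      exact exists_minor h c hc n hnm
    · rw [Fintype.linearIndependent_iff]
      intro s hs p
      refine em_indep g hg0 k n hk hgn s (fun e => ?_) p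
      have h1 := congrFun hs e
      rw [Finset.sum_apply, Pi.zero_apply] at h1
      rw [← h1]
      refine Finset.sum_congr rfl fun p _ => ?_
      rw [hEd]
      rfl
    · intro p o ho
      rw [hEd, hYd, hgd]
      exact epsi_zero h hr n k hdk hng p o ho
    · intro q hq
      obtain ⟨H, hH, hHd⟩ := str h hr n hn1 hgap (pl n q) (pl_deg n hn1 q) (by
        intro i l hl
        by_contra hcon
        push Not at hcon
        apply hl
        have h1 := hq (i, l) hcon
        rw [hYd, psi_vecMul] at h1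
        rw [pl_aeval]
        exact h1)
      rw [← hgd] at hH
      have hHk : ∀ s, H.degreeOf s < k s := by
        intro s
        by_cases hH0 : H = 0
        · rw [hH0, degreeOf_zero]
          exact hk s
        · obtain ⟨i0, j0, h1, h2⟩ := hμ' s
          have h3 := hHd i0 j0 s
          rw [degreeOf_mul_eq hH0 h2, h1, hn s] at h3
          omega
      have hsum : q = ∑ p : Box k, H.coeff (ex p) • E.row p := by
        funext e
        rw [Finset.sum_apply, ← pl_coeff n q e, hH, eq_pl k H hHk, ← em_sum, ← eq_pl k H hHk, hEd]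
        rfl
      rw [hsum]
      exact sum_mem fun p _ => Submodule.smul_mem _ _ (Submodule.subset_span ⟨p, rfl⟩)
  -- the content
  obtain ⟨C, hCd⟩ : ∃ C, C = cm (vv v) k n := ⟨_, rfl⟩
  obtain ⟨Z, hZd⟩ : ∃ Z, Z = (E * Y).submatrix id (cmap m a n) := ⟨_, rfl⟩
  have hZ : ∀ p o, Z p o = C p o * (((bet b m (a o.1.2 + bv o.2) : ℕ) : ℤ) : A) := by
    intro p o
    rw [hZd, Matrix.submatrix_apply, id, hEd, hYd, hgd, epsi h hr n k hdk hng p o, hCd,
      Int.cast_natCast, mul_comm]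
  have hCmin : ∃ J, (C.submatrix id J).det ≠ 0 := by
    by_contra hcon
    push Not at hcon
    obtain ⟨q, hq0, hq⟩ := dep_of_minors C Set.univ fun J _ => hcon J
    apply hq0
    funext p
    refine em_indep g hg0 k n hk hgn q (fun e => ?_) p
    have h1 := hq ((Fin.last d, 0), e) (Set.mem_univ _)
    rw [← h1, hCd, hgd]
    rfl
  have hZmin : ∃ J, (Z.submatrix id J).det ≠ 0 := by
    obtain ⟨J, hJ⟩ := hCmin
    refine ⟨J, ?_⟩
    have h1 : Z.submatrix id J = C.submatrix id J *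
        Matrix.diagonal fun p => (((bet b m (a (J p).1.2 + bv (J p).2) : ℕ) : ℤ) : A) := by
      ext p p'
      rw [Matrix.mul_diagonal, Matrix.submatrix_apply, Matrix.submatrix_apply, id, hZ]
    rw [h1, Matrix.det_mul, Matrix.det_diagonal]
    refine mul_ne_zero hJ (Finset.prod_ne_zero_iff.2 fun p _ => ?_)
    rw [Int.cast_natCast]
    exact_mod_cast bet_ne_zero h.two _
  have hB1 : 1 ≤ Bb b := Finset.one_le_prod' fun i _ => by have := h.two i; omega
  have hdvd : ∀ o : (Fin (d + 1) × Fin (R + 1)) × Box n,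
      ((bet b m (a o.1.2 + bv o.2) : ℕ) : ℤ) ∣ (Bb b : ℤ) := by
    intro o
    rw [Int.natCast_dvd_natCast]
    unfold bet Bb
    refine Finset.prod_dvd_prod_of_dvd _ _ fun i _ => ?_
    have h1 := hr.am o.1.2 i
    have h2 : bv o.2 i < n i := (o.2 i).2
    have h3 := hnm i
    have h4 : (a o.1.2 + bv o.2) i / m i ≤ 1 := by
      rw [Nat.div_le_iff_le_mul_add_pred (by omega)]
      show a o.1.2 i + bv o.2 i ≤ _
      omega
    calc b i ^ ((a o.1.2 + bv o.2) i / m i) ∣ b i ^ 1 := pow_dvd_pow _ h4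
      _ = b i := pow_one _
  have hct : ctv v ^ (∏ i, k i) ≤
      (Bb b : ℝ) ^ (Module.finrank ℚ A * ∏ i, k i) * fm (E * Y) := by
    rw [← hcard]
    refine (ct_tri (vv v) ⟨(Fin.last d, 0), hr.vl0⟩ k n fun p s => hdk p.1 p.2 s).trans ?_
    rw [← hCd]
    refine (fm_scale C Z _ (Bb b) hB1 hdvd hZ hCmin).trans ?_
    refine mul_le_mul_of_nonneg_left ?_ (by positivity)
    rw [hZd]
    rw [hZd] at hZmin
    exact fm_cols _ _ hZmin
  have hct0 : 0 ≤ ctv v := finprod_nonneg fun v => Real.iSup_nonneg fun p => apply_nonneg v _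
  have hgp : 0 ≤ ∏ t : A →+* ℂ, gdt (wm (wc b m) t (E * Y)) :=
    Finset.prod_nonneg fun t _ => gdt_nonneg _
  have hfm0 : 0 ≤ fm Y := finprod_nonneg fun v => Real.iSup_nonneg fun p => apply_nonneg v _
  -- the upper bound
  have hup : Hh (wc b m) Y ≤ (∏ i, rho b m i ^ n i) ^ (Module.finrank ℚ A * ∏ i, n i) *
      ((4 ^ d) ^ (Module.finrank ℚ A * ∏ i, n i) * T) := by
    have hgu := gram_upper h c (4 ^ d) T (by positivity) hS n hnm
    have hrw := prod_rw (m := m) h.two n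
    have hfp : fm Y ≤ (h.den c).relIndex h.zx := by
      rw [hYd]
      exact fm_psi h c n hrel
    have hg2 : 0 ≤ ∏ t : A →+* ℂ, gdt (sm (fun i => h.uu t (c i)) (mb m n)) :=
      Finset.prod_nonneg fun t _ => gdt_nonneg _
    have hP0 : 0 ≤ ∏ i, rho b m i ^ n i :=
      Finset.prod_nonneg fun i _ => pow_nonneg (rho_pos h.two i).le _
    unfold Hh
    have e1 : (∏ t : A →+* ℂ, gdt (wm (wc b m) t Y)) =
        ((∏ a : Box n, rw b m (bv a)) ^ 2) ^ Module.finrank ℚ A *
          ∏ t : A →+* ℂ, gdt (sm (fun i => h.uu t (c i)) (mb m n)) := by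
      rw [hYd, Finset.prod_congr rfl fun t _ => gdt_psi h c n t, Finset.prod_mul_distrib,
        Finset.prod_const, Finset.card_univ, card_emb]
    rw [e1]
    have e2 : ((∏ a : Box n, rw b m (bv a)) ^ 2) ^ Module.finrank ℚ A ≤
        (∏ i, rho b m i ^ n i) ^ (Module.finrank ℚ A * ∏ i, n i) := by
      rw [mul_comm, pow_mul]
      exact pow_le_pow_left₀ (sq_nonneg _) hrw _
    have e3 : fm Y ^ 2 ≤ ((h.den c).relIndex h.zx : ℝ) ^ 2 := pow_le_pow_left₀ hfm0 hfp 2
    calc ((∏ a : Box n, rw b m (bv a)) ^ 2) ^ Module.finrank ℚ A *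
          (∏ t : A →+* ℂ, gdt (sm (fun i => h.uu t (c i)) (mb m n))) * fm Y ^ 2
        ≤ ((∏ a : Box n, rw b m (bv a)) ^ 2) ^ Module.finrank ℚ A *
          (∏ t : A →+* ℂ, gdt (sm (fun i => h.uu t (c i)) (mb m n))) *
            ((h.den c).relIndex h.zx : ℝ) ^ 2 :=
          mul_le_mul_of_nonneg_left e3 (mul_nonneg (by positivity) hg2)
      _ = ((∏ a : Box n, rw b m (bv a)) ^ 2) ^ Module.finrank ℚ A *
          (((h.den c).relIndex h.zx : ℝ) ^ 2 *
            ∏ t : A →+* ℂ, gdt (sm (fun i => h.uu t (c i)) (mb m n))) := by ring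
      _ ≤ (∏ i, rho b m i ^ n i) ^ (Module.finrank ℚ A * ∏ i, n i) *
          (((h.den c).relIndex h.zx : ℝ) ^ 2 *
            ∏ t : A →+* ℂ, gdt (sm (fun i => h.uu t (c i)) (mb m n))) :=
          mul_le_mul_of_nonneg_right e2 (mul_nonneg (by positivity) hg2)
      _ ≤ _ := mul_le_mul_of_nonneg_left hgu (pow_nonneg hP0 _)
  have hct2 : ctv v ^ (2 * ∏ i, k i) ≤
      (Bb b : ℝ) ^ (2 * (Module.finrank ℚ A * ∏ i, k i)) * fm (E * Y) ^ 2 := by
    have h1 := pow_le_pow_left₀ (pow_nonneg hct0 _) hct 2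
    rw [mul_pow, ← pow_mul, ← pow_mul, mul_comm (∏ i, k i) 2,
      mul_comm (Module.finrank ℚ A * ∏ i, k i) 2] at h1
    exact h1
  calc (∏ t : A →+* ℂ, gdt (wm (wc b m) t (E * Y))) * ctv v ^ (2 * ∏ i, k i)
      ≤ (∏ t : A →+* ℂ, gdt (wm (wc b m) t (E * Y))) *
        ((Bb b : ℝ) ^ (2 * (Module.finrank ℚ A * ∏ i, k i)) * fm (E * Y) ^ 2) :=
        mul_le_mul_of_nonneg_left hct2 hgp
    _ = (Bb b : ℝ) ^ (2 * (Module.finrank ℚ A * ∏ i, k i)) * Hh (wc b m) (E * Y) := by
        unfold Hh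
        ring
    _ ≤ (Bb b : ℝ) ^ (2 * (Module.finrank ℚ A * ∏ i, k i)) *
        ((∏ i, rho b m i ^ n i) ^ (Module.finrank ℚ A * ∏ i, n i) *
          ((4 ^ d) ^ (Module.finrank ℚ A * ∏ i, n i) * T)) :=
        mul_le_mul_of_nonneg_left (hcov.trans hup) (by positivity)

end Pool.Agent.H72.BE
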