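import Pool.Agent.H72.BE.SizeA

/-!
# Comparison of Gram determinants (MP_187c26_nt, Theorem VR+, S2)

Model (r = 1, A = Q): `Pool/Agent/H72/BD/SizeA.lean` (second half).

`epsi`: `(E Ψ)_p (i, l) = co (x ^ p g(x) c_i) l = co (∑ j, x ^ a_j (X ^ p v_ij)(x)) l` (`psi_vecMul`, `Rep.eq`; all degrees of `X ^ p v_ij` are `< n`).
By `Rad.co_win` (`n ≤ gap ≤ m`) its value at `l = md m (a_j + e)` is `bet (a_j + e) coeff_e (X ^ p v_ij)` (the other windows do not contain `l`,
`Rep.sep`, `Rad.inw_of_ne_zero`), and it is `0` if `l` is in no window (`epsi_zero`). `cmap_inj`: disjoint windows, `n ≤ gap ≤ m`.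
`gdt_epsi`: `t (bet (a_j + e) coeff) rw (vl (md m (a_j + e))) = t (coeff) rw (a_j) rw (e)` (`rw_reduce`, `rw_add`); `gdt_cols` for `cmap`.
`gram_le`: `gdt_uv`, then `gdt_weight`: `rw (a_j) rw (e) ^ Q ≤ P ^ Q (rw (a_j) rw (e))`, `P = ∏ i, ρ_i ^ n_i ≥ rw (e) ≥ 1`, for `e ∈ Box n`; then `gdt_epsi`.
-/

set_option autoImplicit false

open MvPolynomial NumberField

namespace Pool.Agent.H72.BE

variable {r : ℕ} {b m : Fin r → ℕ} {A F : Type} [Field A] [NumberField A] [Field F]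
  [NumberField F] [Algebra A F] {x : Fin r → F} {d R : ℕ}

variable [∀ i, NeZero (m i)]

theorem cmap_inj {ℓ gap : Fin r → ℕ} {c : Fin (d + 1) → F} {a : Fin (R + 1) → Fin r → ℕ}
    {v : Fin (d + 1) → Fin (R + 1) → MvPolynomial (Fin r) A} (hr : Rep m x c ℓ gap a v)
    (n : Fin r → ℕ) (hgap : ∀ i, n i ≤ gap i) :
    Function.Injective (cmap (d := d) m a n) := by
  rintro ⟨⟨i, j⟩, e⟩ ⟨⟨i', j'⟩, e'⟩ he
  have h1 : i = i' := congrArg Prod.fst he
  have h2 : md m (a j + bv e) = md m (a j' + bv e') := congrArg Prod.snd he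
  have h3 : j = j' := by
    by_contra hne
    have w1 : inw (a j) gap (md m (a j + bv e)) :=
      ⟨bv e, fun s => (e s).2.trans_le (hgap s), rfl⟩
    have w2 : inw (a j') gap (md m (a j + bv e)) :=
      ⟨bv e', fun s => (e' s).2.trans_le (hgap s), h2⟩
    exact hr.sep j j' hne _ w1 w2
  subst h1 h3
  have h4 : e = e' := by
    funext s
    have h5 := congrFun h2 s
    have h6 : (((a j + bv e) s : ℕ) : ZMod (m s)) = (((a j + bv e') s : ℕ) : ZMod (m s)) := h5
    rw [Pi.add_apply, Pi.add_apply, Nat.cast_add, Nat.cast_add] at h6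
    have h7 := add_left_cancel h6
    rw [ZMod.natCast_eq_natCast_iff'] at h7
    have e1 : bv e s < m s := (e s).2.trans_le ((hgap s).trans (hr.gapm s))
    have e2 : bv e' s < m s := (e' s).2.trans_le ((hgap s).trans (hr.gapm s))
    rw [Nat.mod_eq_of_lt e1, Nat.mod_eq_of_lt e2] at h7
    exact Fin.ext h7
  rw [h4]

/-- the element of the box as an exponent -/
private noncomputable def sc_hat {k : Fin r → ℕ} (a : Box k) : Fin r →₀ ℕ :=
  Finsupp.equivFunOnFinite.symm (bv a)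

private theorem sc_hat_inj {k : Fin r → ℕ} : Function.Injective (sc_hat (k := k)) := by
  intro a b h
  have h1 := Finsupp.equivFunOnFinite.symm.injective h
  funext i
  exact Fin.ext (congrFun h1 i)

omit [NumberField A] in
private theorem sc_deg (g : MvPolynomial (Fin r) A) (n k : Fin r → ℕ)
    (hg : ∀ s, g.degreeOf s + k s ≤ n s) (p : Box k) (s : Fin r) :
    (monomial (sc_hat p) (1 : A) * g).degreeOf s < n s := by
  have h1 := degreeOf_mul_le s (monomial (sc_hat p) (1 : A)) g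
  rw [degreeOf_monomial_eq _ _ one_ne_zero] at h1
  have h2 : sc_hat p s < k s := (p s).2
  have h3 := hg s
  omega

omit [NumberField A] in
private theorem sc_coeff (g : MvPolynomial (Fin r) A) (k n : Fin r → ℕ) (p : Box k) (e : Box n) :
    (if ∀ i, bv p i ≤ bv e i then
      g.coeff (Finsupp.equivFunOnFinite.symm (bv e - bv p)) else 0) =
      (monomial (sc_hat p) (1 : A) * g).coeff (Finsupp.equivFunOnFinite.symm (bv e)) := by
  rw [coeff_monomial_mul']
  have h1 : sc_hat p ≤ Finsupp.equivFunOnFinite.symm (bv e) ↔ ∀ i, bv p i ≤ bv e i := Iff.rfl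
  by_cases h2 : ∀ i, bv p i ≤ bv e i
  · rw [if_pos h2, if_pos (h1.2 h2), one_mul]
    congr 1
    ext s
    rw [Finsupp.tsub_apply]
    rfl
  · rw [if_neg h2, if_neg (fun h3 => h2 (h1.1 h3))]

omit [∀ i, NeZero (m i)] [NumberField A] [NumberField F] in
/-- evaluation of a polynomial with exponents in a box -/
private theorem sc_aeval (P : MvPolynomial (Fin r) A) (n : Fin r → ℕ)
    (hP : ∀ s, P.degreeOf s < n s) :
    aeval x P = ∑ e : Box n, algebraMap A F
      (P.coeff (Finsupp.equivFunOnFinite.symm (bv e))) * mon x (bv e) := by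
  classical
  rw [aeval_def, eval₂_eq']
  have h1 : ∑ e : Box n, algebraMap A F
      (P.coeff (Finsupp.equivFunOnFinite.symm (bv e))) * mon x (bv e) =
      ∑ u ∈ Finset.univ.image (sc_hat (k := n)), algebraMap A F (P.coeff u) * ∏ i, x i ^ u i := by
    rw [Finset.sum_image fun a _ b _ h => sc_hat_inj h]
    rfl
  rw [h1]
  refine Finset.sum_subset (fun u hu => ?_) fun u _ hu => ?_
  · rw [Finset.mem_image]
    refine ⟨fun s => ⟨u s, (monomial_le_degreeOf s hu).trans_lt (hP s)⟩, Finset.mem_univ _, ?_⟩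
    ext s
    rfl
  · rw [notMem_support_iff] at hu
    rw [hu, map_zero, zero_mul]

omit [∀ i, NeZero (m i)] [NumberField A] [NumberField F] in
private theorem sc_mon {k : Fin r → ℕ} (p : Box k) :
    aeval x (monomial (sc_hat p) (1 : A)) = mon x (bv p) := by
  rw [aeval_monomial, map_one, one_mul, Finsupp.prod_fintype _ _ (fun i => pow_zero _)]
  rfl

/-- the rows of `E Ψ` -/
private theorem sc_row (h : Rad b m A F x) {ℓ gap : Fin r → ℕ} {c : Fin (d + 1) → F}
    {a : Fin (R + 1) → Fin r → ℕ} {v : Fin (d + 1) → Fin (R + 1) → MvPolynomial (Fin r) A}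
    (hr : Rep m x c ℓ gap a v) (n k : Fin r → ℕ)
    (hk : ∀ i j s, (v i j).degreeOf s + k s ≤ n s) (p : Box k) (i : Fin (d + 1)) (l : Gm m) :
    (Em (v (Fin.last d) 0) k n * Psi h c n) p (i, l) =
      ∑ j, h.co (mon x (a j) * aeval x (monomial (sc_hat p) (1 : A) * v i j)) l := by
  have h1 : ∑ e : Box n, algebraMap A F (Em (v (Fin.last d) 0) k n p e) * mon x (bv e) =
      aeval x (monomial (sc_hat p) (1 : A) * v (Fin.last d) 0) := by
    rw [sc_aeval _ n (sc_deg _ n k (hk (Fin.last d) 0) p)]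
    refine Finset.sum_congr rfl fun e _ => ?_
    rw [← sc_coeff]
    rfl
  have h3 : aeval x (monomial (sc_hat p) (1 : A) * v (Fin.last d) 0) * c i =
      ∑ j, mon x (a j) * aeval x (monomial (sc_hat p) (1 : A) * v i j) := by
    rw [map_mul, mul_assoc, hr.eq, Finset.mul_sum]
    refine Finset.sum_congr rfl fun j _ => ?_
    rw [map_mul]
    ring
  rw [Matrix.mul_apply_eq_vecMul]
  have h2 := psi_vecMul h c n (fun e => Em (v (Fin.last d) 0) k n p e) (i, l)
  rw [h1, h3, map_sum, Finset.sum_apply] at h2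
  exact h2

theorem epsi (h : Rad b m A F x) {ℓ gap : Fin r → ℕ} {c : Fin (d + 1) → F}
    {a : Fin (R + 1) → Fin r → ℕ} {v : Fin (d + 1) → Fin (R + 1) → MvPolynomial (Fin r) A}
    (hr : Rep m x c ℓ gap a v) (n k : Fin r → ℕ)
    (hk : ∀ i j s, (v i j).degreeOf s + k s ≤ n s) (hgap : ∀ i, n i ≤ gap i) (p : Box k)
    (o : (Fin (d + 1) × Fin (R + 1)) × Box n) :
    (Em (v (Fin.last d) 0) k n * Psi h c n) p (cmap m a n o) =
      (bet b m (a o.1.2 + bv o.2) : A) * cm (vv v) k n p o := by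
  obtain ⟨⟨i, j⟩, e⟩ := o
  have hnm : ∀ s, n s ≤ m s := fun s => (hgap s).trans (hr.gapm s)
  show (Em (v (Fin.last d) 0) k n * Psi h c n) p (i, md m (a j + bv e)) = _
  rw [sc_row h hr n k hk p, Finset.sum_eq_single j]
  · rw [h.co_win (a j) n hnm _ (sc_deg (v i j) n k (hk i j) p) (bv e) (fun s => (e s).2)]
    congr 1
    exact (sc_coeff (v i j) k n p e).symm
  · intro j' _ hj'
    by_contra hne
    have w1 := h.inw_of_ne_zero (a j') n hnm _ (sc_deg (v i j') n k (hk i j') p) _ hne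
    have w2 : inw (a j) n (md m (a j + bv e)) := ⟨bv e, fun s => (e s).2, rfl⟩
    exact hr.sep j' j hj' _ (inw_mono hgap w1) (inw_mono hgap w2)
  · intro hj
    exact absurd (Finset.mem_univ _) hj

theorem epsi_zero (h : Rad b m A F x) {ℓ gap : Fin r → ℕ} {c : Fin (d + 1) → F}
    {a : Fin (R + 1) → Fin r → ℕ} {v : Fin (d + 1) → Fin (R + 1) → MvPolynomial (Fin r) A}
    (hr : Rep m x c ℓ gap a v) (n k : Fin r → ℕ)
    (hk : ∀ i j s, (v i j).degreeOf s + k s ≤ n s) (hgap : ∀ i, n i ≤ gap i) (p : Box k)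
    (w : Fin (d + 1) × Gm m) (hw : ∀ j, ¬ inw (a j) n w.2) :
    (Em (v (Fin.last d) 0) k n * Psi h c n) p w = 0 := by
  obtain ⟨i, l⟩ := w
  have hnm : ∀ s, n s ≤ m s := fun s => (hgap s).trans (hr.gapm s)
  rw [sc_row h hr n k hk p]
  refine Finset.sum_eq_zero fun j _ => ?_
  by_contra hne
  exact hw j (h.inw_of_ne_zero (a j) n hnm _ (sc_deg (v i j) n k (hk i j) p) _ hne)

theorem gdt_epsi (h : Rad b m A F x) {ℓ gap : Fin r → ℕ} {c : Fin (d + 1) → F}
    {a : Fin (R + 1) → Fin r → ℕ} {v : Fin (d + 1) → Fin (R + 1) → MvPolynomial (Fin r) A}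
    (hr : Rep m x c ℓ gap a v) (n k : Fin r → ℕ)
    (hk : ∀ i j s, (v i j).degreeOf s + k s ≤ n s) (hgap : ∀ i, n i ≤ gap i) (t : A →+* ℂ) :
    gdt (wm (wc b m) t (Em (v (Fin.last d) 0) k n * Psi h c n)) =
      gdt (Matrix.of fun (p : Box k) (o : (Fin (d + 1) × Fin (R + 1)) × Box n) =>
        t (cm (vv v) k n p o) * ((rw b m (a o.1.2) * rw b m (bv o.2) : ℝ) : ℂ)) := by
  rw [← gdt_cols (wm (wc b m) t (Em (v (Fin.last d) 0) k n * Psi h c n)) (cmap (d := d) m a n)
    (cmap_inj hr n hgap)]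
  · congr 1
    ext p o
    show t ((Em (v (Fin.last d) 0) k n * Psi h c n) p (cmap m a n o)) *
      ((wc b m (cmap (d := d) m a n o) : ℝ) : ℂ) =
      t (cm (vv v) k n p o) * ((rw b m (a o.1.2) * rw b m (bv o.2) : ℝ) : ℂ)
    rw [epsi h hr n k hk hgap p o, ← rw_add, rw_reduce (b := b) (m := m) (a o.1.2 + bv o.2),
      map_mul, map_natCast]
    show _ * _ * ((rw b m (vl (md m (a o.1.2 + bv o.2))) : ℝ) : ℂ) = _
    push_cast
    ring
  · intro w hw p
    have h1 : (Em (v (Fin.last d) 0) k n * Psi h c n) p w = 0 := by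
      refine epsi_zero h hr n k hk hgap p w fun j hj => hw ?_
      obtain ⟨e, he, hl⟩ := hj
      refine ⟨((w.1, j), fun s => ⟨e s, he s⟩), ?_⟩
      exact Prod.ext rfl hl.symm
    show t ((Em (v (Fin.last d) 0) k n * Psi h c n) p w) * _ = 0
    rw [h1, map_zero, zero_mul]

theorem gram_le (h : Rad b m A F x) {ℓ gap : Fin r → ℕ} {c : Fin (d + 1) → F}
    {a : Fin (R + 1) → Fin r → ℕ} {v : Fin (d + 1) → Fin (R + 1) → MvPolynomial (Fin r) A}
    (hr : Rep m x c ℓ gap a v) (n k : Fin r → ℕ)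
    (hk : ∀ i j s, (v i j).degreeOf s + k s ≤ n s) (hgap : ∀ i, n i ≤ gap i) (Q : ℕ)
    (hQ : 1 ≤ Q) (N : Fin r → ℕ) [∀ i, NeZero (N i)] (hN : ∀ i, n i ≤ N i) (t : A →+* ℂ) :
    gdt (sm (uv b m Q N t a v) (mb N k)) ≤
      ((∏ i, rho b m i ^ n i) ^ (2 * Q)) ^ (∏ i, k i) *
        gdt (wm (wc b m) t (Em (v (Fin.last d) 0) k n * Psi h c n)) := by
  have h1 := gdt_uv (b := b) (m := m) h.two a v n k hk Q N hN t
  refine h1.trans ?_
  rw [gdt_epsi h hr n k hk hgap t]
  have hρ : ∀ i, 1 ≤ rho b m i := fun i => one_le_rho h.two i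
  have hB : 1 ≤ ∏ i, rho b m i ^ n i := by
    have h0 : ∏ _i : Fin r, (1 : ℝ) ≤ ∏ i, rho b m i ^ n i :=
      Finset.prod_le_prod (fun i _ => zero_le_one) fun i _ => one_le_pow₀ (hρ i)
    rwa [Finset.prod_const_one] at h0
  have h2 := gdt_weight (Matrix.of fun (p : Box k) (o : (Fin (d + 1) × Fin (R + 1)) × Box n) =>
    t (cm (vv v) k n p o)) (fun o => rw b m (a o.1.2) * rw b m (bv o.2) ^ Q)
    (fun o => rw b m (a o.1.2) * rw b m (bv o.2)) ((∏ i, rho b m i ^ n i) ^ Q)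
    (fun o => mul_nonneg (zero_le_one.trans (one_le_rw h.two _))
      (pow_nonneg (zero_le_one.trans (one_le_rw h.two _)) _))
    (fun o => mul_nonneg (zero_le_one.trans (one_le_rw h.two _))
      (zero_le_one.trans (one_le_rw h.two _)))
    (pow_nonneg (zero_le_one.trans hB) _) ?_
  · have h3 : ((∏ i, rho b m i ^ n i) ^ Q) ^ (2 * Fintype.card (Box k)) =
        ((∏ i, rho b m i ^ n i) ^ (2 * Q)) ^ (∏ i, k i) := by
      rw [Fintype.card_pi, ← pow_mul, ← pow_mul]
      congr 1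
      rw [Finset.prod_congr rfl fun i _ => Fintype.card_fin (k i)]
      ring
    rw [h3] at h2
    exact h2
  · intro o
    have e1 : 1 ≤ rw b m (a o.1.2) := one_le_rw h.two _
    have e2 : 1 ≤ rw b m (bv o.2) := one_le_rw h.two _
    have e3 : rw b m (bv o.2) ≤ ∏ i, rho b m i ^ n i := by
      show ∏ i, rho b m i ^ bv o.2 i ≤ _
      exact Finset.prod_le_prod (fun i _ => pow_nonneg (zero_le_one.trans (hρ i)) _)
        fun i _ => pow_le_pow_right₀ (hρ i) (o.2 i).2.le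
    have e4 : rw b m (bv o.2) ^ Q ≤ (∏ i, rho b m i ^ n i) ^ Q :=
      pow_le_pow_left₀ (zero_le_one.trans e2) e3 Q
    show rw b m (a o.1.2) * rw b m (bv o.2) ^ Q ≤
      (∏ i, rho b m i ^ n i) ^ Q * (rw b m (a o.1.2) * rw b m (bv o.2))
    calc rw b m (a o.1.2) * rw b m (bv o.2) ^ Q
        ≤ rw b m (a o.1.2) * (∏ i, rho b m i ^ n i) ^ Q :=
          mul_le_mul_of_nonneg_left e4 (zero_le_one.trans e1)
      _ = (∏ i, rho b m i ^ n i) ^ Q * (rw b m (a o.1.2) * 1) := by ring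
      _ ≤ _ := by
        refine mul_le_mul_of_nonneg_left ?_ (pow_nonneg (zero_le_one.trans hB) _)
        exact mul_le_mul_of_nonneg_left e2 (zero_le_one.trans e1)

end Pool.Agent.H72.BE
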