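import Pool.Agent.H72.BE.Wtm

/-!
# The Frobenius step (MP_187c26_nt, Theorem VR+, S3)

Model (r = 1): `Pool/Agent/H72/BD/Step.lean`. `β_j = bet b m (q a_j)`, `r_j = q a_j mod m`: `mon x (q a_j) = β_j mon x (r_j)` (`Rad.mon_reduce`).

`ct_eq`: both sides are the product over `v` of the same suprema: the coefficients with exponents outside of the box are `0` (`degreeOf < ℓ`), all
values are `≥ 0`.
PROOF of `step`. `u_i = g c_i = ∑ j, x ^ a_j v_ij(x)` (`Rep.eq`, `g = v_last0 (x)`), `∑ i, u_i α ^ i = g (minpoly)(α) = 0`. `u'_i = ∑ j, s_j x ^ (r_j) (σ v_ij)(x ^ q)`.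
`clA` with `f = 1`, `τ = σ`, `κ = Fin (R + 1) × Box ℓ`, `V (i, (j, e)) = coeff_e (v_ij)`, `X (j, e) = x ^ (a_j + e)`, `X' (j, e) = s_j x ^ (r_j) x ^ (q e)`, `s = s_0`:
`X' - s_0 X ^ q = (s_j - s_0 β_j) x ^ (r_j) x ^ (q e)` is in `q 𝓞 F` (`hs`; the `x_i` are integral: `x_i ^ m_i = b_i`).
If `∑ i, u'_i α ^ (q i) ≠ 0`: with `n = [F : ℚ]`, `M = ∏ m_i = [F : A]`:
`q ^ n ≤ exp (n q d h) (∏_φ ∑ i, |φ (u'_i)|) ctv ^ M ≤ 2 ^ n ∏_φ (S Bb (d + 1)(R0 + 1) √(wt (σ v) φ)) ctv ^ M` (`sum_le` for `tw σ v`)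
`= (2 S Bb (d + 1)(R0 + 1)) ^ n √(∏_φ wt v φ) ctv ^ M` (`prod_wt_map`) `= (…) ^ n √((∏ wt) ctv ^ (2 M)) ≤ (…) ^ n √((Cs ^ 2) ^ n) = (S K1) ^ n < q ^ n`, contradiction.
So the polynomial `∑ i, u'_i X ^ i` of degree `≤ d` vanishes at `α ^ q`, whose minimal polynomial has degree `d`: it is `u'_d` times the minimal
polynomial, and `u'_d = s_0 (σ v_last0)(x ^ q)` (`v last j = 0` for `j ≠ 0`, `a_0 = 0`).
-/

set_option autoImplicit false

open MvPolynomial NumberField

namespace Pool.Agent.H72.BE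

variable {r : ℕ} {b m : Fin r → ℕ} [∀ i, NeZero (m i)] {A F : Type} [Field A] [NumberField A]
  [Field F] [NumberField F] [Algebra A F] {x : Fin r → F} {d R : ℕ}

private theorem st_int (h : Rad b m A F x) (k : Fin r) : IsIntegral ℤ (x k) := by
  refine IsIntegral.of_pow (Nat.pos_of_ne_zero (NeZero.ne (m k))) ?_
  rw [h.pow]
  exact isIntegral_natCast _

omit [NumberField F] in
private theorem st_mul (a c : 𝓞 F) : ((a * c : 𝓞 F) : F) = (a : F) * (c : F) :=
  map_mul (algebraMap (𝓞 F) F) a c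

omit [NumberField F] in
private theorem st_pow (a : 𝓞 F) (n : ℕ) : ((a ^ n : 𝓞 F) : F) = (a : F) ^ n :=
  map_pow (algebraMap (𝓞 F) F) a n

omit [NumberField F] in
private theorem st_cast (n : ℤ) : (((n : ℤ) : 𝓞 F) : F) = (n : F) :=
  map_intCast (algebraMap (𝓞 F) F) n

omit [NumberField F] in
private theorem st_ncast (n : ℕ) : (((n : ℕ) : 𝓞 F) : F) = (n : F) :=
  map_natCast (algebraMap (𝓞 F) F) n

omit [NumberField F] in
private theorem st_mon_coe (y : Fin r → 𝓞 F) (a : Fin r → ℕ) :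
    ((mon y a : 𝓞 F) : F) = mon (fun k => (y k : F)) a := by
  unfold mon
  rw [RingOfIntegers.coe_eq_algebraMap, map_prod]
  exact Finset.prod_congr rfl fun k _ => map_pow (algebraMap (𝓞 F) F) _ _

omit [NumberField A] in
private theorem st_deg (σ : A →+* A) (p : MvPolynomial (Fin r) A) (k : Fin r) (n : ℕ)
    (hp : p.degreeOf k < n) : (map σ p).degreeOf k < n := by
  have hn : 0 < n := (Nat.zero_le _).trans_lt hp
  rw [degreeOf_lt_iff hn] at hp ⊢
  exact fun c hc => hp c (support_map_subset _ _ hc)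

omit [NumberField A] [NumberField F] in
private theorem st_expand (ℓ : Fin r → ℕ) (p : MvPolynomial (Fin r) A)
    (hp : ∀ k, p.degreeOf k < ℓ k) (y : Fin r → F) :
    aeval y p = ∑ e : Box ℓ,
      algebraMap A F (p.coeff (Finsupp.equivFunOnFinite.symm (bv e))) * mon y (bv e) := by
  classical
  rw [aeval_def, eval₂_eq']
  have hinj : Function.Injective fun e : Box ℓ => (Finsupp.equivFunOnFinite.symm (bv e) :
      Fin r →₀ ℕ) := by
    intro e e' h
    have h1 := Finsupp.equivFunOnFinite.symm.injective h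
    funext i
    exact Fin.ext (congrFun h1 i)
  have h1 : ∑ e : Box ℓ, algebraMap A F (p.coeff (Finsupp.equivFunOnFinite.symm (bv e))) *
      mon y (bv e) = ∑ c ∈ Finset.univ.image fun e : Box ℓ =>
        (Finsupp.equivFunOnFinite.symm (bv e) : Fin r →₀ ℕ), algebraMap A F (p.coeff c) *
          ∏ i, y i ^ c i := by
    rw [Finset.sum_image fun e _ e' _ h => hinj h]
    refine Finset.sum_congr rfl fun e _ => ?_
    rfl
  rw [h1]
  refine Finset.sum_subset (fun c hc => ?_) fun c _ hc => ?_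
  · rw [Finset.mem_image]
    refine ⟨fun i => ⟨c i, (monomial_le_degreeOf i hc).trans_lt (hp i)⟩, Finset.mem_univ _, ?_⟩
    ext i
    rw [Finsupp.equivFunOnFinite_symm_apply_apply]
    rfl
  · rw [notMem_support_iff.1 hc, map_zero, zero_mul]

omit [∀ i, NeZero (m i)] [NumberField A] [NumberField F] in
private theorem st_wt_nonneg (a : Fin (R + 1) → Fin r → ℕ)
    (v : Fin (d + 1) → Fin (R + 1) → MvPolynomial (Fin r) A) (Q : ℕ) (φ : F →+* ℂ) :
    0 ≤ wt b m x a v Q φ :=
  Finset.sum_nonneg fun i _ => Finset.sum_nonneg fun j _ => by positivity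

private theorem st_ctv_nonneg (v : Fin (d + 1) → Fin (R + 1) → MvPolynomial (Fin r) A) :
    0 ≤ ctv v :=
  finprod_nonneg fun w => Real.iSup_nonneg fun _ => apply_nonneg w _

theorem ct_eq (ℓ : Fin r → ℕ) (v : Fin (d + 1) → Fin (R + 1) → MvPolynomial (Fin r) A)
    (hv : ∀ i j k, (v i j).degreeOf k < ℓ k) :
    (∏ᶠ w : FinitePlace A, ⨆ p : Fin (d + 1) × (Fin (R + 1) × Box ℓ),
      w ((v p.1 p.2.1).coeff (Finsupp.equivFunOnFinite.symm (bv p.2.2)))) = ctv v := by
  classical
  unfold ctv ct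
  refine finprod_congr fun w => ?_
  have hne : Nonempty (Fin (d + 1) × (Fin (R + 1) × Box ℓ)) :=
    ⟨(0, (0, fun k => ⟨0, (Nat.zero_le _).trans_lt (hv 0 0 k)⟩))⟩
  have hfin : BddAbove (Set.range fun p : Fin (d + 1) × (Fin (R + 1) × Box ℓ) =>
      w ((v p.1 p.2.1).coeff (Finsupp.equivFunOnFinite.symm (bv p.2.2)))) :=
    (Set.finite_range _).bddAbove
  have hkey : ∀ p : (Fin (d + 1) × Fin (R + 1)) × (Fin r →₀ ℕ),
      w ((v p.1.1 p.1.2).coeff p.2) = 0 ∨
        ∃ e : Box ℓ, Finsupp.equivFunOnFinite.symm (bv e) = p.2 := by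
    intro p
    by_cases hc : (v p.1.1 p.1.2).coeff p.2 = 0
    · left
      rw [hc, map_zero]
    · right
      refine ⟨fun i => ⟨p.2 i, (monomial_le_degreeOf i (mem_support_iff.2 hc)).trans_lt
        (hv _ _ i)⟩, ?_⟩
      ext i
      rw [Finsupp.equivFunOnFinite_symm_apply_apply]
      rfl
  have hle : ∀ p : (Fin (d + 1) × Fin (R + 1)) × (Fin r →₀ ℕ),
      w ((v p.1.1 p.1.2).coeff p.2) ≤ ⨆ p : Fin (d + 1) × (Fin (R + 1) × Box ℓ),
        w ((v p.1 p.2.1).coeff (Finsupp.equivFunOnFinite.symm (bv p.2.2))) := by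
    intro p
    rcases hkey p with h0 | ⟨e, he⟩
    · rw [h0]
      exact Real.iSup_nonneg fun _ => apply_nonneg w _
    · have h1 := le_ciSup hfin (p.1.1, (p.1.2, e))
      rwa [he] at h1
  refine le_antisymm (ciSup_le fun p => ?_) (ciSup_le hle)
  have hbdd : BddAbove (Set.range fun p : (Fin (d + 1) × Fin (R + 1)) × (Fin r →₀ ℕ) =>
      w ((v p.1.1 p.1.2).coeff p.2)) := by
    refine ⟨⨆ p : Fin (d + 1) × (Fin (R + 1) × Box ℓ),
        w ((v p.1 p.2.1).coeff (Finsupp.equivFunOnFinite.symm (bv p.2.2))), ?_⟩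
    rintro _ ⟨p, rfl⟩
    exact hle p
  exact le_ciSup hbdd ((p.1, p.2.1), Finsupp.equivFunOnFinite.symm (bv p.2.2))

theorem step (h : Rad b m A F x) {Ω : Type} [Field Ω] [CharZero Ω] [Algebra F Ω] (α : Ω)
    (hα : IsIntegral ℚ α) {ℓ gap : Fin r → ℕ} {a : Fin (R + 1) → Fin r → ℕ}
    {v : Fin (d + 1) → Fin (R + 1) → MvPolynomial (Fin r) A}
    (hr : Rep m x (cf F α d) ℓ gap a v) (hd : (minpoly F α).natDegree = d) (q : ℕ)
    (hq : q.Prime) (σ : A →+* A) (hσ : Frob A q σ)
    (hdq : (minpoly F (α ^ q)).natDegree = d) (hR : R ≤ R0 r d)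
    (hsize : (∏ φ : F →+* ℂ, wt b m x a v q φ) * ctv v ^ (2 * ∏ i, m i) ≤
      ((Cs b d : ℝ) ^ 2) ^ Module.finrank ℚ F)
    (hh : q * d * absLogHeight₁ α ≤ Real.log 2) (s : Fin (R + 1) → ℤ)
    (hs : ∀ j, (q : ℤ) ∣ s j - s 0 * (bet b m (fun k => q * a j k) : ℤ)) (S : ℕ)
    (hS : ∀ j, |s j| ≤ S) (hSq : S * K1 b d < q) (i : Fin (d + 1)) :
    ((s 0 : F) * aeval (fun k => x k ^ q) (map σ (v (Fin.last d) 0))) * cf F (α ^ q) d i =
      ∑ j, (s j : F) * (mon x (fun k => q * a j k % m k) *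
        aeval (fun k => x k ^ q) (map σ (v i j))) := by
  classical
  have hαF : IsIntegral F α := hα.tower_top
  have hαq : IsIntegral F (α ^ q) := hαF.pow q
  set g : F := aeval x (v (Fin.last d) 0) with hg
  set u : Fin (d + 1) → F := fun i => ∑ j, mon x (a j) * aeval x (v i j) with hu
  set u' : Fin (d + 1) → F := fun i =>
    ∑ j, (s j : F) * (mon x (fun k => q * a j k % m k) *
      aeval (fun k => x k ^ q) (map σ (v i j))) with hu'
  have hug : ∀ i, g * cf F α d i = u i := hr.eq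
  -- the data of `clA`
  obtain ⟨y, hy⟩ : ∃ y : Fin r → 𝓞 F, ∀ k, (y k : F) = x k :=
    ⟨fun k => ⟨x k, st_int h k⟩, fun k => rfl⟩
  have hy' : (fun k => (y k : F)) = x := funext hy
  obtain ⟨V, hV⟩ : ∃ V : Fin (d + 1) × (Fin (R + 1) × Box ℓ) → A, V = fun p =>
      (v p.1 p.2.1).coeff (Finsupp.equivFunOnFinite.symm (bv p.2.2)) := ⟨_, rfl⟩
  obtain ⟨X, hX⟩ : ∃ X : Fin (R + 1) × Box ℓ → 𝓞 F, X = fun p =>
      mon y (a p.1) * mon y (bv p.2) := ⟨_, rfl⟩
  obtain ⟨X', hX'⟩ : ∃ X' : Fin (R + 1) × Box ℓ → 𝓞 F, X' = fun p =>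
      (s p.1 : 𝓞 F) * (mon y (fun k => q * a p.1 k % m k) * mon (fun k => y k ^ q) (bv p.2)) :=
    ⟨_, rfl⟩
  have hXu : ∀ i, ∑ k, algebraMap A F (V (i, k)) * (X k : F) = u i := by
    intro i
    rw [hu, Fintype.sum_prod_type]
    refine Finset.sum_congr rfl fun j _ => ?_
    rw [st_expand ℓ (v i j) (hr.deg i j) x, Finset.mul_sum]
    refine Finset.sum_congr rfl fun e _ => ?_
    rw [hX, hV]
    show _ * ((mon y (a j) * mon y (bv e) : 𝓞 F) : F) = _
    rw [st_mul, st_mon_coe, st_mon_coe, hy']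
    ring
  have hXu' : ∀ i, ∑ k, algebraMap A F (σ (V (i, k))) * (X' k : F) = u' i := by
    intro i
    rw [hu', Fintype.sum_prod_type]
    refine Finset.sum_congr rfl fun j _ => ?_
    have hdeg : ∀ k, (map σ (v i j)).degreeOf k < ℓ k := fun k =>
      st_deg σ _ k _ (hr.deg i j k)
    rw [st_expand ℓ (map σ (v i j)) hdeg, Finset.mul_sum, Finset.mul_sum]
    refine Finset.sum_congr rfl fun e _ => ?_
    rw [hX', hV, coeff_map]
    show _ * (((s j : 𝓞 F) * (mon y (fun k => q * a j k % m k) *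
      mon (fun k => y k ^ q) (bv e)) : 𝓞 F) : F) = _
    rw [st_mul, st_mul, st_mon_coe, st_mon_coe, hy', st_cast]
    have h1 : (fun k => ((y k ^ q : 𝓞 F) : F)) = fun k => x k ^ q := by
      funext k
      rw [st_pow, hy]
    rw [h1]
    ring
  have hcong : ∀ k, ∃ c : 𝓞 F, X' k = s 0 * X k ^ (q ^ 1) + q * c := by
    intro k
    obtain ⟨t, ht⟩ := hs k.1
    refine ⟨(t : 𝓞 F) * (mon y (fun i => q * a k.1 i % m i) * mon (fun i => y i ^ q) (bv k.2)),
      ?_⟩
    have h1 : (X k) ^ (q ^ 1) = (bet b m (fun i => q * a k.1 i) : 𝓞 F) *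
        (mon y (fun i => q * a k.1 i % m i) * mon (fun i => y i ^ q) (bv k.2)) := by
      have h2 : mon y (a k.1) ^ q = (bet b m (fun i => q * a k.1 i) : 𝓞 F) *
          mon y (fun i => q * a k.1 i % m i) := by
        apply RingOfIntegers.ext
        have h3 := h.mon_reduce (fun i => q * a k.1 i)
        have h4 : vl (md m (fun i => q * a k.1 i)) = fun i => q * a k.1 i % m i := by
          funext i
          exact ZMod.val_natCast _ _
        rw [h4] at h3
        rw [st_mul, st_pow, st_mon_coe, st_mon_coe, hy', st_ncast, ← h3]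
        unfold mon
        rw [← Finset.prod_pow]
        refine Finset.prod_congr rfl fun i _ => ?_
        rw [← pow_mul, mul_comm]
      have h3 : mon y (bv k.2) ^ q = mon (fun i => y i ^ q) (bv k.2) := by
        unfold mon
        rw [← Finset.prod_pow]
        refine Finset.prod_congr rfl fun i _ => ?_
        rw [← pow_mul, ← pow_mul, mul_comm]
      rw [hX, pow_one]
      show (mon y (a k.1) * mon y (bv k.2)) ^ q = _
      rw [mul_pow, h2, h3]
      ring
    have h5 : (s k.1 : 𝓞 F) = s 0 * (bet b m (fun i => q * a k.1 i) : 𝓞 F) + q * t := by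
      have h6 : s k.1 = s 0 * (bet b m (fun i => q * a k.1 i) : ℤ) + q * t := by
        linarith
      have h7 := congrArg (Int.cast : ℤ → 𝓞 F) h6
      push_cast at h7
      exact h7
    rw [h1, hX']
    show (s k.1 : 𝓞 F) * _ = _
    rw [h5]
    ring
  have h0 : ∑ i : Fin (d + 1), algebraMap F Ω (u i) * α ^ (i : ℕ) = 0 := by
    have h1 : Polynomial.aeval α (minpoly F α) = 0 := minpoly.aeval F α
    rw [Polynomial.aeval_eq_sum_range' (n := d + 1) (by omega), Finset.sum_range] at h1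
    calc ∑ i : Fin (d + 1), algebraMap F Ω (u i) * α ^ (i : ℕ)
        = algebraMap F Ω g * ∑ i : Fin (d + 1), (minpoly F α).coeff (i : ℕ) • α ^ (i : ℕ) := by
          rw [Finset.mul_sum]
          refine Finset.sum_congr rfl fun i _ => ?_
          rw [← hug i, map_mul, Algebra.smul_def, mul_assoc]
          rfl
      _ = 0 := by rw [h1, mul_zero]
  have hzero : ∑ i : Fin (d + 1), algebraMap F Ω (u' i) * (α ^ q) ^ (i : ℕ) = 0 := by
    by_contra hne
    have h1 : ∑ i : Fin (d + 1), algebraMap F Ω (u' i) * α ^ (q ^ 1 * (i : ℕ)) ≠ 0 := by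
      intro h2
      apply hne
      rw [← h2]
      refine Finset.sum_congr rfl fun i _ => ?_
      rw [pow_one, pow_mul]
    have h3 := clA α hα d q 1 hq σ (fun c => by rw [pow_one]; exact hσ c) V X X' (s 0) hcong
      (by simp only [hXu]; exact h0) (by simp only [hXu']; exact h1)
    have hct : (∏ᶠ w : FinitePlace A, ⨆ p, w (V p)) = ctv v := by
      rw [hV]
      exact ct_eq ℓ v hr.deg
    simp only [hXu'] at h3
    rw [hct, h.deg] at h3
    obtain ⟨n, hn⟩ : ∃ n, n = Module.finrank ℚ F := ⟨_, rfl⟩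
    rw [← hn] at h3 hsize
    have hn0 : n ≠ 0 := by
      rw [hn]
      exact Module.finrank_pos.ne'
    have hA : Real.exp ((n : ℝ) * (q : ℝ) ^ 1 * d * absLogHeight₁ α) ≤ 2 ^ n := by
      have h4 : (n : ℝ) * (q : ℝ) ^ 1 * d * absLogHeight₁ α ≤ n * Real.log 2 := by
        rw [pow_one]
        calc (n : ℝ) * q * d * absLogHeight₁ α = n * (q * d * absLogHeight₁ α) := by ring
          _ ≤ _ := mul_le_mul_of_nonneg_left hh (Nat.cast_nonneg n)
      refine (Real.exp_le_exp.2 h4).trans ?_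
      rw [← Real.log_pow, Real.exp_log (by positivity)]
    have hcard : Fintype.card (F →+* ℂ) = n := by
      rw [NumberField.Embeddings.card, hn]
    have hB : (∏ φ : F →+* ℂ, ∑ i, ‖φ (u' i)‖) * ctv v ^ (∏ i, m i) ≤
        (S * Bb b * (d + 1) * (R0 r d + 1) * Cs b d) ^ n := by
      have hB1 : ∏ φ : F →+* ℂ, ∑ i, ‖φ (u' i)‖ ≤
          ((S : ℝ) * Bb b * (d + 1) * (R0 r d + 1)) ^ n *
            √(∏ φ : F →+* ℂ, wt b m x a v q φ) := by
        calc ∏ φ : F →+* ℂ, ∑ i, ‖φ (u' i)‖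
            ≤ ∏ φ : F →+* ℂ, ((S : ℝ) * Bb b * (d + 1) * (R0 r d + 1) *
                √(wt b m x a (tw σ v) q φ)) := by
              refine Finset.prod_le_prod (fun φ _ => Finset.sum_nonneg fun i _ =>
                norm_nonneg _) fun φ _ => ?_
              exact sum_le h a (tw σ v) q hR s S hS (fun j k => q * a j k % m k)
                (fun j k => (Nat.mod_lt _ (Nat.pos_of_ne_zero (NeZero.ne _))).le) φ
          _ = ((S : ℝ) * Bb b * (d + 1) * (R0 r d + 1)) ^ n *
                ∏ φ : F →+* ℂ, √(wt b m x a (tw σ v) q φ) := by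
              rw [Finset.prod_mul_distrib, Finset.prod_const, Finset.card_univ, hcard]
          _ = ((S : ℝ) * Bb b * (d + 1) * (R0 r d + 1)) ^ n *
                √(∏ φ : F →+* ℂ, wt b m x a v q φ) := by
              rw [← Real.sqrt_prod _ (fun φ _ => st_wt_nonneg a (tw σ v) q φ),
                prod_wt_map h σ a v q]
      have hct0 := st_ctv_nonneg v
      have hB2 : √(∏ φ : F →+* ℂ, wt b m x a v q φ) * ctv v ^ (∏ i, m i) ≤
          (Cs b d : ℝ) ^ n := by
        have h4 : ctv v ^ (∏ i, m i) = √(ctv v ^ (2 * ∏ i, m i)) := by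
          rw [mul_comm 2, pow_mul, Real.sqrt_sq (by positivity)]
        rw [h4, ← Real.sqrt_mul (Finset.prod_nonneg fun φ _ => st_wt_nonneg a v q φ)]
        refine (Real.sqrt_le_sqrt hsize).trans (le_of_eq ?_)
        rw [← pow_mul, mul_comm 2 n, pow_mul, Real.sqrt_sq (by positivity)]
      calc (∏ φ : F →+* ℂ, ∑ i, ‖φ (u' i)‖) * ctv v ^ (∏ i, m i)
          ≤ (((S : ℝ) * Bb b * (d + 1) * (R0 r d + 1)) ^ n *
            √(∏ φ : F →+* ℂ, wt b m x a v q φ)) * ctv v ^ (∏ i, m i) :=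
            mul_le_mul_of_nonneg_right hB1 (by positivity)
        _ = ((S : ℝ) * Bb b * (d + 1) * (R0 r d + 1)) ^ n *
            (√(∏ φ : F →+* ℂ, wt b m x a v q φ) * ctv v ^ (∏ i, m i)) := by ring
        _ ≤ ((S : ℝ) * Bb b * (d + 1) * (R0 r d + 1)) ^ n * (Cs b d : ℝ) ^ n :=
            mul_le_mul_of_nonneg_left hB2 (by positivity)
        _ = _ := by rw [← mul_pow]
    have hC : (q : ℝ) ^ n ≤ ((S : ℝ) * K1 b d) ^ n := by
      rw [mul_assoc] at h3
      refine (h3.trans (mul_le_mul hA hB ?_ (by positivity))).trans (le_of_eq ?_)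
      · have hct0 := st_ctv_nonneg v
        exact mul_nonneg (Finset.prod_nonneg fun φ _ => Finset.sum_nonneg fun i _ =>
          norm_nonneg _) (by positivity)
      · rw [← mul_pow]
        congr 1
        simp only [K1]
        push_cast
        ring
    have hD : ((S : ℝ) * K1 b d) < q := by exact_mod_cast hSq
    have hE : ((S : ℝ) * K1 b d) ^ n < (q : ℝ) ^ n :=
      pow_lt_pow_left₀ hD (by positivity) hn0
    exact absurd hC (not_le.2 hE)
  have hlast : u' (Fin.last d) =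
      (s 0 : F) * aeval (fun k => x k ^ q) (map σ (v (Fin.last d) 0)) := by
    simp only [hu']
    rw [Finset.sum_eq_single 0]
    · have h1 : (fun k => q * a 0 k % m k) = 0 := by
        funext k
        rw [hr.a0]
        show q * 0 % m k = 0
        rw [mul_zero, Nat.zero_mod]
      rw [h1, mon_zero, one_mul]
    · intro j _ hj
      rw [hr.vl j hj, map_zero, map_zero, mul_zero, mul_zero]
    · intro h2
      exact absurd (Finset.mem_univ _) h2
  set P : Polynomial F := ∑ i : Fin (d + 1), Polynomial.C (u' i) * Polynomial.X ^ (i : ℕ) with hP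
  have hPc : ∀ i : Fin (d + 1), P.coeff (i : ℕ) = u' i := by
    intro i
    rw [hP, Polynomial.finsetSum_coeff, Finset.sum_eq_single i]
    · rw [Polynomial.coeff_C_mul, Polynomial.coeff_X_pow, if_pos rfl, mul_one]
    · intro j _ hj
      rw [Polynomial.coeff_C_mul, Polynomial.coeff_X_pow,
        if_neg (fun h2 => hj (Fin.ext h2.symm)), mul_zero]
    · intro h2
      exact absurd (Finset.mem_univ _) h2
  have hPd : P.natDegree ≤ d := by
    refine Polynomial.natDegree_sum_le_of_forall_le _ _ fun i _ => ?_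
    refine (Polynomial.natDegree_C_mul_X_pow_le _ _).trans ?_
    have := i.2
    omega
  have hP0 : Polynomial.aeval (α ^ q) P = 0 := by
    rw [hP, map_sum, ← hzero]
    refine Finset.sum_congr rfl fun i _ => ?_
    rw [map_mul, Polynomial.aeval_C, map_pow, Polynomial.aeval_X]
  set M : Polynomial F := minpoly F (α ^ q) with hM
  have hMm : M.Monic := minpoly.monic hαq
  have hN : P - Polynomial.C (u' (Fin.last d)) * M = 0 := by
    by_contra hne
    have h1 : Polynomial.aeval (α ^ q) (P - Polynomial.C (u' (Fin.last d)) * M) = 0 := by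
      rw [map_sub, map_mul, hP0, hM, minpoly.aeval, mul_zero, sub_zero]
    have h2 := Polynomial.natDegree_le_natDegree (minpoly.degree_le_of_ne_zero F (α ^ q) hne h1)
    rw [hdq] at h2
    have h3 : (P - Polynomial.C (u' (Fin.last d)) * M).natDegree ≤ d := by
      refine (Polynomial.natDegree_sub_le _ _).trans (max_le hPd ?_)
      refine (Polynomial.natDegree_C_mul_le _ _).trans ?_
      rw [hdq]
    have h4 : (P - Polynomial.C (u' (Fin.last d)) * M).coeff d = 0 := by
      rw [Polynomial.coeff_sub, Polynomial.coeff_C_mul]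
      have h5 : M.coeff d = 1 := by
        have h6 : M.natDegree = d := hdq
        rw [← h6]
        exact hMm.coeff_natDegree
      have h7 := hPc (Fin.last d)
      rw [Fin.val_last] at h7
      rw [h5, mul_one, h7, sub_self]
    have h5 : (P - Polynomial.C (u' (Fin.last d)) * M).natDegree = d := le_antisymm h3 h2
    apply hne
    rw [← Polynomial.leadingCoeff_eq_zero, Polynomial.leadingCoeff, h5]
    exact h4
  have h5 := congrArg (fun T => T.coeff (i : ℕ)) hN
  simp only [Polynomial.coeff_sub, Polynomial.coeff_zero, Polynomial.coeff_C_mul] at h5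
  rw [hPc i, sub_eq_zero] at h5
  rw [← hlast]
  exact h5.symm

end Pool.Agent.H72.BE
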