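import Pool.Agent.H72.BE.Step
import Pool.Agent.H72.BD.Ph

/-!
# Two short vectors (MP_187c26_nt, Theorem VR+, S4)

Model (r = 1): `Pool/Agent/H72/BD/Two.lean` (the same proof; `ph1`, `ph2` are those of `Pool.Agent.H72.BD`). `expand q p` = `MvPolynomial.expand q p`:
`aeval x (expand q p) = aeval (x ^ q) p`, `degreeOf k (expand q p) = q degreeOf k p`, `expand q` and `map σ` are injective.

PROOF of `step_win`. `K = K1 b d ≥ 2`, `S = (q - 1) / K`: `S K < q ≤ (S + 1) K`. `β_j = bet b m (q a_j)`, `β_0 = 1`. `ph1`: `q ^ R < (S + 1) ^ (R + 1)` since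
`q > K ^ (R0 + 1) ≥ K ^ (R + 1)`. So `s ≠ 0`, `|s_j| ≤ S < q`; `s_0 ≠ 0` (if `s_0 = 0`, `q ∣ s_j`: `s = 0`). `step`: `g' cf_i = ∑ j, s_j x ^ r_j (σ v_ij)(x ^ q)`,
`g' = s_0 (σ v_last0)(x ^ q) ≠ 0` (degrees of `expand` are `< q ℓ ≤ m`: `Rad.aeval_eq_zero`). Supports: `Rad.inw_of_ne_zero` (`r_0 = 0`).
PROOF of `two`: `ph2` with the same `K`, `S`, `β`; `hprop`: `step` for `s` and `s'`, multiply by `s'_0`, `s_0`; the windows `[r_j, r_j + q ℓ)` are disjoint:
`Rad.sep_unique`, and `v_ij ≠ 0` for some `i` (`act`): `s'_0 s_j = s_0 s'_j`. The short vector has `|s_j| ≤ 4 K ^ R ≤ 4 K ^ R0 < q`, and `q ∣ s_0` would give `s = 0`.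
-/

set_option autoImplicit false

open MvPolynomial NumberField

namespace Pool.Agent.H72.BE

variable {r : ℕ} {b m : Fin r → ℕ} [∀ i, NeZero (m i)] {A F : Type} [Field A] [NumberField A]
  [Field F] [NumberField F] [Algebra A F] {x : Fin r → F} {d R : ℕ}

private theorem K1_two (b : Fin r → ℕ) (d : ℕ) (hb : ∀ i, 2 ≤ b i) : 2 ≤ K1 b d := by
  have h0 : 1 ≤ Bb b := Finset.one_le_prod' fun i _ => by
    have := hb i
    omega
  have h1 : 1 ≤ Cs b d := by
    unfold Cs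
    have h2 : 1 ≤ (2 * 4 ^ d * Bb b) ^ (2 ^ r) := by
      refine Nat.one_le_pow _ _ ?_
      positivity
    omega
  unfold K1
  calc 2 = 2 * 1 * 1 * 1 * 1 := by norm_num
    _ ≤ 2 * Bb b * (d + 1) * (R0 r d + 1) * Cs b d := by
      gcongr <;> omega

private theorem SK (q K : ℕ) (hq : 1 ≤ q) (hK : 1 ≤ K) :
    (q - 1) / K * K < q ∧ q ≤ ((q - 1) / K + 1) * K := by
  have h1 := Nat.div_mul_le_self (q - 1) K
  have h2 := Nat.lt_div_mul_add (a := q - 1) (b := K) (by omega)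
  refine ⟨by omega, ?_⟩
  rw [add_mul, one_mul]
  omega

private theorem s_zero {R q : ℕ} {β s : Fin (R + 1) → ℤ} (hs : ∀ j, (q : ℤ) ∣ s j - s 0 * β j)
    (h0 : (q : ℤ) ∣ s 0) (hb : ∀ j, |s j| < q) : s = 0 := by
  funext j
  have h1 : (q : ℤ) ∣ s j := by
    have h2 := dvd_add (hs j) (Dvd.dvd.mul_right h0 (β j))
    rwa [sub_add_cancel] at h2
  exact Int.eq_zero_of_abs_lt_dvd h1 (hb j)

private theorem deg_ex {A : Type} [Field A] {q : ℕ} {ℓ : Fin r → ℕ} (hq : 0 < q) (σ : A →+* A)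
    (P : MvPolynomial (Fin r) A) (hP : ∀ k, P.degreeOf k < ℓ k) (c : A) (k : Fin r) :
    (C c * expand q (map σ P)).degreeOf k < q * ℓ k := by
  classical
  have hl : 0 < ℓ k := lt_of_le_of_lt (Nat.zero_le _) (hP k)
  rw [degreeOf_lt_iff (Nat.mul_pos hq hl)]
  intro e he
  rw [mem_support_iff, coeff_C_mul] at he
  have h1 : e ∈ (expand q (map σ P)).support := mem_support_iff.2 (right_ne_zero_of_mul he)
  have h2 := support_expand_subset (p := q) _ h1
  rw [Finset.mem_image] at h2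
  obtain ⟨e', he', rfl⟩ := h2
  rw [mem_support_iff, coeff_map] at he'
  have h3 : P.coeff e' ≠ 0 := fun h4 => he' (by rw [h4, map_zero])
  have h5 : e' k < ℓ k := lt_of_le_of_lt (monomial_le_degreeOf k (mem_support_iff.2 h3)) (hP k)
  show q * e' k < q * ℓ k
  exact Nat.mul_lt_mul_of_pos_left h5 hq

private theorem ae_ex {A F : Type} [Field A] [Field F] [Algebra A F] (x : Fin r → F) (q : ℕ)
    (P : MvPolynomial (Fin r) A) (c : ℤ) :
    aeval x (C (c : A) * expand q P) = (c : F) * aeval (fun k => x k ^ q) P := by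
  rw [map_mul, aeval_C, aeval_expand, map_intCast]
  rfl

private theorem map_ne {A : Type} [Field A] (σ : A →+* A) {P : MvPolynomial (Fin r) A}
    (hP : P ≠ 0) : map σ P ≠ 0 := by
  intro h1
  exact hP (map_injective σ σ.injective (by rw [h1, map_zero]))

theorem step_win (h : Rad b m A F x) {Ω : Type} [Field Ω] [CharZero Ω] [Algebra F Ω] (α : Ω)
    (hα : IsIntegral ℚ α) {ℓ gap : Fin r → ℕ} {a : Fin (R + 1) → Fin r → ℕ}
    {v : Fin (d + 1) → Fin (R + 1) → MvPolynomial (Fin r) A}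
    (hr : Rep m x (cf F α d) ℓ gap a v) (hd : (minpoly F α).natDegree = d) (q : ℕ)
    (hq : q.Prime) (σ : A →+* A) (hσ : Frob A q σ)
    (hdq : (minpoly F (α ^ q)).natDegree = d) (hR : R ≤ R0 r d)
    (hsize : (∏ φ : F →+* ℂ, wt b m x a v q φ) * ctv v ^ (2 * ∏ i, m i) ≤
      ((Cs b d : ℝ) ^ 2) ^ Module.finrank ℚ F)
    (hh : q * d * absLogHeight₁ α ≤ Real.log 2) (hbig : 4 * K1 b d ^ (R0 r d + 1) ≤ q)
    (hqm : ∀ i, q * ℓ i ≤ m i) :
    WinAt h (cf F (α ^ q) d) (fun j i => q * a j i % m i) (fun i => q * ℓ i) := by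
  have hK := K1_two b d h.two
  obtain ⟨K, hKd⟩ : ∃ K : ℕ, K = K1 b d := ⟨_, rfl⟩
  rw [← hKd] at hK hbig
  obtain ⟨hS1, hS2⟩ := SK q K hq.one_lt.le (by omega)
  obtain ⟨S, hSd⟩ : ∃ S : ℕ, S = (q - 1) / K := ⟨_, rfl⟩
  rw [← hSd] at hS1 hS2
  have hKR : K ^ (R + 1) < q := by
    have h1 : K ^ (R + 1) ≤ K ^ (R0 r d + 1) := Nat.pow_le_pow_right (by omega) (by omega)
    have h2 : 1 ≤ K ^ (R0 r d + 1) := Nat.one_le_pow _ _ (by omega)
    omega
  have hlt : q ^ R < (S + 1) ^ (R + 1) := by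
    have h1 : q ^ (R + 1) ≤ (S + 1) ^ (R + 1) * K ^ (R + 1) := by
      rw [← mul_pow]
      exact Nat.pow_le_pow_left hS2 _
    have h2 : q ^ R * K ^ (R + 1) < q ^ (R + 1) := by
      rw [pow_succ q]
      exact Nat.mul_lt_mul_of_pos_left hKR (pow_pos hq.pos _)
    exact lt_of_mul_lt_mul_right (h2.trans_le h1) (Nat.zero_le _)
  have hβ : (fun j : Fin (R + 1) => ((bet b m (fun k => q * a j k) : ℕ) : ℤ)) 0 = 1 := by
    simp [hr.a0, bet]
  obtain ⟨s, hs0, hsd, hsb⟩ := BD.ph1 R q S hq.one_lt.le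
    (fun j => ((bet b m (fun k => q * a j k) : ℕ) : ℤ)) hβ hlt
  have hSq : (S : ℤ) < q := by
    have : S < q := lt_of_le_of_lt (Nat.le_mul_of_pos_right S (by omega)) hS1
    exact_mod_cast this
  have hs00 : s 0 ≠ 0 := fun h0 => hs0 (s_zero hsd (by rw [h0]; exact dvd_zero _)
    fun j => (hsb j).trans_lt hSq)
  have hst := step h α hα hr hd q hq σ hσ hdq hR hsize hh s hsd S hsb
    (by rw [← hKd]; exact hS1)
  have hpoly : aeval (fun k => x k ^ q) (map σ (v (Fin.last d) 0)) ≠ 0 := by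
    intro h0
    have h1 : aeval x (C ((1 : ℤ) : A) * expand q (map σ (v (Fin.last d) 0))) = 0 := by
      rw [ae_ex, h0, mul_zero]
    have h2 := h.aeval_eq_zero _ (fun k => (deg_ex hq.pos σ _ (hr.deg _ _) _ k).trans_le (hqm k)) h1
    rw [Int.cast_one, C_1, one_mul, expand_eq_zero hq.pos] at h2
    exact map_ne σ hr.vl0 h2
  refine ⟨(s 0 : F) * aeval (fun k => x k ^ q) (map σ (v (Fin.last d) 0)),
    mul_ne_zero (by exact_mod_cast hs00) hpoly, fun l hl => ?_, fun i l hl => ?_⟩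
  · refine h.inw_of_ne_zero 0 (fun i => q * ℓ i) hqm
      (C ((s 0 : ℤ) : A) * expand q (map σ (v (Fin.last d) 0)))
      (deg_ex hq.pos σ _ (hr.deg _ _) _) l ?_
    rw [mon_zero, one_mul, ae_ex]
    exact hl
  · rw [hst i, map_sum, Finset.sum_apply] at hl
    obtain ⟨j, -, hj⟩ := Finset.exists_ne_zero_of_sum_ne_zero hl
    refine ⟨j, h.inw_of_ne_zero _ (fun i => q * ℓ i) hqm
      (C ((s j : ℤ) : A) * expand q (map σ (v i j)))
      (deg_ex hq.pos σ _ (hr.deg _ _) _) l ?_⟩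
    rw [ae_ex, mul_left_comm]
    exact hj

theorem two (h : Rad b m A F x) {Ω : Type} [Field Ω] [CharZero Ω] [Algebra F Ω] (α : Ω)
    (hα : IsIntegral ℚ α) {ℓ gap : Fin r → ℕ} {a : Fin (R + 1) → Fin r → ℕ}
    {v : Fin (d + 1) → Fin (R + 1) → MvPolynomial (Fin r) A}
    (hr : Rep m x (cf F α d) ℓ gap a v) (hd : (minpoly F α).natDegree = d) (q : ℕ)
    (hq : q.Prime) (σ : A →+* A) (hσ : Frob A q σ)
    (hdq : (minpoly F (α ^ q)).natDegree = d) (hR : R ≤ R0 r d)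
    (hsize : (∏ φ : F →+* ℂ, wt b m x a v q φ) * ctv v ^ (2 * ∏ i, m i) ≤
      ((Cs b d : ℝ) ^ 2) ^ Module.finrank ℚ F)
    (hh : q * d * absLogHeight₁ α ≤ Real.log 2) (hbig : 4 * K1 b d ^ (R0 r d + 1) ≤ q)
    (hqm : ∀ i, q * ℓ i ≤ m i)
    (hsep : ∀ j j', j ≠ j' → ∀ l : Gm m, inw (fun i => q * a j i % m i) (fun i => q * ℓ i) l →
      ¬ inw (fun i => q * a j' i % m i) (fun i => q * ℓ i) l) :
    ∃ s : Fin (R + 1) → ℤ, (∀ j, (q : ℤ) ∣ s j - s 0 * (bet b m (fun k => q * a j k) : ℤ)) ∧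
      ¬ (q : ℤ) ∣ s 0 ∧ ∀ j, |s j| ≤ 4 * (K1 b d : ℤ) ^ R0 r d := by
  have hK := K1_two b d h.two
  have hstep := fun (s : Fin (R + 1) → ℤ) => step h α hα hr hd q hq σ hσ hdq hR hsize hh s
  obtain ⟨K, hKd⟩ : ∃ K : ℕ, K = K1 b d := ⟨_, rfl⟩
  rw [← hKd] at hK hbig hstep ⊢
  obtain ⟨hS1, hS2⟩ := SK q K hq.one_lt.le (by omega)
  obtain ⟨S, hSd⟩ : ∃ S : ℕ, S = (q - 1) / K := ⟨_, rfl⟩
  rw [← hSd] at hS1 hS2
  have hKR : K ^ R ≤ K ^ R0 r d := Nat.pow_le_pow_right (by omega) hR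
  have hKR1 : 1 ≤ K ^ R := Nat.one_le_pow _ _ (by omega)
  have hbig2 : 2 * K ^ R ≤ S := by
    have h1 : 4 * K ^ R0 r d * K ≤ (S + 1) * K := by
      calc 4 * K ^ R0 r d * K = 4 * K ^ (R0 r d + 1) := by rw [pow_succ]; ring
        _ ≤ q := hbig
        _ ≤ _ := hS2
    have h2 : 4 * K ^ R0 r d ≤ S + 1 := le_of_mul_le_mul_right h1 (by omega)
    omega
  have hSq : (S : ℤ) < q := by
    have : S < q := lt_of_le_of_lt (Nat.le_mul_of_pos_right S (by omega)) hS1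
    exact_mod_cast this
  have hβ : (fun j : Fin (R + 1) => ((bet b m (fun k => q * a j k) : ℕ) : ℤ)) 0 = 1 := by
    simp [hr.a0, bet]
  obtain ⟨s, hs0, hsd, hsb⟩ := BD.ph2 R q S K hq.one_lt.le (by omega)
    (fun j => ((bet b m (fun k => q * a j k) : ℕ) : ℤ)) hβ hS2 hbig2
    (fun s hs hsd hsb h0 => hs (s_zero hsd (by rw [h0]; exact dvd_zero _)
      fun j => (hsb j).trans_lt hSq)) (by
      intro s s' hsd hsb hsd' hsb' j
      have e1 := hstep s hsd S hsb hS1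
      have e2 := hstep s' hsd' S hsb' hS1
      obtain ⟨i, hi⟩ := hr.act j
      have f0 : ∀ (c : ℤ) (t : Fin (R + 1) → ℤ),
          ∑ j, mon x (fun k => q * a j k % m k) *
            aeval x (C ((c * t j : ℤ) : A) * expand q (map σ (v i j))) =
          (c : F) * ∑ j, (t j : F) * (mon x (fun k => q * a j k % m k) *
            aeval (fun k => x k ^ q) (map σ (v i j))) := by
        intro c t
        rw [Finset.mul_sum]
        refine Finset.sum_congr rfl fun j _ => ?_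
        rw [ae_ex]
        push_cast
        ring
      have heq : ∑ j, mon x (fun k => q * a j k % m k) *
            aeval x (C ((s' 0 * s j : ℤ) : A) * expand q (map σ (v i j))) =
          ∑ j, mon x (fun k => q * a j k % m k) *
            aeval x (C ((s 0 * s' j : ℤ) : A) * expand q (map σ (v i j))) := by
        rw [f0, f0, ← e1 i, ← e2 i]
        ring
      have hu := h.sep_unique (fun j k => q * a j k % m k) (fun i => q * ℓ i) hqm hsep
        (fun j => C ((s' 0 * s j : ℤ) : A) * expand q (map σ (v i j)))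
        (fun j => C ((s 0 * s' j : ℤ) : A) * expand q (map σ (v i j)))
        (fun j => deg_ex hq.pos σ _ (hr.deg _ _) _) (fun j => deg_ex hq.pos σ _ (hr.deg _ _) _) heq
      have hj := congrFun hu j
      have hne : expand q (map σ (v i j)) ≠ 0 := (expand_ne_zero hq.pos).2 (map_ne σ hi)
      have hc := C_injective _ _ (mul_right_cancel₀ hne hj)
      exact_mod_cast hc)
  have hsq : ∀ j, |s j| ≤ 4 * (K : ℤ) ^ R0 r d := by
    intro j
    refine (hsb j).trans ?_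
    have : (4 * K ^ R : ℕ) ≤ 4 * K ^ R0 r d := Nat.mul_le_mul_left _ hKR
    exact_mod_cast this
  have hlast : 4 * K ^ R0 r d < q := by
    have h1 : 4 * K ^ R0 r d * 2 ≤ 4 * K ^ (R0 r d + 1) := by
      rw [pow_succ, ← mul_assoc]
      exact Nat.mul_le_mul_left _ hK
    have h2 : 1 ≤ K ^ R0 r d := Nat.one_le_pow _ _ (by omega)
    omega
  refine ⟨s, hsd, fun h0 => hs0 (s_zero hsd h0 fun j => (hsq j).trans_lt ?_), hsq⟩
  exact_mod_cast hlast

end Pool.Agent.H72.BE
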